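import Pool.Agent.EscK.KDefs

/-!
Project EscT (MP_6acca1_an): time-periodic Finsler metrics `F x v t`, one static class `Z t` for every time.
Lagrangians `l = κ(t) F²/2 + O(1 + ‖v‖)`. Definitions.
-/

noncomputable section

namespace EscT

open MeasureTheory Set Filter Topology Esc EscF EscG
open scoped ContDiff

variable {E : Type*} [NormedAddCommGroup E] [InnerProductSpace ℝ E]

section TG

variable [CompleteSpace E]

/-- a Lagrangian of quadratic growth: `C^2`, periodic, strongly convex in the velocity, with time derivative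
`O(1 + ‖v‖²)` -/
structure TG {ι : Type*} [Fintype ι] (β : Module.Basis ι ℝ E) (m M : ℝ) (l : E → E → ℝ → ℝ) : Prop where
  m_pos : 0 < m
  M_nonneg : 0 ≤ M
  smooth : ContDiff ℝ 2 (fun p : E × E × ℝ => l p.1 p.2.1 p.2.2)
  per : ∀ i x v t, l (x + β i) v t = l x v t
  pert : ∀ x v t, l x v (t + 1) = l x v t
  conv : ∀ x u v t, l x v t + inner ℝ (gu l x v t) (u - v) + m / 2 * ‖u - v‖ ^ 2 ≤ l x u t
  l_t : ∀ x v t t', |l x v t - l x v t'| ≤ M * (1 + ‖v‖ ^ 2) * |t - t'|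
  l_bd : ∀ x v t, |l x v t| ≤ M * (1 + ‖v‖ ^ 2)

/-- constants: `‖gu l x v t‖ ≤ gG M (1 + ‖v‖)` and `m / 4 ‖v‖² - gC m M ≤ l x v t` -/
def gG (M : ℝ) : ℝ := 16 * M
def gC (m M : ℝ) : ℝ := M + gG M ^ 2 / m

/-- loss of the action at speed `s` per unit of time: `l - s dB ≥ m / 8 ‖v‖² - gL m M MF s` if `|dB| ≤ MF` -/
def gL (m M MF s : ℝ) : ℝ := gC m M + 2 * MF ^ 2 * s ^ 2 / m

/-- `l'` is a cut-off of `l`: globally `C^{1,1}`, below `l`, equal to `l` for speeds `≤ R` -/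
structure Cut (l l' : E → E → ℝ → ℝ) (lx' lu' : E → E → ℝ → E) (m C M R Λ : ℝ) : Prop where
  cl : CL l' lx' lu' 0 (m / 4) Λ
  le : ∀ x u t, l' x u t ≤ l x u t
  low : ∀ x u t, m / 4 * ‖u‖ ^ 2 - C ≤ l' x u t
  eq : ∀ x u t, ‖u‖ ≤ R → l' x u t = l x u t
  equ : ∀ x u t, ‖u‖ ≤ R → lu' x u t = gu l x u t
  eqx : ∀ x u t, ‖u‖ ≤ R → lx' x u t = gx l x u t
  l_t : ∀ x v t t', |l' x v t - l' x v t'| ≤ M * (1 + ‖v‖ ^ 2) * |t - t'|

/-- the function used for the classes: `MF`-Lipschitz and quasi-periodic along the vectors `b i` -/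
structure QB {d : ℕ} (b : Fin d → E) (MF : ℝ) (B : E → ℝ) (c : Fin d → ℝ) : Prop where
  lip : ∀ x y, |B x - B y| ≤ MF * ‖x - y‖
  lvB : ∀ (n : Fin d → ℤ) (x : E), B (x + lv b n) = B x + ∑ i, (n i : ℝ) * c i

end TG

/-- Data: `F x v t` a time-periodic Finsler metric, `κ` the weight, `B x t` with `dB ≤ F` and equality only over
the static class `Z t` (modulo the lattice), `q t` a point of `Z t`; `b` the basis of the fast lattice. -/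
structure GT (ι : Type) [Fintype ι] (d : ℕ) (E : Type*) [NormedAddCommGroup E]
    [InnerProductSpace ℝ E] where
  β : Module.Basis ι ℝ E
  b : Fin d → E
  F : E → E → ℝ → ℝ
  mF : ℝ
  MF : ℝ
  κ : ℝ → ℝ
  B : E → ℝ → ℝ
  c : Fin d → ℝ
  Z : ℝ → Set E
  q : ℝ → E
  g : E
  A : ℝ

namespace GT

variable {ι : Type} [Fintype ι] {d : ℕ} {E : Type*} [NormedAddCommGroup E] [InnerProductSpace ℝ E]
  (D : GT ι d E)

/-- the data frozen at time `t` -/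
def fr (t : ℝ) : GD ι d E where
  β := D.β
  b := D.b
  F := fun x v => D.F x v t
  mF := D.mF
  MF := D.MF
  B := fun x => D.B x t
  c := D.c
  Z := D.Z t
  q0 := D.q t
  q1 := D.q t
  g := D.g

/-- differential of `B` in `x` -/
def dB (x : E) (t : ℝ) (v : E) : ℝ := fderiv ℝ (fun y => D.B y t) x v

/-- derivative of `B` in `t` -/
def Bt (x : E) (t : ℝ) : ℝ := deriv (fun r => D.B x r) t

/-- the period lattice -/
def Lam : AddSubgroup E := (Submodule.span ℤ (Set.range D.β)).toAddSubgroup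

/-- fast lattice vectors -/
def InJ (v : E) : Prop := ∃ n : Fin d → ℤ, v = lv D.b n

/-- passing cost at time `t` -/
def j (t : ℝ) (x x' : E) : ℝ := (D.fr t).j x x'

/-- excess of a control -/
def exc (t t' : ℝ) (z : E) (u : ℝ → E) : ℝ :=
  ∫ r in t..t', (D.F (traj t z u r) (u r) r - D.dB (traj t z u r) r (u r))

/-- minimal cost of the passage to another room -/
def Us : ℝ := ⨅ r : ℝ, D.j r (D.q r) (D.q r + D.g)

/-- points at distance at least `η` from all rooms at time `t` -/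
def Out (t η : ℝ) : Set E := {w | ∀ v ∈ D.Lam, η ≤ Metric.infDist (w + v) (D.Z t)}

/-- the room at time `t` with collars -/
def Rm (t η : ℝ) : Set E := {x | Metric.infDist x (D.Z t) ≤ η}

/-- points outside of the rooms near which optimal passages go at time `t` -/
def Mg (t η κ : ℝ) : Set E := {w | w ∈ D.Out t η ∧ D.j t (D.q t) w + D.j t w (D.q t + D.g) ≤ D.Us + κ}

/-- bounded sets modulo the fast lattice -/
def X (ρ : ℝ) : Set E := {x | ∃ n : Fin d → ℤ, ‖x + lv D.b n‖ ≤ ρ}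

/-- change of the periodic part of `B` between time `0` and time `t` -/
def bb (t : ℝ) (x : E) : ℝ := D.B x t - D.B x 0

/-- the correction of the kernels for the time dependence of `B` -/
def corr (s t t' : ℝ) (x x' : E) : ℝ := s * (D.bb t' x' - D.bb t x)

/-- The hypotheses on the data. -/
structure Ok0 : Prop where
  fr0 : ∀ t, (D.fr t).Ok0
  A_pos : 0 < D.A
  F_cont : Continuous (fun p : E × E × ℝ => D.F p.1 p.2.1 p.2.2)
  F_per : ∀ x v t, D.F x v (t + 1) = D.F x v t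
  F_lip : ∀ x v t t', |D.F x v t - D.F x v t'| ≤ D.A * ‖v‖ * |t - t'|
  κ_cont : Continuous D.κ
  κ_per : ∀ t, D.κ (t + 1) = D.κ t
  κ_pos : ∀ t, 1 ≤ D.A * D.κ t
  κ_le : ∀ t, D.κ t ≤ D.A
  κ_lip : ∀ t t', |D.κ t - D.κ t'| ≤ D.A * |t - t'|
  B_smooth : ContDiff ℝ 1 (fun p : E × ℝ => D.B p.1 p.2)
  B_pert : ∀ x t, D.B x (t + 1) = D.B x t
  B_Lam : ∀ v ∈ D.Lam, ∃ a : ℝ, ∀ x t, D.B (x + v) t = D.B x t + a
  B_lv : ∀ (n : Fin d → ℤ) (x : E) (t : ℝ), D.B (x + lv D.b n) t = D.B x t + ∑ i, (n i : ℝ) * D.c i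
  B_le : ∀ x v t, D.dB x t v ≤ D.F x v t
  B_dlip : ∀ x v t t', |D.dB x t v - D.dB x t' v| ≤ D.A * ‖v‖ * |t - t'|
  Z_per : ∀ t, D.Z (t + 1) = D.Z t
  q_per : ∀ t, D.q (t + 1) = D.q t
  q_lip : ∀ t t', ‖D.q t - D.q t'‖ ≤ D.A * |t - t'|
  Z_X : ∃ ρ : ℝ, ∀ t, D.Z t ⊆ D.X ρ
  Z_sep : ∃ δ : ℝ, 0 < δ ∧ ∀ t, ∀ v ∈ D.Lam, ¬ D.InJ v → ∀ x ∈ D.Z t, δ ≤ Metric.infDist (x + v) (D.Z t)
  Z_lip : ∀ t t', ∀ x ∈ D.Z t, Metric.infDist x (D.Z t') ≤ D.A * |t - t'|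
  /-- uniform strictness away from the rooms -/
  strict : ∀ η : ℝ, 0 < η → ∃ θ : ℝ, 0 < θ ∧ θ ≤ 1 ∧ ∀ x v t, x ∈ D.Out t η →
    D.dB x t v ≤ (1 - θ) * D.F x v t
  /-- all points of `Z t` are equivalent, uniformly in `t` -/
  eqv : ∀ ε : ℝ, 0 < ε → ∃ Λ : ℝ, ∀ t, ∀ z ∈ D.Z t, ∀ z' ∈ D.Z t, ∃ (u : ℝ → E) (n : Fin d → ℤ), Adm u ∧
    traj 0 z u 1 = z' + lv D.b n ∧ ∫ r in (0:ℝ)..1, D.F (traj 0 z u r) (u r) t ≤ Λ ∧
    ∫ r in (0:ℝ)..1, (D.F (traj 0 z u r) (u r) t - D.dB (traj 0 z u r) t (u r)) ≤ ε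
  /-- curves of high speed follow the moving class `Z t` at small cost -/
  anc : ∀ ε : ℝ, 0 < ε → ∃ s0 : ℝ, 1 ≤ s0 ∧ ∀ s, s0 ≤ s → ∀ t t', 1 / 32 ≤ t' - t → t' - t ≤ 4 →
    ∃ (u : ℝ → E) (n : Fin d → ℤ), Adm u ∧ traj t (D.q t) u t' = D.q t' + lv D.b n ∧
      ∫ r in t..t', (D.κ r * D.F (traj t (D.q t) u r) (u r) r - s) ^ 2 ≤ ε * s ∧
      D.exc t t' (D.q t) u ≤ ε

structure Ok : Prop extends D.Ok0 where
  g_mem : D.g ∈ D.Lam
  g_not : ¬ D.InJ D.g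
  /-- `g` and some time `r` are optimal for the passages to other rooms -/
  g_min : ∃ r : ℝ, ∀ t, ∀ v ∈ D.Lam, ¬ D.InJ v →
    D.j r (D.q r) (D.q r + D.g) ≤ D.j t (D.q t) (D.q t + v)

end GT

/-- parameters of a class of Lagrangians: size `M`, flux `a s t` per unit of time at speed `s` (including
`s²/2 (1 - 1/κ t)`), constants `A`, `a0` of the flux, error constants `c ε` -/
structure LP where
  M : ℝ
  A : ℝ
  a0 : ℝ
  a : ℝ → ℝ → ℝ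
  c : ℝ → ℝ

/-- parameters after addition of a potential of size `x` -/
instance : HAdd LP ℝ LP := ⟨fun L x => ⟨L.M + x, L.A, L.a0, L.a, fun ε => L.c ε + 4 * x⟩⟩

/-- the flux over a time interval -/
def LP.fl (L : LP) (s t t' : ℝ) : ℝ := ∫ r in t..t', L.a s r

/-- periodic part of the flux -/
def LP.gam (L : LP) (s r : ℝ) : ℝ := L.fl s 0 r - r * L.fl s 0 1

/-- Lagrangians whose action is known up to a small multiple of the speed and a multiple of the excess -/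
structure FT {ι : Type} [Fintype ι] {d : ℕ} [CompleteSpace E] (D : GT ι d E) (m : ℝ) (L : LP)
    (l : E → E → ℝ → ℝ) : Prop extends TG D.β m L.M l where
  A_nonneg : 0 ≤ L.A
  a0_pos : 0 < L.a0
  c_nonneg : ∀ ε, 0 ≤ L.c ε
  a_cont : ∀ s, Continuous (L.a s)
  a_per : ∀ s t, L.a s (t + 1) = L.a s t
  a_bd : ∀ s t, 1 ≤ s → |L.a s t| ≤ L.A * s ^ 2
  a_lip : ∀ s s' t, 1 ≤ s → 1 ≤ s' → |L.a s t - L.a s' t| ≤ L.A * (s + s') * |s - s'|
  a_top : ∀ s t, 1 ≤ s → L.a s t ≤ s ^ 2 / 2 * (1 - L.a0) + L.A * s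
  flux : ∀ ε : ℝ, 0 < ε → ∀ s : ℝ, 1 ≤ s → ∀ (z : E) (u : ℝ → E), Adm u → ∀ t t' : ℝ, t ≤ t' → t' ≤ t + 4 →
    |(∫ r in t..t', (l (traj t z u r) (u r) r - D.κ r * D.F (traj t z u r) (u r) r ^ 2 / 2 -
        s * D.Bt (traj t z u r) r + s ^ 2 / 2 * (1 - (D.κ r)⁻¹))) - L.fl s t t'| ≤
      ε * s + L.c ε * (1 + D.exc t t' z u +
        ∫ r in t..t', |D.κ r * D.F (traj t z u r) (u r) r - s|)

/-- a linear class of smooth periodic potentials which contains many bumps; the supports of the bumps are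
symmetric under the finite set `G` of linear isometries -/
structure SG {ι : Type*} [Fintype ι] (β : Module.Basis ι ℝ E) where
  G : Finset (E ≃ₗᵢ[ℝ] E)
  one : LinearIsometryEquiv.refl ℝ E ∈ G
  lam : ∀ P ∈ G, ∀ v ∈ Submodule.span ℤ (Set.range β), P v ∈ Submodule.span ℤ (Set.range β)
  mem : (E → ℝ → ℝ) → Prop
  sm : ∀ G, mem G → Sm β G
  zero : mem (fun _ _ => 0)
  add : ∀ G G', mem G → mem G' → mem (fun x t => G x t + G' x t)
  smul : ∀ (c : ℝ) G, mem G → mem (fun x t => c * G x t)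
  bump : ∃ r0 : ℝ, 0 < r0 ∧ ∀ r, 0 < r → r ≤ r0 → ∀ c : E,
    ∃ g : E → ℝ, ContDiff ℝ ∞ g ∧ (∀ i x, g (x + β i) = g x) ∧ (∀ x, 0 ≤ g x ∧ g x ≤ 1) ∧
      (∀ x, (∃ P ∈ G, ∃ v ∈ Submodule.span ℤ (Set.range β), ‖P x + v - c‖ ≤ 2 * r) → g x = 1) ∧
      (∀ x, (∀ P ∈ G, ∀ v ∈ Submodule.span ℤ (Set.range β), 3 * r ≤ ‖P x + v - c‖) → g x = 0) ∧
      ∀ θ : ℝ → ℝ, ContDiff ℝ ∞ θ → (∀ t, θ (t + 1) = θ t) → mem (fun x t => θ t * g x)

section GT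

variable {ι : Type} [Fintype ι] {d : ℕ} (D : GT ι d E) (p : GP)

/-- the rooms are separated from their images under `S.G` -/
def PG (S : SG D.β) : Prop := ∀ t, ∀ P ∈ S.G, P ≠ LinearIsometryEquiv.refl ℝ E → ∀ v ∈ D.Lam, ∀ x ∈ D.Z t,
  8 * p.ηc ≤ Metric.infDist (P x + v) (D.Z t)

/-- gate points and inner gate points at time `t`, near the exit of the room -/
def Md (t : ℝ) : Set E := D.Mg t p.ηc p.κ ∩ D.Rm t (6 * p.ηc)
def Mi (t : ℝ) : Set E := D.Mg t (2 * p.ηc) (p.κ / 2) ∩ D.Rm t (5 * p.ηc)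

/-- points near which optimal legs go at time `t` -/
def Nr (t : ℝ) : Set E := {c | c ∉ D.Out t (p.ηc / 2)} ∪ D.Mg t (p.ηc / 2) (2 * p.κ)

/-- the same modulo the lattice -/
def Near (t : ℝ) : Set E := {c | ∃ v ∈ D.Lam, c + v ∈ Nr D p t}

/-- the conditions on the parameters -/
structure POk : Prop where
  ηc_pos : 0 < p.ηc
  κ_pos : 0 < p.κ
  η1_pos : 0 < p.η1
  e_pos : 0 < p.e
  κ_le : 16 * p.κ ≤ p.e
  e_le : 16 * p.e ≤ D.Us
  om_le : 400 * (4 * D.MF * p.η1) ≤ p.κ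
  η1_le : 16 * p.η1 ≤ p.ηc
  sep : ∀ t, ∀ v ∈ D.Lam, ¬ D.InJ v → ∀ x ∈ D.Z t, 8 * p.ηc ≤ Metric.infDist (x + v) (D.Z t)
  rt : ∀ t w, p.ηc / 4 ≤ Metric.infDist w (D.Z t) → p.e ≤ D.j t (D.q t) w + D.j t w (D.q t)
  bnd : ∀ t x, x ∈ D.Rm t p.ηc ∨ x ∈ D.Mg t (p.ηc / 2) (2 * p.κ) → ∀ k : ℤ, |k| ≤ 2 →
    x + (k : ℝ) • D.g ∈ D.X p.ρ

/-- the data at integer times, used for the kernels -/
abbrev D0 : GD ι d E := D.fr 0

/-- Stage `q` of the chain: gates with classes from `q` to `q + 1` -/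
def Stage (ll : E → E → ℝ → ℝ) (q : ℕ) : Prop :=
  ∃ (J : ℕ) (s r : ℕ → ℝ) (F : ℕ → Finset ℕ) (c : ℕ → ℕ → ℝ) (G : ℕ → Set E) (δ : ℝ),
    0 < J ∧ 0 < δ ∧ s 0 = q ∧ s J = q + 1 ∧ (∀ i ≤ J, (q : ℝ) ≤ s i ∧ s i ≤ q + 1) ∧
    (∀ i ≤ J, (F i).Nonempty ∧ ∀ T ∈ F i, 1 ≤ T) ∧
    ∀ i < J, 0 ≤ r i ∧ r i < 1 ∧ IsCompact (G i) ∧ (G i).Nonempty ∧ G i ⊆ Md D p (r i) ∧
      ∀ z ∈ frontier (G i), ∃ w ∈ G i, ∀ x ∈ (D0 D).R p, ∀ x' ∈ (D0 D).R p,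
        (D0 D).Gm p ll (s i) (F i) (c i) (r i) x w +
            (D0 D).Gp p ll (s (i + 1)) (F (i + 1)) (c (i + 1)) (r i) w x'
            - (s (i + 1) - s i) * (D0 D).B w + δ ≤
          (D0 D).Gm p ll (s i) (F i) (c i) (r i) x z +
            (D0 D).Gp p ll (s (i + 1)) (F (i + 1)) (c (i + 1)) (r i) z x'
            - (s (i + 1) - s i) * (D0 D).B z

/-- Chain data with a prescribed starting point `x0` in the room. -/
structure Chs (ll : E → E → ℝ → ℝ) (x0 : E) (s r : ℕ → ℝ) (T : ℕ → ℕ) (z : ℕ → E) (y : ℕ → ℕ → E) :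
    Prop where
  start : y 0 0 = x0
  r_nonneg : ∀ n, 0 ≤ r n
  r_lt : ∀ n, r n < 1
  T_pos : ∀ n, 1 ≤ T n
  zM : ∀ n, z (n + 1) ∈ Md D p (r (n + 1))
  yC : ∀ n k, k ≤ T n → y n k ∈ (D0 D).C p
  tend : Tendsto s atTop atTop
  mz : ∀ n, ∀ᶠ x in 𝓝 (z (n + 1)),
    (D0 D).Q ll (s n) (r (n + 1)) (y n (T n)) (z (n + 1)) +
        (D0 D).P ll (s (n + 1)) (r (n + 1)) (z (n + 1)) (y (n + 1) 0)
        - (s (n + 1) - s n) * (D0 D).B (z (n + 1)) ≤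
      (D0 D).Q ll (s n) (r (n + 1)) (y n (T n)) x +
        (D0 D).P ll (s (n + 1)) (r (n + 1)) x (y (n + 1) 0)
        - (s (n + 1) - s n) * (D0 D).B x
  m0 : ∀ n, ∀ x ∈ (D0 D).C p,
    (D0 D).P ll (s (n + 1)) (r (n + 1)) (z (n + 1)) (y (n + 1) 0) +
        (D0 D).k1 ll (s (n + 1)) (y (n + 1) 0) (y (n + 1) 1) ≤
      (D0 D).P ll (s (n + 1)) (r (n + 1)) (z (n + 1)) x + (D0 D).k1 ll (s (n + 1)) x (y (n + 1) 1)
  mm : ∀ n k, k + 1 < T n → ∀ x ∈ (D0 D).C p,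
    (D0 D).k1 ll (s n) (y n k) (y n (k + 1)) + (D0 D).k1 ll (s n) (y n (k + 1)) (y n (k + 2)) ≤
      (D0 D).k1 ll (s n) (y n k) x + (D0 D).k1 ll (s n) x (y n (k + 2))
  mT : ∀ n k, k + 1 = T n → ∀ x ∈ (D0 D).C p,
    (D0 D).k1 ll (s n) (y n k) (y n (k + 1)) +
        (D0 D).Q ll (s n) (r (n + 1)) (y n (k + 1)) (z (n + 1)) ≤
      (D0 D).k1 ll (s n) (y n k) x + (D0 D).Q ll (s n) (r (n + 1)) x (z (n + 1))

/-- an orbit of the Euler-Lagrange equation of `l + f` on `(t0,∞)`, `t0 ≤ 0`, which starts at `x0`, stays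
in the sets `N t` and whose speed tends to infinity -/
def EscapesFrom [CompleteSpace E] (l : E → E → ℝ → ℝ) (f : E → ℝ → ℝ) (x0 : E) (N : ℝ → Set E) : Prop :=
  ∃ (t0 : ℝ) (x v : ℝ → E), t0 ≤ 0 ∧ x t0 = x0 ∧ ContinuousOn x (Ici t0) ∧
    (∀ t, t0 < t → HasDerivAt x (v t) t) ∧ ContinuousOn v (Ici t0) ∧
    (∀ t, t0 < t → HasDerivAt (fun t => gu l (x t) (v t) t) (gx (lf l f) (x t) (v t) t) t) ∧
    (∀ t, t0 ≤ t → x t ∈ N t) ∧ Tendsto (fun t => ‖v t‖) atTop atTop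

end GT

/-! ### a moving calibrated closed curve -/

section CalT

variable {ι : Type} [Fintype ι]

/-- The closed one-forms `dB` (in a fixed cohomology class) are bounded by the metrics `F x v t`, and they agree
for some nonzero vector exactly at the points of the simple closed curve `c · t` with homology class `β k0`;
`c' σ t`, `ct σ t` are the derivatives of `c σ t` in `σ` and `t`. -/
structure CalT (β : Module.Basis ι ℝ E) (F : E → E → ℝ → ℝ) (mF MF A : ℝ) (κ : ℝ → ℝ) (B : E → ℝ → ℝ)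
    (k0 : ι) (len : ℝ) (c c' ct : ℝ → ℝ → E) : Prop where
  fins : ∀ t, Fins β (fun x v => F x v t) mF MF
  A_pos : 0 < A
  F_cont : Continuous (fun p : E × E × ℝ => F p.1 p.2.1 p.2.2)
  F_per : ∀ x v t, F x v (t + 1) = F x v t
  F_lip : ∀ x v t t', |F x v t - F x v t'| ≤ A * ‖v‖ * |t - t'|
  κ_per : ∀ t, κ (t + 1) = κ t
  κ_pos : ∀ t, 1 ≤ A * κ t
  κ_le : ∀ t, κ t ≤ A
  κ_lip : ∀ t t', |κ t - κ t'| ≤ A * |t - t'|
  B_smooth : ContDiff ℝ 1 (fun p : E × ℝ => B p.1 p.2)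
  B_pert : ∀ x t, B x (t + 1) = B x t
  B_per : ∀ i, ∃ a : ℝ, ∀ x t, B (x + β i) t = B x t + a
  B_le : ∀ x v t, fderiv ℝ (fun y => B y t) x v ≤ F x v t
  B_dlip : ∀ x v t t', |fderiv ℝ (fun y => B y t) x v - fderiv ℝ (fun y => B y t') x v| ≤ A * ‖v‖ * |t - t'|
  len_pos : 0 < len
  c_σ : ∀ σ t, HasDerivAt (fun σ => c σ t) (c' σ t) σ
  c_t : ∀ σ t, HasDerivAt (fun t => c σ t) (ct σ t) t
  c'_cont : Continuous (fun p : ℝ × ℝ => c' p.1 p.2)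
  ct_cont : Continuous (fun p : ℝ × ℝ => ct p.1 p.2)
  closed : ∀ σ t, c (σ + len) t = c σ t + β k0
  c_per : ∀ σ t, c σ (t + 1) = c σ t
  unit : ∀ σ t, F (c σ t) (c' σ t) t = 1
  cal : ∀ σ t, fderiv ℝ (fun y => B y t) (c σ t) (c' σ t) = 1
  only : ∀ x v t, v ≠ 0 → fderiv ℝ (fun y => B y t) x v = F x v t →
    ∃ σ : ℝ, ∃ w ∈ Submodule.span ℤ (Set.range β), x = c σ t + w
  simple : ∀ σ σ' t, c σ t - c σ' t ∈ Submodule.span ℤ (Set.range β) → ∃ k : ℤ, σ - σ' = k * len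
  /-- the metric is differentiable in the direction of the curve, with derivative `dB` -/
  tan : ∀ ε : ℝ, 0 < ε → ∃ δ : ℝ, 0 < δ ∧ ∀ σ t w, ‖w‖ ≤ δ →
    F (c σ t) (c' σ t + w) t - fderiv ℝ (fun y => B y t) (c σ t) (c' σ t + w) ≤ ε * ‖w‖

/-- the data of a moving calibrated closed curve -/
def gdT (β : Module.Basis ι ℝ E) (F : E → E → ℝ → ℝ) (mF MF A : ℝ) (κ : ℝ → ℝ) (B : E → ℝ → ℝ)
    (k0 : ι) (len : ℝ) (c : ℝ → ℝ → E) (g : E) : GT ι 1 E where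
  β := β
  b := fun _ => β k0
  F := F
  mF := mF
  MF := MF
  κ := κ
  B := B
  c := fun _ => len
  Z := fun t => Set.range fun σ => c σ t
  q := fun t => c 0 t
  g := g
  A := A

/-- `l - κ F²/2` is Lipschitz in `v` and has derivatives `O(1 + ‖v‖)` in `x`, `t` -/
def AT (F : E → E → ℝ → ℝ) (κ : ℝ → ℝ) (M : ℝ) (l : E → E → ℝ → ℝ) : Prop :=
  ∀ x v t x' v' t', |(l x v t - κ t * F x v t ^ 2 / 2) - (l x' v' t' - κ t' * F x' v' t' ^ 2 / 2)| ≤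
    M * (‖v - v'‖ + (1 + ‖v‖) * (‖x - x'‖ + |t - t'|))

/-- flux at speed `s` along the closed curve `c · t` per unit of time -/
def flT (F : E → E → ℝ → ℝ) (κ : ℝ → ℝ) (B : E → ℝ → ℝ) (l : E → E → ℝ → ℝ) (len : ℝ)
    (c c' : ℝ → ℝ → E) (s t : ℝ) : ℝ :=
  (∫ σ in (0:ℝ)..len, (l (c σ t) ((s / κ t) • c' σ t) t -
    κ t * F (c σ t) ((s / κ t) • c' σ t) t ^ 2 / 2 - s * deriv (fun r => B (c σ t) r) t)) / len +
    s ^ 2 / 2 * (1 - (κ t)⁻¹)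

end CalT

end EscT
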