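import Pool.Agent.EscT.TDefs
import Pool.Agent.EscF.O3
import Pool.Agent.helper1.Esc.ModD

set_option linter.unusedSectionVars false

/-!
Project EscT, module EB: almost calibrated vectors are near the tangent vectors of the moving closed curve;
the metric is differentiable in the direction of the curve.
-/

noncomputable section

namespace EscT

open MeasureTheory Set Filter Topology Esc EscF EscG
open scoped ContDiff

section B

variable {ι : Type} [Fintype ι] {d : ℕ} {E : Type*} [NormedAddCommGroup E] [InnerProductSpace ℝ E]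
  [FiniteDimensional ℝ E] {D : GT ι d E} {p : GP} {m M Mf : ℝ} {L : LP} {ll l : E → E → ℝ → ℝ}
  {f f' : E → ℝ → ℝ}
variable {β : Module.Basis ι ℝ E} {F : E → E → ℝ → ℝ} {mF MF A : ℝ} {κ : ℝ → ℝ} {B : E → ℝ → ℝ} {k0 : ι}
  {len : ℝ} {c c' ct : ℝ → ℝ → E}

/-- functions invariant under the basis vectors are invariant under the lattice -/
theorem EB_inv {α : Type*} {Φ : E → α} (h : ∀ i x, Φ (x + β i) = Φ x) {w : E}
    (hw : w ∈ Submodule.span ℤ (Set.range β)) (x : E) : Φ (x + w) = Φ x := by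
  let G : AddSubgroup E :=
    { carrier := {w | ∀ x, Φ (x + w) = Φ x}
      zero_mem' := fun x => by rw [add_zero]
      add_mem' := fun {a b} ha hb x => by rw [← add_assoc, hb, ha]
      neg_mem' := fun {a} ha x => by
        have := ha (x + -a)
        rwa [neg_add_cancel_right, eq_comm] at this }
  have h1 : Submodule.span ℤ (Set.range β) ≤ AddSubgroup.toIntSubmodule G := by
    rw [Submodule.span_le]
    rintro _ ⟨i, rfl⟩
    exact h i
  exact h1 hw x

/-- functions of period one -/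
theorem EB_fract {α : Type*} {Φ : ℝ → α} (h : ∀ t, Φ (t + 1) = Φ t) (t : ℝ) :
    Φ (Int.fract t) = Φ t := by
  have h1 : Function.Periodic Φ 1 := h
  have h2 := h1.sub_zsmul_eq (x := t) ⌊t⌋
  rw [zsmul_one] at h2
  exact h2

theorem EB_dper (hBp : ∀ i, ∃ a : ℝ, ∀ x t, B (x + β i) t = B x t + a) (i : ι) (x : E) (t : ℝ) :
    fderiv ℝ (fun y => B y t) (x + β i) = fderiv ℝ (fun y => B y t) x := by
  obtain ⟨a, ha⟩ := hBp i
  have h1 : fderiv ℝ (fun y => B (y + β i) t) x = fderiv ℝ (fun y => B y t) (x + β i) :=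
    fderiv_comp_add_right (f := fun y => B y t) _
  have h2 : (fun y => B (y + β i) t) = fun y => B y t + a := funext fun y => ha y t
  rw [← h1, h2, fderiv_add_const]

theorem EB_dLam (hBp : ∀ i, ∃ a : ℝ, ∀ x t, B (x + β i) t = B x t + a) {w : E}
    (hw : w ∈ Submodule.span ℤ (Set.range β)) (x : E) (t : ℝ) :
    fderiv ℝ (fun y => B y t) (x + w) = fderiv ℝ (fun y => B y t) x :=
  EB_inv (Φ := fun x => fderiv ℝ (fun y => B y t) x) (fun i x => EB_dper hBp i x t) hw x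

theorem EB_FLam (hF : ∀ t, Fins β (fun x v => F x v t) mF MF) {w : E}
    (hw : w ∈ Submodule.span ℤ (Set.range β)) (x v : E) (t : ℝ) : F (x + w) v t = F x v t :=
  EB_inv (Φ := fun x => F x v t) (fun i x => (hF t).per i x v) hw x

theorem EB_dt (hBt : ∀ x t, B x (t + 1) = B x t) (x : E) (t : ℝ) :
    fderiv ℝ (fun y => B y (Int.fract t)) x = fderiv ℝ (fun y => B y t) x := by
  have : (fun y => B y (Int.fract t)) = fun y => B y t := funext fun y => EB_fract (hBt y) t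
  rw [this]

theorem EB_c_len (hc : ∀ σ t, HasDerivAt (fun σ => c σ t) (c' σ t) σ)
    (hcl : ∀ σ t, c (σ + len) t = c σ t + β k0) (σ t : ℝ) : c' (σ + len) t = c' σ t := by
  have h1 : HasDerivAt (fun σ => c (σ + len) t) (c' (σ + len) t) σ :=
    (hc (σ + len) t).comp_add_const σ len
  have h2 : (fun σ => c (σ + len) t) = fun σ => c σ t + β k0 := funext fun σ => hcl σ t
  rw [h2] at h1
  exact h1.unique ((hc σ t).add_const _)

theorem EB_c_per (hc : ∀ σ t, HasDerivAt (fun σ => c σ t) (c' σ t) σ)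
    (hcp : ∀ σ t, c σ (t + 1) = c σ t) (σ t : ℝ) : c' σ (t + 1) = c' σ t := by
  have h1 := hc σ (t + 1)
  have h2 : (fun σ => c σ (t + 1)) = fun σ => c σ t := funext fun σ => hcp σ t
  rw [h2] at h1
  exact h1.unique (hc σ t)

/-- reduction to a fundamental domain -/
theorem EB_red (hF : ∀ t, Fins β (fun x v => F x v t) mF MF) (hFt : ∀ x v t, F x v (t + 1) = F x v t)
    (hBt : ∀ x t, B x (t + 1) = B x t)
    (hBp : ∀ i, ∃ a : ℝ, ∀ x t, B (x + β i) t = B x t + a)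
    (hc : ∀ σ t, HasDerivAt (fun σ => c σ t) (c' σ t) σ) (hlen : 0 < len)
    (hcl : ∀ σ t, c (σ + len) t = c σ t + β k0) (hcp : ∀ σ t, c σ (t + 1) = c σ t) (σ t : ℝ) :
    ∃ σ' ∈ Icc 0 len, ∃ t' ∈ Icc (0:ℝ) 1, c' σ t = c' σ' t' ∧
      (∀ v, F (c σ t) v t = F (c σ' t') v t') ∧
      ∀ v, fderiv ℝ (fun y => B y t) (c σ t) v = fderiv ℝ (fun y => B y t') (c σ' t') v := by
  obtain ⟨n, hn⟩ : ∃ n : ℤ, n = ⌊σ / len⌋ := ⟨_, rfl⟩
  obtain ⟨σ', hσ'⟩ : ∃ σ' : ℝ, σ' = σ - n • len := ⟨_, rfl⟩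
  have e1 : σ' = Int.fract (σ / len) * len := by
    rw [hσ', zsmul_eq_mul, Int.fract, ← hn, sub_mul, div_mul_cancel₀ _ hlen.ne']
  have h1 : c' σ' t = c' σ t := by
    have hp : Function.Periodic (fun σ => c' σ t) len := fun σ => EB_c_len hc hcl σ t
    rw [hσ']
    exact hp.sub_zsmul_eq n
  have h2 : c σ t = c σ' t + (n : ℝ) • β k0 := by
    have hp : Function.Periodic (fun σ => c σ t - (σ / len) • β k0) len := fun σ => by
      show c (σ + len) t - ((σ + len) / len) • β k0 = c σ t - (σ / len) • β k0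
      rw [hcl, add_div, div_self hlen.ne', add_smul, one_smul]
      abel
    have h3 := hp.sub_zsmul_eq (x := σ) n
    rw [← hσ'] at h3
    have h4 : c σ' t - (σ' / len) • β k0 = c σ t - (σ / len) • β k0 := h3
    have h5 : σ' / len = σ / len - n := by
      rw [hσ', zsmul_eq_mul, sub_div, mul_div_cancel_right₀ _ hlen.ne']
    rw [h5, sub_smul] at h4
    have h6 : c σ t = c σ' t - ((σ / len) • β k0 - (n : ℝ) • β k0) + (σ / len) • β k0 := by
      rw [h4]
      abel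
    rw [h6]
    abel
  have hw : (n : ℝ) • β k0 ∈ Submodule.span ℤ (Set.range β) := by
    rw [Int.cast_smul_eq_zsmul ℝ n (β k0)]
    exact Submodule.smul_mem _ n (Submodule.subset_span (Set.mem_range_self k0))
  refine ⟨σ', ?_, Int.fract t, ⟨Int.fract_nonneg t, (Int.fract_lt_one t).le⟩, ?_, fun v => ?_,
    fun v => ?_⟩
  · rw [e1]
    have a1 := Int.fract_nonneg (σ / len)
    have a2 := (Int.fract_lt_one (σ / len)).le
    exact ⟨by positivity, by nlinarith⟩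
  · rw [← h1]
    exact (EB_fract (fun t => EB_c_per hc hcp σ' t) t).symm
  · rw [h2, EB_FLam hF hw, EB_fract (fun t => hcp σ' t) t]
    exact (EB_fract (fun t => hFt (c σ' _) v t) t).symm
  · rw [h2, EB_dLam hBp hw, EB_fract (fun t => hcp σ' t) t, EB_dt hBt]

/-- midpoint convexity of `l` -/
theorem EB_mid (hl : TG β m M l) (x u v : E) (t : ℝ) :
    l x ((1 / 2 : ℝ) • (u + v)) t ≤ (l x u t + l x v t) / 2 - m / 8 * ‖u - v‖ ^ 2 := by
  have h1 := hl.conv x u ((1 / 2 : ℝ) • (u + v)) t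
  have h2 := hl.conv x v ((1 / 2 : ℝ) • (u + v)) t
  have e1 : u - (1 / 2 : ℝ) • (u + v) = (1 / 2 : ℝ) • (u - v) := by module
  have e2 : v - (1 / 2 : ℝ) • (u + v) = -((1 / 2 : ℝ) • (u - v)) := by module
  rw [e1] at h1
  rw [e2, norm_neg, inner_neg_right] at h2
  have e3 : ‖(1 / 2 : ℝ) • (u - v)‖ ^ 2 = 1 / 4 * ‖u - v‖ ^ 2 := by
    rw [norm_smul, mul_pow, Real.norm_eq_abs, sq_abs]
    norm_num
  rw [e3] at h1 h2
  linarith

theorem EB_bd (hF : ∀ t, Fins β (fun x v => F x v t) mF MF) (hl : TG β m M l) {MA : ℝ}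
    (hA : AT F κ MA l) (x v : E) (t : ℝ) :
    |l x v t - κ t * F x v t ^ 2 / 2| ≤ (|MA| + M) * (1 + ‖v‖) := by
  have h1 := hA x v t x 0 t
  have h2 : F x 0 t = 0 := by
    have := (hF t).hom x 0 0 le_rfl
    simpa using this
  rw [h2] at h1
  simp only [sub_zero, sub_self, norm_zero, abs_zero, add_zero, mul_zero, ne_eq, OfNat.ofNat_ne_zero,
    not_false_eq_true, zero_pow, zero_div] at h1
  have h3 := hl.l_bd x 0 t
  simp only [norm_zero, ne_eq, OfNat.ofNat_ne_zero, not_false_eq_true, zero_pow, add_zero,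
    mul_one] at h3
  have h4 : MA * ‖v‖ ≤ |MA| * ‖v‖ := mul_le_mul_of_nonneg_right (le_abs_self _) (norm_nonneg _)
  have h5 := abs_add_le (l x v t - κ t * F x v t ^ 2 / 2 - l x 0 t) (l x 0 t)
  rw [sub_add_cancel] at h5
  have h6 : 0 ≤ |MA| := abs_nonneg _
  have h7 : 0 ≤ M * ‖v‖ := mul_nonneg hl.M_nonneg (norm_nonneg _)
  nlinarith

/-- `κ F² / 2` is strongly convex -/
theorem EB_conv (hF : ∀ t, Fins β (fun x v => F x v t) mF MF) (hl : TG β m M l) {MA : ℝ}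
    (hA : AT F κ MA l) (x u v : E) (t : ℝ) :
    κ t * F x ((1 / 2 : ℝ) • (u + v)) t ^ 2 / 2 ≤
      κ t * (F x u t ^ 2 + F x v t ^ 2) / 4 - m / 8 * ‖u - v‖ ^ 2 := by
  by_contra hcon
  push Not at hcon
  set w : E := (1 / 2 : ℝ) • (u + v) with hw
  set A0 : ℝ := κ t * F x w t ^ 2 / 2 -
    (κ t * (F x u t ^ 2 + F x v t ^ 2) / 4 - m / 8 * ‖u - v‖ ^ 2) with hA0'
  have hA0 : 0 < A0 := by rw [hA0']; linarith
  obtain ⟨M1, hM1⟩ : ∃ M1 : ℝ, M1 = |MA| + M := ⟨_, rfl⟩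
  have hM : 0 ≤ M1 := by rw [hM1]; exact add_nonneg (abs_nonneg _) hl.M_nonneg
  have hb : ∀ y, |l x y t - κ t * F x y t ^ 2 / 2| ≤ M1 * (1 + ‖y‖) := fun y => by
    rw [hM1]
    exact EB_bd hF hl hA x y t
  set C : ℝ := 2 * M1 * (1 + ‖u‖ + ‖v‖ + ‖w‖) with hC
  have hC0 : 0 ≤ C := by positivity
  have key : ∀ s : ℝ, 1 ≤ s → s ^ 2 * A0 ≤ C * s := by
    intro s hs
    have hs0 : 0 ≤ s := by linarith
    have h1 := EB_mid hl x (s • u) (s • v) t
    have e1 : (1 / 2 : ℝ) • (s • u + s • v) = s • w := by rw [hw]; module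
    have e2 : ‖s • u - s • v‖ ^ 2 = s ^ 2 * ‖u - v‖ ^ 2 := by
      rw [← smul_sub, norm_smul, mul_pow, Real.norm_eq_abs, sq_abs]
    rw [e1, e2] at h1
    have hn : ∀ y : E, ‖s • y‖ = s * ‖y‖ := fun y => by
      rw [norm_smul, Real.norm_eq_abs, abs_of_nonneg hs0]
    have hh : ∀ y : E, F x (s • y) t = s * F x y t := fun y => (hF t).hom x y s hs0
    have h2 := (abs_le.1 (hb (s • w))).1
    have h3 := (abs_le.1 (hb (s • u))).2
    have h4 := (abs_le.1 (hb (s • v))).2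
    rw [hh, hn] at h2 h3 h4
    have hu0 := norm_nonneg u
    have hv0 := norm_nonneg v
    have hw0 := norm_nonneg w
    have h5 : s ^ 2 * A0 ≤ M1 * (1 + s * ‖w‖) + (M1 * (1 + s * ‖u‖) + M1 * (1 + s * ‖v‖)) / 2 := by
      rw [hA0']
      nlinarith
    refine h5.trans ?_
    rw [hC]
    have h6 : M1 * 1 ≤ M1 * s := mul_le_mul_of_nonneg_left hs hM
    have h7 : 0 ≤ M1 * (s * ‖u‖) := by positivity
    have h8 : 0 ≤ M1 * (s * ‖v‖) := by positivity
    have h9 : 0 ≤ M1 * (s * ‖w‖) := by positivity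
    nlinarith
  have h1 := key (C / A0 + 1) (by have := div_nonneg hC0 hA0.le; linarith)
  have h2 : 0 < C / A0 + 1 := by have := div_nonneg hC0 hA0.le; linarith
  have h3 : (C / A0 + 1) * A0 ≤ C := by
    have h4 : (C / A0 + 1) * ((C / A0 + 1) * A0) ≤ (C / A0 + 1) * C := by nlinarith
    exact le_of_mul_le_mul_left h4 h2
  have h5 : (C / A0 + 1) * A0 = C + A0 := by field_simp
  linarith

/-- joint continuity of the differential of `B` -/
theorem EB_dcont (hB : ContDiff ℝ 1 (fun p : E × ℝ => B p.1 p.2)) :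
    Continuous (fun q : E × E × ℝ => fderiv ℝ (fun y => B y q.2.2) q.1 q.2.1) := by
  have h1 : ∀ q : E × E × ℝ, fderiv ℝ (fun y => B y q.2.2) q.1 q.2.1 =
      fderiv ℝ (fun p : E × ℝ => B p.1 p.2) (q.1, q.2.2) (q.2.1, 0) := fun q => by
    have h2 : HasFDerivAt (fun y : E => ((y, q.2.2) : E × ℝ)) (ContinuousLinearMap.inl ℝ E ℝ) q.1 :=
      hasFDerivAt_prodMk_left q.1 q.2.2
    have h3 : HasFDerivAt (fun p : E × ℝ => B p.1 p.2)
        (fderiv ℝ (fun p : E × ℝ => B p.1 p.2) (q.1, q.2.2)) (q.1, q.2.2) :=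
      ((hB.differentiable one_ne_zero) (q.1, q.2.2)).hasFDerivAt
    have h4 := (HasFDerivAt.comp q.1 h3 h2).fderiv
    have h5 : ((fun p : E × ℝ => B p.1 p.2) ∘ fun y : E => ((y, q.2.2) : E × ℝ)) =
      fun y => B y q.2.2 := rfl
    rw [h5] at h4
    rw [h4]
    simp
  simp only [h1]
  exact ((hB.continuous_fderiv one_ne_zero).comp
    (continuous_fst.prodMk (continuous_snd.comp continuous_snd))).clm_apply
    ((continuous_fst.comp continuous_snd).prodMk continuous_const)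

/-- almost calibrated vectors are near the tangent vectors of the curve -/
theorem dir_near (h : CalT β F mF MF A κ B k0 len c c' ct) (hl : TG β m M l) {MA : ℝ}
    (hA : AT F κ MA l) {ε : ℝ} (hε : 0 < ε) :
    ∃ ρ : ℝ, 0 < ρ ∧ ∀ x v t, v ≠ 0 → F x v t - fderiv ℝ (fun y => B y t) x v ≤ ρ * F x v t →
      ∃ (σ : ℝ), ∃ w ∈ Submodule.span ℤ (Set.range β), ‖x - (c σ t + w)‖ ≤ ε ∧
        ‖v - F x v t • c' σ t‖ ≤ ε * F x v t := by
  by_contra hcon
  push Not at hcon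
  have hmF := (h.fins 0).mF_pos
  choose x v t hv0 hv1 hv2 using fun n : ℕ => hcon (1 / ((n : ℝ) + 1)) (by positivity)
  have hF0 : ∀ n, 0 < F (x n) (v n) (t n) := fun n =>
    lt_of_lt_of_le (mul_pos hmF (norm_pos_iff.2 (hv0 n))) ((h.fins (t n)).low _ _)
  set y : ℕ → E := fun n => ZSpan.fract β (x n) with hy
  set u : ℕ → E := fun n => (F (x n) (v n) (t n))⁻¹ • v n with hu
  set τ : ℕ → ℝ := fun n => Int.fract (t n) with hτ
  set wn : ℕ → E := fun n => ((ZSpan.floor β (x n) : Submodule.span ℤ (Set.range β)) : E) with hwn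
  have hwm : ∀ n, wn n ∈ Submodule.span ℤ (Set.range β) := fun n => (ZSpan.floor β (x n)).2
  have hxy : ∀ n, x n = y n + wn n := fun n => by
    simp only [hy, hwn, ZSpan.fract]
    abel
  have hFτ : ∀ n a b, F a b (τ n) = F a b (t n) := fun n a b =>
    EB_fract (fun r => h.F_per a b r) (t n)
  have hBτ : ∀ n a, fderiv ℝ (fun z => B z (τ n)) a = fderiv ℝ (fun z => B z (t n)) a := fun n a =>
    EB_dt h.B_pert a (t n)
  have hcτ : ∀ n σ, c σ (τ n) = c σ (t n) := fun n σ => EB_fract (fun r => h.c_per σ r) (t n)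
  have hcτ' : ∀ n σ, c' σ (τ n) = c' σ (t n) := fun n σ =>
    EB_fract (fun r => EB_c_per h.c_σ h.c_per σ r) (t n)
  have hFu : ∀ n, F (y n) (u n) (τ n) = 1 := fun n => by
    rw [hFτ, ← EB_FLam h.fins (hwm n), ← hxy, hu]
    simp only
    have h1 := (h.fins (t n)).hom (x n) (v n) _ (inv_nonneg.2 (hF0 n).le)
    rw [h1, inv_mul_cancel₀ (hF0 n).ne']
  have hBu : ∀ n : ℕ, 1 - 1 / ((n : ℝ) + 1) ≤ fderiv ℝ (fun z => B z (τ n)) (y n) (u n) := fun n => by
    rw [hBτ, ← EB_dLam h.B_per (hwm n), ← hxy, hu]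
    simp only
    rw [map_smul, smul_eq_mul]
    have h1 := hv1 n
    have h2 : (1 - 1 / ((n : ℝ) + 1)) * F (x n) (v n) (t n) ≤
      fderiv ℝ (fun z => B z (t n)) (x n) (v n) := by linarith
    calc 1 - 1 / ((n : ℝ) + 1) = (F (x n) (v n) (t n))⁻¹ *
          ((1 - 1 / ((n : ℝ) + 1)) * F (x n) (v n) (t n)) := by
          have := (hF0 n).ne'
          field_simp
      _ ≤ _ := mul_le_mul_of_nonneg_left h2 (inv_nonneg.2 (hF0 n).le)
  obtain ⟨⟨y0, u0, τ0⟩, -, φ, hφ, hlim⟩ := ((isCompact_closedBall (0 : E) (∑ i, ‖β i‖)).prod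
    ((isCompact_closedBall (0 : E) (1 / mF)).prod (isCompact_Icc (a := (0:ℝ)) (b := 1)))).tendsto_subseq
      (x := fun n => (y n, u n, τ n)) (fun n => by
      refine ⟨?_, ?_, ?_⟩
      · show y n ∈ _
        rw [mem_closedBall_zero_iff]
        exact ZSpan.norm_fract_le β (x n)
      · show u n ∈ _
        rw [mem_closedBall_zero_iff, le_div_iff₀ hmF]
        have h1 := (h.fins (τ n)).low (y n) (u n)
        rw [hFu n] at h1
        linarith
      · exact ⟨Int.fract_nonneg _, (Int.fract_lt_one _).le⟩)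
  have hly : Tendsto (fun n => y (φ n)) atTop (𝓝 y0) := (continuous_fst.tendsto _).comp hlim
  have hlu : Tendsto (fun n => u (φ n)) atTop (𝓝 u0) :=
    ((continuous_fst.comp continuous_snd).tendsto _).comp hlim
  have hlτ : Tendsto (fun n => τ (φ n)) atTop (𝓝 τ0) :=
    ((continuous_snd.comp continuous_snd).tendsto _).comp hlim
  have hF1 : F y0 u0 τ0 = 1 := by
    have h1 : Tendsto (fun n => F (y (φ n)) (u (φ n)) (τ (φ n))) atTop (𝓝 (F y0 u0 τ0)) :=
      (h.F_cont.tendsto (y0, u0, τ0)).comp hlim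
    refine tendsto_nhds_unique h1 ?_
    simp only [hFu]
    exact tendsto_const_nhds
  have hB1 : fderiv ℝ (fun z => B z τ0) y0 u0 = 1 := by
    refine le_antisymm ((h.B_le y0 u0 τ0).trans hF1.le) ?_
    have h1 : Tendsto (fun n => fderiv ℝ (fun z => B z (τ (φ n))) (y (φ n)) (u (φ n))) atTop
        (𝓝 (fderiv ℝ (fun z => B z τ0) y0 u0)) :=
      ((EB_dcont h.B_smooth).tendsto (y0, u0, τ0)).comp hlim
    have h2 : Tendsto (fun n : ℕ => 1 - 1 / (((φ n : ℕ) : ℝ) + 1)) atTop (𝓝 (1 - 0)) :=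
      tendsto_const_nhds.sub ((tendsto_one_div_add_atTop_nhds_zero_nat (𝕜 := ℝ)).comp hφ.tendsto_atTop)
    rw [sub_zero] at h2
    exact le_of_tendsto_of_tendsto' h2 h1 fun n => hBu (φ n)
  have hu0 : u0 ≠ 0 := by
    rintro rfl
    have h1 := (h.fins τ0).upp y0 0
    rw [norm_zero, mul_zero, hF1] at h1
    linarith
  obtain ⟨σ, w, hw, hyc⟩ := h.only y0 u0 τ0 hu0 (by rw [hB1, hF1])
  have hFc : F y0 (c' σ τ0) τ0 = 1 := by rw [hyc, EB_FLam h.fins hw, h.unit]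
  have hBc' : fderiv ℝ (fun z => B z τ0) y0 (c' σ τ0) = 1 := by rw [hyc, EB_dLam h.B_per hw, h.cal]
  have huc : u0 = c' σ τ0 := by
    have h1 := EB_conv h.fins hl hA y0 u0 (c' σ τ0) τ0
    have h2 : fderiv ℝ (fun z => B z τ0) y0 ((1 / 2 : ℝ) • (u0 + c' σ τ0)) = 1 := by
      rw [map_smul, map_add, hB1, hBc', smul_eq_mul]
      norm_num
    have h3 := h.B_le y0 ((1 / 2 : ℝ) • (u0 + c' σ τ0)) τ0
    rw [h2] at h3
    rw [hF1, hFc] at h1
    have hm := hl.m_pos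
    have hκ : 0 ≤ κ τ0 := by
      have := h.κ_pos τ0
      have hA1 := h.A_pos
      by_contra hneg
      push Not at hneg
      nlinarith
    have h4 : m / 8 * ‖u0 - c' σ τ0‖ ^ 2 ≤ 0 := by
      have h5 : κ τ0 * 1 ≤ κ τ0 * F y0 ((1 / 2 : ℝ) • (u0 + c' σ τ0)) τ0 ^ 2 := by
        refine mul_le_mul_of_nonneg_left ?_ hκ
        nlinarith
      linarith
    have h5 : ‖u0 - c' σ τ0‖ ^ 2 ≤ 0 := by
      by_contra h6
      push Not at h6
      have : 0 < m / 8 * ‖u0 - c' σ τ0‖ ^ 2 := by positivity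
      linarith
    have h6 : ‖u0 - c' σ τ0‖ = 0 := by
      have := sq_nonneg ‖u0 - c' σ τ0‖
      exact pow_eq_zero_iff (n := 2) (by norm_num) |>.1 (le_antisymm h5 this)
    exact sub_eq_zero.1 (norm_eq_zero.1 h6)
  have hcc : Tendsto (fun n => c σ (τ (φ n))) atTop (𝓝 (c σ τ0)) :=
    ((h.c_t σ τ0).continuousAt.tendsto).comp hlτ
  have hcc' : Tendsto (fun n => c' σ (τ (φ n))) atTop (𝓝 (c' σ τ0)) :=
    (h.c'_cont.tendsto (σ, τ0)).comp (tendsto_const_nhds.prodMk_nhds hlτ)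
  have he1 : ∀ᶠ n in atTop, ‖y (φ n) - (c σ (τ (φ n)) + w)‖ < ε := by
    have h1 : Tendsto (fun n => ‖y (φ n) - (c σ (τ (φ n)) + w)‖) atTop (𝓝 ‖y0 - (c σ τ0 + w)‖) :=
      (hly.sub (hcc.add_const w)).norm
    rw [← hyc, sub_self, norm_zero] at h1
    exact h1.eventually_lt_const hε
  have he2 : ∀ᶠ n in atTop, ‖u (φ n) - c' σ (τ (φ n))‖ < ε := by
    have h1 : Tendsto (fun n => ‖u (φ n) - c' σ (τ (φ n))‖) atTop (𝓝 ‖u0 - c' σ τ0‖) :=
      (hlu.sub hcc').norm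
    rw [huc, sub_self, norm_zero] at h1
    exact h1.eventually_lt_const hε
  obtain ⟨n, hn1, hn2⟩ := (he1.and he2).exists
  have h1 := hv2 (φ n) σ (w + wn (φ n)) (Submodule.add_mem _ hw (hwm _)) (by
    have e : x (φ n) - (c σ (t (φ n)) + (w + wn (φ n))) = y (φ n) - (c σ (τ (φ n)) + w) := by
      rw [hxy (φ n), hcτ]
      abel
    rw [e]
    exact hn1.le)
  have h2 : v (φ n) - F (x (φ n)) (v (φ n)) (t (φ n)) • c' σ (t (φ n)) =
      F (x (φ n)) (v (φ n)) (t (φ n)) • (u (φ n) - c' σ (τ (φ n))) := by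
    rw [hcτ', smul_sub, hu]
    simp only
    rw [smul_smul, mul_inv_cancel₀ (hF0 (φ n)).ne', one_smul]
  rw [h2, norm_smul, Real.norm_eq_abs, abs_of_pos (hF0 (φ n))] at h1
  have h3 : F (x (φ n)) (v (φ n)) (t (φ n)) * ‖u (φ n) - c' σ (τ (φ n))‖ ≤
      ε * F (x (φ n)) (v (φ n)) (t (φ n)) := by
    rw [mul_comm]
    exact mul_le_mul_of_nonneg_right hn2.le (hF0 (φ n)).le
  linarith

/-- uniform differentiability of a `C¹` function in a group of variables -/
theorem EB_unif {g : E × E × ℝ → ℝ} (hg : ContDiff ℝ 1 g) {K : Set (E × E × ℝ)} (hK : IsCompact K) :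
    ∃ δ : ℝ, 0 < δ ∧ ∀ q ∈ K, ∀ w : E, ‖w‖ ≤ δ →
      |g (q.1, q.2.1 + w, q.2.2) - g q - fderiv ℝ g q (0, w, 0)| ≤ ‖w‖ := by
  have hK' : IsCompact (Metric.cthickening 1 K) := hK.cthickening
  have h1 := hK'.uniformContinuousOn_of_continuous (f := fderiv ℝ g)
    (hg.continuous_fderiv one_ne_zero).continuousOn
  obtain ⟨δ, hδ, h2⟩ := (Metric.uniformContinuousOn_iff (α := E × E × ℝ)
    (β := E × E × ℝ →L[ℝ] ℝ)).1 h1 1 one_pos
  refine ⟨min (δ / 2) 1, by positivity, fun q hq w hw => ?_⟩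
  have hw1 : ‖w‖ < δ := by
    have := hw.trans (min_le_left _ _)
    linarith
  have hw2 : ‖w‖ ≤ 1 := hw.trans (min_le_right _ _)
  have hball : ∀ z ∈ Metric.closedBall q ‖w‖, z ∈ Metric.cthickening 1 K := fun z hz =>
    Metric.mem_cthickening_of_dist_le z q 1 K hq ((Metric.mem_closedBall.1 hz).trans hw2)
  have hn : ‖((0 : E), w, (0 : ℝ))‖ = ‖w‖ := by
    simp [Prod.norm_def]
  have e : (q.1, q.2.1 + w, q.2.2) = q + ((0 : E), w, (0 : ℝ)) := by
    ext <;> simp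
  have h3 := Convex.norm_image_sub_le_of_norm_fderiv_le' (𝕜 := ℝ) (f := g) (C := 1)
    (s := Metric.closedBall q ‖w‖) (x := q) (y := q + ((0 : E), w, (0 : ℝ))) (φ := fderiv ℝ g q)
    (fun z _ => (hg.differentiable one_ne_zero) z)
    (fun z hz => by
      have h4 := h2 z (hball z hz) q (hball q (Metric.mem_closedBall_self (norm_nonneg _)))
        (lt_of_le_of_lt (Metric.mem_closedBall.1 hz) hw1)
      have h5 : dist (fderiv ℝ g z) (fderiv ℝ g q) = ‖fderiv ℝ g z - fderiv ℝ g q‖ :=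
        dist_eq_norm (fderiv ℝ g z) (fderiv ℝ g q)
      exact h5 ▸ h4.le)
    (convex_closedBall _ _) (Metric.mem_closedBall_self (norm_nonneg _))
    (by rw [Metric.mem_closedBall, dist_eq_norm, add_sub_cancel_left, hn])
  rw [add_sub_cancel_left, hn, one_mul, Real.norm_eq_abs] at h3
  rw [e]
  exact h3

/-- the hypothesis `tan` of `CalT` follows from the existence of such Lagrangians -/
theorem tan_of (hF : ∀ t, Fins β (fun x v => F x v t) mF MF)
    (hFc : Continuous (fun p : E × E × ℝ => F p.1 p.2.1 p.2.2)) (hFt : ∀ x v t, F x v (t + 1) = F x v t)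
    (hκ : ∀ t, 1 ≤ A * κ t) (hκA : ∀ t, κ t ≤ A) (hκt : ∀ t, κ (t + 1) = κ t)
    (hκl : ∀ t t', |κ t - κ t'| ≤ A * |t - t'|)
    (hB : ContDiff ℝ 1 (fun p : E × ℝ => B p.1 p.2)) (hBt : ∀ x t, B x (t + 1) = B x t)
    (hBp : ∀ i, ∃ a : ℝ, ∀ x t, B (x + β i) t = B x t + a)
    (hle : ∀ x v t, fderiv ℝ (fun y => B y t) x v ≤ F x v t)
    (hc : ∀ σ t, HasDerivAt (fun σ => c σ t) (c' σ t) σ) (hcc : Continuous (fun p : ℝ × ℝ => c' p.1 p.2))
    (hct : Continuous (fun p : ℝ × ℝ => c p.1 p.2)) (hlen : 0 < len)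
    (hcl : ∀ σ t, c (σ + len) t = c σ t + β k0) (hcp : ∀ σ t, c σ (t + 1) = c σ t)
    (hu : ∀ σ t, F (c σ t) (c' σ t) t = 1) (hcal : ∀ σ t, fderiv ℝ (fun y => B y t) (c σ t) (c' σ t) = 1)
    (hl : TG β m M l) {MA : ℝ} (hA : AT F κ MA l) {ε : ℝ} (hε : 0 < ε) :
    ∃ δ : ℝ, 0 < δ ∧ ∀ σ t w, ‖w‖ ≤ δ →
      F (c σ t) (c' σ t + w) t - fderiv ℝ (fun y => B y t) (c σ t) (c' σ t + w) ≤ ε * ‖w‖ := by
  have hA00 : 0 ≤ A := by
    have h1 := hκl 0 1
    have h2 := abs_nonneg (κ 0 - κ 1)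
    have h3 : |(0:ℝ) - 1| = 1 := by norm_num
    rw [h3, mul_one] at h1
    linarith
  have hA0 : 0 < A := by
    rcases hA00.lt_or_eq with h1 | h1
    · exact h1
    · have h2 := hκ 0
      rw [← h1, zero_mul] at h2
      linarith
  have hκpos : ∀ t, 0 < κ t := fun t => by
    have h1 := hκ t
    have h3 : 0 < A * κ t := by linarith
    exact (mul_pos_iff_of_pos_left hA0).1 h3
  obtain ⟨s, hs⟩ : ∃ s : ℝ, s = 1 + 2 * (1 + |MA|) * A / ε := ⟨_, rfl⟩
  have hs1 : 1 ≤ s := by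
    have : 0 ≤ 2 * (1 + |MA|) * A / ε := by positivity
    linarith
  have hs0 : 0 < s := by linarith
  have hsε : 2 * (1 + |MA|) * A / s ≤ ε := by
    have h1 : ε * s = ε + 2 * (1 + |MA|) * A := by
      rw [hs]
      field_simp
    rw [div_le_iff₀ hs0, h1]
    linarith
  have hg : ContDiff ℝ 1 (fun p : E × E × ℝ => l p.1 p.2.1 p.2.2) := hl.smooth.of_le (by norm_num)
  have hK : IsCompact ((fun p : ℝ × ℝ => (c p.1 p.2, s • c' p.1 p.2, p.2)) ''
      (Icc 0 len ×ˢ Icc (0:ℝ) 1)) :=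
    (isCompact_Icc.prod isCompact_Icc).image (hct.prodMk ((hcc.const_smul s).prodMk continuous_snd))
  obtain ⟨δ, hδ, hunif⟩ := EB_unif hg hK
  refine ⟨δ / s, by positivity, fun σ t w hw => ?_⟩
  obtain ⟨σ', hσ', t', ht', e1, e2, e3⟩ := EB_red hF hFt hBt hBp hc hlen hcl hcp σ t
  rw [e1, e2, e3]
  clear e1 e2 e3
  obtain ⟨x, hx⟩ : ∃ x : E, x = c σ' t' := ⟨_, rfl⟩
  obtain ⟨e, he⟩ : ∃ e : E, e = c' σ' t' := ⟨_, rfl⟩
  rw [← hx, ← he]
  have hq : (x, s • e, t') ∈ ((fun p : ℝ × ℝ => (c p.1 p.2, s • c' p.1 p.2, p.2)) ''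
      (Icc 0 len ×ˢ Icc (0:ℝ) 1)) := ⟨(σ', t'), ⟨hσ', ht'⟩, by rw [hx, he]⟩
  have hFe : F x e t' = 1 := by rw [hx, he]; exact hu σ' t'
  have hBe : fderiv ℝ (fun y => B y t') x e = 1 := by rw [hx, he]; exact hcal σ' t'
  obtain ⟨T, hT⟩ : ∃ T : E × E × ℝ →L[ℝ] ℝ,
    T = fderiv ℝ (fun p : E × E × ℝ => l p.1 p.2.1 p.2.2) (x, s • e, t') := ⟨_, rfl⟩
  have hκp := hκpos t'
  -- the two sided estimate
  have key : ∀ w : E, ‖w‖ ≤ δ / s →
      |κ t' * F x (e + w) t' ^ 2 / 2 - κ t' / 2 - T (0, w, 0) / s| ≤ (1 + |MA|) / s * ‖w‖ := by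
    intro w hw
    have hsw : ‖s • w‖ = s * ‖w‖ := by rw [norm_smul, Real.norm_eq_abs, abs_of_pos hs0]
    have h1 := hunif _ hq (s • w) (by rw [hsw]; rwa [le_div_iff₀ hs0, mul_comm] at hw)
    simp only at h1
    rw [← hT, ← smul_add, hsw] at h1
    have h2 : T (0, s • w, 0) = s * T (0, w, 0) := by
      have : ((0 : E), s • w, (0 : ℝ)) = s • ((0 : E), w, (0 : ℝ)) := by
        ext <;> simp
      rw [this, map_smul, smul_eq_mul]
    rw [h2] at h1
    have h3 := hA x (s • (e + w)) t' x (s • e) t'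
    have hh : ∀ y : E, F x (s • y) t' = s * F x y t' := fun y => (hF t').hom x y s hs0.le
    rw [hh, hh, hFe, ← smul_sub, add_sub_cancel_left, hsw, sub_self, sub_self, norm_zero, abs_zero,
      add_zero, mul_zero, add_zero] at h3
    have h4 : MA * (s * ‖w‖) ≤ |MA| * (s * ‖w‖) :=
      mul_le_mul_of_nonneg_right (le_abs_self _) (by positivity)
    have h5 := (abs_le.1 (h3.trans h4))
    have h6 := abs_le.1 h1
    have hsq : 0 < s ^ 2 := by positivity
    have e4 : κ t' * F x (e + w) t' ^ 2 / 2 - κ t' / 2 - T (0, w, 0) / s =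
        ((κ t' * (s * F x (e + w) t') ^ 2 / 2 - κ t' * (s * 1) ^ 2 / 2) - s * T (0, w, 0)) / s ^ 2 := by
      field_simp
    have e5 : (1 + |MA|) / s * ‖w‖ = ((1 + |MA|) * (s * ‖w‖)) / s ^ 2 := by
      field_simp
    rw [e4, e5, abs_div, abs_of_pos hsq]
    refine div_le_div_of_nonneg_right ?_ hsq.le
    rw [abs_le]
    constructor
    · linarith [h5.1, h5.2, h6.1, h6.2]
    · linarith [h5.1, h5.2, h6.1, h6.2]
  -- the lower bound of the metric
  have low : ∀ w : E, κ t' * fderiv ℝ (fun y => B y t') x w ≤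
      κ t' * F x (e + w) t' ^ 2 / 2 - κ t' / 2 := by
    intro w
    have h1 := hle x (e + w) t'
    rw [map_add, hBe] at h1
    have h2 : fderiv ℝ (fun y => B y t') x w ≤ (F x (e + w) t' ^ 2 - 1) / 2 := by
      nlinarith [sq_nonneg (F x (e + w) t' - 1)]
    have h3 := mul_le_mul_of_nonneg_left h2 hκp.le
    linarith
  have k1 := abs_le.1 (key w hw)
  have k2 := abs_le.1 (key (-w) (by rwa [norm_neg]))
  have l2 := low (-w)
  have h7 : T (0, -w, 0) = - T (0, w, 0) := by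
    have : ((0 : E), -w, (0 : ℝ)) = -((0 : E), w, (0 : ℝ)) := by
      ext <;> simp
    rw [this, map_neg]
  rw [h7, norm_neg, neg_div, sub_neg_eq_add] at k2
  rw [map_neg] at l2
  -- assembly
  have h8 : κ t' * F x (e + w) t' ^ 2 / 2 - κ t' / 2 ≤
      κ t' * fderiv ℝ (fun y => B y t') x w + 2 * ((1 + |MA|) / s * ‖w‖) := by
    linarith [k1.2, k2.2]
  have h9 : F x (e + w) t' ≤ (1 + F x (e + w) t' ^ 2) / 2 := by
    nlinarith [sq_nonneg (F x (e + w) t' - 1)]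
  rw [map_add, hBe]
  have h10 : κ t' * (F x (e + w) t' - (1 + fderiv ℝ (fun y => B y t') x w)) ≤
      2 * ((1 + |MA|) / s * ‖w‖) := by
    have h11 := mul_le_mul_of_nonneg_left h9 hκp.le
    linarith
  have h12 : 0 ≤ 2 * ((1 + |MA|) / s * ‖w‖) := by positivity
  have h13 : 2 * ((1 + |MA|) / s * ‖w‖) * A ≤ ε * ‖w‖ := by
    have h14 : 2 * ((1 + |MA|) / s * ‖w‖) * A = (2 * (1 + |MA|) * A / s) * ‖w‖ := by ring
    rw [h14]
    exact mul_le_mul_of_nonneg_right hsε (norm_nonneg _)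
  rcases le_or_gt (F x (e + w) t' - (1 + fderiv ℝ (fun y => B y t') x w)) 0 with h15 | h15
  · have : 0 ≤ ε * ‖w‖ := by positivity
    linarith
  · have h16 : F x (e + w) t' - (1 + fderiv ℝ (fun y => B y t') x w) ≤
        (A * κ t') * (F x (e + w) t' - (1 + fderiv ℝ (fun y => B y t') x w)) := by
      have := hκ t'
      nlinarith
    have h17 : A * (κ t' * (F x (e + w) t' - (1 + fderiv ℝ (fun y => B y t') x w))) ≤
        A * (2 * ((1 + |MA|) / s * ‖w‖)) := mul_le_mul_of_nonneg_left h10 hA0.le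
    linarith

end B

end EscT
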