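import Pool.Agent.EscT.TDefs
import Pool.Agent.EscG.B1
import Pool.Agent.EscG.C3
import Pool.Agent.EscG.C3b
import Pool.Agent.EscK.Len

/-!
Project EscT (MP_6acca1_an), module C1: passing costs at frozen times, with constants uniform in the time
(helper17).
-/

noncomputable section

namespace EscT

open MeasureTheory Set Filter Topology Esc EscF EscG
open scoped ContDiff

section GDpart

variable {ι : Type} [Fintype ι] {d : ℕ} {E : Type*} [NormedAddCommGroup E] [InnerProductSpace ℝ E]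
  [FiniteDimensional ℝ E] {D : GD ι d E}

/-- `EscG.shellZ` with explicit constants -/
theorem C1_shellZ (h : D.Ok0) {δ η' θ : ℝ} (hδ : ∀ v ∈ D.Lam, ¬ D.InJ v → ∀ x ∈ D.Z,
    δ ≤ Metric.infDist (x + v) D.Z) (hη'0 : 0 < η') (hη'2 : η' ≤ δ / 2) (hθ : 0 < θ)
    (hs : ∀ (z : E) (u : ℝ → E), Adm u → ∀ a b' : ℝ, a ≤ b' →
      (∀ t ∈ Icc a b', traj a z u t ∈ D.Out (η' / 2)) →
      D.B (traj a z u b') - D.B z ≤ (1 - θ) * ∫ t in a..b', D.F (traj a z u t) (u t))
    {x w : E} (hx : x ∈ D.Z) (hw : η' ≤ Metric.infDist w D.Z) :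
    θ * (D.mF * (η' / 2)) ≤ D.j x w ∧ θ * (D.mF * (η' / 2)) ≤ D.j w x := by
  have hmF := h.fins.mF_pos
  constructor
  · refine le_of_forall_pos_le_add fun ε hε => ?_
    obtain ⟨n, hn⟩ := EscG.exists_j_lt h x w (half_pos hε)
    obtain ⟨u, hu, hu1, -, hu3⟩ := exists_path_fd h.fins (half_pos hε) x (w + lv D.b n)
    have h0 : traj 0 x u 0 = x := by simp [traj]
    have hc : Continuous fun t => Metric.infDist (traj 0 x u t) D.Z :=
      (Metric.continuous_infDist_pt _).comp (traj_cont hu 0 x)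
    obtain ⟨s, t, hs0, hst, ht1, hsa, htb, hr⟩ := C3_band hc (a := η' / 2) (b := η') (by linarith) (by
      show Metric.infDist (traj 0 x u 0) D.Z ≤ η' / 2
      rw [h0, Metric.infDist_zero_of_mem hx]
      linarith) (by
      show η' ≤ Metric.infDist (traj 0 x u 1) D.Z
      rw [hu1, C3_infDist_J h]
      linarith)
    have h1 := C3_pay h hθ hs hu x hs0 hst ht1 (fun r hr' => C3_mem_Out h hδ (hr r hr').1 (by
      linarith [(hr r hr').2]))
    have h2 := (Metric.lipschitz_infDist_pt D.Z).dist_le_mul (traj 0 x u t) (traj 0 x u s)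
    rw [Real.dist_eq, dist_eq_norm] at h2
    have h3 := le_abs_self (Metric.infDist (traj 0 x u t) D.Z - Metric.infDist (traj 0 x u s) D.Z)
    have h4 : η' / 2 ≤ ‖traj 0 x u t - traj 0 x u s‖ := by
      have h5 : Metric.infDist (traj 0 x u s) D.Z = η' / 2 := hsa
      have h6 : Metric.infDist (traj 0 x u t) D.Z = η' := htb
      simp only [NNReal.coe_one, one_mul] at h2
      linarith
    have h6 : θ * (D.mF * (η' / 2)) ≤ θ * (D.mF * ‖traj 0 x u t - traj 0 x u s‖) := by gcongr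
    rw [hu1] at h1
    linarith
  · refine le_of_forall_pos_le_add fun ε hε => ?_
    obtain ⟨n, hn⟩ := EscG.exists_j_lt h w x (half_pos hε)
    obtain ⟨u, hu, hu1, -, hu3⟩ := exists_path_fd h.fins (half_pos hε) w (x + lv D.b n)
    have h0 : traj 0 w u 0 = w := by simp [traj]
    have hc : Continuous fun t => Metric.infDist (traj 0 w u t) D.Z :=
      (Metric.continuous_infDist_pt _).comp (traj_cont hu 0 w)
    obtain ⟨s, t, hs0, hst, ht1, hsb, hta, hr⟩ := C3_band' hc (a := η' / 2) (b := η') (by linarith) (by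
      show η' ≤ Metric.infDist (traj 0 w u 0) D.Z
      rw [h0]
      linarith) (by
      show Metric.infDist (traj 0 w u 1) D.Z ≤ η' / 2
      rw [hu1, C3_infDist_J h, Metric.infDist_zero_of_mem hx]
      linarith)
    have h1 := C3_pay h hθ hs hu w hs0 hst ht1 (fun r hr' => C3_mem_Out h hδ (hr r hr').1 (by
      linarith [(hr r hr').2]))
    have h2 := (Metric.lipschitz_infDist_pt D.Z).dist_le_mul (traj 0 w u t) (traj 0 w u s)
    rw [Real.dist_eq, dist_eq_norm] at h2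
    have h3 := neg_abs_le (Metric.infDist (traj 0 w u t) D.Z - Metric.infDist (traj 0 w u s) D.Z)
    have h4 : η' / 2 ≤ ‖traj 0 w u t - traj 0 w u s‖ := by
      have h5 : Metric.infDist (traj 0 w u s) D.Z = η' := hsb
      have h6 : Metric.infDist (traj 0 w u t) D.Z = η' / 2 := hta
      simp only [NNReal.coe_one, one_mul] at h2
      linarith
    have h6 : θ * (D.mF * (η' / 2)) ≤ θ * (D.mF * ‖traj 0 w u t - traj 0 w u s‖) := by gcongr
    rw [hu1] at h1
    linarith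

/-- `EscG.C3b_local` with explicit constants -/
theorem C1_local (h : D.Ok0) {δ ρ θ η : ℝ} (hsep : ∀ v ∈ D.Lam, ¬ D.InJ v → ∀ x ∈ D.Z,
    δ ≤ Metric.infDist (x + v) D.Z) (hρ : D.Z ⊆ D.X ρ) (hρ0 : 0 ≤ ρ) (hη0 : 0 < η) (hηδ : δ = 8 * η)
    (hθ : 0 < θ)
    (hst : ∀ (z : E) (u : ℝ → E), Adm u → ∀ a b' : ℝ, a ≤ b' →
      (∀ t ∈ Icc a b', traj a z u t ∈ D.Out η) →
      D.B (traj a z u b') - D.B z ≤ (1 - θ) * ∫ t in a..b', D.F (traj a z u t) (u t))
    (z : E) {u : ℝ → E} (hu : Adm u) (a p q : ℝ) (hpq : p ≤ q)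
    (hex : C3b_ex D a z u p q ≤ θ * D.mF * (η / 2)) :
      ∃ n : Fin d → ℤ, ‖traj a z u q + lv D.b n - traj a z u p‖ ≤ 2 * ρ + 6 * η := by
  have hne : D.Z.Nonempty := ⟨_, h.q0_mem⟩
  have hmF := h.fins.mF_pos
  set T : ℝ → E := traj a z u with hT
  have hTc : Continuous T := traj_cont hu a z
  -- displacement on pieces outside
  have hout : ∀ s t, p ≤ s → s ≤ t → t ≤ q → (∀ r ∈ Icc s t, T r ∈ D.Out η) →
      ‖T t - T s‖ ≤ η / 2 := by
    intro s t h1 h2 h3 hO
    have k1 := C3b_out h hθ hst hu a z h2 hO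
    have k2 := C3b_ex_mono h hu a z h1 h2 h3
    have k3 : θ * D.mF * ‖T t - T s‖ ≤ θ * D.mF * (η / 2) := k1.trans (k2.trans hex)
    exact le_of_mul_le_mul_left k3 (by positivity)
  by_cases hA : ∀ t ∈ Icc p q, T t ∈ D.Out η
  · refine ⟨0, ?_⟩
    rw [A5a_lv_zero, add_zero]
    have := hout p q le_rfl hpq le_rfl hA
    linarith
  · push Not at hA
    obtain ⟨t1, ht1, hO1⟩ := hA
    have hO2 : ∃ v ∈ D.Lam, Metric.infDist (T t1 + v) D.Z < η := by
      by_contra hc
      push Not at hc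
      exact hO1 hc
    obtain ⟨v, hv, hv1⟩ := hO2
    set φ : ℝ → ℝ := fun t => Metric.infDist (T t + v) D.Z with hφ
    have hφc : Continuous φ :=
      (Metric.continuous_infDist_pt D.Z).comp (hTc.add continuous_const)
    -- in the shell one is outside of all rooms
    have hshell : ∀ t, η ≤ φ t → φ t ≤ 2 * η → T t ∈ D.Out η := by
      intro t h1 h2 v' hv'
      by_cases hJ : D.InJ (v' - v)
      · obtain ⟨n, hn⟩ := hJ
        have e : T t + v' = T t + v + lv D.b n := by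
          rw [← hn]
          abel
        rw [e, C3b_infJ h]
        exact h1
      · have h3 : Metric.infDist (T t + v) D.Z < 3 * η := by
          have : φ t < 3 * η := by linarith
          exact this
        obtain ⟨z', hz', hd⟩ := (Metric.infDist_lt_iff hne).1 h3
        have h4 := hsep (v' - v) (sub_mem hv' hv) hJ z' hz'
        have h5 : Metric.infDist (z' + (v' - v)) D.Z ≤
            Metric.infDist (T t + v') D.Z + dist (z' + (v' - v)) (T t + v') :=
          Metric.infDist_le_infDist_add_dist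
        have h6 : dist (z' + (v' - v)) (T t + v') = dist (T t + v) z' := by
          rw [dist_comm, dist_eq_norm, dist_eq_norm]
          congr 1
          abel
        rw [h6] at h5
        linarith
    have hlip : ∀ s t, |φ t - φ s| ≤ ‖T t - T s‖ := by
      intro s t
      have h1 : Metric.infDist (T t + v) D.Z ≤ Metric.infDist (T s + v) D.Z + dist (T t + v) (T s + v) :=
        Metric.infDist_le_infDist_add_dist
      have h2 : Metric.infDist (T s + v) D.Z ≤ Metric.infDist (T t + v) D.Z + dist (T s + v) (T t + v) :=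
        Metric.infDist_le_infDist_add_dist
      rw [dist_add_right, dist_eq_norm] at h1 h2
      rw [norm_sub_rev (T s)] at h2
      rw [abs_le]
      constructor
      · show -‖T t - T s‖ ≤ Metric.infDist (T t + v) D.Z - Metric.infDist (T s + v) D.Z
        linarith
      · show Metric.infDist (T t + v) D.Z - Metric.infDist (T s + v) D.Z ≤ ‖T t - T s‖
        linarith
    have hnocross : ∀ s t, p ≤ s → s ≤ t → t ≤ q → (∀ r ∈ Icc s t, η ≤ φ r ∧ φ r ≤ 2 * η) →
        |φ t - φ s| = η → False := by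
      intro s t h1 h2 h3 h4 h5
      have k1 := hout s t h1 h2 h3 (fun r hr => hshell r (h4 r hr).1 (h4 r hr).2)
      have k2 := hlip s t
      linarith
    have hsmall : ∀ t ∈ Icc p q, φ t < 2 * η := by
      intro t2 ht2
      by_contra hc
      push Not at hc
      have hv1' : φ t1 ≤ η := hv1.le
      rcases le_total t1 t2 with h12 | h12
      · obtain ⟨s, t, c1, c2, c3, c4, c5, c6⟩ := C3b_cross hφc h12 hv1' hc (by linarith)
        refine hnocross s t (ht1.1.trans c1) c2 (c3.trans ht2.2) c6 ?_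
        rw [c4, c5, show 2 * η - η = η by ring, abs_of_pos hη0]
      · obtain ⟨s, t, c1, c2, c3, c4, c5, c6⟩ := C3b_cross (φ := fun r => -φ r) hφc.neg h12
          (p := -(2 * η)) (q := -η) (by linarith) (by linarith) (by linarith)
        refine hnocross s t (ht2.1.trans c1) c2 (c3.trans ht1.2)
          (fun r hr => ⟨by linarith [(c6 r hr).2], by linarith [(c6 r hr).1]⟩) ?_
        have e1 : φ s = 2 * η := by linarith
        have e2 : φ t = η := by linarith
        rw [e1, e2, show η - 2 * η = -η by ring, abs_neg, abs_of_pos hη0]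
    have hend : ∀ t ∈ Icc p q, ∃ n : Fin d → ℤ, ‖T t + v + lv D.b n‖ ≤ ρ + 2 * η := by
      intro t ht
      obtain ⟨z', hz', hd⟩ := (Metric.infDist_lt_iff hne).1 (hsmall t ht)
      obtain ⟨n, hn⟩ := hρ hz'
      refine ⟨n, ?_⟩
      have e : T t + v + lv D.b n = (T t + v - z') + (z' + lv D.b n) := by abel
      rw [e]
      refine (norm_add_le _ _).trans ?_
      rw [dist_eq_norm] at hd
      linarith
    obtain ⟨n1, hn1⟩ := hend p ⟨le_rfl, hpq⟩
    obtain ⟨n2, hn2⟩ := hend q ⟨hpq, le_rfl⟩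
    refine ⟨n2 - n1, ?_⟩
    have e : T q + lv D.b (n2 - n1) - T p = (T q + v + lv D.b n2) - (T p + v + lv D.b n1) := by
      rw [C3b_lv_sub]
      abel
    rw [e]
    refine (norm_sub_le _ _).trans ?_
    linarith

end GDpart

section MID

variable {ι : Type} [Fintype ι] {d : ℕ} {E : Type*} [NormedAddCommGroup E] [InnerProductSpace ℝ E]
  [FiniteDimensional ℝ E] {D : GT ι d E} {p : GP} {m M Mf : ℝ} {L : LP} {ll l : E → E → ℝ → ℝ}
  {f f' : E → ℝ → ℝ}

theorem j_nonneg (h : D.Ok0) (t : ℝ) (x x' : E) : 0 ≤ D.j t x x' := EscG.j_nonneg (h.fr0 t) x x'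

theorem j_tri (h : D.Ok0) (t : ℝ) (x y z : E) : D.j t x z ≤ D.j t x y + D.j t y z :=
  EscG.j_tri (h.fr0 t) x y z

theorem j_J (h : D.Ok0) (t : ℝ) (x x' : E) (n n' : Fin d → ℤ) :
    D.j t (x + lv D.b n) (x' + lv D.b n') = D.j t x x' := EscG.j_J (h.fr0 t) x x' n n'

theorem j_Lam (h : D.Ok0) {v : E} (hv : v ∈ D.Lam) (t : ℝ) (x x' : E) :
    D.j t (x + v) (x' + v) = D.j t x x' := EscG.j_Lam (h.fr0 t) hv x x'

theorem j_lip (h : D.Ok0) (t : ℝ) (x x' : E) : D.j t x x' ≤ 2 * D.MF * ‖x' - x‖ :=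
  EscG.j_lip (h.fr0 t) x x'

omit [FiniteDimensional ℝ E] in
theorem C1_int {α : Type*} {φ : ℝ → α} (hφ : ∀ t, φ (t + 1) = φ t) (t : ℝ) (k : ℤ) : φ (t + k) = φ t := by
  have h1 : Function.Periodic φ 1 := hφ
  have h2 := h1.int_mul k t
  rwa [mul_one] at h2

omit [FiniteDimensional ℝ E] in
theorem C1_fr (h : D.Ok0) (t : ℝ) (k : ℤ) : D.fr (t + k) = D.fr t := by
  unfold GT.fr
  have e1 : (fun x v => D.F x v (t + k)) = fun x v => D.F x v t := by
    funext x v
    exact C1_int (φ := fun r => D.F x v r) (fun r => h.F_per x v r) t k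
  have e2 : (fun x => D.B x (t + k)) = fun x => D.B x t := by
    funext x
    exact C1_int (φ := fun r => D.B x r) (fun r => h.B_pert x r) t k
  rw [e1, e2, C1_int h.Z_per, C1_int h.q_per]

theorem j_per (h : D.Ok0) (t : ℝ) (k : ℤ) (x x' : E) : D.j (t + k) x x' = D.j t x x' := by
  unfold GT.j
  rw [C1_fr h]

omit [FiniteDimensional ℝ E] in
theorem C1_Bt (h : D.Ok0) (t : ℝ) : ContDiff ℝ 1 (fun y => D.B y t) :=
  h.B_smooth.comp (contDiff_id.prodMk contDiff_const)

omit [FiniteDimensional ℝ E] in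
theorem C1_cb (h : D.Ok0) (t : ℝ) : CB 0 (fun x v (_ : ℝ) => D.F x v t - D.dB x t v) := by
  refine ⟨?_, fun x v _ => ?_⟩
  · have h1 : Continuous (fun p : E × E × ℝ => D.F p.1 p.2.1 t) :=
      h.F_cont.comp (continuous_fst.prodMk ((continuous_fst.comp continuous_snd).prodMk
        continuous_const))
    have h2 : Continuous (fun p : E × E × ℝ => fderiv ℝ (fun y => D.B y t) p.1 p.2.1) :=
      (((C1_Bt h t).continuous_fderiv (by norm_num)).comp continuous_fst).clm_apply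
        (continuous_fst.comp continuous_snd)
    exact h1.sub h2
  · have := h.B_le x v t
    simp only [neg_zero]
    linarith

theorem C1_iiF (h : D.Ok0) (t : ℝ) {u : ℝ → E} (hu : Adm u) (a : ℝ) (z : E) (p q : ℝ) :
    IntervalIntegrable (fun r => D.F (traj a z u r) (u r) t) volume p q :=
  C3_ii (h.fr0 t) hu a z p q

theorem C1_iiB (h : D.Ok0) (t : ℝ) {u : ℝ → E} (hu : Adm u) (a : ℝ) (z : E) (p q : ℝ) :
    IntervalIntegrable (fun r => D.dB (traj a z u r) t (u r)) volume p q := by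
  have h1 := (C1_iiF h t hu a z p q).sub ((C1_cb h t).ii hu a z p q)
  refine h1.congr fun r _ => ?_
  exact sub_sub_cancel _ _

/-- the excess at frozen time is the length minus the increment of `B` -/
theorem C1_split (h : D.Ok0) (t : ℝ) {u : ℝ → E} (hu : Adm u) (a b : ℝ) (z : E) :
    ∫ r in a..b, (D.F (traj a z u r) (u r) t - D.dB (traj a z u r) t (u r)) =
      (∫ r in a..b, D.F (traj a z u r) (u r) t) - (D.B (traj a z u b) t - D.B z t) := by
  rw [intervalIntegral.integral_sub (C1_iiF h t hu a z a b) (C1_iiB h t hu a z a b)]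
  have h1 := ftc_traj (C1_Bt h t) hu a z b
  have h2 : D.B (traj a z u b) t - D.B z t = ∫ r in a..b, D.dB (traj a z u r) t (u r) := h1
  rw [h2]

/-- strictness along controls, with a constant which does not depend on the time -/
theorem C1_strict (h : D.Ok0) {η θ : ℝ}
    (hθ : ∀ x v t, x ∈ D.Out t η → D.dB x t v ≤ (1 - θ) * D.F x v t) (t : ℝ) :
    ∀ (z : E) (u : ℝ → E), Adm u → ∀ a b' : ℝ, a ≤ b' →
      (∀ r ∈ Icc a b', traj a z u r ∈ (D.fr t).Out η) →
      (D.fr t).B (traj a z u b') - (D.fr t).B z ≤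
        (1 - θ) * ∫ r in a..b', (D.fr t).F (traj a z u r) (u r) := by
  intro z u hu a b' hab hO
  have h1 := ftc_traj (C1_Bt h t) hu a z b'
  have h2 : (D.fr t).B (traj a z u b') - (D.fr t).B z = ∫ r in a..b', D.dB (traj a z u r) t (u r) := h1
  rw [h2, ← intervalIntegral.integral_const_mul]
  refine intervalIntegral.integral_mono_on hab (C1_iiB h t hu a z a b')
    ((C1_iiF h t hu a z a b').const_mul _) fun r hr => ?_
  exact hθ _ _ _ (hO r hr)

/-- the excess of a control at frozen time is at least the passing cost -/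
theorem j_le_frozen (h : D.Ok0) (t : ℝ) {a b : ℝ} (hab : a ≤ b) (z : E) {u : ℝ → E} (hu : Adm u) :
    D.j t z (traj a z u b) ≤ ∫ r in a..b, (D.F (traj a z u r) (u r) t - D.dB (traj a z u r) t (u r)) := by
  rw [C1_split h t hu]
  have h1 := EscG.j_le (h.fr0 t) z (traj a z u b) 0
  rw [A5a_lv_zero, add_zero] at h1
  have h2 := EscK.fd_le_len (h.fr0 t).fins hu hab z
  have h3 : D.j t z (traj a z u b) ≤ fd (D.fr t).F z (traj a z u b) -
      (D.B (traj a z u b) t - D.B z t) := h1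
  have h4 : fd (D.fr t).F z (traj a z u b) ≤ ∫ r in a..b, D.F (traj a z u r) (u r) t := h2
  linarith

/-- almost optimal controls at frozen time (parametrised on `[0,1]`) -/
theorem exists_frozen (h : D.Ok0) (t : ℝ) (x x' : E) {ε : ℝ} (hε : 0 < ε) : ∃ (u : ℝ → E) (n : Fin d → ℤ),
    Adm u ∧ traj 0 x u 1 = x' + lv D.b n ∧
    ∫ r in (0:ℝ)..1, (D.F (traj 0 x u r) (u r) t - D.dB (traj 0 x u r) t (u r)) ≤ D.j t x x' + ε := by
  obtain ⟨n, hn⟩ := EscG.exists_j_lt (h.fr0 t) x x' (half_pos hε)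
  obtain ⟨u, hu, hu1, -, hu3⟩ := exists_path_fd (h.fr0 t).fins (half_pos hε) x (x' + lv D.b n)
  refine ⟨u, n, hu, hu1, ?_⟩
  rw [C1_split h t hu, hu1]
  have h1 : fd (D.fr t).F x (x' + lv D.b n) - (D.B (x' + lv D.b n) t - D.B x t) < D.j t x x' + ε / 2 := hn
  have h2 : ∫ r in (0:ℝ)..1, D.F (traj 0 x u r) (u r) t ≤ fd (D.fr t).F x (x' + lv D.b n) + ε / 2 := hu3
  linarith

/-- all points of `Z t` are equivalent -/
theorem j_Z (h : D.Ok0) (t : ℝ) {z z' : E} (hz : z ∈ D.Z t) (hz' : z' ∈ D.Z t) : D.j t z z' = 0 := by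
  refine le_antisymm (le_of_forall_pos_le_add fun ε hε => ?_) (j_nonneg h t z z')
  obtain ⟨Λ, hΛ⟩ := h.eqv ε hε
  obtain ⟨u, n, hu, hu1, -, hu3⟩ := hΛ t z hz z' hz'
  have h1 := j_le_frozen h t zero_le_one z hu
  rw [hu1] at h1
  have h2 := j_J h t z z' 0 n
  rw [A5a_lv_zero, add_zero] at h2
  rw [h2] at h1
  linarith

/-- near the room the passing costs to `q t` are small -/
theorem near (h : D.Ok0) (t : ℝ) {x : E} {η : ℝ} (hη : Metric.infDist x (D.Z t) ≤ η) :
    D.j t x (D.q t) ≤ 2 * D.MF * η ∧ D.j t (D.q t) x ≤ 2 * D.MF * η := by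
  have hq : D.q t ∈ D.Z t := (h.fr0 t).q0_mem
  obtain ⟨z, hz, hzd⟩ := (h.fr0 t).Z_closed.exists_infDist_eq_dist ⟨D.q t, hq⟩ x
  have hzZ : z ∈ D.Z t := hz
  have hd : dist x z ≤ η := by
    rw [← hzd]
    exact hη
  have hMF : 0 ≤ D.MF := (h.fr0 t).fins.mF_pos.le.trans (h.fr0 t).fins.mF_le
  constructor
  · have h1 := j_tri h t x z (D.q t)
    have h2 := j_lip h t x z
    rw [j_Z h t hzZ hq] at h1
    have h3 : 2 * D.MF * ‖z - x‖ ≤ 2 * D.MF * η := by
      rw [norm_sub_rev, ← dist_eq_norm]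
      exact mul_le_mul_of_nonneg_left hd (by positivity)
    linarith
  · have h1 := j_tri h t (D.q t) z x
    have h2 := j_lip h t z x
    rw [j_Z h t hq hzZ] at h1
    have h3 : 2 * D.MF * ‖x - z‖ ≤ 2 * D.MF * η := by
      rw [← dist_eq_norm]
      exact mul_le_mul_of_nonneg_left hd (by positivity)
    linarith

/-- crossing the shell costs, uniformly in time -/
theorem shell (h : D.Ok0) {η : ℝ} (hη : 0 < η) : ∃ e : ℝ, 0 < e ∧ ∀ t w,
    η ≤ Metric.infDist w (D.Z t) → e ≤ D.j t (D.q t) w ∧ e ≤ D.j t w (D.q t) := by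
  obtain ⟨δ, hδ0, hδ⟩ := h.Z_sep
  set η' := min η (δ / 2) with hη'
  have hη'0 : 0 < η' := lt_min hη (by linarith)
  have hη'1 : η' ≤ η := min_le_left _ _
  have hη'2 : η' ≤ δ / 2 := min_le_right _ _
  obtain ⟨θ, hθ, -, hs⟩ := h.strict (η' / 2) (by linarith)
  have hmF : 0 < D.mF := (h.fr0 0).fins.mF_pos
  refine ⟨θ * (D.mF * (η' / 2)), by positivity, fun t w hw => ?_⟩
  exact C1_shellZ (h.fr0 t) (hδ t) hη'0 hη'2 hθ (C1_strict h hs t) (h.fr0 t).q0_mem
    (hη'1.trans hw)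

/-- coercivity, uniformly in time -/
theorem coer (h : D.Ok0) (C : ℝ) : ∃ ρ : ℝ, ∀ t w, D.j t (D.q t) w ≤ C → w ∈ D.X ρ := by
  obtain ⟨δ, hδ0, hδ⟩ := h.Z_sep
  obtain ⟨ρ, hρ⟩ := h.Z_X
  have hρ0 : 0 ≤ ρ := by
    obtain ⟨n, hn⟩ := hρ 0 (h.fr0 0).q0_mem
    exact (norm_nonneg _).trans hn
  obtain ⟨θ, hθ, -, hs⟩ := h.strict (δ / 8) (by linarith)
  have hmF : 0 < D.mF := (h.fr0 0).fins.mF_pos
  set dl : ℝ := θ * D.mF * (δ / 8 / 2) with hdl
  have hdl0 : 0 < dl := by positivity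
  set r1 : ℝ := 2 * ρ + 6 * (δ / 8) with hr1
  have hr10 : 0 ≤ r1 := by positivity
  obtain ⟨N, hN⟩ := exists_nat_ge ((C + 2) / dl)
  rw [div_le_iff₀ hdl0] at hN
  refine ⟨(N + 1) * r1 + ρ, fun t w hw => ?_⟩
  have h0t := h.fr0 t
  obtain ⟨n, hn⟩ := EscG.exists_j_lt h0t (D.q t) w one_pos
  obtain ⟨u, hu, hend, -, hlen⟩ := exists_path_fd h0t.fins one_pos (D.q t) (w + lv D.b n)
  have h0 : traj 0 (D.q t) u 0 = D.q t := by simp [traj]
  have hn' : fd (D.fr t).F (D.q t) (w + lv D.b n) - (D.B (w + lv D.b n) t - D.B (D.q t) t) <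
      D.j t (D.q t) w + 1 := hn
  have hex : C3b_ex (D.fr t) 0 (D.q t) u 0 1 ≤ N * dl := by
    unfold C3b_ex
    rw [hend, h0]
    show (∫ r in (0:ℝ)..1, (D.fr t).F (traj 0 (D.q t) u r) (u r)) -
      (D.B (w + lv D.b n) t - D.B (D.q t) t) ≤ N * dl
    linarith
  have H : ∀ p q : ℝ, p ≤ q → C3b_ex (D.fr t) 0 (D.q t) u p q ≤ dl →
      ∃ n : Fin d → ℤ, ‖traj 0 (D.q t) u q + lv (D.fr t).b n - traj 0 (D.q t) u p‖ ≤ r1 := by
    intro p q hpq he
    exact C1_local h0t (hδ t) (hρ t) hρ0 (by linarith) (by ring) hθ (C1_strict h hs t) (D.q t) hu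
      0 p q hpq he
  obtain ⟨n', hn''⟩ := C3b_global h0t hr10 hdl0 hu 0 (D.q t) H N 0 1 zero_le_one hex
  rw [hend, h0] at hn''
  obtain ⟨n0, hn0⟩ := hρ t (h.fr0 t).q0_mem
  refine ⟨n + n' + n0, ?_⟩
  have hn1 : ‖w + lv D.b n + lv D.b n' - D.q t‖ ≤ (N + 1) * r1 := hn''
  have hn2 : ‖D.q t + lv D.b n0‖ ≤ ρ := hn0
  have e : w + lv D.b (n + n' + n0) = (w + lv D.b n + lv D.b n' - D.q t) + (D.q t + lv D.b n0) := by
    rw [A5a_lv_add, A5a_lv_add]
    abel
  rw [e]
  exact (norm_add_le _ _).trans (add_le_add hn1 hn2)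

theorem C1_bddU (h : D.Ok0) : BddBelow (range fun r : ℝ => D.j r (D.q r) (D.q r + D.g)) :=
  ⟨0, by rintro _ ⟨r, rfl⟩; exact j_nonneg h r _ _⟩

theorem Us_pos (h : D.Ok) : 0 < D.Us := by
  obtain ⟨δ, hδ0, hδ⟩ := h.Z_sep
  obtain ⟨e, he, hsh⟩ := shell h.toOk0 hδ0
  refine lt_of_lt_of_le he (le_ciInf fun r => ?_)
  have hq : D.q r ∈ D.Z r := (h.fr0 r).q0_mem
  exact (hsh r (D.q r + D.g) (hδ r D.g h.g_mem h.g_not (D.q r) hq)).1

theorem Us_le (h : D.Ok) (t : ℝ) {v : E} (hv : v ∈ D.Lam) (hvJ : ¬ D.InJ v) :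
    D.Us ≤ D.j t (D.q t) (D.q t + v) := by
  obtain ⟨r, hr⟩ := h.g_min
  exact (ciInf_le (C1_bddU h.toOk0) r).trans (hr t v hv hvJ)

theorem Us_att (h : D.Ok) : ∃ r : ℝ, 0 ≤ r ∧ r < 1 ∧ D.Us = D.j r (D.q r) (D.q r + D.g) := by
  obtain ⟨r, hr⟩ := h.g_min
  refine ⟨Int.fract r, Int.fract_nonneg r, Int.fract_lt_one r, ?_⟩
  have e : Int.fract r = r + ((-⌊r⌋ : ℤ) : ℝ) := by
    rw [Int.fract]
    push_cast
    ring
  rw [e, j_per h.toOk0, C1_int h.q_per]
  refine le_antisymm (ciInf_le (C1_bddU h.toOk0) r) (le_ciInf fun t => ?_)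
  exact hr t D.g h.g_mem h.g_not

end MID

end EscT
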