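import Pool.Agent.EscT.TDefs
import Pool.Agent.EscT.C1
import Pool.Agent.EscG.C1
import Pool.Agent.EscG.C2

/-!
EscT, module C4: parameters and elementary facts on the room, its cell and the gate points (uniformly in time).
-/

noncomputable section

namespace EscT

open MeasureTheory Set Filter Topology Esc EscF EscG
open scoped ContDiff

set_option linter.unusedSectionVars false

section MID

variable {ι : Type} [Fintype ι] {d : ℕ} {E : Type*} [NormedAddCommGroup E] [InnerProductSpace ℝ E]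
  [FiniteDimensional ℝ E] {D : GT ι d E} {p : GP} {m M Mf : ℝ} {L : LP} {ll l : E → E → ℝ → ℝ}
  {f f' : E → ℝ → ℝ}

/-! ### lattice vectors -/

namespace C4h

theorem lv_zero (b : Fin d → E) : lv b 0 = 0 := by simp [lv]

theorem lv_add (b : Fin d → E) (n n' : Fin d → ℤ) : lv b (n + n') = lv b n + lv b n' := by
  simp [lv, add_smul, Finset.sum_add_distrib]

theorem lv_neg (b : Fin d → E) (n : Fin d → ℤ) : lv b (-n) = -lv b n := by
  simp [lv]

theorem lv_Lam (h : D.Ok0) (n : Fin d → ℤ) : lv D.b n ∈ D.Lam := by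
  unfold lv GT.Lam
  refine sum_mem fun i _ => ?_
  obtain ⟨k, hk⟩ := (h.fr0 0).bβ i
  have hk' : D.b i = D.β k := hk
  rw [hk']
  have h1 : D.β k ∈ Submodule.span ℤ (Set.range D.β) := Submodule.subset_span ⟨k, rfl⟩
  have h2 := Submodule.smul_mem _ (n i) h1
  have h3 : ((n i : ℤ) : ℝ) • D.β k = (n i) • D.β k := by
    rw [Int.cast_smul_eq_zsmul]
  rw [h3]
  exact h2

theorem Z_J (h : D.Ok0) (t : ℝ) (n : Fin d → ℤ) {x : E} (hx : x ∈ D.Z t) : x + lv D.b n ∈ D.Z t :=
  (h.fr0 t).Z_J n x hx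

theorem q_mem (h : D.Ok0) (t : ℝ) : D.q t ∈ D.Z t := (h.fr0 t).q0_mem

theorem Z_closed (h : D.Ok0) (t : ℝ) : IsClosed (D.Z t) := (h.fr0 t).Z_closed

theorem Z_ne (h : D.Ok0) (t : ℝ) : (D.Z t).Nonempty := ⟨_, q_mem h t⟩

theorem exists_near (h : D.Ok0) (t : ℝ) (x : E) :
    ∃ z ∈ D.Z t, Metric.infDist x (D.Z t) = ‖x - z‖ := by
  obtain ⟨z, hz, hd⟩ := (Z_closed h t).exists_infDist_eq_dist (Z_ne h t) x
  exact ⟨z, hz, by rw [hd, dist_eq_norm]⟩

theorem infDist_lv_le (h : D.Ok0) (t : ℝ) (x : E) (n : Fin d → ℤ) :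
    Metric.infDist (x + lv D.b n) (D.Z t) ≤ Metric.infDist x (D.Z t) := by
  obtain ⟨z, hz, hd⟩ := (Z_closed h t).exists_infDist_eq_dist (Z_ne h t) x
  rw [hd]
  refine (Metric.infDist_le_dist_of_mem (Z_J h t n hz)).trans ?_
  rw [dist_add_right]

theorem infDist_lv (h : D.Ok0) (t : ℝ) (x : E) (n : Fin d → ℤ) :
    Metric.infDist (x + lv D.b n) (D.Z t) = Metric.infDist x (D.Z t) := by
  refine le_antisymm (infDist_lv_le h t x n) ?_
  have := infDist_lv_le h t (x + lv D.b n) (-n)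
  rwa [lv_neg, add_neg_cancel_right] at this

theorem infDist_lip (S : Set E) (x y : E) :
    Metric.infDist x S ≤ Metric.infDist y S + ‖x - y‖ := by
  rw [← dist_eq_norm]
  exact Metric.infDist_le_infDist_add_dist

theorem infDist_le (S : Set E) (x : E) {z : E} (hz : z ∈ S) : Metric.infDist x S ≤ ‖x - z‖ := by
  rw [← dist_eq_norm]
  exact Metric.infDist_le_dist_of_mem hz

theorem MF_pos (h : D.Ok0) : 0 < D.MF := (h.fr0 0).fins.mF_pos.trans_le (h.fr0 0).fins.mF_le

theorem Z_per (h : D.Ok0) (t : ℝ) (k : ℤ) : D.Z (t + k) = D.Z t := by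
  induction k using Int.induction_on with
  | zero => simp
  | succ i ih =>
    rw [← ih, ← h.Z_per (t + ((i : ℤ) : ℝ))]
    push_cast
    ring_nf
  | pred i ih =>
    rw [← ih, ← h.Z_per (t + ((-(i : ℤ) - 1 : ℤ) : ℝ))]
    push_cast
    ring_nf

theorem q_per (h : D.Ok0) (t : ℝ) (k : ℤ) : D.q (t + k) = D.q t := by
  induction k using Int.induction_on with
  | zero => simp
  | succ i ih =>
    rw [← ih, ← h.q_per (t + ((i : ℤ) : ℝ))]
    push_cast
    ring_nf
  | pred i ih =>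
    rw [← ih, ← h.q_per (t + ((-(i : ℤ) - 1 : ℤ) : ℝ))]
    push_cast
    ring_nf

theorem j_cont_right (h : D.Ok0) (t : ℝ) (x : E) : Continuous (fun w => D.j t x w) := by
  have hM := MF_pos h
  have : LipschitzWith (Real.toNNReal (2 * D.MF)) (fun w => D.j t x w) := by
    refine LipschitzWith.of_le_add_mul _ fun a b => ?_
    rw [Real.coe_toNNReal _ (by positivity), dist_eq_norm]
    exact (j_tri h t x b a).trans (add_le_add le_rfl (j_lip h t b a))
  exact this.continuous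

theorem j_cont_left (h : D.Ok0) (t : ℝ) (x : E) : Continuous (fun w => D.j t w x) := by
  have hM := MF_pos h
  have : LipschitzWith (Real.toNNReal (2 * D.MF)) (fun w => D.j t w x) := by
    refine LipschitzWith.of_le_add_mul _ fun a b => ?_
    rw [Real.coe_toNNReal _ (by positivity), dist_eq_norm, norm_sub_rev]
    have h1 := j_tri h t a b x
    have h2 := j_lip h t a b
    linarith
  exact this.continuous

theorem Out_J (h : D.Ok0) {t η : ℝ} {w : E} (hw : w ∈ D.Out t η) (n : Fin d → ℤ) :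
    w + lv D.b n ∈ D.Out t η := by
  intro v hv
  have : w + lv D.b n + v = w + v + lv D.b n := by abel
  rw [this, infDist_lv h]
  exact hw v hv

theorem X_add {ρ ρ' : ℝ} {x y : E} {n : Fin d → ℤ} (h1 : ‖x + lv D.b n‖ ≤ ρ) (h2 : ‖y‖ ≤ ρ') :
    x + y ∈ D.X (ρ + ρ') := by
  refine ⟨n, ?_⟩
  have : x + y + lv D.b n = x + lv D.b n + y := by abel
  rw [this]
  exact (norm_add_le _ _).trans (add_le_add h1 h2)

theorem η1_le (hp : POk D p) : p.η1 ≤ p.ηc := by
  have h1 := hp.η1_le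
  have h2 := hp.η1_pos
  linarith

end C4h

open C4h

/-- small parameters -/
theorem exists_par (h : D.Ok) {δ : ℝ} (hδ : 0 < δ) : ∃ p : GP, POk D p ∧ p.ηc ≤ δ ∧ p.κ ≤ δ := by
  have h0 := h.toOk0
  obtain ⟨s, hs, hsep⟩ := h0.Z_sep
  have hM := MF_pos h0
  obtain ⟨c, hc0, hcs, hcδ⟩ : ∃ c : ℝ, 0 < c ∧ 8 * c ≤ s ∧ c ≤ δ :=
    ⟨min (s / 8) δ, lt_min (by positivity) hδ, by
      have := min_le_left (s / 8) δ
      linarith, min_le_right _ _⟩
  obtain ⟨e1, he1, hsh⟩ := shell h0 (η := c / 4) (by positivity)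
  have hU := Us_pos h
  obtain ⟨e, he, hee1, heU, heδ⟩ : ∃ e : ℝ, 0 < e ∧ e ≤ e1 ∧ 16 * e ≤ D.Us ∧ e ≤ 16 * δ :=
    ⟨min (min e1 (D.Us / 16)) (16 * δ), lt_min (lt_min he1 (by positivity)) (by positivity),
      (min_le_left _ _).trans (min_le_left _ _), by
        have := (min_le_left (min e1 (D.Us / 16)) (16 * δ)).trans (min_le_right _ _)
        linarith, min_le_right _ _⟩
  have hκ : 0 < e / 16 := by positivity
  obtain ⟨ρ1, hρ1⟩ := h0.Z_X
  obtain ⟨ρ2, hρ2⟩ := coer h0 (D.Us + 2 * (e / 16))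
  refine ⟨⟨c, e / 16, min (e / 16 / (1600 * D.MF)) (c / 16), e,
    max (ρ1 + c) ρ2 + 2 * ‖D.g‖⟩, ?_, hcδ, ?_⟩
  · refine
      { ηc_pos := hc0
        κ_pos := hκ
        η1_pos := lt_min (by positivity) (by positivity)
        e_pos := he
        κ_le := ?_
        e_le := heU
        om_le := ?_
        η1_le := ?_
        sep := fun t v hv hvJ x hx => ?_
        rt := fun t w hw => ?_
        bnd := fun t x hx k hk => ?_ }
    · show 16 * (e / 16) ≤ e
      linarith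
    · show 400 * (4 * D.MF * min (e / 16 / (1600 * D.MF)) (c / 16)) ≤ e / 16
      have h1 := min_le_left (e / 16 / (1600 * D.MF)) (c / 16)
      rw [le_div_iff₀ (by positivity)] at h1
      linarith
    · show 16 * min (e / 16 / (1600 * D.MF)) (c / 16) ≤ c
      have h1 := min_le_right (e / 16 / (1600 * D.MF)) (c / 16)
      linarith
    · show 8 * c ≤ _
      exact hcs.trans (hsep t v hv hvJ x hx)
    · show e ≤ _
      have h3 := (hsh t w hw).1
      have h4 := j_nonneg h0 t w (D.q t)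
      linarith
    · have hk1 : ‖(k : ℝ) • D.g‖ ≤ 2 * ‖D.g‖ := by
        rw [norm_smul]
        refine mul_le_mul_of_nonneg_right ?_ (norm_nonneg _)
        rw [Real.norm_eq_abs]
        exact_mod_cast hk
      have hX : ∃ n : Fin d → ℤ, ‖x + lv D.b n‖ ≤ max (ρ1 + c) ρ2 := by
        rcases hx with hx | hx
        · obtain ⟨z, hz, hd⟩ := exists_near h0 t x
          obtain ⟨n, hn⟩ := hρ1 t hz
          refine ⟨n, le_trans ?_ (le_max_left _ _)⟩
          have h1 : x + lv D.b n = (z + lv D.b n) + (x - z) := by abel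
          rw [h1]
          refine (norm_add_le _ _).trans (add_le_add hn ?_)
          rw [← hd]
          exact hx
        · have h1 := hx.2
          have h2 := j_nonneg h0 t x (D.q t + D.g)
          obtain ⟨n, hn⟩ := hρ2 t x (by
            have h3 : D.j t (D.q t) x + D.j t x (D.q t + D.g) ≤ D.Us + 2 * (e / 16) := h1
            linarith)
          exact ⟨n, hn.trans (le_max_right _ _)⟩
      obtain ⟨n, hn⟩ := hX
      exact X_add hn hk1
  · show e / 16 ≤ δ
    linarith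

theorem R_closed (h : D.Ok) : IsClosed ((D0 D).R p) := by
  unfold GD.R GD.Rm
  exact isClosed_le (Metric.continuous_infDist_pt _) continuous_const

theorem C_compact (h : D.Ok) : IsCompact ((D0 D).C p) := by
  unfold GD.C GD.Cel
  have h1 : IsClosed ((D0 D).Rm p.η1) := R_closed h
  exact (isCompact_closedBall (0 : E) p.ρ).inter_left h1

theorem C_sub : (D0 D).C p ⊆ (D0 D).R p := fun _ hx => hx.1

theorem R_J (h : D.Ok) {x : E} (hx : x ∈ (D0 D).R p) (n : Fin d → ℤ) : x + lv D.b n ∈ (D0 D).R p := by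
  show Metric.infDist (x + lv D.b n) (D.Z 0) ≤ p.η1
  rw [infDist_lv h.toOk0]
  exact hx

theorem R_red (h : D.Ok) (hp : POk D p) {x : E} (hx : x ∈ (D0 D).R p) : ∃ n, x + lv D.b n ∈ (D0 D).C p := by
  have h1 : x ∈ D.Rm 0 p.ηc := by
    show Metric.infDist x (D.Z 0) ≤ p.ηc
    exact le_trans hx (C4h.η1_le hp)
  obtain ⟨n, hn⟩ := hp.bnd 0 x (Or.inl h1) 0 (by norm_num)
  rw [Int.cast_zero, zero_smul, add_zero] at hn
  refine ⟨n, R_J h hx n, ?_⟩
  rwa [mem_closedBall_zero_iff]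

theorem q_R (h : D.Ok) (hp : POk D p) : D.q 0 ∈ (D0 D).R p := by
  show Metric.infDist (D.q 0) (D.Z 0) ≤ p.η1
  rw [Metric.infDist_zero_of_mem (q_mem h.toOk0 0)]
  exact hp.η1_pos.le

theorem C_ne (h : D.Ok) (hp : POk D p) : ((D0 D).C p).Nonempty := by
  obtain ⟨n, hn⟩ := R_red h hp (q_R h hp)
  exact ⟨_, hn⟩

theorem Mg_closed (h : D.Ok) (t η κ : ℝ) : IsClosed (D.Mg t η κ) := by
  have h1 : IsClosed (D.Out t η) := by
    have : D.Out t η = ⋂ v ∈ D.Lam, {w | η ≤ Metric.infDist (w + v) (D.Z t)} := by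
      ext w
      simp [GT.Out]
    rw [this]
    refine isClosed_biInter fun v _ => ?_
    exact isClosed_le continuous_const
      ((Metric.continuous_infDist_pt (D.Z t)).comp (continuous_id.add continuous_const))
  have h2 : IsClosed {w | D.j t (D.q t) w + D.j t w (D.q t + D.g) ≤ D.Us + κ} :=
    isClosed_le ((j_cont_right h.toOk0 t (D.q t)).add (j_cont_left h.toOk0 t (D.q t + D.g)))
      continuous_const
  exact h1.inter h2

theorem Mg_J (h : D.Ok) {t η κ : ℝ} {w : E} (hw : w ∈ D.Mg t η κ) (n : Fin d → ℤ) :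
    w + lv D.b n ∈ D.Mg t η κ := by
  refine ⟨Out_J h.toOk0 hw.1 n, ?_⟩
  have h1 := j_J h.toOk0 t (D.q t) w 0 n
  have h2 := j_J h.toOk0 t w (D.q t + D.g) n 0
  rw [C4h.lv_zero, add_zero] at h1 h2
  rw [h1, h2]
  exact hw.2

theorem Out_per (h : D.Ok) (t η : ℝ) (k : ℤ) : D.Out (t + k) η = D.Out t η := by
  unfold GT.Out
  rw [C4h.Z_per h.toOk0]

theorem Mg_per (h : D.Ok) (t η κ : ℝ) (k : ℤ) : D.Mg (t + k) η κ = D.Mg t η κ := by
  unfold GT.Mg
  rw [Out_per h]
  ext w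
  simp only [mem_setOf_eq]
  rw [C4h.q_per h.toOk0, j_per h.toOk0, j_per h.toOk0]

/-- a neighbourhood of the inner gate points consists of gate points -/
theorem Mi_nhd (h : D.Ok) (hp : POk D p) : ∃ ρ0 : ℝ, 0 < ρ0 ∧ ∀ t, ∀ w ∈ Mi D p t, ∀ z, ‖z - w‖ ≤ ρ0 →
    z ∈ Md D p t := by
  have hM := MF_pos h.toOk0
  have hc := hp.ηc_pos
  have hk := hp.κ_pos
  refine ⟨min p.ηc (p.κ / (8 * D.MF)), lt_min hc (by positivity), fun t w hw z hz => ⟨⟨?_, ?_⟩, ?_⟩⟩
  · intro v hv
    have h1 := hw.1.1 v hv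
    have h2 := infDist_lip (D.Z t) (w + v) (z + v)
    rw [add_sub_add_right_eq_sub, norm_sub_rev] at h2
    have h3 := hz.trans (min_le_left _ _)
    linarith
  · have h1 := hw.1.2
    have h3 := hz.trans (min_le_right _ _)
    have h4 : 8 * D.MF * ‖z - w‖ ≤ p.κ := by
      rw [le_div_iff₀ (by positivity)] at h3
      linarith
    have h5 := j_tri h.toOk0 t (D.q t) w z
    have h6 := j_lip h.toOk0 t w z
    have h7 := j_tri h.toOk0 t z w (D.q t + D.g)
    have h8 := j_lip h.toOk0 t z w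
    rw [norm_sub_rev] at h8
    show D.j t (D.q t) z + D.j t z (D.q t + D.g) ≤ D.Us + p.κ
    linarith
  · have h1 : Metric.infDist w (D.Z t) ≤ 5 * p.ηc := hw.2
    have h2 := infDist_lip (D.Z t) z w
    have h3 := hz.trans (min_le_left _ _)
    show Metric.infDist z (D.Z t) ≤ 6 * p.ηc
    linarith

/-- two points of the room which differ by a lattice vector and a small vector -/
theorem R_sep (h : D.Ok) (hp : POk D p) {x x' v : E} (hv : v ∈ D.Lam) (hx : x ∈ (D0 D).R p)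
    (hx' : x' ∈ (D0 D).R p) (hxx : ‖x - (x' + v)‖ ≤ p.ηc) : D.InJ v := by
  by_contra hn
  obtain ⟨z, hz, hd⟩ := exists_near h.toOk0 0 x'
  have h1 := hp.sep 0 v hv hn z hz
  have h2 := infDist_lip (D.Z 0) (z + v) x
  have h3 : ‖z + v - x‖ ≤ ‖x - (x' + v)‖ + ‖x' - z‖ := by
    have : z + v - x = -(x - (x' + v)) - (x' - z) := by abel
    rw [this]
    exact (norm_sub_le _ _).trans (by rw [norm_neg])
  have h4 : Metric.infDist x (D.Z 0) ≤ p.η1 := hx
  have h5 : ‖x' - z‖ ≤ p.η1 := by rw [← hd]; exact hx'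
  have h6 := hp.η1_le
  have h7 := hp.ηc_pos
  have h8 := hp.η1_pos
  linarith

/-- the same modulo the isometries in `S.G` -/
theorem R_sepG (h : D.Ok) (hp : POk D p) {S : SG D.β} (hG : PG D p S) {x x' v : E} {P : E ≃ₗᵢ[ℝ] E}
    (hP : P ∈ S.G) (hv : v ∈ D.Lam) (hx : x ∈ (D0 D).R p)
    (hx' : x' ∈ (D0 D).R p) (hxx : ‖P x + v - x'‖ ≤ p.ηc) : P = LinearIsometryEquiv.refl ℝ E ∧ D.InJ v := by
  have hPr : P = LinearIsometryEquiv.refl ℝ E := by
    by_contra hn
    obtain ⟨z, hz, hd⟩ := exists_near h.toOk0 0 x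
    have h1 := hG 0 P hP hn v hv z hz
    have h2 := infDist_lip (D.Z 0) (P z + v) x'
    have h3 : ‖P z + v - x'‖ ≤ ‖P x + v - x'‖ + ‖x - z‖ := by
      have e : P z + v - x' = (P x + v - x') - P (x - z) := by
        rw [map_sub]
        abel
      rw [e]
      refine (norm_sub_le _ _).trans ?_
      rw [LinearIsometryEquiv.norm_map]
    have h4 : Metric.infDist x' (D.Z 0) ≤ p.η1 := hx'
    have h5 : ‖x - z‖ ≤ p.η1 := by rw [← hd]; exact hx
    have h6 := hp.η1_le
    have h7 := hp.ηc_pos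
    have h8 := hp.η1_pos
    linarith
  refine ⟨hPr, ?_⟩
  subst hPr
  apply R_sep h hp hv hx' hx
  have e : x' - (x + v) = -((LinearIsometryEquiv.refl ℝ E) x + v - x') := by
    simp
  rw [e, norm_neg]
  exact hxx

/-- the images of the gate points are outside of the rooms -/
theorem Md_imG (h : D.Ok) (hp : POk D p) {S : SG D.β} (hG : PG D p S) {t : ℝ} {x v c : E} {P : E ≃ₗᵢ[ℝ] E}
    (hP : P ∈ S.G) (hv : v ∈ D.Lam) (hc : c ∈ Md D p t) (hxx : ‖P x + v - c‖ ≤ p.ηc / 4) :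
    x ∈ D.Out t (3 * p.ηc / 4) := by
  intro v' hv'
  by_contra hcon
  have hlt := not_le.1 hcon
  obtain ⟨z, hz, hd⟩ := exists_near h.toOk0 t (x + v')
  rw [hd] at hlt
  have hηc := hp.ηc_pos
  have hPv : P v' ∈ D.Lam := S.lam P hP v' hv'
  have hw : v - P v' ∈ D.Lam := D.Lam.sub_mem hv hPv
  have h1 : ‖P z + (v - P v') - c‖ < p.ηc := by
    have e : P z + (v - P v') - c = (P x + v - c) - P (x + v' - z) := by
      rw [map_sub, map_add]
      abel
    rw [e]
    refine (norm_sub_le _ _).trans_lt ?_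
    rw [LinearIsometryEquiv.norm_map]
    linarith
  by_cases hn : P = LinearIsometryEquiv.refl ℝ E
  · subst hn
    have h2 := hc.1.1 (-(v - (LinearIsometryEquiv.refl ℝ E) v')) (D.Lam.neg_mem hw)
    have h3 := infDist_le (D.Z t) (c + -(v - (LinearIsometryEquiv.refl ℝ E) v')) hz
    have e : c + -(v - (LinearIsometryEquiv.refl ℝ E) v') - z =
        -((LinearIsometryEquiv.refl ℝ E) z + (v - (LinearIsometryEquiv.refl ℝ E) v') - c) := by
      simp only [LinearIsometryEquiv.coe_refl, id]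
      abel
    rw [e, norm_neg] at h3
    linarith
  · have h2 := hG t P hP hn (v - P v') hw z hz
    have h3 := infDist_lip (D.Z t) (P z + (v - P v')) c
    have h4 : Metric.infDist c (D.Z t) ≤ 6 * p.ηc := hc.2
    linarith

/-- there are gate points well inside -/
theorem exists_wit (h : D.Ok) (hp : POk D p) (t : ℝ) {ε : ℝ} (hε : 0 < ε) : ∃ w ∈ D.Out t (4 * p.ηc),
    Metric.infDist w (D.Z t) ≤ 4 * p.ηc ∧ D.j t (D.q t) w + D.j t w (D.q t + D.g) ≤ D.j t (D.q t) (D.q t + D.g) + ε := by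
  have h0 := h.toOk0
  have hf := h0.fr0 t
  obtain ⟨n, hn⟩ := EscG.exists_j_lt hf (D.q t) (D.q t + D.g) (ε := ε / 2) (by positivity)
  obtain ⟨u, hu, hend, hpt, -⟩ := exists_path_fd hf.fins (ε := ε / 2) (by positivity) (D.q t)
    (D.q t + D.g + lv D.b n)
  have hηc := hp.ηc_pos
  have hcont : Continuous fun r => Metric.infDist (traj 0 (D.q t) u r) (D.Z t) :=
    (Metric.continuous_infDist_pt _).comp (traj_cont hu 0 (D.q t))
  have hz0 : Metric.infDist (traj 0 (D.q t) u 0) (D.Z t) = 0 := by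
    have : traj 0 (D.q t) u 0 = D.q t := by simp [traj]
    rw [this]
    exact Metric.infDist_zero_of_mem (q_mem h0 t)
  have hgn : ¬ D.InJ (D.g + lv D.b n) := by
    rintro ⟨n', hn'⟩
    refine h.g_not ⟨n' + -n, ?_⟩
    rw [C4h.lv_add, C4h.lv_neg, ← hn']
    abel
  have h1 : 8 * p.ηc ≤ Metric.infDist (traj 0 (D.q t) u 1) (D.Z t) := by
    have := hp.sep t (D.g + lv D.b n) (D.Lam.add_mem h.g_mem (C4h.lv_Lam h0 n)) hgn (D.q t)
      (q_mem h0 t)
    rw [hend]
    rwa [← add_assoc] at this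
  obtain ⟨r, hr, ht4⟩ : ∃ r ∈ Icc (0 : ℝ) 1,
      Metric.infDist (traj 0 (D.q t) u r) (D.Z t) = 4 * p.ηc := by
    have := intermediate_value_Icc (zero_le_one (α := ℝ)) hcont.continuousOn
    exact this ⟨by rw [hz0]; positivity, by linarith⟩
  refine ⟨traj 0 (D.q t) u r, ?_, ht4.le, ?_⟩
  · intro v hv
    by_cases hvJ : D.InJ v
    · obtain ⟨k, rfl⟩ := hvJ
      rw [infDist_lv h0, ht4]
    · obtain ⟨z, hz, hd⟩ := exists_near h0 t (traj 0 (D.q t) u r)
      have h2 := hp.sep t v hv hvJ z hz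
      have h3 := infDist_lip (D.Z t) (z + v) (traj 0 (D.q t) u r + v)
      rw [add_sub_add_right_eq_sub, norm_sub_rev, ← hd, ht4] at h3
      linarith
  · have h2 := hpt r hr
    have h3 := EscG.j_le hf (D.q t) (traj 0 (D.q t) u r) 0
    rw [C4h.lv_zero, add_zero] at h3
    have h4 := EscG.j_le hf (traj 0 (D.q t) u r) (D.q t + D.g) n
    change _ < D.j t (D.q t) (D.q t + D.g) + ε / 2 at hn
    change D.j t (D.q t) (traj 0 (D.q t) u r) ≤ _ at h3
    change D.j t (traj 0 (D.q t) u r) (D.q t + D.g) ≤ _ at h4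
    change fd (D.fr t).F (D.q t) (traj 0 (D.q t) u r) +
      fd (D.fr t).F (traj 0 (D.q t) u r) (D.q t + D.g + lv D.b n) ≤
      fd (D.fr t).F (D.q t) (D.q t + D.g + lv D.b n) + ε / 2 at h2
    change fd (D.fr t).F (D.q t) (D.q t + D.g + lv D.b n) -
      ((D.fr t).B (D.q t + D.g + lv D.b n) - (D.fr t).B (D.q t)) < _ at hn
    change _ ≤ fd (D.fr t).F (D.q t) (traj 0 (D.q t) u r) -
      ((D.fr t).B (traj 0 (D.q t) u r) - (D.fr t).B (D.q t)) at h3
    change _ ≤ fd (D.fr t).F (traj 0 (D.q t) u r) (D.q t + D.g + lv D.b n) -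
      ((D.fr t).B (D.q t + D.g + lv D.b n) - (D.fr t).B (traj 0 (D.q t) u r)) at h4
    linarith

end MID

end EscT
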