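import Pool.Agent.EscT.TDefs
import Pool.Agent.EscF.O3
import Pool.Agent.helper1.Esc.ModD

/-!
Project EscT (MP_6acca1_an), module B1: curves of high speed which follow the moving calibrated closed curve.
-/

noncomputable section

namespace EscT

open MeasureTheory Set Filter Topology Esc EscF EscG
open scoped ContDiff

section B

set_option linter.unusedSectionVars false

variable {ι : Type} [Fintype ι] {d : ℕ} {E : Type*} [NormedAddCommGroup E] [InnerProductSpace ℝ E]
  [FiniteDimensional ℝ E] {D : GT ι d E} {p : GP} {m M Mf : ℝ} {L : LP} {ll l : E → E → ℝ → ℝ}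
  {f f' : E → ℝ → ℝ}
variable {β : Module.Basis ι ℝ E} {F : E → E → ℝ → ℝ} {mF MF A : ℝ} {κ : ℝ → ℝ} {B : E → ℝ → ℝ} {k0 : ι}
  {len : ℝ} {c c' ct : ℝ → ℝ → E}

namespace B1

/-- chain rule along `(σ r, r)` from the partial derivatives -/
theorem chain (h : CalT β F mF MF A κ B k0 len c c' ct) {σ : ℝ → ℝ} {σ' r : ℝ} (hσ : HasDerivAt σ σ' r) :
    HasDerivAt (fun r => c (σ r) r) (σ' • c' (σ r) r + ct (σ r) r) r := by
  have h1 : HasStrictFDerivAt (fun p : ℝ × ℝ => c p.1 p.2)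
      (((1 : ℝ →L[ℝ] ℝ).smulRight (c' (σ r) r)).coprod ((1 : ℝ →L[ℝ] ℝ).smulRight (ct (σ r) r)))
      (σ r, r) := by
    have := hasStrictFDerivAt_uncurry_coprod (𝕜 := ℝ) (u := (σ r, r)) (f := c)
      (f₁ := fun a b => (1 : ℝ →L[ℝ] ℝ).smulRight (c' a b))
      (f₂ := fun a b => (1 : ℝ →L[ℝ] ℝ).smulRight (ct a b))
      (Eventually.of_forall fun v => (h.c_σ v.1 v.2).hasFDerivAt)
      (Eventually.of_forall fun v => (h.c_t v.1 v.2).hasFDerivAt)
      ?_ ?_
    · exact this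
    · have : Continuous (fun p : ℝ × ℝ => (1 : ℝ →L[ℝ] ℝ).smulRight (c' p.1 p.2)) := by
        have h2 := h.c'_cont
        fun_prop
      exact this.continuousAt
    · have : Continuous (fun p : ℝ × ℝ => (1 : ℝ →L[ℝ] ℝ).smulRight (ct p.1 p.2)) := by
        have h2 := h.ct_cont
        fun_prop
      exact this.continuousAt
  have h2 : HasDerivAt (fun r => (σ r, r)) (σ', (1:ℝ)) r := hσ.prodMk (hasDerivAt_id r)
  have h3 := HasFDerivAt.comp_hasDerivAt (f := fun r => (σ r, r)) r h1.hasFDerivAt h2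
  simpa [Function.comp_def] using h3

/-- the closed curve, `n` times around -/
theorem closed_nat (h : CalT β F mF MF A κ B k0 len c c' ct) (σ t : ℝ) (n : ℕ) :
    c (σ + n * len) t = c σ t + (n : ℝ) • β k0 := by
  induction n with
  | zero => simp
  | succ n ih =>
    have e1 : σ + ((n + 1 : ℕ) : ℝ) * len = (σ + n * len) + len := by push_cast; ring
    rw [e1, h.closed, ih]
    push_cast
    rw [add_smul, one_smul, add_assoc]

theorem ct_len (h : CalT β F mF MF A κ B k0 len c c' ct) (σ t : ℝ) : ct (σ + len) t = ct σ t := by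
  have h1 := h.c_t (σ + len) t
  have h2 : HasDerivAt (fun t => c (σ + len) t) (ct σ t) t := by
    have e1 : (fun t => c (σ + len) t) = fun t => c σ t + β k0 := by
      funext t; exact h.closed σ t
    rw [e1]
    exact (h.c_t σ t).add_const _
  exact h1.unique h2

theorem ct_one (h : CalT β F mF MF A κ B k0 len c c' ct) (σ t : ℝ) : ct σ (t + 1) = ct σ t := by
  have h1 := h.c_t σ (t + 1)
  have h2 : HasDerivAt (fun r => c σ (r + 1)) (ct σ (t + 1)) t := by
    have := h1.comp_add_const t 1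
    exact this
  have h3 : HasDerivAt (fun r => c σ (r + 1)) (ct σ t) t := by
    have e1 : (fun r => c σ (r + 1)) = fun r => c σ r := by
      funext r; exact h.c_per σ r
    rw [e1]
    exact h.c_t σ t
  exact h2.unique h3

/-- `ct` is bounded -/
theorem ct_bd (h : CalT β F mF MF A κ B k0 len c c' ct) : ∃ C : ℝ, 0 ≤ C ∧ ∀ σ t, ‖ct σ t‖ ≤ C := by
  have hK : IsCompact (Icc (0:ℝ) len ×ˢ Icc (0:ℝ) 1) := isCompact_Icc.prod isCompact_Icc
  obtain ⟨C, hC⟩ := hK.exists_bound_of_continuousOn h.ct_cont.continuousOn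
  refine ⟨max C 0, le_max_right _ _, fun σ t => ?_⟩
  have p1 : Function.Periodic (fun σ => ct σ (Int.fract t)) len := fun σ => ct_len h σ _
  have p2 : Function.Periodic (fun t => ct σ t) 1 := fun t => ct_one h σ t
  have e1 : ct σ t = ct σ (Int.fract t) := by
    have := p2.sub_int_mul_eq (x := t) ⌊t⌋
    simp only [mul_one] at this
    rw [Int.fract]
    exact this.symm
  obtain ⟨τ, hτ, hτ2⟩ := p1.exists_mem_Ico₀ h.len_pos σ
  rw [e1, hτ2]
  refine le_trans (hC (τ, Int.fract t) ⟨⟨hτ.1, hτ.2.le⟩, Int.fract_nonneg t, (Int.fract_lt_one t).le⟩)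
    (le_max_left _ _)

theorem c'_bd (h : CalT β F mF MF A κ B k0 len c c' ct) (σ t : ℝ) : ‖c' σ t‖ ≤ mF⁻¹ := by
  have h1 := (h.fins t).low (c σ t) (c' σ t)
  simp only [h.unit σ t] at h1
  have h2 := (h.fins t).mF_pos
  rw [← one_div, le_div_iff₀ h2]
  linarith [mul_comm ‖c' σ t‖ mF]

theorem κ_cont (h : CalT β F mF MF A κ B k0 len c c' ct) : Continuous κ := by
  have : LipschitzWith ⟨A, h.A_pos.le⟩ κ := LipschitzWith.of_dist_le_mul fun x y => by
    rw [Real.dist_eq, Real.dist_eq]; exact h.κ_lip x y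
  exact this.continuous

theorem κ_pos' (h : CalT β F mF MF A κ B k0 len c c' ct) (t : ℝ) : 0 < κ t := by
  by_contra h1
  push Not at h1
  have := h.κ_pos t
  have := mul_nonpos_of_nonneg_of_nonpos h.A_pos.le h1
  linarith

theorem κ_inv_le (h : CalT β F mF MF A κ B k0 len c c' ct) (t : ℝ) : (κ t)⁻¹ ≤ A := by
  rw [inv_le_iff_one_le_mul₀ (κ_pos' h t)]
  exact h.κ_pos t

theorem le_κ_inv (h : CalT β F mF MF A κ B k0 len c c' ct) (t : ℝ) : A⁻¹ ≤ (κ t)⁻¹ :=
  inv_anti₀ (κ_pos' h t) (h.κ_le t)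

/-- pointwise bounds at the velocity `σ' c' + ct` -/
theorem pointwise (h : CalT β F mF MF A κ B k0 len c c' ct) {ε1 δ C1 : ℝ} (hε1 : 0 < ε1)
    (hδ : ∀ σ t w, ‖w‖ ≤ δ →
      F (c σ t) (c' σ t + w) t - fderiv ℝ (fun y => B y t) (c σ t) (c' σ t + w) ≤ ε1 * ‖w‖)
    (hct : ∀ σ t, ‖ct σ t‖ ≤ C1) {a s : ℝ} (ha : 0 < a) (ha1 : a ≤ 1) (hs : 0 < s)
    (hw : A * C1 ≤ δ * (a * s)) (σ r : ℝ) :
    |κ r * F (c σ r) ((a * s * (κ r)⁻¹) • c' σ r + ct σ r) r - s| ≤ (MF + ε1) * (A * C1) + s * (1 - a) ∧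
    0 ≤ F (c σ r) ((a * s * (κ r)⁻¹) • c' σ r + ct σ r) r -
      fderiv ℝ (fun y => B y r) (c σ r) ((a * s * (κ r)⁻¹) • c' σ r + ct σ r) ∧
    F (c σ r) ((a * s * (κ r)⁻¹) • c' σ r + ct σ r) r -
      fderiv ℝ (fun y => B y r) (c σ r) ((a * s * (κ r)⁻¹) • c' σ r + ct σ r) ≤ ε1 * C1 := by
  have hκ := κ_pos' h r
  have has : 0 < a * s := mul_pos ha hs
  have hv : 0 < a * s * (κ r)⁻¹ := mul_pos has (inv_pos.2 hκ)
  set v := a * s * (κ r)⁻¹ with hvd
  set w := v⁻¹ • ct σ r with hwd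
  have e1 : v • c' σ r + ct σ r = v • (c' σ r + w) := by
    rw [hwd, smul_add, smul_smul, mul_inv_cancel₀ hv.ne', one_smul]
  have hnw : ‖w‖ = κ r * ‖ct σ r‖ / (a * s) := by
    rw [hwd, norm_smul, norm_inv, Real.norm_of_nonneg hv.le, hvd, mul_inv, inv_inv]
    field_simp
  have hC1 : 0 ≤ C1 := le_trans (norm_nonneg _) (hct σ r)
  have hasw : a * s * ‖w‖ ≤ A * C1 := by
    rw [hnw]
    have : a * s * (κ r * ‖ct σ r‖ / (a * s)) = κ r * ‖ct σ r‖ := by field_simp
    rw [this]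
    exact mul_le_mul (h.κ_le r) (hct σ r) (norm_nonneg _) h.A_pos.le
  have hwδ : ‖w‖ ≤ δ := by
    have : a * s * ‖w‖ ≤ a * s * δ := by linarith [mul_comm δ (a * s)]
    exact le_of_mul_le_mul_left this has
  have h1 := hδ σ r w hwδ
  have h2 := h.B_le (c σ r) (c' σ r + w) r
  have h3 : fderiv ℝ (fun y => B y r) (c σ r) (c' σ r + w) = 1 + fderiv ℝ (fun y => B y r) (c σ r) w := by
    rw [map_add, h.cal]
  have h4 : fderiv ℝ (fun y => B y r) (c σ r) w ≤ MF * ‖w‖ := (h.B_le _ w r).trans ((h.fins r).upp _ w)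
  have h5 : -(MF * ‖w‖) ≤ fderiv ℝ (fun y => B y r) (c σ r) w := by
    have h6 := (h.B_le (c σ r) (-w) r).trans ((h.fins r).upp _ (-w))
    rw [map_neg, norm_neg] at h6
    linarith
  have h7 : F (c σ r) (v • (c' σ r + w)) r = v * F (c σ r) (c' σ r + w) r := (h.fins r).hom _ _ v hv.le
  have h8 : fderiv ℝ (fun y => B y r) (c σ r) (v • (c' σ r + w)) =
      v * fderiv ℝ (fun y => B y r) (c σ r) (c' σ r + w) := by rw [map_smul, smul_eq_mul]
  have hκv : κ r * v = a * s := by rw [hvd]; field_simp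
  rw [e1, h7, h8]
  refine ⟨?_, ?_, ?_⟩
  · have e2 : κ r * (v * F (c σ r) (c' σ r + w) r) - s =
        a * s * (F (c σ r) (c' σ r + w) r - 1) - s * (1 - a) := by
      rw [← mul_assoc, hκv]; ring
    rw [e2]
    have h9 : |F (c σ r) (c' σ r + w) r - 1| ≤ (MF + ε1) * ‖w‖ := by
      rw [abs_le]
      constructor <;> nlinarith [norm_nonneg w]
    have hMF : 0 ≤ MF := (h.fins 0).mF_pos.le.trans (h.fins 0).mF_le
    have h10 : |a * s * (F (c σ r) (c' σ r + w) r - 1)| ≤ (MF + ε1) * (A * C1) := by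
      rw [abs_mul, abs_of_pos has]
      calc a * s * |F (c σ r) (c' σ r + w) r - 1| ≤ a * s * ((MF + ε1) * ‖w‖) :=
            mul_le_mul_of_nonneg_left h9 has.le
        _ = (MF + ε1) * (a * s * ‖w‖) := by ring
        _ ≤ _ := mul_le_mul_of_nonneg_left hasw (by linarith)
    have h11 : |s * (1 - a)| = s * (1 - a) := abs_of_nonneg (mul_nonneg hs.le (by linarith))
    calc _ ≤ |a * s * (F (c σ r) (c' σ r + w) r - 1)| + |s * (1 - a)| := abs_sub _ _
      _ ≤ _ := by rw [h11]; linarith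
  · rw [← mul_sub]
    exact mul_nonneg hv.le (by linarith)
  · rw [← mul_sub]
    calc _ ≤ v * (ε1 * ‖w‖) := mul_le_mul_of_nonneg_left h1 hv.le
      _ = ε1 * ‖ct σ r‖ := by
        rw [hwd, norm_smul, norm_inv, Real.norm_of_nonneg hv.le]
        field_simp
      _ ≤ _ := mul_le_mul_of_nonneg_left (hct σ r) hε1.le

end B1

/-- high speed curves follow the moving curve -/
theorem gdT_anc (h : CalT β F mF MF A κ B k0 len c c' ct) (g : E) (ε : ℝ) (hε : 0 < ε) : ∃ s0 : ℝ, 1 ≤ s0 ∧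
    ∀ s, s0 ≤ s → ∀ t t', 1 / 32 ≤ t' - t → t' - t ≤ 4 →
    ∃ (u : ℝ → E) (n : Fin 1 → ℤ), Adm u ∧
      traj t (c 0 t) u t' = c 0 t' + lv (gdT β F mF MF A κ B k0 len c g).b n ∧
      ∫ r in t..t', (κ r * F (traj t (c 0 t) u r) (u r) r - s) ^ 2 ≤ ε * s ∧
      (gdT β F mF MF A κ B k0 len c g).exc t t' (c 0 t) u ≤ ε := by
  obtain ⟨C1, hC1, hct⟩ := B1.ct_bd h
  have hA := h.A_pos
  have hlen := h.len_pos
  have hMF : 0 ≤ MF := (h.fins 0).mF_pos.le.trans (h.fins 0).mF_le
  set ε1 := ε / (4 * (C1 + 1)) with hε1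
  have hε1p : 0 < ε1 := by positivity
  obtain ⟨δ, hδ, hδ2⟩ := h.tan ε1 hε1p
  set C2 : ℝ := (MF + ε1) * (A * C1) + 32 * A * len with hC2
  have hC2p : 0 ≤ C2 := by positivity
  refine ⟨max 1 (max (64 * A * len) (max (2 * A * C1 / δ) (4 * C2 ^ 2 / ε))), le_max_left _ _, ?_⟩
  intro s hs t t' ht1 ht2
  have hs1 : 1 ≤ s := (le_max_left _ _).trans hs
  have hs2 : 64 * A * len ≤ s := ((le_max_left _ _).trans (le_max_right _ _)).trans hs
  have hs3 : 2 * A * C1 / δ ≤ s :=
    ((le_max_left _ _).trans ((le_max_right _ _).trans (le_max_right _ _))).trans hs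
  have hs4 : 4 * C2 ^ 2 / ε ≤ s :=
    ((le_max_right _ _).trans ((le_max_right _ _).trans (le_max_right _ _))).trans hs
  have hsp : 0 < s := by linarith
  have htt : t ≤ t' := by linarith
  have hκc := B1.κ_cont h
  have hκi : Continuous (fun r => (κ r)⁻¹) := hκc.inv₀ fun r => (B1.κ_pos' h r).ne'
  set J := ∫ x in t..t', (κ x)⁻¹ with hJ
  have hJ1 : 1 / (32 * A) ≤ J := by
    have h1 : ∫ x in t..t', A⁻¹ ≤ J :=
      intervalIntegral.integral_mono_on htt (by simp) (hκi.intervalIntegrable _ _)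
        fun x _ => B1.le_κ_inv h x
    rw [intervalIntegral.integral_const, smul_eq_mul] at h1
    have h2 : 1 / (32 * A) = (1 / 32) * A⁻¹ := by field_simp
    rw [h2]
    exact (mul_le_mul_of_nonneg_right ht1 (inv_pos.2 hA).le).trans h1
  have hJp : 0 < J := lt_of_lt_of_le (by positivity) hJ1
  have hsJ : 0 < s * J := mul_pos hsp hJp
  have hsJ1 : s ≤ 32 * A * (s * J) := by
    have : 1 ≤ 32 * A * J := by
      rw [div_le_iff₀ (by positivity)] at hJ1
      linarith [mul_comm J (32 * A)]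
    nlinarith
  set N := ⌊s * J / len⌋₊ with hN
  have hN1 : (N : ℝ) * len ≤ s * J := by
    have := Nat.floor_le (div_nonneg hsJ.le hlen.le)
    rwa [le_div_iff₀ hlen] at this
  have hN2 : s * J - len < (N : ℝ) * len := by
    have := Nat.lt_floor_add_one (s * J / len)
    rw [div_lt_iff₀ hlen] at this
    linarith
  set a := (N : ℝ) * len / (s * J) with ha
  have ha1 : a ≤ 1 := by rw [ha, div_le_one hsJ]; exact hN1
  have ha2 : s * (1 - a) ≤ 32 * A * len := by
    have e1 : 1 - a = (s * J - N * len) / (s * J) := by rw [ha]; field_simp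
    rw [e1, mul_div_assoc', div_le_iff₀ hsJ]
    calc s * (s * J - N * len) ≤ s * len := mul_le_mul_of_nonneg_left (by linarith) hsp.le
      _ ≤ (32 * A * (s * J)) * len := mul_le_mul_of_nonneg_right hsJ1 hlen.le
      _ = _ := by ring
  have ha3 : 1 / 2 ≤ a := by
    have : s * (1 - a) ≤ s * (1 / 2) := by linarith
    have := le_of_mul_le_mul_left this hsp
    linarith
  have hap : 0 < a := by linarith
  have hw : A * C1 ≤ δ * (a * s) := by
    rw [div_le_iff₀ hδ] at hs3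
    have : δ * s * (1 / 2) ≤ δ * s * a := mul_le_mul_of_nonneg_left ha3 (by positivity)
    nlinarith
  have hpt := fun σ r => B1.pointwise h hε1p hδ2 hct hap ha1 hsp hw σ r
  set σ : ℝ → ℝ := fun r => a * s * ∫ x in t..r, (κ x)⁻¹ with hσ
  have hσd : ∀ r, HasDerivAt σ (a * s * (κ r)⁻¹) r := fun r =>
    ((hκi.integral_hasStrictDerivAt t r).hasDerivAt).const_mul _
  have hσc : Continuous σ := continuous_iff_continuousAt.2 fun r => (hσd r).continuousAt
  set u : ℝ → E := fun r => (a * s * (κ r)⁻¹) • c' (σ r) r + ct (σ r) r with hu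
  have huc : Continuous u := by
    have h1 : Continuous (fun r => c' (σ r) r) := h.c'_cont.comp (hσc.prodMk continuous_id)
    have h2 : Continuous (fun r => ct (σ r) r) := h.ct_cont.comp (hσc.prodMk continuous_id)
    exact ((continuous_const.mul hκi).smul h1).add h2
  have huA : Adm u := by
    refine ⟨huc.stronglyMeasurable, a * s * A * mF⁻¹ + C1, fun r => ?_⟩
    refine (norm_add_le _ _).trans (add_le_add ?_ (hct _ _))
    rw [norm_smul, Real.norm_of_nonneg (by have := B1.κ_pos' h r; positivity)]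
    exact mul_le_mul (mul_le_mul_of_nonneg_left (B1.κ_inv_le h r) (by positivity)) (B1.c'_bd h _ _)
      (norm_nonneg _) (by positivity)
  have hσt : σ t = 0 := by simp [hσ]
  have htr : ∀ r, traj t (c 0 t) u r = c (σ r) r := by
    intro r
    have h1 : ∫ x in t..r, u x = c (σ r) r - c (σ t) t :=
      intervalIntegral.integral_eq_sub_of_hasDerivAt (fun x _ => B1.chain h (hσd x))
        (huc.intervalIntegrable _ _)
    rw [traj, h1, hσt]
    abel
  refine ⟨u, fun _ => (N : ℤ), huA, ?_, ?_, ?_⟩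
  · rw [htr]
    have e1 : σ t' = 0 + N * len := by
      rw [zero_add]
      show a * s * J = _
      rw [ha]; field_simp
    rw [e1, B1.closed_nat h]
    simp [lv, gdT]
  · have h1 : ∀ r ∈ uIoc t t', ‖(κ r * F (traj t (c 0 t) u r) (u r) r - s) ^ 2‖ ≤ C2 ^ 2 := by
      intro r _
      rw [htr, Real.norm_of_nonneg (sq_nonneg _), ← sq_abs]
      refine pow_le_pow_left₀ (abs_nonneg _) ?_ 2
      exact ((hpt (σ r) r).1).trans (by rw [hC2]; linarith)
    have h2 := intervalIntegral.norm_integral_le_of_norm_le_const h1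
    have h3 : |t' - t| ≤ 4 := by rw [abs_of_nonneg (by linarith)]; exact ht2
    calc _ ≤ C2 ^ 2 * |t' - t| := (Real.le_norm_self _).trans h2
      _ ≤ C2 ^ 2 * 4 := mul_le_mul_of_nonneg_left h3 (sq_nonneg _)
      _ ≤ ε * s := by
        rw [div_le_iff₀ hε] at hs4
        linarith
  · have h1 : ∀ r ∈ uIoc t t', ‖F (traj t (c 0 t) u r) (u r) r -
        fderiv ℝ (fun y => B y r) (traj t (c 0 t) u r) (u r)‖ ≤ ε1 * C1 := by
      intro r _
      rw [htr, Real.norm_of_nonneg (hpt (σ r) r).2.1]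
      exact (hpt (σ r) r).2.2
    have h2 := intervalIntegral.norm_integral_le_of_norm_le_const h1
    have h3 : |t' - t| ≤ 4 := by rw [abs_of_nonneg (by linarith)]; exact ht2
    have e1 : (gdT β F mF MF A κ B k0 len c g).exc t t' (c 0 t) u = ∫ r in t..t',
        (F (traj t (c 0 t) u r) (u r) r - fderiv ℝ (fun y => B y r) (traj t (c 0 t) u r) (u r)) := rfl
    rw [e1]
    calc _ ≤ ε1 * C1 * |t' - t| := (Real.le_norm_self _).trans h2
      _ ≤ ε1 * C1 * 4 := mul_le_mul_of_nonneg_left h3 (by positivity)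
      _ ≤ ε := by
        rw [hε1]
        have : ε / (4 * (C1 + 1)) * C1 * 4 = ε * (C1 / (C1 + 1)) := by field_simp
        rw [this]
        have h4 : C1 / (C1 + 1) ≤ 1 := by rw [div_le_one (by linarith)]; linarith
        nlinarith

end B

end EscT
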