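import Pool.Agent.EscT.TDefs
import Pool.Agent.EscT.B1
import Pool.Agent.EscG.B1
import Pool.Agent.EscG.B2

/-!
Project EscT, module B2: a moving simple closed curve, calibrated by closed one-forms, satisfies the basic
hypotheses.
-/

noncomputable section

set_option linter.unusedSectionVars false

namespace EscT

open MeasureTheory Set Filter Topology Esc EscF EscG
open scoped ContDiff

section B

variable {ι : Type} [Fintype ι] {d : ℕ} {E : Type*} [NormedAddCommGroup E] [InnerProductSpace ℝ E]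
  [FiniteDimensional ℝ E] {D : GT ι d E} {p : GP} {m M Mf : ℝ} {L : LP} {ll l : E → E → ℝ → ℝ}
  {f f' : E → ℝ → ℝ}
variable {β : Module.Basis ι ℝ E} {F : E → E → ℝ → ℝ} {mF MF A : ℝ} {κ : ℝ → ℝ} {B : E → ℝ → ℝ} {k0 : ι}
  {len : ℝ} {c c' ct : ℝ → ℝ → E}

namespace B2

theorem mono (h : CalT β F mF MF A κ B k0 len c c' ct) {A' : ℝ} (hA : A ≤ A') :
    CalT β F mF MF A' κ B k0 len c c' ct :=
  { h with
    A_pos := h.A_pos.trans_le hA
    F_lip := fun x v t t' => (h.F_lip x v t t').trans (by gcongr)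
    κ_pos := fun t => by
      have h1 := h.κ_pos t
      have h2 : 0 < κ t := by
        by_contra h3
        have h4 : A * κ t ≤ 0 := mul_nonpos_of_nonneg_of_nonpos h.A_pos.le (not_lt.1 h3)
        linarith
      exact h1.trans (mul_le_mul_of_nonneg_right hA h2.le)
    κ_le := fun t => (h.κ_le t).trans hA
    κ_lip := fun t t' => (h.κ_lip t t').trans (by gcongr)
    B_dlip := fun x v t t' => (h.B_dlip x v t t').trans (by gcongr) }

theorem frz (h : CalT β F mF MF A κ B k0 len c c' ct) (t : ℝ) :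
    CalC β (fun x v => F x v t) mF MF (fun x => B x t) k0 len (fun σ => c σ t) (fun σ => c' σ t) where
  fins := h.fins t
  smooth := h.B_smooth.comp (contDiff_id.prodMk contDiff_const)
  per i := by
    obtain ⟨a, ha⟩ := h.B_per i
    exact ⟨a, fun x => ha x t⟩
  le x v := h.B_le x v t
  len_pos := h.len_pos
  hasDeriv σ := h.c_σ σ t
  contDeriv := h.c'_cont.comp (continuous_id.prodMk continuous_const)
  closed σ := h.closed σ t
  unit σ := h.unit σ t
  cal σ := h.cal σ t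
  only x v hv he := h.only x v t hv he
  simple s s' hs := h.simple s s' t hs

section

variable (h : CalT β F mF MF A κ B k0 len c c' ct)
include h

theorem c_int (n : ℤ) (σ t : ℝ) : c (σ + n * len) t = c σ t + (n:ℝ) • β k0 :=
  EscG.B2.c_int (frz h t) n σ

theorem c_per_int (n : ℤ) (σ t : ℝ) : c σ (t + n) = c σ t := by
  have h1 : Function.Periodic (fun t => c σ t) 1 := fun t => h.c_per σ t
  have h2 := h1.int_mul n t
  simpa using h2

theorem ct_σ (n : ℤ) (σ t : ℝ) : ct (σ + n * len) t = ct σ t := by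
  have h1 := h.c_t (σ + n * len) t
  have h2 : (fun t => c (σ + n * len) t) = fun t => c σ t + (n:ℝ) • β k0 :=
    funext fun t => c_int h n σ t
  rw [h2] at h1
  exact h1.unique ((h.c_t σ t).add_const _)

theorem ct_t (n : ℤ) (σ t : ℝ) : ct σ (t + n) = ct σ t := by
  have h1 := h.c_t σ (t + n)
  have h3 := HasDerivAt.comp_add_const t (n : ℝ) h1
  have h2 : (fun x => c σ (x + n)) = fun t => c σ t := funext fun t => c_per_int h n σ t
  rw [h2] at h3
  exact h3.unique (h.c_t σ t)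

theorem c_red (σ : ℝ) : ∃ s ∈ Icc 0 len, ∃ n : ℤ, σ = s + n * len :=
  EscG.B2.c_red (frz h 0) σ

theorem ct_bd : ∃ K : ℝ, 0 ≤ K ∧ ∀ σ t, ‖ct σ t‖ ≤ K := by
  obtain ⟨K, hK⟩ := ((isCompact_Icc (a := (0:ℝ)) (b := len)).prod
    (isCompact_Icc (a := (0:ℝ)) (b := 1))).exists_bound_of_continuousOn h.ct_cont.continuousOn
  refine ⟨max K 0, le_max_right _ _, fun σ t => ?_⟩
  obtain ⟨s, hs, n, hn⟩ := c_red h σ
  have h1 : t = Int.fract t + (⌊t⌋ : ℤ) := (Int.fract_add_floor t).symm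
  rw [hn, ct_σ h, h1, ct_t h]
  exact (hK (s, Int.fract t) ⟨hs, Int.fract_nonneg t, (Int.fract_lt_one t).le⟩).trans (le_max_left _ _)

theorem c_lip_t : ∃ K : ℝ, 0 ≤ K ∧ ∀ σ t t', ‖c σ t - c σ t'‖ ≤ K * |t - t'| := by
  obtain ⟨K, hK0, hK⟩ := ct_bd h
  refine ⟨K, hK0, fun σ t t' => ?_⟩
  have h1 := Convex.norm_image_sub_le_of_norm_hasDerivWithin_le (f := fun t => c σ t)
    (f' := fun t => ct σ t) (s := Set.univ) (x := t') (y := t) (C := K)
    (fun x _ => (h.c_t σ x).hasDerivWithinAt) (fun x _ => hK σ x) convex_univ (mem_univ _) (mem_univ _)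
  rwa [Real.norm_eq_abs] at h1

theorem c_lip_σ (σ σ' t : ℝ) : ‖c σ t - c σ' t‖ ≤ mF⁻¹ * |σ - σ'| := by
  have h1 := Convex.norm_image_sub_le_of_norm_hasDerivWithin_le (f := fun σ => c σ t)
    (f' := fun σ => c' σ t) (s := Set.univ) (x := σ') (y := σ) (C := mF⁻¹)
    (fun x _ => (h.c_σ x t).hasDerivWithinAt) (fun x _ => EscG.B2.c'_bd (frz h t) x) convex_univ
    (mem_univ _) (mem_univ _)
  rwa [Real.norm_eq_abs] at h1

theorem c_cont : Continuous fun q : ℝ × ℝ => c q.1 q.2 := by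
  obtain ⟨K, hK0, hK⟩ := c_lip_t h
  rw [continuous_iff_continuousAt]
  intro q
  have hm : 0 ≤ mF⁻¹ := inv_nonneg.2 (h.fins 0).mF_pos.le
  have h1 : Tendsto (fun q' : ℝ × ℝ => mF⁻¹ * |q'.1 - q.1| + K * |q'.2 - q.2|) (𝓝 q) (𝓝 0) := by
    have h2 : Continuous fun q' : ℝ × ℝ => mF⁻¹ * |q'.1 - q.1| + K * |q'.2 - q.2| := by fun_prop
    have h3 := h2.tendsto q
    simpa using h3
  refine tendsto_iff_norm_sub_tendsto_zero.2 (squeeze_zero (fun _ => norm_nonneg _) (fun q' => ?_) h1)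
  have e : c q'.1 q'.2 - c q.1 q.2 = (c q'.1 q'.2 - c q.1 q'.2) + (c q.1 q'.2 - c q.1 q.2) := by abel
  rw [e]
  exact (norm_add_le _ _).trans (add_le_add (c_lip_σ h _ _ _) (hK _ _ _))

theorem c_bd : ∃ ρ : ℝ, ∀ s ∈ Icc 0 len, ∀ t, ‖c s t‖ ≤ ρ := by
  obtain ⟨ρ, hρ⟩ := ((isCompact_Icc (a := (0:ℝ)) (b := len)).prod
    (isCompact_Icc (a := (0:ℝ)) (b := 1))).exists_bound_of_continuousOn (c_cont h).continuousOn
  refine ⟨ρ, fun s hs t => ?_⟩
  have h1 : t = Int.fract t + (⌊t⌋ : ℤ) := (Int.fract_add_floor t).symm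
  rw [h1, c_per_int h]
  exact hρ (s, Int.fract t) ⟨hs, Int.fract_nonneg t, (Int.fract_lt_one t).le⟩

/-! ### the moving class -/

theorem Z_int (n : ℤ) (t : ℝ) : (Set.range fun σ => c σ (t + n)) = Set.range fun σ => c σ t := by
  have e : (fun σ => c σ (t + n)) = fun σ => c σ t := funext fun σ => c_per_int h n σ t
  rw [e]

theorem inf_lip {K : ℝ} (hK : ∀ σ t t', ‖c σ t - c σ t'‖ ≤ K * |t - t'|) (y : E) (t t' : ℝ) :
    Metric.infDist y (Set.range fun σ => c σ t') ≤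
      Metric.infDist y (Set.range fun σ => c σ t) + K * |t - t'| := by
  have hne : (Set.range fun σ => c σ t).Nonempty := ⟨_, ⟨0, rfl⟩⟩
  rw [← sub_le_iff_le_add]
  rw [Metric.le_infDist hne]
  rintro _ ⟨σ, rfl⟩
  have h1 : Metric.infDist y (Set.range fun σ => c σ t') ≤ dist y (c σ t') :=
    Metric.infDist_le_dist_of_mem ⟨σ, rfl⟩
  have h2 := dist_triangle y (c σ t) (c σ t')
  have h3 : dist (c σ t) (c σ t') ≤ K * |t - t'| := by
    rw [dist_eq_norm]
    exact hK σ t t'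
  simp only
  linarith

theorem inf_cont : Continuous fun q : E × ℝ => Metric.infDist q.1 (Set.range fun σ => c σ q.2) := by
  obtain ⟨K, hK0, hK⟩ := c_lip_t h
  rw [continuous_iff_continuousAt]
  intro q
  have h1 : Tendsto (fun q' : E × ℝ => dist q'.1 q.1 + K * |q'.2 - q.2|) (𝓝 q) (𝓝 0) := by
    have h2 : Continuous fun q' : E × ℝ => dist q'.1 q.1 + K * |q'.2 - q.2| := by fun_prop
    have h3 := h2.tendsto q
    simpa using h3
  refine tendsto_iff_norm_sub_tendsto_zero.2 (squeeze_zero (fun _ => norm_nonneg _) (fun q' => ?_) h1)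
  rw [Real.norm_eq_abs, abs_le]
  have a1 := inf_lip h hK q'.1 q.2 q'.2
  have a2 := inf_lip h hK q'.1 q'.2 q.2
  have a3 := Metric.infDist_le_infDist_add_dist (s := Set.range fun σ => c σ q.2) (x := q'.1) (y := q.1)
  have a4 := Metric.infDist_le_infDist_add_dist (s := Set.range fun σ => c σ q.2) (x := q.1) (y := q'.1)
  rw [abs_sub_comm] at a1
  rw [dist_comm q.1 q'.1] at a4
  constructor <;> linarith

theorem sep : ∃ δ : ℝ, 0 < δ ∧ ∀ t, ∀ v ∈ Submodule.span ℤ (Set.range β),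
    (¬ ∃ n : Fin 1 → ℤ, v = lv (fun _ : Fin 1 => β k0) n) → ∀ x ∈ Set.range (fun σ => c σ t),
      δ ≤ Metric.infDist (x + v) (Set.range fun σ => c σ t) := by
  obtain ⟨ρ, hρ⟩ := c_bd h
  set Λ := Submodule.span ℤ (Set.range β) with hΛ
  have hk0 : β k0 ∈ Λ := Submodule.subset_span ⟨k0, rfl⟩
  set S : Set E := Metric.closedBall 0 (1 + 2 * ρ) ∩ (Λ : Set E) with hS
  have hSf : S.Finite := ZSpan.setFinite_inter β Metric.isBounded_closedBall
  set K : Set (ℝ × ℝ) := Icc 0 len ×ˢ Icc 0 1 with hK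
  have hKc : IsCompact K := isCompact_Icc.prod isCompact_Icc
  have hKne : K.Nonempty := ⟨(0, 0), ⟨le_rfl, h.len_pos.le⟩, ⟨le_rfl, zero_le_one⟩⟩
  have hone : ∀ v : E, ∃ δ : ℝ, 0 < δ ∧ (v ∈ Λ → (¬ ∃ n : Fin 1 → ℤ, v = lv (fun _ : Fin 1 => β k0) n) →
      ∀ q ∈ K, δ ≤ Metric.infDist (c q.1 q.2 + v) (Set.range fun σ => c σ q.2)) := by
    intro v
    by_cases hv : v ∈ Λ ∧ ¬ ∃ n : Fin 1 → ℤ, v = lv (fun _ : Fin 1 => β k0) n
    · have hcont : Continuous fun q : ℝ × ℝ =>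
          Metric.infDist (c q.1 q.2 + v) (Set.range fun σ => c σ q.2) :=
        (inf_cont h).comp (((c_cont h).add continuous_const).prodMk continuous_snd)
      obtain ⟨q0, hq0, hmin⟩ := hKc.exists_isMinOn hKne hcont.continuousOn
      refine ⟨Metric.infDist (c q0.1 q0.2 + v) (Set.range fun σ => c σ q0.2), ?_,
        fun _ _ q hq => hmin hq⟩
      have h1 := EscG.B2.Z_disj (frz h q0.2) hv.1 hv.2 (x := c q0.1 q0.2) ⟨q0.1, rfl⟩
      exact ((EscG.B2.Z_closed (frz h q0.2)).notMem_iff_infDist_pos ⟨_, ⟨0, rfl⟩⟩).1 h1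
    · exact ⟨1, one_pos, fun h1 h2 => absurd ⟨h1, h2⟩ hv⟩
  choose δ hδ hδ' using hone
  obtain ⟨δ0, hδ0, hδ0'⟩ : ∃ δ0 : ℝ, 0 < δ0 ∧ ∀ v ∈ S, δ0 ≤ δ v := by
    rcases S.eq_empty_or_nonempty with hE | hE
    · exact ⟨1, one_pos, fun v hv => by rw [hE] at hv; exact hv.elim⟩
    · obtain ⟨v0, -, hmin⟩ := Set.exists_min_image S δ hSf hE
      exact ⟨δ v0, hδ v0, hmin⟩
  refine ⟨min 1 δ0, lt_min one_pos hδ0, fun t v hv hvJ x hx => ?_⟩
  -- reduction of the time
  have ht : t = Int.fract t + (⌊t⌋ : ℤ) := (Int.fract_add_floor t).symm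
  rw [ht, Z_int h] at hx ⊢
  set t0 := Int.fract t with ht0
  have ht01 : t0 ∈ Icc (0:ℝ) 1 := ⟨Int.fract_nonneg t, (Int.fract_lt_one t).le⟩
  have hne : (Set.range fun σ => c σ t0).Nonempty := ⟨_, ⟨0, rfl⟩⟩
  rw [Metric.le_infDist hne]
  intro z hz
  by_contra hc
  push Not at hc
  obtain ⟨σ, rfl⟩ := hx
  obtain ⟨σ', rfl⟩ := hz
  obtain ⟨s, hs, n, hn⟩ := c_red h σ
  obtain ⟨s', hs', n', hn'⟩ := c_red h σ'
  simp only at hc
  have ex : c σ t0 = c s t0 + (n:ℝ) • β k0 := by rw [hn, c_int h]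
  have ez : c σ' t0 = c s' t0 + (n':ℝ) • β k0 := by rw [hn', c_int h]
  set v1 : E := v + ((n - n' : ℤ) : ℝ) • β k0 with hv1
  have hv1L : v1 ∈ Λ := by
    refine Submodule.add_mem _ hv ?_
    rw [Int.cast_smul_eq_zsmul]
    exact Submodule.smul_mem _ _ hk0
  have hv1J : ¬ ∃ n : Fin 1 → ℤ, v1 = lv (fun _ : Fin 1 => β k0) n := by
    rintro ⟨k, hk⟩
    refine hvJ ⟨fun _ => k 0 - (n - n'), ?_⟩
    rw [EscG.B2.lv1 (frz h 0)] at hk ⊢
    have e1 : v = v1 - ((n - n' : ℤ) : ℝ) • β k0 := by rw [hv1, add_sub_cancel_right]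
    rw [e1, hk, ← sub_smul]
    push_cast
    rfl
  have e1 : (c s t0 + v1) - c s' t0 = c σ t0 + v - c σ' t0 := by
    rw [hv1, ex, ez]
    push_cast
    rw [sub_smul]
    abel
  have hd : dist (c s t0 + v1) (c s' t0) = dist (c σ t0 + v) (c σ' t0) := by
    rw [dist_eq_norm, dist_eq_norm, e1]
  have hv1S : v1 ∈ S := by
    refine ⟨?_, hv1L⟩
    rw [mem_closedBall_zero_iff]
    have e2 : v1 = (c σ t0 + v - c σ' t0) - c s t0 + c s' t0 := by
      rw [← e1]
      abel
    have e3 : ‖c σ t0 + v - c σ' t0‖ < 1 := by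
      rw [← dist_eq_norm]
      exact hc.trans_le (min_le_left _ _)
    have e4 : ‖v1‖ ≤ ‖c σ t0 + v - c σ' t0‖ + ‖c s t0‖ + ‖c s' t0‖ := by
      conv_lhs => rw [e2]
      exact (norm_add_le _ _).trans (add_le_add_left (norm_sub_le _ _) _)
    have e5 := hρ s hs t0
    have e6 := hρ s' hs' t0
    linarith
  have h2 := hδ' v1 hv1L hv1J (s, t0) ⟨hs, ht01⟩
  have h3 := Metric.infDist_le_dist_of_mem (x := c s t0 + v1) (s := Set.range fun σ => c σ t0)
    ⟨s', rfl⟩
  have h4 := hδ0' v1 hv1S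
  rw [hd] at h3
  have h5 := min_le_right 1 δ0
  linarith

/-! ### the one-form -/

theorem dB_eq (x v : E) (t : ℝ) : fderiv ℝ (fun y => B y t) x v =
    fderiv ℝ (fun q : E × ℝ => B q.1 q.2) (x, t) (v, 0) := by
  have h1 : HasFDerivAt (fun q : E × ℝ => B q.1 q.2)
      (fderiv ℝ (fun q : E × ℝ => B q.1 q.2) (x, t)) (x, t) :=
    (h.B_smooth.differentiable one_ne_zero).differentiableAt.hasFDerivAt
  have h2 : HasFDerivAt (fun y : E => (y, t)) (ContinuousLinearMap.inl ℝ E ℝ) x :=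
    hasFDerivAt_prodMk_left x t
  have h3 := h1.comp x h2
  have h4 : (fun q : E × ℝ => B q.1 q.2) ∘ (fun y : E => (y, t)) = fun y => B y t := rfl
  rw [h4] at h3
  rw [h3.fderiv]
  rfl

theorem dB_cont : Continuous fun q : (E × E) × ℝ => fderiv ℝ (fun y => B y q.2) q.1.1 q.1.2 := by
  have e : (fun q : (E × E) × ℝ => fderiv ℝ (fun y => B y q.2) q.1.1 q.1.2) =
      fun q : (E × E) × ℝ => fderiv ℝ (fun q : E × ℝ => B q.1 q.2) (q.1.1, q.2) (q.1.2, 0) :=
    funext fun q => dB_eq h _ _ _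
  rw [e]
  have h1 : Continuous fun q : (E × E) × ℝ => ((q.1.1, q.2) : E × ℝ) := by fun_prop
  have h2 : Continuous fun q : (E × E) × ℝ => ((q.1.2, 0) : E × ℝ) := by fun_prop
  exact ((h.B_smooth.continuous_fderiv one_ne_zero).comp h1).clm_apply h2

theorem B_int (n : ℤ) (x : E) (t : ℝ) : B x (t + n) = B x t := by
  have h1 : Function.Periodic (fun t => B x t) 1 := fun t => h.B_pert x t
  have h2 := h1.int_mul n t
  simpa using h2

theorem F_int (n : ℤ) (x v : E) (t : ℝ) : F x v (t + n) = F x v t := by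
  have h1 : Function.Periodic (fun t => F x v t) 1 := fun t => h.F_per x v t
  have h2 := h1.int_mul n t
  simpa using h2

theorem B_Lam {v : E} (hv : v ∈ Submodule.span ℤ (Set.range β)) :
    ∃ a : ℝ, ∀ x t, B (x + v) t = B x t + a := by
  induction hv using Submodule.span_induction with
  | mem x hx =>
    obtain ⟨i, rfl⟩ := hx
    exact h.B_per i
  | zero => exact ⟨0, fun x t => by simp⟩
  | add u w _ _ h1 h2 =>
    obtain ⟨a1, h1⟩ := h1
    obtain ⟨a2, h2⟩ := h2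
    refine ⟨a1 + a2, fun x t => ?_⟩
    rw [← add_assoc, h2, h1, add_assoc]
  | smul n u _ h1 =>
    obtain ⟨a1, h1⟩ := h1
    exact ⟨n * a1, fun x t => EscG.B2.zsmul_per (B := fun y => B y t) (fun y => h1 y t) n x⟩

theorem strict_pt {η : ℝ} (hη : 0 < η) : ∃ θ : ℝ, 0 < θ ∧ θ ≤ 1 ∧
    ∀ x v t, (∀ w ∈ Submodule.span ℤ (Set.range β), η ≤ Metric.infDist (x + w)
      (Set.range fun σ => c σ t)) → fderiv ℝ (fun y => B y t) x v ≤ (1 - θ) * F x v t := by
  have hMF : 0 < MF := (h.fins 0).mF_pos.trans_le (h.fins 0).mF_le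
  set R : ℝ := ∑ i, ‖β i‖ with hR
  set O : Set (E × ℝ) := {q | ∀ w ∈ Submodule.span ℤ (Set.range β), η ≤ Metric.infDist (q.1 + w)
      (Set.range fun σ => c σ q.2)} with hO
  have hOc : IsClosed O := by
    have e : O = ⋂ w ∈ Submodule.span ℤ (Set.range β), {q : E × ℝ | η ≤ Metric.infDist (q.1 + w)
        (Set.range fun σ => c σ q.2)} := by
      ext q
      simp only [hO, Set.mem_iInter]
      rfl
    rw [e]
    refine isClosed_biInter fun w _ => isClosed_le continuous_const ?_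
    exact (inf_cont h).comp ((continuous_fst.add continuous_const).prodMk continuous_snd)
  have hK : IsCompact ((O ∩ (Metric.closedBall (0 : E) R ×ˢ Icc (0:ℝ) 1)) ×ˢ
      Metric.sphere (0:E) 1) :=
    (((isCompact_closedBall 0 R).prod isCompact_Icc).inter_left hOc).prod (isCompact_sphere 0 1)
  have hcont : Continuous fun q : (E × ℝ) × E =>
      F q.1.1 q.2 q.1.2 - fderiv ℝ (fun y => B y q.1.2) q.1.1 q.2 := by
    have h1 : Continuous fun q : (E × ℝ) × E => F q.1.1 q.2 q.1.2 :=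
      h.F_cont.comp (by fun_prop : Continuous fun q : (E × ℝ) × E => ((q.1.1, q.2, q.1.2) : E × E × ℝ))
    have h2 : Continuous fun q : (E × ℝ) × E => fderiv ℝ (fun y => B y q.1.2) q.1.1 q.2 :=
      (dB_cont h).comp (by fun_prop : Continuous fun q : (E × ℝ) × E =>
        (((q.1.1, q.2), q.1.2) : (E × E) × ℝ))
    exact h1.sub h2
  obtain ⟨δ, hδ, hδ'⟩ := hK.exists_forall_le' (a := 0) hcont.continuousOn (by
    rintro ⟨⟨x, t⟩, v⟩ ⟨⟨hx, -⟩, hv⟩
    simp only at hx hv ⊢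
    have h1 := h.B_le x v t
    rcases h1.lt_or_eq with h1 | h1
    · linarith
    exfalso
    have hv0 : v ≠ 0 := by
      rintro rfl
      simp at hv
    obtain ⟨σ, w, hw, hx'⟩ := h.only x v t hv0 h1
    have h2 : η ≤ Metric.infDist (x + -w) (Set.range fun σ => c σ t) :=
      hx (-w) ((Submodule.span ℤ (Set.range β)).neg_mem hw)
    have h3 : x + -w ∈ Set.range fun σ => c σ t := ⟨σ, by rw [hx', add_neg_cancel_right]⟩
    have h4 : Metric.infDist (x + -w) (Set.range fun σ => c σ t) = 0 :=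
      Metric.infDist_zero_of_mem h3
    linarith)
  refine ⟨min 1 (δ / MF), lt_min one_pos (div_pos hδ hMF), min_le_left _ _, fun x v t hx => ?_⟩
  -- reduction to the compact set
  have ht : t = Int.fract t + (⌊t⌋ : ℤ) := (Int.fract_add_floor t).symm
  set t0 := Int.fract t with ht0
  have ht01 : t0 ∈ Icc (0:ℝ) 1 := ⟨Int.fract_nonneg t, (Int.fract_lt_one t).le⟩
  set y : E := ZSpan.fract β x with hy
  have hw : x - y ∈ Submodule.span ℤ (Set.range β) := by
    rw [hy, ZSpan.fract, sub_sub_cancel]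
    exact (ZSpan.floor β x).2
  have hxy : x = y + (x - y) := by abel
  have hyR : ‖y‖ ≤ R := ZSpan.norm_fract_le β x
  have hyO : (y, t0) ∈ O := by
    intro w hw'
    have h1 := hx (w - (x - y)) ((Submodule.span ℤ (Set.range β)).sub_mem hw' hw)
    have e : x + (w - (x - y)) = y + w := by abel
    rw [e, ht, Z_int h] at h1
    exact h1
  have hF : F x v t = F y v t0 := by
    rw [ht, F_int h]
    conv_lhs => rw [hxy]
    exact EscG.B2.F_Lam (h.fins t0) hw y v
  have hBt : (fun y => B y t) = fun y => B y t0 := funext fun y => by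
    conv_lhs => rw [ht]
    exact B_int h _ y t0
  have hB : fderiv ℝ (fun y => B y t) x = fderiv ℝ (fun y => B y t0) y := by
    rw [hBt]
    conv_lhs => rw [hxy]
    exact EscG.B2.dB_per (frz h t0) hw y
  rw [hF, hB]
  rcases eq_or_ne v 0 with rfl | hv
  · have h0 := (h.fins t0).hom y 0 0 le_rfl
    rw [zero_smul, zero_mul] at h0
    rw [h0, map_zero, mul_zero]
  have hvn : 0 < ‖v‖ := norm_pos_iff.mpr hv
  set e : E := ‖v‖⁻¹ • v with he
  have hen : ‖e‖ = 1 := by
    rw [he, norm_smul, norm_inv, norm_norm, inv_mul_cancel₀ hvn.ne']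
  have hve : v = ‖v‖ • e := by
    rw [he, smul_smul, mul_inv_cancel₀ hvn.ne', one_smul]
  have h1 : δ ≤ F y e t0 - fderiv ℝ (fun y => B y t0) y e :=
    hδ' ((y, t0), e) ⟨⟨hyO, by simpa using hyR, ht01⟩, by simpa using hen⟩
  have h2 : F y v t0 = ‖v‖ * F y e t0 := by
    conv_lhs => rw [hve]
    exact (h.fins t0).hom _ _ _ hvn.le
  have h3 : fderiv ℝ (fun y => B y t0) y v = ‖v‖ * fderiv ℝ (fun y => B y t0) y e := by
    conv_lhs => rw [hve]
    rw [map_smul, smul_eq_mul]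
  have h4 : F y v t0 ≤ MF * ‖v‖ := (h.fins t0).upp y v
  have h5 : 0 ≤ F y v t0 :=
    (mul_nonneg (h.fins t0).mF_pos.le (norm_nonneg _)).trans ((h.fins t0).low y v)
  have h6 : min 1 (δ / MF) * F y v t0 ≤ δ * ‖v‖ := by
    have h7 := mul_le_mul_of_nonneg_right (min_le_right 1 (δ / MF)) h5
    have h8 := mul_le_mul_of_nonneg_left h4 (div_pos hδ hMF).le
    have h9 : δ / MF * (MF * ‖v‖) = δ * ‖v‖ := by
      field_simp
    linarith
  have h10 := mul_le_mul_of_nonneg_left h1 hvn.le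
  nlinarith

/-! ### connections in the class -/

theorem eqv_c (t : ℝ) (σ σ' : ℝ) : ∃ (u : ℝ → E) (n : Fin 1 → ℤ), Adm u ∧
    traj 0 (c σ t) u 1 = c σ' t + lv (fun _ : Fin 1 => β k0) n ∧
    ∫ r in (0:ℝ)..1, F (traj 0 (c σ t) u r) (u r) t ≤ len ∧
    ∫ r in (0:ℝ)..1, (F (traj 0 (c σ t) u r) (u r) t -
      fderiv ℝ (fun y => B y t) (traj 0 (c σ t) u r) (u r)) ≤ 0 := by
  have hl := h.len_pos
  -- the parameter of the end point
  set k : ℤ := ⌈(σ - σ') / len⌉ with hk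
  set T : ℝ := σ' + k * len - σ with hT
  have hT0 : 0 ≤ T := by
    have h1 : (σ - σ') / len ≤ k := Int.le_ceil _
    rw [div_le_iff₀ hl] at h1
    rw [hT]
    linarith
  have hT1 : T ≤ len := by
    have h1 : (k : ℝ) < (σ - σ') / len + 1 := Int.ceil_lt_add_one _
    have h2 : (k : ℝ) * len ≤ ((σ - σ') / len + 1) * len := mul_le_mul_of_nonneg_right h1.le hl.le
    rw [add_mul, div_mul_cancel₀ _ hl.ne', one_mul] at h2
    rw [hT]
    linarith
  set u : ℝ → E := fun r => T • c' (σ + T * r) t with hu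
  have hcd : Continuous fun r => c' (σ + T * r) t := by
    have h1 : Continuous fun r : ℝ => ((σ + T * r, t) : ℝ × ℝ) := by fun_prop
    exact h.c'_cont.comp h1
  have huc : Continuous u := hcd.const_smul T
  have hua : Adm u := by
    refine ⟨huc.stronglyMeasurable, T * mF⁻¹, fun r => ?_⟩
    rw [hu]
    simp only
    rw [norm_smul, Real.norm_eq_abs, abs_of_nonneg hT0]
    exact mul_le_mul_of_nonneg_left (EscG.B2.c'_bd (frz h t) _) hT0
  have hd : ∀ r, HasDerivAt (fun r => c (σ + T * r) t) (u r) r := by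
    intro r
    have h1 : HasDerivAt (fun r : ℝ => σ + T * r) T r := by
      simpa using ((hasDerivAt_id r).const_mul T).const_add σ
    exact (h.c_σ (σ + T * r) t).scomp r h1
  have htr : ∀ r, traj 0 (c σ t) u r = c (σ + T * r) t := by
    intro r
    have h1 := intervalIntegral.integral_eq_sub_of_hasDerivAt (a := 0) (b := r)
      (fun r _ => hd r) (huc.intervalIntegrable _ _)
    simp only [traj, h1]
    rw [mul_zero, add_zero]
    abel
  have hF : ∀ r, F (traj 0 (c σ t) u r) (u r) t = T := by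
    intro r
    rw [htr, hu]
    have h1 := (h.fins t).hom (c (σ + T * r) t) (c' (σ + T * r) t) T hT0
    simp only at h1 ⊢
    rw [h1, h.unit, mul_one]
  have hB : ∀ r, fderiv ℝ (fun y => B y t) (traj 0 (c σ t) u r) (u r) = T := by
    intro r
    rw [htr, hu]
    simp only
    rw [map_smul, h.cal, smul_eq_mul, mul_one]
  refine ⟨u, fun _ => k, hua, ?_, ?_, ?_⟩
  · rw [htr, mul_one, EscG.B2.lv1 (frz h 0), ← c_int h]
    congr 1
    rw [hT]
    ring
  · simp only [hF]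
    rw [intervalIntegral.integral_const, sub_zero, one_smul]
    exact hT1
  · simp only [hF, hB, sub_self]
    rw [intervalIntegral.integral_zero]

end

end B2

open B2

/-- for a larger constant `A` all basic hypotheses hold -/
theorem gdT_ok0 (h : CalT β F mF MF A κ B k0 len c c' ct) : ∃ A' : ℝ, A ≤ A' ∧ ∀ A'', A' ≤ A'' → ∀ g : E,
    (gdT β F mF MF A'' κ B k0 len c g).Ok0 := by
  obtain ⟨K, hK0, hK⟩ := c_lip_t h
  refine ⟨max A K, le_max_left _ _, fun A'' hA g => ?_⟩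
  have hA1 : A ≤ A'' := (le_max_left _ _).trans hA
  have hA2 : K ≤ A'' := (le_max_right _ _).trans hA
  have h' := mono h hA1
  exact {
    fr0 := fun t => gdC_ok0 (frz h' t) g
    A_pos := h'.A_pos
    F_cont := h'.F_cont
    F_per := h'.F_per
    F_lip := h'.F_lip
    κ_cont := by
      have h1 : LipschitzWith ⟨A'', h'.A_pos.le⟩ κ :=
        LipschitzWith.of_dist_le_mul fun t t' => by
          rw [Real.dist_eq, Real.dist_eq]
          exact h'.κ_lip t t'
      exact h1.continuous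
    κ_per := h'.κ_per
    κ_pos := h'.κ_pos
    κ_le := h'.κ_le
    κ_lip := h'.κ_lip
    B_smooth := h'.B_smooth
    B_pert := h'.B_pert
    B_Lam := fun v hv => B_Lam h' hv
    B_lv := fun n x t => (gdC_ok0 (frz h' t) g).cal.lvB n x
    B_le := h'.B_le
    B_dlip := h'.B_dlip
    Z_per := fun t => by
      have h1 := Z_int h' 1 t
      rw [Int.cast_one] at h1
      exact h1
    q_per := fun t => h'.c_per 0 t
    q_lip := fun t t' => (hK 0 t t').trans (mul_le_mul_of_nonneg_right hA2 (abs_nonneg _))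
    Z_X := by
      obtain ⟨ρ, hρ⟩ := c_bd h'
      refine ⟨ρ, fun t => ?_⟩
      rintro _ ⟨σ, rfl⟩
      obtain ⟨s, hs, n, hn⟩ := c_red h' σ
      refine ⟨fun _ => -n, ?_⟩
      show ‖c σ t + lv (fun _ : Fin 1 => β k0) (fun _ => -n)‖ ≤ ρ
      rw [EscG.B2.lv1 (frz h' 0), hn, B2.c_int h']
      push_cast
      rw [neg_smul, add_neg_cancel_right]
      exact hρ s hs t
    Z_sep := by
      obtain ⟨δ, hδ, hs⟩ := sep h'
      exact ⟨δ, hδ, fun t v hv hvJ x hx => hs t v hv hvJ x hx⟩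
    Z_lip := fun t t' => by
      rintro _ ⟨σ, rfl⟩
      have h1 : Metric.infDist (c σ t) (Set.range fun σ => c σ t') ≤ dist (c σ t) (c σ t') :=
        Metric.infDist_le_dist_of_mem ⟨σ, rfl⟩
      rw [dist_eq_norm] at h1
      exact h1.trans ((hK σ t t').trans (mul_le_mul_of_nonneg_right hA2 (abs_nonneg _)))
    strict := fun η hη => by
      obtain ⟨θ, h1, h2, h3⟩ := strict_pt h' hη
      exact ⟨θ, h1, h2, fun x v t hx => h3 x v t hx⟩
    eqv := fun ε hε => by
      refine ⟨len, fun t => ?_⟩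
      rintro _ ⟨σ, rfl⟩ _ ⟨σ', rfl⟩
      obtain ⟨u, n, hu, h1, h2, h3⟩ := eqv_c h' t σ σ'
      exact ⟨u, n, hu, h1, h2, h3.trans hε.le⟩
    anc := fun ε hε => gdT_anc h' g ε hε }

end B

end EscT
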