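import Pool.Agent.EscT.TDefs
import Pool.Agent.EscT.C1
import Pool.Agent.EscF.O3
import Pool.Agent.helper1.Esc.ModD
import Pool.Agent.EscG.B1
import Pool.Agent.EscG.B2
import Pool.Agent.EscG.C2
import Pool.Agent.EscK.Len

/-!
Project EscT, module C2: almost optimal controls at frozen time have bounded length; the passing costs are
continuous in time (helper59).
-/

set_option linter.unusedSectionVars false
set_option linter.unusedVariables false

noncomputable section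

namespace EscT

open MeasureTheory Set Filter Topology Esc EscF EscG
open scoped ContDiff

section MID

variable {ι : Type} [Fintype ι] {d : ℕ} {E : Type*} [NormedAddCommGroup E] [InnerProductSpace ℝ E]
  [FiniteDimensional ℝ E] {D : GT ι d E} {p : GP} {m M Mf : ℝ} {L : LP} {ll l : E → E → ℝ → ℝ}
  {f f' : E → ℝ → ℝ}

/-! ### one control at frozen time -/

theorem C2_dB_abs (h : D.Ok0) (t : ℝ) (x v : E) : |D.dB x t v| ≤ D.MF * ‖v‖ := by
  have h1 := h.B_le x v t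
  have h2 := h.B_le x (-v) t
  have h3 : D.F x v t ≤ D.MF * ‖v‖ := (h.fr0 t).fins.upp x v
  have h4 : D.F x (-v) t ≤ D.MF * ‖-v‖ := (h.fr0 t).fins.upp x (-v)
  have h5 : D.dB x t (-v) = -D.dB x t v := by
    unfold GT.dB
    rw [map_neg]
  rw [norm_neg] at h4
  rw [h5] at h2
  rw [abs_le]
  constructor
  · linarith
  · linarith

theorem C2_B_smooth (h : D.Ok0) (t : ℝ) : ContDiff ℝ 1 (fun y => D.B y t) :=
  h.B_smooth.comp (contDiff_id.prodMk contDiff_const)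

theorem C2_MF_nonneg (h : D.Ok0) : 0 ≤ D.MF :=
  (h.fr0 0).fins.mF_pos.le.trans (h.fr0 0).fins.mF_le

theorem C2_F_ii (h : D.Ok0) (t : ℝ) {u : ℝ → E} (hu : Adm u) (a : ℝ) (z : E) (p q : ℝ) :
    IntervalIntegrable (fun r => D.F (traj a z u r) (u r) t) volume p q :=
  A5a_ii (h.fr0 t).fins hu a z p q

theorem C2_dB_ii (h : D.Ok0) (t : ℝ) {u : ℝ → E} (hu : Adm u) (a : ℝ) (z : E) (p q : ℝ) :
    IntervalIntegrable (fun r => D.dB (traj a z u r) t (u r)) volume p q := by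
  refine B2.ii (Φ := fun x v => D.dB x t v) ?_ (C2_dB_abs h t) (C2_MF_nonneg h) hu a z p q
  have h1 := (C2_B_smooth h t).continuous_fderiv one_ne_zero
  exact (h1.comp continuous_fst).clm_apply continuous_snd

/-- excess of a control at frozen time -/
def C2_ex (D : GT ι d E) (t : ℝ) (x : E) (u : ℝ → E) (a b : ℝ) : ℝ :=
  ∫ r in a..b, (D.F (traj 0 x u r) (u r) t - D.dB (traj 0 x u r) t (u r))

theorem C2_G_ii (h : D.Ok0) (t : ℝ) {u : ℝ → E} (hu : Adm u) (x : E) (p q : ℝ) :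
    IntervalIntegrable (fun r => D.F (traj 0 x u r) (u r) t - D.dB (traj 0 x u r) t (u r)) volume p q :=
  (C2_F_ii h t hu 0 x p q).sub (C2_dB_ii h t hu 0 x p q)

theorem C2_ex_nonneg (h : D.Ok0) (t : ℝ) (x : E) (u : ℝ → E) {a b : ℝ} (hab : a ≤ b) :
    0 ≤ C2_ex D t x u a b :=
  intervalIntegral.integral_nonneg hab fun r _ => sub_nonneg.2 (h.B_le _ _ t)

theorem C2_ex_add (h : D.Ok0) (t : ℝ) (x : E) {u : ℝ → E} (hu : Adm u) (a b c : ℝ) :
    C2_ex D t x u a b + C2_ex D t x u b c = C2_ex D t x u a c :=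
  intervalIntegral.integral_add_adjacent_intervals (C2_G_ii h t hu x a b) (C2_G_ii h t hu x b c)

theorem C2_ex_eq (h : D.Ok0) (t : ℝ) (x : E) {u : ℝ → E} (hu : Adm u) (a b : ℝ) :
    C2_ex D t x u a b = (∫ r in a..b, D.F (traj 0 x u r) (u r) t) -
      (D.B (traj 0 x u b) t - D.B (traj 0 x u a) t) := by
  have h1 := ftc_traj (C2_B_smooth h t) hu a (traj 0 x u a) b
  simp_rw [← traj_split hu 0 a x] at h1
  have h2 : D.B (traj 0 x u b) t - D.B (traj 0 x u a) t =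
      ∫ r in a..b, D.dB (traj 0 x u r) t (u r) := h1
  rw [h2]
  exact intervalIntegral.integral_sub (C2_F_ii h t hu 0 x a b) (C2_dB_ii h t hu 0 x a b)

/-- the energy distance at frozen time is at most the length -/
theorem C2_len (h : D.Ok0) (t : ℝ) (x : E) {u : ℝ → E} (hu : Adm u) {a b : ℝ} (hab : a ≤ b) :
    fd (D.fr t).F (traj 0 x u a) (traj 0 x u b) ≤ ∫ r in a..b, D.F (traj 0 x u r) (u r) t := by
  have h1 := EscK.fd_le_len (h.fr0 t).fins hu hab (traj 0 x u a)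
  simp_rw [← traj_split hu 0 a x] at h1
  exact h1

/-- away from the rooms the length is bounded by the excess -/
theorem C2_out (h : D.Ok0) {t η θ : ℝ} (hs : ∀ x v, x ∈ D.Out t η → D.dB x t v ≤ (1 - θ) * D.F x v t)
    (x : E) {u : ℝ → E} (hu : Adm u) {a b : ℝ} (hab : a ≤ b)
    (ho : ∀ r ∈ Ioo a b, traj 0 x u r ∈ D.Out t η) :
    θ * (∫ r in a..b, D.F (traj 0 x u r) (u r) t) ≤ C2_ex D t x u a b := by
  rw [← intervalIntegral.integral_const_mul]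
  refine intervalIntegral.integral_mono_on_of_le_Ioo hab ((C2_F_ii h t hu 0 x a b).const_mul θ)
    (C2_G_ii h t hu x a b) fun r hr => ?_
  have h1 := hs (traj 0 x u r) (u r) (ho r hr)
  linarith

/-! ### the relation `Q` -/

/-- `x` and `y` (modulo the fast lattice) are joined by a curve of length `Λ` and excess `e` -/
def C2_Q (D : GT ι d E) (t : ℝ) (x y : E) (Λ e : ℝ) : Prop :=
  ∃ n : Fin d → ℤ, fd (D.fr t).F x (y + lv D.b n) ≤ Λ ∧
    fd (D.fr t).F x (y + lv D.b n) - (D.B (y + lv D.b n) t - D.B x t) ≤ e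

theorem C2_Q_mono {t : ℝ} {x y : E} {Λ e Λ' e' : ℝ} (h : C2_Q D t x y Λ e) (h1 : Λ ≤ Λ') (h2 : e ≤ e') :
    C2_Q D t x y Λ' e' := by
  obtain ⟨n, a, b⟩ := h
  exact ⟨n, a.trans h1, b.trans h2⟩

theorem C2_Q_tri (h : D.Ok0) {t : ℝ} {x y z : E} {Λ e Λ' e' : ℝ} (h1 : C2_Q D t x y Λ e)
    (h2 : C2_Q D t y z Λ' e') : C2_Q D t x z (Λ + Λ') (e + e') := by
  obtain ⟨n, a1, a2⟩ := h1
  obtain ⟨n', b1, b2⟩ := h2
  have hp := C2h.pre0 (h.fr0 t)
  have c1 : fd (D.fr t).F x (z + lv D.b (n' + n)) ≤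
      fd (D.fr t).F x (y + lv D.b n) + fd (D.fr t).F y (z + lv D.b n') := by
    rw [C2h.lv_add, ← add_assoc]
    have e4 : fd (D.fr t).F (y + lv D.b n) (z + lv D.b n' + lv D.b n) =
        fd (D.fr t).F y (z + lv D.b n') := C2h.fd_Lam hp (C2h.lv_Lam hp n) y (z + lv D.b n')
    rw [← e4]
    exact fd_tri (h.fr0 t).fins x (y + lv D.b n) (z + lv D.b n' + lv D.b n)
  have c2 : D.B (z + lv D.b (n' + n)) t = D.B (z + lv D.b n') t + ∑ i, (n i : ℝ) * D.c i := by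
    rw [C2h.lv_add, ← add_assoc]
    exact h.B_lv n _ t
  have c3 := h.B_lv n y t
  refine ⟨n' + n, by linarith, by linarith⟩

theorem C2_Q_near (h : D.Ok0) (t : ℝ) {x y : E} {r : ℝ} (hr : ‖x - y‖ ≤ r) :
    C2_Q D t x y (D.MF * r) (2 * D.MF * r) := by
  have h0 := C2_MF_nonneg h
  have h1 : fd (D.fr t).F x y ≤ D.MF * ‖y - x‖ := fd_le (h.fr0 t).fins x y
  have h2 : fd (D.fr t).F y x ≤ D.MF * ‖x - y‖ := fd_le (h.fr0 t).fins y x
  have h3 : D.B x t - D.B y t ≤ fd (D.fr t).F y x := (C2h.pre0 (h.fr0 t)).B_le_fd y x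
  rw [norm_sub_rev] at h1
  have h4 := mul_le_mul_of_nonneg_left hr h0
  refine ⟨0, ?_, ?_⟩
  · rw [C2h.lv_zero, add_zero]
    linarith
  · rw [C2h.lv_zero, add_zero]
    linarith

theorem C2_Q_self (h : D.Ok0) (t : ℝ) (x : E) : C2_Q D t x x 0 0 := by
  have := C2_Q_near h t (x := x) (y := x) (r := 0) (by simp)
  simpa using this

theorem C2_Q_Lam (h : D.Ok0) {t : ℝ} {x y v : E} (hv : v ∈ D.Lam) {Λ e : ℝ}
    (h1 : C2_Q D t (x + v) (y + v) Λ e) : C2_Q D t x y Λ e := by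
  obtain ⟨n, a1, a2⟩ := h1
  have hp := C2h.pre0 (h.fr0 t)
  obtain ⟨a, ha⟩ := h.B_Lam v hv
  have e1 : y + v + lv D.b n = y + lv D.b n + v := by abel
  have e2 : fd (D.fr t).F (x + v) (y + lv D.b n + v) = fd (D.fr t).F x (y + lv D.b n) :=
    C2h.fd_Lam hp hv x (y + lv D.b n)
  rw [e1, e2] at a1 a2
  rw [ha, ha] at a2
  exact ⟨n, a1, by linarith⟩

/-- a piece of a control away from the rooms -/
theorem C2_Q_out (h : D.Ok0) {t η θ : ℝ} (hθ : 0 < θ)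
    (hs : ∀ x v, x ∈ D.Out t η → D.dB x t v ≤ (1 - θ) * D.F x v t)
    (x : E) {u : ℝ → E} (hu : Adm u) {a b : ℝ} (hab : a ≤ b)
    (ho : ∀ r ∈ Ioo a b, traj 0 x u r ∈ D.Out t η) :
    C2_Q D t (traj 0 x u a) (traj 0 x u b) (C2_ex D t x u a b / θ) (C2_ex D t x u a b) := by
  have h1 := C2_out h hs x hu hab ho
  have h2 := C2_len h t x hu hab
  have h3 := C2_ex_eq h t x hu a b
  refine ⟨0, ?_, ?_⟩
  · rw [C2h.lv_zero, add_zero, le_div_iff₀ hθ]
    have h4 := mul_le_mul_of_nonneg_left h2 hθ.le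
    linarith
  · rw [C2h.lv_zero, add_zero]
    linarith

/-- connection of two points near the same room -/
theorem C2_Q_conn (h : D.Ok0) {t η ε1 Λ1 : ℝ} (hη : 0 < η)
    (hΛ : ∀ z ∈ D.Z t, ∀ z' ∈ D.Z t, ∃ (u : ℝ → E) (n : Fin d → ℤ), Adm u ∧
      traj 0 z u 1 = z' + lv D.b n ∧ ∫ r in (0:ℝ)..1, D.F (traj 0 z u r) (u r) t ≤ Λ1 ∧
      ∫ r in (0:ℝ)..1, (D.F (traj 0 z u r) (u r) t - D.dB (traj 0 z u r) t (u r)) ≤ ε1)
    {x y v : E} (hv : v ∈ D.Lam) (hx : Metric.infDist (x + v) (D.Z t) ≤ 2 * η)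
    (hy : Metric.infDist (y + v) (D.Z t) ≤ 2 * η) :
    C2_Q D t x y (6 * D.MF * η + Λ1) (12 * D.MF * η + ε1) := by
  have hne : (D.Z t).Nonempty := ⟨D.q t, (h.fr0 t).q0_mem⟩
  obtain ⟨z, hz, hxz⟩ := (Metric.infDist_lt_iff hne).1 (lt_of_le_of_lt hx (by linarith : 2 * η < 3 * η))
  obtain ⟨z', hz', hyz⟩ := (Metric.infDist_lt_iff hne).1 (lt_of_le_of_lt hy (by linarith : 2 * η < 3 * η))
  rw [dist_eq_norm] at hxz hyz
  obtain ⟨u, n, hu, hun, hl, he⟩ := hΛ z hz z' hz'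
  have h1 := C2_Q_near h t hxz.le
  have h3 := C2_Q_near h t (x := z') (y := y + v) (r := 3 * η) (by rw [norm_sub_rev]; exact hyz.le)
  have h2 : C2_Q D t z z' Λ1 ε1 := by
    have e0 : traj 0 z u 0 = z := by simp [traj]
    have e1 := C2_len h t z hu (zero_le_one' ℝ)
    have e2 := C2_ex_eq h t z hu 0 1
    have e3 : C2_ex D t z u 0 1 ≤ ε1 := he
    rw [e0, hun] at e1 e2
    exact ⟨n, e1.trans hl, by linarith⟩
  refine C2_Q_Lam h hv (C2_Q_mono (C2_Q_tri h (C2_Q_tri h h1 h2) h3) ?_ ?_)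
  · linarith
  · linarith

/-! ### first and last visits -/

omit [InnerProductSpace ℝ E] [FiniteDimensional ℝ E] in
theorem C2_first {γ : ℝ → E} (hγ : Continuous γ) {V Z : Set E} {η : ℝ} (hη : 0 < η) {a b : ℝ}
    (hab : a ≤ b) : (∀ r ∈ Ioo a b, ∀ v ∈ V, η ≤ Metric.infDist (γ r + v) Z) ∨
    ∃ r1 ∈ Icc a b, (∀ r ∈ Ioo a r1, ∀ v ∈ V, η ≤ Metric.infDist (γ r + v) Z) ∧
      ∃ v ∈ V, Metric.infDist (γ r1 + v) Z ≤ 2 * η := by
  by_cases hS : ∀ r ∈ Ioo a b, ∀ v ∈ V, η ≤ Metric.infDist (γ r + v) Z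
  · exact Or.inl hS
  right
  push Not at hS
  obtain ⟨r0, hr0, v0, hv0, hr0'⟩ := hS
  obtain ⟨S, hSdef⟩ : ∃ S : Set ℝ, S = {r | r ∈ Ioo a b ∧ ∃ v ∈ V, Metric.infDist (γ r + v) Z < η} :=
    ⟨_, rfl⟩
  have hne : S.Nonempty := ⟨r0, by rw [hSdef]; exact ⟨hr0, v0, hv0, hr0'⟩⟩
  have hbd : BddBelow S := ⟨a, fun r hr => by rw [hSdef] at hr; exact hr.1.1.le⟩
  have h1 : a ≤ sInf S := le_csInf hne fun r hr => by rw [hSdef] at hr; exact hr.1.1.le
  have h2 : sInf S ≤ b := by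
    obtain ⟨r, hr⟩ := hne
    refine (csInf_le hbd hr).trans ?_
    rw [hSdef] at hr
    exact hr.1.2.le
  refine ⟨sInf S, ⟨h1, h2⟩, fun r hr v hv => ?_, ?_⟩
  · by_contra hcon
    push Not at hcon
    have h3 : r ∈ S := by
      rw [hSdef]
      exact ⟨⟨hr.1, hr.2.trans_le h2⟩, v, hv, hcon⟩
    exact absurd (csInf_le hbd h3) (not_le.2 hr.2)
  · obtain ⟨δ, hδ, hcon⟩ := Metric.continuous_iff.1 hγ (sInf S) η hη
    obtain ⟨r, hr, hr'⟩ := exists_lt_of_csInf_lt hne (show sInf S < sInf S + δ by linarith)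
    have h3 := csInf_le hbd hr
    have h4 : dist (γ r) (γ (sInf S)) < η := by
      refine hcon r ?_
      rw [Real.dist_eq, abs_of_nonneg (by linarith)]
      linarith
    rw [hSdef] at hr
    obtain ⟨_, v, hv, hrv⟩ := hr
    refine ⟨v, hv, ?_⟩
    have h5 := Metric.infDist_le_infDist_add_dist (s := Z) (x := γ (sInf S) + v) (y := γ r + v)
    rw [dist_add_right, dist_comm] at h5
    linarith

omit [InnerProductSpace ℝ E] [FiniteDimensional ℝ E] in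
theorem C2_last {γ : ℝ → E} (hγ : Continuous γ) {v : E} {Z : Set E} {η : ℝ} {a b : ℝ}
    (hab : a ≤ b) (ha : Metric.infDist (γ a + v) Z ≤ η) :
    ∃ r2 ∈ Icc a b, Metric.infDist (γ r2 + v) Z ≤ η ∧ ∀ r ∈ Ioc r2 b, η < Metric.infDist (γ r + v) Z := by
  have hc : IsCompact (Icc a b ∩ {r | Metric.infDist (γ r + v) Z ≤ η}) := by
    refine isCompact_Icc.inter_right ?_
    exact isClosed_le ((Metric.continuous_infDist_pt Z).comp (hγ.add continuous_const)) continuous_const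
  obtain ⟨r2, ⟨h1, h2⟩, h3⟩ := hc.exists_isGreatest ⟨a, ⟨le_rfl, hab⟩, ha⟩
  refine ⟨r2, h1, h2, fun r hr => ?_⟩
  by_contra hcon
  push Not at hcon
  exact absurd (h3 ⟨⟨h1.1.trans hr.1.le, hr.2⟩, hcon⟩) (not_le.2 hr.1)

/-! ### the cost of a change of room -/

theorem C2_cross (h : D.Ok0) {t η δ e : ℝ} (hη : 0 < η) (hηδ : 6 * η ≤ δ)
    (hsep : ∀ v ∈ D.Lam, ¬ D.InJ v → ∀ x ∈ D.Z t, δ ≤ Metric.infDist (x + v) (D.Z t))
    (he : ∀ w, δ / 2 ≤ Metric.infDist w (D.Z t) → e ≤ D.j t (D.q t) w)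
    (x : E) {u : ℝ → E} (hu : Adm u) {a b : ℝ} (hab : a ≤ b) {v w : E} (hv : v ∈ D.Lam)
    (hw : w ∈ D.Lam) (hvw : ¬ D.InJ (v - w)) (h1 : Metric.infDist (traj 0 x u a + v) (D.Z t) ≤ 2 * η)
    (h2 : Metric.infDist (traj 0 x u b + w) (D.Z t) ≤ 2 * η) :
    e - 4 * D.MF * η ≤ C2_ex D t x u a b := by
  have hne : (D.Z t).Nonempty := ⟨D.q t, (h.fr0 t).q0_mem⟩
  obtain ⟨z, hz, hbz⟩ := (Metric.infDist_lt_iff hne).1 (lt_of_le_of_lt h2 (by linarith : 2 * η < 3 * η))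
  have h3 := hsep (v - w) (D.Lam.sub_mem hv hw) hvw z hz
  have h4 := Metric.infDist_le_infDist_add_dist (s := D.Z t) (x := z + (v - w))
    (y := traj 0 x u b + v)
  have h5 : dist (z + (v - w)) (traj 0 x u b + v) = dist (traj 0 x u b + w) z := by
    rw [dist_eq_norm, dist_eq_norm, norm_sub_rev]
    congr 1
    abel
  have h6 := he (traj 0 x u b + v) (by linarith)
  have h7 := (near h t h1).2
  have h8 := j_tri h t (D.q t) (traj 0 x u a + v) (traj 0 x u b + v)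
  have h9 := j_Lam h hv t (traj 0 x u a) (traj 0 x u b)
  have h10 := j_le_frozen h t hab (traj 0 x u a) hu
  simp_rw [← traj_split hu 0 a x] at h10
  have h11 : D.j t (traj 0 x u a) (traj 0 x u b) ≤ C2_ex D t x u a b := h10
  linarith

theorem C2_InJ_infDist (h : D.Ok0) {t : ℝ} {x v w : E} (hJ : D.InJ (v - w)) :
    Metric.infDist (x + w) (D.Z t) = Metric.infDist (x + v) (D.Z t) := by
  obtain ⟨n, hn⟩ := hJ
  have key : ∀ (n : Fin d → ℤ) (y : E), Metric.infDist (y + lv D.b n) (D.Z t) ≤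
      Metric.infDist y (D.Z t) := by
    intro n y
    have hne : (D.Z t).Nonempty := ⟨D.q t, (h.fr0 t).q0_mem⟩
    refine le_of_forall_pos_le_add fun ε hε => ?_
    obtain ⟨z, hz, hyz⟩ := (Metric.infDist_lt_iff hne).1
      (show Metric.infDist y (D.Z t) < Metric.infDist y (D.Z t) + ε by linarith)
    have h1 : z + lv D.b n ∈ D.Z t := (h.fr0 t).Z_J n z hz
    have h2 := Metric.infDist_le_dist_of_mem (x := y + lv D.b n) h1
    rw [dist_add_right] at h2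
    linarith
  have e1 : x + v = x + w + lv D.b n := by
    rw [← hn]
    abel
  have e2 : x + w = x + v + lv D.b (-n) := by
    rw [C2h.lv_neg, e1]
    abel
  refine le_antisymm ?_ ?_
  · conv_lhs => rw [e2]
    exact key (-n) (x + v)
  · conv_lhs => rw [e1]
    exact key n (x + w)

/-! ### induction on the number of changes of room -/

theorem C2_ind (h : D.Ok0) {t η δ e θ ε1 Λ1 c0 : ℝ} (hη : 0 < η) (hηδ : 6 * η ≤ δ) (hθ : 0 < θ)
    (hΛ1 : 0 ≤ Λ1) (hε1 : 0 ≤ ε1)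
    (hsep : ∀ v ∈ D.Lam, ¬ D.InJ v → ∀ x ∈ D.Z t, δ ≤ Metric.infDist (x + v) (D.Z t))
    (he : ∀ w, δ / 2 ≤ Metric.infDist w (D.Z t) → e ≤ D.j t (D.q t) w)
    (hc0 : c0 ≤ e - 4 * D.MF * η)
    (hs : ∀ x v, x ∈ D.Out t η → D.dB x t v ≤ (1 - θ) * D.F x v t)
    (hΛ : ∀ z ∈ D.Z t, ∀ z' ∈ D.Z t, ∃ (u : ℝ → E) (n : Fin d → ℤ), Adm u ∧
      traj 0 z u 1 = z' + lv D.b n ∧ ∫ r in (0:ℝ)..1, D.F (traj 0 z u r) (u r) t ≤ Λ1 ∧
      ∫ r in (0:ℝ)..1, (D.F (traj 0 z u r) (u r) t - D.dB (traj 0 z u r) t (u r)) ≤ ε1)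
    (x : E) {u : ℝ → E} (hu : Adm u) (k : ℕ) : ∀ a b : ℝ, a ≤ b → C2_ex D t x u a b < k * c0 →
      C2_Q D t (traj 0 x u a) (traj 0 x u b)
        (C2_ex D t x u a b / θ + k * (6 * D.MF * η + Λ1))
        (C2_ex D t x u a b + k * (12 * D.MF * η + ε1)) := by
  have hMF := C2_MF_nonneg h
  have hγ : Continuous (traj 0 x u) := traj_cont hu 0 x
  have hA : 0 ≤ 6 * D.MF * η + Λ1 := by positivity
  have hB : 0 ≤ 12 * D.MF * η + ε1 := by positivity
  induction k with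
  | zero =>
    intro a b hab hlt
    have := C2_ex_nonneg h t x u hab
    simp only [Nat.cast_zero, zero_mul] at hlt
    linarith
  | succ k ih =>
    intro a b hab hlt
    have hk0 : (0:ℝ) ≤ k := Nat.cast_nonneg k
    have hkA : 0 ≤ (k:ℝ) * (6 * D.MF * η + Λ1) := mul_nonneg hk0 hA
    have hkB : 0 ≤ (k:ℝ) * (12 * D.MF * η + ε1) := mul_nonneg hk0 hB
    push_cast at hlt ⊢
    rcases C2_first hγ (V := (D.Lam : Set E)) (Z := D.Z t) hη hab with hout | ⟨r1, hr1, hout, v, hv, hr1v⟩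
    · refine C2_Q_mono (C2_Q_out h hθ hs x hu hab fun r hr v hv => hout r hr v hv) ?_ ?_
      · linarith
      · linarith
    obtain ⟨r2, hr2, hr2v, hlast⟩ := C2_last hγ (v := v) (Z := D.Z t) (η := 2 * η) hr1.2 hr1v
    have q1 := C2_Q_out h hθ hs x hu hr1.1 fun r hr v hv => hout r hr v hv
    have q2 := C2_Q_conn h hη hΛ hv hr1v hr2v
    have e12 := C2_ex_nonneg h t x u hr2.1
    have ea := C2_ex_add h t x hu a r1 r2
    have eb := C2_ex_add h t x hu a r2 b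
    rcases C2_first hγ (V := {w | w ∈ D.Lam ∧ ¬ D.InJ (v - w)}) (Z := D.Z t) hη hr2.2 with
      hout2 | ⟨r3, hr3, hout2, w, ⟨hw, hvw⟩, hr3w⟩
    · have q3 := C2_Q_out h hθ hs x hu hr2.2 (fun r hr w hw => by
        by_cases hJ : D.InJ (v - w)
        · rw [C2_InJ_infDist h hJ]
          have := hlast r ⟨hr.1, hr.2.le⟩
          linarith
        · exact hout2 r hr w ⟨hw, hJ⟩)
      refine C2_Q_mono (C2_Q_tri h (C2_Q_tri h q1 q2) q3) ?_ ?_
      · have : C2_ex D t x u a r1 / θ + C2_ex D t x u r2 b / θ ≤ C2_ex D t x u a b / θ := by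
          rw [← add_div]
          gcongr
          linarith
        linarith
      · linarith
    · have q3 := C2_Q_out h hθ hs x hu hr3.1 (fun r hr w hw => by
        by_cases hJ : D.InJ (v - w)
        · rw [C2_InJ_infDist h hJ]
          have := hlast r ⟨hr.1, hr.2.le.trans hr3.2⟩
          linarith
        · exact hout2 r hr w ⟨hw, hJ⟩)
      have hcr := C2_cross h hη hηδ hsep he x hu hr3.1 hv hw hvw hr2v hr3w
      have ec := C2_ex_add h t x hu r2 r3 b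
      have e01 := C2_ex_nonneg h t x u hr1.1
      have q4 := ih r3 b hr3.2 (by linarith)
      refine C2_Q_mono (C2_Q_tri h (C2_Q_tri h (C2_Q_tri h q1 q2) q3) q4) ?_ ?_
      · have : C2_ex D t x u a r1 / θ + C2_ex D t x u r2 r3 / θ + C2_ex D t x u r3 b / θ ≤
            C2_ex D t x u a b / θ := by
          rw [← add_div, ← add_div]
          gcongr
          linarith
        linarith
      · linarith

/-- almost optimal controls at frozen time of bounded length -/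
theorem exists_short (h : D.Ok0) (ρ : ℝ) {ε : ℝ} (hε : 0 < ε) : ∃ Λ : ℝ, ∀ t, ∀ x ∈ D.X ρ, ∀ x' ∈ D.X ρ,
    ∃ (u : ℝ → E) (n : Fin d → ℤ), Adm u ∧ traj 0 x u 1 = x' + lv D.b n ∧
    ∫ r in (0:ℝ)..1, D.F (traj 0 x u r) (u r) t ≤ Λ ∧
    ∫ r in (0:ℝ)..1, (D.F (traj 0 x u r) (u r) t - D.dB (traj 0 x u r) t (u r)) ≤ D.j t x x' + ε := by
  have hMF := C2_MF_nonneg h
  obtain ⟨δ, hδ, hsep⟩ := h.Z_sep
  obtain ⟨e, he, hshell⟩ := shell h (half_pos hδ)
  -- the number of changes of room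
  obtain ⟨J, hJ⟩ : ∃ J : ℝ, J = 4 * D.MF * |ρ| + ε + 1 := ⟨_, rfl⟩
  have hJ0 : 0 < J := by rw [hJ]; positivity
  obtain ⟨k, hk⟩ := exists_nat_gt (J / (e / 2))
  rw [div_lt_iff₀ (half_pos he)] at hk
  have hk0 : (0:ℝ) ≤ k := Nat.cast_nonneg k
  -- the parameters
  obtain ⟨η, hη, hη1, hη2, hη3⟩ : ∃ η : ℝ, 0 < η ∧ 6 * η ≤ δ ∧ 4 * D.MF * η ≤ e / 2 ∧
      (k:ℝ) * (12 * D.MF * η) ≤ ε / 8 := by
    obtain ⟨A, hA, hA1, hA2⟩ : ∃ A : ℝ, 0 < A ∧ 4 * D.MF ≤ A ∧ (k:ℝ) * (12 * D.MF) ≤ A :=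
      ⟨4 * D.MF + k * (12 * D.MF) + 1, by positivity, by
        have : 0 ≤ (k:ℝ) * (12 * D.MF) := by positivity
        linarith, by linarith⟩
    refine ⟨min (δ / 6) (min (e / 2 / A) (ε / 8 / A)), by positivity, ?_, ?_, ?_⟩
    · have := min_le_left (δ / 6) (min (e / 2 / A) (ε / 8 / A))
      linarith
    · have h1 := (min_le_right (δ / 6) (min (e / 2 / A) (ε / 8 / A))).trans (min_le_left _ _)
      have h0 : 0 ≤ min (δ / 6) (min (e / 2 / A) (ε / 8 / A)) := by positivity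
      calc 4 * D.MF * min (δ / 6) (min (e / 2 / A) (ε / 8 / A)) ≤
          A * (e / 2 / A) := mul_le_mul hA1 h1 h0 hA.le
        _ = e / 2 := by field_simp
    · have h1 := (min_le_right (δ / 6) (min (e / 2 / A) (ε / 8 / A))).trans (min_le_right _ _)
      have h0 : 0 ≤ min (δ / 6) (min (e / 2 / A) (ε / 8 / A)) := by positivity
      calc (k:ℝ) * (12 * D.MF * min (δ / 6) (min (e / 2 / A) (ε / 8 / A))) =
          (k:ℝ) * (12 * D.MF) * min (δ / 6) (min (e / 2 / A) (ε / 8 / A)) := by ring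
        _ ≤ A * (ε / 8 / A) := mul_le_mul hA2 h1 h0 hA.le
        _ = ε / 8 := by field_simp
  obtain ⟨ε1, hε1, hε1'⟩ : ∃ ε1 : ℝ, 0 < ε1 ∧ (k:ℝ) * ε1 ≤ ε / 8 := by
    refine ⟨ε / 8 / (k + 1), by positivity, ?_⟩
    rw [mul_div_assoc', div_le_iff₀ (by positivity)]
    nlinarith
  obtain ⟨θ, hθ, -, hs⟩ := h.strict η hη
  obtain ⟨Λ1, hΛ1⟩ := h.eqv ε1 hε1
  refine ⟨J / θ + k * (6 * D.MF * η + max Λ1 0) + ε, fun t x hx x' hx' => ?_⟩
  -- an almost optimal control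
  obtain ⟨u, n, hu, hun, hue⟩ := exists_frozen h t x x' (half_pos hε)
  have hj : D.j t x x' ≤ 4 * D.MF * |ρ| := by
    obtain ⟨a, ha⟩ := hx
    obtain ⟨a', ha'⟩ := hx'
    rw [← j_J h t x x' a a']
    refine (j_lip h t _ _).trans ?_
    have h1 : ‖x' + lv D.b a' - (x + lv D.b a)‖ ≤ 2 * |ρ| := by
      refine (norm_sub_le _ _).trans ?_
      have := le_abs_self ρ
      linarith
    have h2 := mul_le_mul_of_nonneg_left h1 (by positivity : 0 ≤ 2 * D.MF)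
    linarith
  have hex : C2_ex D t x u 0 1 ≤ D.j t x x' + ε / 2 := hue
  have h0 : traj 0 x u 0 = x := by simp [traj]
  have hQ := C2_ind h hη hη1 hθ (le_max_right Λ1 0) hε1.le (hsep t) (fun w hw => (hshell t w hw).1)
    (c0 := e / 2) (by linarith) (fun y v hy => hs y v t hy)
    (fun z hz z' hz' => by
      obtain ⟨u', n', a1, a2, a3, a4⟩ := hΛ1 t z hz z' hz'
      exact ⟨u', n', a1, a2, a3.trans (le_max_left _ _), a4⟩)
    x hu k 0 1 zero_le_one (by linarith)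
  rw [h0, hun] at hQ
  obtain ⟨n', hl, hx2⟩ := hQ
  rw [add_assoc, ← C2h.lv_add] at hl hx2
  obtain ⟨u', hu', hz', -, hlen⟩ := exists_path_fd (h.fr0 t).fins (ε := ε / 4) (by linarith) x
    (x' + lv D.b (n + n'))
  have hlen' : ∫ r in (0:ℝ)..1, D.F (traj 0 x u' r) (u' r) t ≤
      fd (D.fr t).F x (x' + lv D.b (n + n')) + ε / 4 := hlen
  have h0' : traj 0 x u' 0 = x := by simp [traj]
  have heq := C2_ex_eq h t x hu' 0 1
  rw [h0', hz'] at heq
  refine ⟨u', n + n', hu', hz', ?_, ?_⟩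
  · have h3 : C2_ex D t x u 0 1 / θ ≤ J / θ := by
      gcongr
      linarith
    linarith
  · have h4 : C2_ex D t x u' 0 1 ≤ D.j t x x' + ε := by
      have : (k:ℝ) * (12 * D.MF * η + ε1) = (k:ℝ) * (12 * D.MF * η) + (k:ℝ) * ε1 := by ring
      linarith
    exact h4

/-- comparison of the passing costs at two times -/
theorem C2_j_le (h : D.Ok0) {Λ ε : ℝ} {t t' : ℝ} {x x' : E} {u : ℝ → E} {n : Fin d → ℤ} (hu : Adm u)
    (hx : traj 0 x u 1 = x' + lv D.b n)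
    (hl : ∫ r in (0:ℝ)..1, D.F (traj 0 x u r) (u r) t ≤ Λ)
    (he : ∫ r in (0:ℝ)..1, (D.F (traj 0 x u r) (u r) t - D.dB (traj 0 x u r) t (u r)) ≤
      D.j t x x' + ε) : D.j t' x x' ≤ D.j t x x' + ε + 2 * D.A * (Λ / D.mF) * |t - t'| := by
  have hA := h.A_pos
  have hm : 0 < D.mF := (h.fr0 t).fins.mF_pos
  have h1 := j_le_frozen h t' (zero_le_one' ℝ) x hu
  rw [hx] at h1
  have h2 := j_J h t' x x' 0 n
  rw [C2h.lv_zero, add_zero] at h2
  rw [h2] at h1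
  have h3 : (∫ r in (0:ℝ)..1, (D.F (traj 0 x u r) (u r) t' - D.dB (traj 0 x u r) t' (u r))) ≤
      ∫ r in (0:ℝ)..1, ((D.F (traj 0 x u r) (u r) t - D.dB (traj 0 x u r) t (u r)) +
        2 * D.A * |t - t'| / D.mF * D.F (traj 0 x u r) (u r) t) := by
    refine intervalIntegral.integral_mono_on zero_le_one (C2_G_ii h t' hu x 0 1)
      ((C2_G_ii h t hu x 0 1).add ((C2_F_ii h t hu 0 x 0 1).const_mul _)) fun r _ => ?_
    have a1 := h.F_lip (traj 0 x u r) (u r) t t'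
    have a2 := h.B_dlip (traj 0 x u r) (u r) t t'
    have a3 : D.mF * ‖u r‖ ≤ D.F (traj 0 x u r) (u r) t := (h.fr0 t).fins.low _ _
    have a4 : 2 * D.A * |t - t'| * ‖u r‖ ≤ 2 * D.A * |t - t'| / D.mF * D.F (traj 0 x u r) (u r) t := by
      rw [div_mul_eq_mul_div, le_div_iff₀ hm]
      have := mul_le_mul_of_nonneg_left a3 (by positivity : 0 ≤ 2 * D.A * |t - t'|)
      linarith
    rw [abs_le] at a1 a2
    nlinarith [a1.1, a1.2, a2.1, a2.2]
  rw [intervalIntegral.integral_add (C2_G_ii h t hu x 0 1) ((C2_F_ii h t hu 0 x 0 1).const_mul _),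
    intervalIntegral.integral_const_mul] at h3
  have h4 := mul_le_mul_of_nonneg_left hl (by positivity : 0 ≤ 2 * D.A * |t - t'| / D.mF)
  have h5 : 2 * D.A * |t - t'| / D.mF * Λ = 2 * D.A * (Λ / D.mF) * |t - t'| := by ring
  linarith

theorem j_cont (h : D.Ok0) (ρ : ℝ) {ε : ℝ} (hε : 0 < ε) : ∃ δ : ℝ, 0 < δ ∧ ∀ t t', |t - t'| ≤ δ →
    (∀ x ∈ D.X ρ, ∀ x' ∈ D.X ρ, |D.j t x x' - D.j t' x x'| ≤ ε) ∧
    (∀ x ∈ D.X ρ, |D.j t (D.q t) x - D.j t' (D.q t') x| ≤ ε) ∧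
    ∀ x ∈ D.X ρ, |D.j t x (D.q t) - D.j t' x (D.q t')| ≤ ε := by
  have hA := h.A_pos
  have hMF := C2_MF_nonneg h
  have hm : 0 < D.mF := (h.fr0 0).fins.mF_pos
  obtain ⟨ρ0, hρ0⟩ := h.Z_X
  have hmono : ∀ {a b : ℝ}, a ≤ b → D.X a ⊆ D.X b := by
    intro a b hab x hx
    obtain ⟨n, hn⟩ := hx
    exact ⟨n, hn.trans hab⟩
  have hq : ∀ t, D.q t ∈ D.X (max ρ ρ0) := fun t =>
    hmono (le_max_right _ _) (hρ0 t (h.fr0 t).q0_mem)
  obtain ⟨Λ, hΛ⟩ := exists_short h (max ρ ρ0) (ε := ε / 4) (by linarith)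
  obtain ⟨K0, hK0⟩ : ∃ K0 : ℝ, K0 = 2 * D.A * (Λ / D.mF) := ⟨_, rfl⟩
  obtain ⟨K, hK, hK1, hK2⟩ : ∃ K : ℝ, 0 < K ∧ K0 ≤ K ∧ 2 * D.MF * D.A ≤ K :=
    ⟨max K0 (2 * D.MF * D.A) + 1, by
      have : 0 ≤ 2 * D.MF * D.A := by positivity
      have := le_max_right K0 (2 * D.MF * D.A)
      linarith, (le_max_left _ _).trans (by linarith), (le_max_right _ _).trans (by linarith)⟩
  obtain ⟨δ0, hδ0, hKδ⟩ : ∃ δ0 : ℝ, 0 < δ0 ∧ K * δ0 = ε / 4 :=
    ⟨ε / 4 / K, by positivity, by field_simp⟩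
  have main : ∀ t t', |t - t'| ≤ δ0 → ∀ x ∈ D.X (max ρ ρ0), ∀ x' ∈ D.X (max ρ ρ0),
      D.j t' x x' ≤ D.j t x x' + ε / 2 := by
    intro t t' ht x hx x' hx'
    obtain ⟨u, n, hu, h1, h2, h3⟩ := hΛ t x hx x' hx'
    have h4 := C2_j_le h (t' := t') hu h1 h2 h3
    rw [← hK0] at h4
    have h5 : K0 * |t - t'| ≤ K * |t - t'| :=
      mul_le_mul_of_nonneg_right hK1 (abs_nonneg _)
    have h6 := mul_le_mul_of_nonneg_left ht hK.le
    clear hK0
    linarith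
  have hqq : ∀ t t', |t - t'| ≤ δ0 → ∀ s, D.j s (D.q t) (D.q t') ≤ ε / 4 := by
    intro t t' ht s
    have h1 := j_lip h s (D.q t) (D.q t')
    have h2 := h.q_lip t' t
    rw [abs_sub_comm] at h2
    have h3 := mul_le_mul_of_nonneg_left h2 (by positivity : 0 ≤ 2 * D.MF)
    have h5 : 2 * D.MF * D.A * |t - t'| ≤ K * |t - t'| :=
      mul_le_mul_of_nonneg_right hK2 (abs_nonneg _)
    have h6 := mul_le_mul_of_nonneg_left ht hK.le
    linarith
  have hsym : ∀ {t t' : ℝ}, |t - t'| ≤ δ0 → |t' - t| ≤ δ0 := by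
    intro t t' ht
    rwa [abs_sub_comm]
  refine ⟨δ0, hδ0, fun t t' ht => ⟨fun x hx x' hx' => ?_, fun x hx => ?_,
    fun x hx => ?_⟩⟩
  · have hx := hmono (le_max_left ρ ρ0) hx
    have hx' := hmono (le_max_left ρ ρ0) hx'
    have h1 := main t t' ht x hx x' hx'
    have h2 := main t' t (hsym ht) x hx x' hx'
    rw [abs_le]
    constructor
    · linarith
    · linarith
  · have hx := hmono (le_max_left ρ ρ0) hx
    have h1 := main t t' ht (D.q t) (hq t) x hx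
    have h2 := main t' t (hsym ht) (D.q t') (hq t') x hx
    have h3 := j_tri h t' (D.q t') (D.q t) x
    have h4 := j_tri h t (D.q t) (D.q t') x
    have h5 := hqq t' t (hsym ht) t'
    have h6 := hqq t t' ht t
    rw [abs_le]
    constructor
    · linarith
    · linarith
  · have hx := hmono (le_max_left ρ ρ0) hx
    have h1 := main t t' ht x hx (D.q t) (hq t)
    have h2 := main t' t (hsym ht) x hx (D.q t') (hq t')
    have h3 := j_tri h t' x (D.q t) (D.q t')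
    have h4 := j_tri h t x (D.q t') (D.q t)
    have h5 := hqq t t' ht t'
    have h6 := hqq t' t (hsym ht) t
    rw [abs_le]
    constructor
    · linarith
    · linarith

end MID

end EscT
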