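import Pool.Agent.EscT.TDefs
import Pool.Agent.EscT.B2
import Pool.Agent.EscT.C1
import Pool.Agent.EscT.C2

/-!
Project EscT, module B3: the minimal vector `g` for the passages to other rooms.
`j r (c 0 r) (c 0 r + v)` is continuous and periodic in `r` (`j_cont`, `j_lip`, `q_lip`), and only finitely many
`v` modulo the fast lattice are relevant (`coer`).
-/

set_option linter.unusedSectionVars false

noncomputable section

namespace EscT

open MeasureTheory Set Filter Topology Esc EscF EscG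
open scoped ContDiff

section MIN

variable {ι : Type} [Fintype ι] {d : ℕ} {E : Type*} [NormedAddCommGroup E] [InnerProductSpace ℝ E]
  [FiniteDimensional ℝ E] {D : GT ι d E}

theorem B3t_lv_sub (b : Fin d → E) (n n' : Fin d → ℤ) : lv b (n - n') = lv b n - lv b n' := by
  simp only [lv, Pi.sub_apply, Int.cast_sub, sub_smul, Finset.sum_sub_distrib]

theorem B3t_sub {v w : E} (hv : D.InJ v) (hw : D.InJ w) : D.InJ (v - w) := by
  obtain ⟨n, rfl⟩ := hv
  obtain ⟨n', rfl⟩ := hw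
  exact ⟨n - n', (B3t_lv_sub D.b n n').symm⟩

theorem B3t_lv_Lam (h : D.Ok0) (n : Fin d → ℤ) : lv D.b n ∈ D.Lam := by
  refine AddSubgroup.sum_mem _ fun i _ => ?_
  obtain ⟨k, hk⟩ := (h.fr0 0).bβ i
  have hk' : D.b i = D.β k := hk
  rw [hk', Int.cast_smul_eq_zsmul]
  exact AddSubgroup.zsmul_mem _ (Submodule.subset_span (Set.mem_range_self k)) _

theorem B3t_q_int (h : D.Ok0) (k : ℤ) (t : ℝ) : D.q (t + k) = D.q t := by
  have hp : Function.Periodic D.q 1 := h.q_per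
  have := hp.int_mul k t
  rwa [mul_one] at this

theorem B3t_q_bd (h : D.Ok0) : ∃ C : ℝ, ∀ t, ‖D.q t‖ ≤ C := by
  refine ⟨‖D.q 0‖ + D.A, fun t => ?_⟩
  have h1 : D.q t = D.q (Int.fract t) := by
    have := B3t_q_int h ⌊t⌋ (Int.fract t)
    rwa [Int.fract_add_floor] at this
  have h2 := h.q_lip (Int.fract t) 0
  have h3 : |Int.fract t - 0| ≤ 1 := by
    rw [sub_zero, abs_of_nonneg (Int.fract_nonneg t)]
    exact (Int.fract_lt_one t).le
  have h4 : D.A * |Int.fract t - 0| ≤ D.A * 1 := mul_le_mul_of_nonneg_left h3 h.A_pos.le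
  have h5 : ‖D.q (Int.fract t)‖ ≤ ‖D.q 0‖ + ‖D.q (Int.fract t) - D.q 0‖ := by
    have := norm_add_le (D.q 0) (D.q (Int.fract t) - D.q 0)
    rwa [add_sub_cancel] at this
  rw [h1]
  linarith

theorem B3t_MF (h : D.Ok0) : 0 < D.MF := by
  have h1 : 0 < D.mF := (h.fr0 0).fins.mF_pos
  have h2 : D.mF ≤ D.MF := (h.fr0 0).fins.mF_le
  exact h1.trans_le h2

theorem B3t_half (h : D.Ok0) (v : E) {ε : ℝ} (hε : 0 < ε) : ∃ δ : ℝ, 0 < δ ∧ ∀ t t', |t - t'| ≤ δ →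
    D.j t' (D.q t') (D.q t' + v) ≤ D.j t (D.q t) (D.q t + v) + ε := by
  obtain ⟨C, hC⟩ := B3t_q_bd h
  obtain ⟨δ, hδ, hj⟩ := j_cont h (C + ‖v‖) (half_pos hε)
  have hMF := B3t_MF h
  have hA := h.A_pos
  refine ⟨min δ (ε / (4 * D.MF * D.A)), lt_min hδ (by positivity), fun t t' ht => ?_⟩
  have h1 := (hj t t' (ht.trans (min_le_left _ _))).2.1 (D.q t + v) ⟨0, by
    have e : lv D.b (0 : Fin d → ℤ) = 0 := by simp [lv]
    rw [e, add_zero]
    exact (norm_add_le _ _).trans (by linarith [hC t])⟩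
  have h2 := j_tri h t' (D.q t') (D.q t + v) (D.q t' + v)
  have h3 := j_lip h t' (D.q t + v) (D.q t' + v)
  have h4 : ‖D.q t' + v - (D.q t + v)‖ ≤ D.A * |t - t'| := by
    rw [add_sub_add_right_eq_sub, norm_sub_rev]
    exact h.q_lip t t'
  have h5 : D.A * |t - t'| ≤ D.A * (ε / (4 * D.MF * D.A)) :=
    mul_le_mul_of_nonneg_left (ht.trans (min_le_right _ _)) hA.le
  have h6 : 2 * D.MF * ‖D.q t' + v - (D.q t + v)‖ ≤ 2 * D.MF * (D.A * (ε / (4 * D.MF * D.A))) :=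
    mul_le_mul_of_nonneg_left (h4.trans h5) (by positivity)
  have h7 : 2 * D.MF * (D.A * (ε / (4 * D.MF * D.A))) = ε / 2 := by
    field_simp
    ring
  rw [abs_le] at h1
  linarith [h1.1, h1.2]

theorem B3t_cont (h : D.Ok0) (v : E) : Continuous fun t => D.j t (D.q t) (D.q t + v) := by
  rw [Metric.continuous_iff]
  intro t ε hε
  obtain ⟨δ, hδ, hh⟩ := B3t_half h v (half_pos hε)
  refine ⟨δ, hδ, fun t' ht' => ?_⟩
  rw [Real.dist_eq] at ht' ⊢
  have h1 := hh t' t ht'.le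
  have h2 := hh t t' (by rw [abs_sub_comm]; exact ht'.le)
  rw [abs_lt]
  constructor <;> linarith

/-- the cheapest slow lattice vector and time -/
theorem B3t_exists_min (h : D.Ok0) (hne : ∃ v ∈ D.Lam, ¬ D.InJ v) : ∃ (r : ℝ) (g : E), g ∈ D.Lam ∧
    ¬ D.InJ g ∧ ∀ t, ∀ v ∈ D.Lam, ¬ D.InJ v →
      D.j r (D.q r) (D.q r + g) ≤ D.j t (D.q t) (D.q t + v) := by
  obtain ⟨v1, hv1, hv1J⟩ := hne
  obtain ⟨ρ, hρ⟩ := coer h (D.j 0 (D.q 0) (D.q 0 + v1))
  obtain ⟨C, hC⟩ := B3t_q_bd h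
  -- reduction modulo the fast lattice
  have hred : ∀ t, ∀ v ∈ D.Lam, ¬ D.InJ v →
      D.j t (D.q t) (D.q t + v) ≤ D.j 0 (D.q 0) (D.q 0 + v1) →
      ∃ v' ∈ D.Lam, ¬ D.InJ v' ∧ v' ∈ Metric.closedBall (0 : E) (ρ + C) ∧
        D.j t (D.q t) (D.q t + v') = D.j t (D.q t) (D.q t + v) := by
    intro t v hv hvJ hle
    obtain ⟨n, hn⟩ := hρ t _ hle
    refine ⟨v + lv D.b n, D.Lam.add_mem hv (B3t_lv_Lam h n), ?_, ?_, ?_⟩
    · intro hJ
      apply hvJ
      have := B3t_sub hJ ⟨n, rfl⟩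
      rwa [add_sub_cancel_right] at this
    · rw [mem_closedBall_zero_iff]
      have e : v + lv D.b n = (D.q t + v + lv D.b n) - D.q t := by abel
      rw [e]
      exact (norm_sub_le _ _).trans (by linarith [hC t])
    · have h0 : D.j t (D.q t + lv D.b 0) (D.q t + v + lv D.b n) = D.j t (D.q t) (D.q t + v) :=
        j_J h _ _ _ _ _
      have h1 : lv D.b 0 = 0 := by simp [lv]
      rw [h1, add_zero] at h0
      rw [← h0, add_assoc]
  let S : Set E := {v | v ∈ D.Lam ∧ ¬ D.InJ v ∧ v ∈ Metric.closedBall (0 : E) (ρ + C)}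
  have hfin : S.Finite := by
    refine (ZSpan.setFinite_inter D.β (Metric.isBounded_closedBall (x := (0 : E))
      (r := ρ + C))).subset ?_
    rintro v ⟨hv, -, hb⟩
    exact ⟨hb, hv⟩
  have hper : ∀ (v : E) (t : ℝ), D.j t (D.q t) (D.q t + v) =
      D.j (Int.fract t) (D.q (Int.fract t)) (D.q (Int.fract t) + v) := by
    intro v t
    have e1 : D.q t = D.q (Int.fract t) := by
      have := B3t_q_int h ⌊t⌋ (Int.fract t)
      rwa [Int.fract_add_floor] at this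
    have e2 := j_per h (Int.fract t) ⌊t⌋ (D.q (Int.fract t)) (D.q (Int.fract t) + v)
    rw [Int.fract_add_floor] at e2
    rw [e1, e2]
  have hmin1 : ∀ v : E, ∃ r : ℝ, ∀ t, D.j r (D.q r) (D.q r + v) ≤ D.j t (D.q t) (D.q t + v) := by
    intro v
    obtain ⟨r, -, hr⟩ := (isCompact_Icc (a := (0 : ℝ)) (b := 1)).exists_isMinOn
      (nonempty_Icc.2 zero_le_one) (B3t_cont h v).continuousOn
    refine ⟨r, fun t => ?_⟩
    rw [hper v t]
    exact hr ⟨Int.fract_nonneg t, (Int.fract_lt_one t).le⟩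
  choose rv hrv using hmin1
  obtain ⟨v2, hv2, hv2J, hv2b, hv2e⟩ := hred 0 v1 hv1 hv1J le_rfl
  obtain ⟨g, ⟨hg, hgJ, hgb⟩, hmin⟩ := Set.exists_min_image S
    (fun v => D.j (rv v) (D.q (rv v)) (D.q (rv v) + v)) hfin ⟨v2, hv2, hv2J, hv2b⟩
  refine ⟨rv g, g, hg, hgJ, ?_⟩
  intro t v hv hvJ
  rcases le_total (D.j t (D.q t) (D.q t + v)) (D.j 0 (D.q 0) (D.q 0 + v1)) with h1 | h1
  · obtain ⟨v', hv', hvJ', hvb', hve'⟩ := hred t v hv hvJ h1
    rw [← hve']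
    exact (hmin v' ⟨hv', hvJ', hvb'⟩).trans (hrv v' t)
  · have h2 := (hmin v2 ⟨hv2, hv2J, hv2b⟩).trans (hrv v2 0)
    rw [hv2e] at h2
    exact h2.trans h1

end MIN

section B

variable {ι : Type} [Fintype ι] {d : ℕ} {E : Type*} [NormedAddCommGroup E] [InnerProductSpace ℝ E]
  [FiniteDimensional ℝ E] {D : GT ι d E} {p : GP} {m M Mf : ℝ} {L : LP} {ll l : E → E → ℝ → ℝ}
  {f f' : E → ℝ → ℝ}
variable {β : Module.Basis ι ℝ E} {F : E → E → ℝ → ℝ} {mF MF A : ℝ} {κ : ℝ → ℝ} {B : E → ℝ → ℝ} {k0 : ι}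
  {len : ℝ} {c c' ct : ℝ → ℝ → E}

/-- the minimal vector `g` -/
theorem gdT_ok (h : CalT β F mF MF A κ B k0 len c c' ct) {k1 : ι} (hk : k1 ≠ k0) : ∃ (A' : ℝ) (g : E),
    (gdT β F mF MF A' κ B k0 len c g).Ok := by
  obtain ⟨A', -, hok⟩ := gdT_ok0 h
  have hne : ∃ v ∈ (gdT β F mF MF A' κ B k0 len c 0).Lam,
      ¬ (gdT β F mF MF A' κ B k0 len c 0).InJ v := by
    refine ⟨β k1, Submodule.subset_span (Set.mem_range_self k1), ?_⟩
    rintro ⟨n, hn⟩
    have h1 : β k1 = ((n 0 : ℤ) : ℝ) • β k0 := by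
      rw [hn]
      simp [lv, gdT]
    have h2 := congrArg (fun v => β.repr v k1) h1
    simp only [Module.Basis.repr_self, map_smul, Finsupp.smul_apply, Finsupp.single_eq_same] at h2
    rw [Finsupp.single_eq_of_ne hk] at h2
    simp at h2
  obtain ⟨r, g, hg, hgJ, hmin⟩ := B3t_exists_min (hok A' le_rfl 0) hne
  exact ⟨A', g, { toOk0 := hok A' le_rfl g, g_mem := hg, g_not := hgJ, g_min := ⟨r, hmin⟩ }⟩

end B

end EscT
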