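import Pool.Agent.EscT.TDefs
import Pool.Agent.EscG.B2
import Pool.Agent.EscG.F2a

/-!
Project EscT (MP_6acca1_an), module EC: functions of the phase near the translates of a moving calibrated
closed curve, with constants uniform in time (helper56).
-/

set_option linter.unusedSectionVars false

noncomputable section

namespace EscT

open MeasureTheory Set Filter Topology Esc EscF EscG
open scoped ContDiff

variable {ι : Type} [Fintype ι] {E : Type*} [NormedAddCommGroup E] [InnerProductSpace ℝ E]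
  [FiniteDimensional ℝ E]
variable {β : Module.Basis ι ℝ E} {F : E → E → ℝ → ℝ} {mF MF A : ℝ} {κ : ℝ → ℝ} {B : E → ℝ → ℝ} {k0 : ι}
  {len : ℝ} {c c' ct : ℝ → ℝ → E}

namespace EC

/-- the curve frozen at time `t` -/
theorem frz (h : CalT β F mF MF A κ B k0 len c c' ct) (t : ℝ) :
    CalC β (fun x v => F x v t) mF MF (fun x => B x t) k0 len (fun σ => c σ t) (fun σ => c' σ t) where
  fins := h.fins t
  smooth := h.B_smooth.comp (contDiff_id.prodMk contDiff_const)
  per i := by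
    obtain ⟨a, ha⟩ := h.B_per i
    exact ⟨a, fun x => ha x t⟩
  le x v := h.B_le x v t
  len_pos := h.len_pos
  hasDeriv σ := h.c_σ σ t
  contDeriv := h.c'_cont.comp (continuous_id.prodMk continuous_const)
  closed σ := h.closed σ t
  unit σ := h.unit σ t
  cal σ := h.cal σ t
  only x v hv hx := h.only x v t hv hx
  simple s s' hs := h.simple s s' t hs

/-- the curve is Lipschitz in the phase -/
theorem c_lip (h : CalT β F mF MF A κ B k0 len c c' ct) (s s' t : ℝ) :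
    ‖c s t - c s' t‖ ≤ mF⁻¹ * |s - s'| := by
  have h1 := (convex_univ (𝕜 := ℝ) (E := ℝ)).norm_image_sub_le_of_norm_hasDerivWithin_le
    (f := fun σ => c σ t) (f' := fun σ => c' σ t) (C := mF⁻¹)
    (fun σ _ => (h.c_σ σ t).hasDerivWithinAt) (fun σ _ => B2.c'_bd (frz h t) σ)
    (mem_univ s') (mem_univ s)
  rwa [Real.norm_eq_abs] at h1

/-- the curve is continuous in phase and time -/
theorem c_cont2 (h : CalT β F mF MF A κ B k0 len c c' ct) :
    Continuous fun p : ℝ × ℝ => c p.1 p.2 := by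
  rw [Metric.continuous_iff]
  rintro ⟨s, t⟩ ε hε
  have hm : 0 < mF := (h.fins 0).mF_pos
  have h1 : Continuous fun t => c s t :=
    continuous_iff_continuousAt.mpr fun t => (h.c_t s t).continuousAt
  obtain ⟨δ, hδ, H⟩ := Metric.continuous_iff.1 h1 t (ε / 2) (by positivity)
  refine ⟨min δ (mF * (ε / 2)), lt_min hδ (by positivity), ?_⟩
  rintro ⟨s', t'⟩ hst
  rw [Prod.dist_eq, max_lt_iff] at hst
  obtain ⟨h2, h3⟩ := hst
  simp only at h2 h3 ⊢
  have h4 := H t' (h3.trans_le (min_le_left _ _))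
  have h5 := c_lip h s' s t'
  have h6 : |s' - s| < mF * (ε / 2) := by
    rw [← Real.dist_eq]
    exact h2.trans_le (min_le_right _ _)
  have h7 : mF⁻¹ * |s' - s| < ε / 2 := by
    rw [inv_mul_lt_iff₀ hm]
    exact h6
  calc dist (c s' t') (c s t) ≤ dist (c s' t') (c s t') + dist (c s t') (c s t) := dist_triangle _ _ _
    _ < ε / 2 + ε / 2 := by
        rw [dist_eq_norm (c s' t')]
        exact add_lt_add (h5.trans_lt h7) h4
    _ = ε := add_halves ε

theorem c_fract (h : CalT β F mF MF A κ B k0 len c c' ct) (s t : ℝ) : c s (Int.fract t) = c s t := by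
  have h4 : Function.Periodic (fun t => c s t) 1 := h.c_per s
  have h5 := h4.sub_zsmul_eq ⌊t⌋ (x := t)
  simp only [zsmul_eq_mul, mul_one] at h5
  exact h5

/-- the translates of the curve are separated, uniformly in time -/
theorem sep (h : CalT β F mF MF A κ B k0 len c c' ct) : ∃ δ : ℝ, 0 < δ ∧ ∀ t : ℝ,
    ∀ v ∈ Submodule.span ℤ (Set.range β), ∀ s s' : ℝ, ‖c s t + v - c s' t‖ < δ →
      ∃ n : ℤ, v = (n : ℝ) • β k0 := by
  have hcc := c_cont2 h
  have hl := h.len_pos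
  have hKc : IsCompact (Icc (0:ℝ) len ×ˢ (Icc (0:ℝ) len ×ˢ Icc (0:ℝ) 1)) :=
    isCompact_Icc.prod (isCompact_Icc.prod isCompact_Icc)
  have hKn : (Icc (0:ℝ) len ×ˢ (Icc (0:ℝ) len ×ˢ Icc (0:ℝ) 1)).Nonempty :=
    ⟨(0, 0, 0), ⟨le_rfl, hl.le⟩, ⟨le_rfl, hl.le⟩, ⟨le_rfl, zero_le_one⟩⟩
  obtain ⟨R, hR⟩ := ((isCompact_Icc (a := (0:ℝ)) (b := len)).prod
    (isCompact_Icc (a := (0:ℝ)) (b := 1))).exists_bound_of_continuousOn hcc.continuousOn
  set A0 : Set E := Metric.closedBall 0 (1 + 2 * R) ∩ (Submodule.span ℤ (Set.range β) : Set E) with hA0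
  have hAf : A0.Finite := ZSpan.setFinite_inter β Metric.isBounded_closedBall
  have hone : ∀ v : E, ∃ δ : ℝ, 0 < δ ∧ (v ∈ Submodule.span ℤ (Set.range β) →
      (¬ ∃ n : ℤ, v = (n : ℝ) • β k0) → ∀ p ∈ Icc (0:ℝ) len ×ˢ (Icc (0:ℝ) len ×ˢ Icc (0:ℝ) 1),
        δ ≤ ‖c p.1 p.2.2 + v - c p.2.1 p.2.2‖) := by
    intro v
    by_cases hv : v ∈ Submodule.span ℤ (Set.range β) ∧ ¬ ∃ n : ℤ, v = (n : ℝ) • β k0
    · have hf : Continuous fun p : ℝ × ℝ × ℝ => ‖c p.1 p.2.2 + v - c p.2.1 p.2.2‖ := by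
        have h1 : Continuous fun p : ℝ × ℝ × ℝ => c p.1 p.2.2 :=
          hcc.comp (continuous_fst.prodMk (continuous_snd.comp continuous_snd))
        have h2 : Continuous fun p : ℝ × ℝ × ℝ => c p.2.1 p.2.2 := hcc.comp continuous_snd
        exact ((h1.add continuous_const).sub h2).norm
      obtain ⟨p0, hp0, hmin⟩ := hKc.exists_isMinOn hKn hf.continuousOn
      refine ⟨_, ?_, fun _ _ p hp => hmin hp⟩
      show 0 < ‖c p0.1 p0.2.2 + v - c p0.2.1 p0.2.2‖
      rw [norm_pos_iff]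
      intro h0
      have h1 : c p0.2.1 p0.2.2 - c p0.1 p0.2.2 = v := by
        rw [sub_eq_zero] at h0
        rw [← h0]
        abel
      obtain ⟨k, hk⟩ := h.simple _ _ _ (by rw [h1]; exact hv.1)
      refine hv.2 ⟨k, ?_⟩
      have h2 := B2.c_int (frz h p0.2.2) k p0.1
      have h3 : p0.2.1 = p0.1 + k * len := by linarith
      rw [← h1, h3, h2]
      abel
    · exact ⟨1, one_pos, fun h1 h2 => absurd ⟨h1, h2⟩ hv⟩
  choose δ hδ hδ' using hone
  obtain ⟨δ0, hδ0, hδ0'⟩ : ∃ δ0 : ℝ, 0 < δ0 ∧ ∀ v ∈ A0, δ0 ≤ δ v := by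
    rcases A0.eq_empty_or_nonempty with hE | hE
    · exact ⟨1, one_pos, fun v hv => by rw [hE] at hv; exact hv.elim⟩
    · obtain ⟨v0, -, hmin⟩ := Set.exists_min_image A0 δ hAf hE
      exact ⟨δ v0, hδ v0, hmin⟩
  refine ⟨min 1 δ0, lt_min one_pos hδ0, fun t v hv s s' hst => ?_⟩
  by_contra hn
  obtain ⟨s1, hs1, n, rfl⟩ := B2.c_red (frz h t) s
  obtain ⟨s2, hs2, n', rfl⟩ := B2.c_red (frz h t) s'
  have e1 := B2.c_int (frz h t) n s1
  have e2 := B2.c_int (frz h t) n' s2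
  set v1 : E := v + ((n : ℝ) • β k0 - (n' : ℝ) • β k0) with hv1
  have hm : ∀ k : ℤ, (k : ℝ) • β k0 ∈ Submodule.span ℤ (Set.range β) := by
    intro k
    rw [Int.cast_smul_eq_zsmul]
    exact Submodule.smul_mem _ _ (Submodule.subset_span ⟨k0, rfl⟩)
  have hv1m : v1 ∈ Submodule.span ℤ (Set.range β) :=
    Submodule.add_mem _ hv (Submodule.sub_mem _ (hm n) (hm n'))
  have hv1n : ¬ ∃ k : ℤ, v1 = (k : ℝ) • β k0 := by
    rintro ⟨k, hk⟩
    refine hn ⟨k - n + n', ?_⟩
    have : v = v1 - ((n : ℝ) • β k0 - (n' : ℝ) • β k0) := by rw [hv1]; abel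
    rw [this, hk]
    push_cast
    module
  have e3 : c (s1 + n * len) t + v - c (s2 + n' * len) t =
      c s1 (Int.fract t) + v1 - c s2 (Int.fract t) := by
    rw [e1, e2, hv1, c_fract h, c_fract h]
    abel
  rw [e3] at hst
  have hft : Int.fract t ∈ Icc (0:ℝ) 1 := ⟨Int.fract_nonneg t, (Int.fract_lt_one t).le⟩
  by_cases hvA : v1 ∈ A0
  · have h1 := hδ' v1 hv1m hv1n (s1, s2, Int.fract t) ⟨hs1, hs2, hft⟩
    have h2 := hδ0' v1 hvA
    have h3 := hst.trans_le (min_le_right _ _)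
    simp only at h1
    linarith
  · have h1 : 1 + 2 * R < ‖v1‖ := by
      by_contra hc
      exact hvA ⟨by rw [mem_closedBall_zero_iff]; exact not_lt.1 hc, hv1m⟩
    have h2 := hR (s1, Int.fract t) ⟨hs1, hft⟩
    have h3 := hR (s2, Int.fract t) ⟨hs2, hft⟩
    simp only at h2 h3
    have e4 : v1 = (c s1 (Int.fract t) + v1 - c s2 (Int.fract t)) -
        (c s1 (Int.fract t) - c s2 (Int.fract t)) := by abel
    have h4 : ‖v1‖ ≤ ‖c s1 (Int.fract t) + v1 - c s2 (Int.fract t)‖ +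
        ‖c s1 (Int.fract t) - c s2 (Int.fract t)‖ := by
      conv_lhs => rw [e4]
      exact norm_sub_le _ _
    have h5 := norm_sub_le (c s1 (Int.fract t)) (c s2 (Int.fract t))
    have h6 := hst.trans_le (min_le_left _ _)
    linarith

/-- periodic continuous functions are bounded -/
theorem bdd_of_per {W : Type*} [NormedAddCommGroup W] (β : Module.Basis ι ℝ E) {Φ : E → W}
    (hc : Continuous Φ) (hx : ∀ i x, Φ (x + β i) = Φ x) : ∃ C : ℝ, 0 ≤ C ∧ ∀ x, ‖Φ x‖ ≤ C := by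
  have hsp : ∀ y ∈ Submodule.span ℤ (Set.range β), ∀ x, Φ (x + y) = Φ x := by
    intro y hy
    induction hy using Submodule.span_induction with
    | mem y hy =>
      obtain ⟨i, rfl⟩ := hy
      exact hx i
    | zero => intro x; rw [add_zero]
    | add y z _ _ h1 h2 => intro x; rw [← add_assoc, h2, h1]
    | smul n y _ h1 =>
      intro x
      induction n using Int.induction_on generalizing x with
      | zero => rw [zero_smul, add_zero]
      | succ k ih => rw [add_smul, one_smul, ← add_assoc, h1, ih]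
      | pred k ih =>
        rw [sub_smul, one_smul]
        have := h1 (x + (-(k : ℤ) • y - y))
        rw [add_assoc, sub_add_cancel] at this
        rw [← this, ih]
  obtain ⟨C, hC⟩ := (isCompact_closedBall (0 : E) (∑ i, ‖β i‖)).exists_bound_of_continuousOn
    hc.continuousOn
  refine ⟨max C 0, le_max_right _ _, fun x => ?_⟩
  have h2 : Φ (ZSpan.fract β x + (ZSpan.floor β x : E)) = Φ (ZSpan.fract β x) :=
    hsp _ (ZSpan.floor β x).2 _
  have h3 : ZSpan.fract β x + (ZSpan.floor β x : E) = x := by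
    rw [ZSpan.fract_apply, sub_add_cancel]
  rw [h3] at h2
  rw [h2]
  refine (hC _ ?_).trans (le_max_left _ _)
  rw [mem_closedBall_zero_iff]
  exact ZSpan.norm_fract_le β x

/-- cut-offs near the translates of the curves, with uniform constants -/
theorem exists_cut (h : CalT β F mF MF A κ B k0 len c c' ct) {r1 : ℝ} (hr1 : 0 < r1) :
    ∃ r K : ℝ, 0 < r ∧ r ≤ r1 ∧ 0 ≤ K ∧ ∀ t : ℝ, ∃ ψ : E → ℝ, ContDiff ℝ 1 ψ ∧ (∀ x, |ψ x| ≤ 1) ∧
      (∀ x v, |fderiv ℝ ψ x v| ≤ K * ‖v‖) ∧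
      (∀ x, ∀ w ∈ Submodule.span ℤ (Set.range β), ∀ s : ℝ, ‖x - (c s t + w)‖ < r → ψ x = 1) ∧
      (∀ x, (∀ w ∈ Submodule.span ℤ (Set.range β), ∀ s : ℝ, 4 * r ≤ ‖x - (c s t + w)‖) → ψ x = 0) := by
  classical
  have hcc := c_cont2 h
  obtain ⟨r0, hr0, hb⟩ := exists_sbump β
  set r : ℝ := min r0 r1 with hr
  have hrp : 0 < r := lt_min hr0 hr1
  choose g hg1 hg2 hg3 hg4 hg5 using hb r hrp (min_le_left _ _)
  -- finite cover of the curves
  obtain ⟨V, hV⟩ : ∃ V : ℝ × ℝ → Set (ℝ × ℝ), ∀ q p, p ∈ V q ↔ ‖c p.1 p.2 - c q.1 q.2‖ < r :=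
    ⟨fun q => {p | ‖c p.1 p.2 - c q.1 q.2‖ < r}, fun _ _ => Iff.rfl⟩
  have hVo : ∀ q, IsOpen (V q) := by
    intro q
    have e : V q = {p | ‖c p.1 p.2 - c q.1 q.2‖ < r} := Set.ext fun p => hV q p
    rw [e]
    exact isOpen_lt (hcc.sub continuous_const).norm continuous_const
  have hK2 : IsCompact (Icc (0:ℝ) len ×ˢ Icc (0:ℝ) 1) := isCompact_Icc.prod isCompact_Icc
  have hcov : Icc (0:ℝ) len ×ˢ Icc (0:ℝ) 1 ⊆ ⋃ q ∈ Icc (0:ℝ) len ×ˢ Icc (0:ℝ) 1, V q := by
    intro p hp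
    rw [mem_iUnion₂]
    refine ⟨p, hp, (hV p p).2 ?_⟩
    rw [sub_self, norm_zero]
    exact hrp
  obtain ⟨S, -, hSf, hScov⟩ := hK2.elim_finite_subcover_image (fun q _ => hVo q) hcov
  set T : Finset (ℝ × ℝ) := hSf.toFinset with hT
  set Ψ : Finset (ℝ × ℝ) → E → ℝ := fun U x => 1 - ∏ q ∈ U, (1 - g (c q.1 q.2) x) with hΨ
  have hsm : ∀ U, ContDiff ℝ 1 (Ψ U) := by
    intro U
    refine contDiff_const.sub (contDiff_prod fun q _ => contDiff_const.sub ?_)
    exact (hg1 (c q.1 q.2)).of_le (by exact_mod_cast le_top)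
  have hbd : ∀ U, ∃ K : ℝ, 0 ≤ K ∧ ∀ x, ‖fderiv ℝ (Ψ U) x‖ ≤ K := by
    intro U
    refine bdd_of_per β ((hsm U).continuous_fderiv one_ne_zero) fun i x => ?_
    rw [← fderiv_comp_add_right]
    congr 1
    funext y
    simp only [hΨ, hg2]
  choose K hK0 hK using hbd
  refine ⟨r, ∑ U ∈ T.powerset, K U, hrp, min_le_right _ _, Finset.sum_nonneg fun U _ => hK0 U,
    fun t => ?_⟩
  set U : Finset (ℝ × ℝ) := T.filter (fun q => ∃ s : ℝ, ‖c s t - c q.1 q.2‖ < r) with hU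
  have hUT : U ∈ T.powerset := Finset.mem_powerset.2 (Finset.filter_subset _ _)
  have hKU : K U ≤ ∑ U ∈ T.powerset, K U := Finset.single_le_sum (fun U _ => hK0 U) hUT
  refine ⟨Ψ U, hsm U, fun x => ?_, fun x v => ?_, ?_, ?_⟩
  · have h1 : 0 ≤ ∏ q ∈ U, (1 - g (c q.1 q.2) x) :=
      Finset.prod_nonneg fun q _ => by linarith [(hg3 (c q.1 q.2) x).2]
    have h2 : ∏ q ∈ U, (1 - g (c q.1 q.2) x) ≤ 1 :=
      Finset.prod_le_one (fun q _ => by linarith [(hg3 (c q.1 q.2) x).2])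
        fun q _ => by linarith [(hg3 (c q.1 q.2) x).1]
    rw [abs_le]
    constructor <;> simp only [hΨ] <;> linarith
  · rw [← Real.norm_eq_abs]
    exact ((fderiv ℝ (Ψ U) x).le_opNorm v).trans
      (mul_le_mul_of_nonneg_right ((hK U x).trans hKU) (norm_nonneg _))
  · intro x w hw s ht
    obtain ⟨s1, hs1, n, rfl⟩ := B2.c_red (frz h t) s
    have hft : Int.fract t ∈ Icc (0:ℝ) 1 := ⟨Int.fract_nonneg t, (Int.fract_lt_one t).le⟩
    have hmem : (s1, Int.fract t) ∈ Icc (0:ℝ) len ×ˢ Icc (0:ℝ) 1 := ⟨hs1, hft⟩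
    obtain ⟨q, hq, hst⟩ := mem_iUnion₂.1 (hScov hmem)
    rw [hV] at hst
    simp only at hst
    rw [c_fract h] at hst
    have e1 := B2.c_int (frz h t) n s1
    rw [e1] at ht
    have hv : -(w + (n : ℝ) • β k0) ∈ Submodule.span ℤ (Set.range β) := by
      refine Submodule.neg_mem _ (Submodule.add_mem _ hw ?_)
      rw [Int.cast_smul_eq_zsmul]
      exact Submodule.smul_mem _ _ (Submodule.subset_span ⟨k0, rfl⟩)
    have h1 : g (c q.1 q.2) x = 1 := by
      apply hg4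
      refine ⟨_, hv, ?_⟩
      have e : x + -(w + (n : ℝ) • β k0) - c q.1 q.2 =
          (x - (c s1 t + (n : ℝ) • β k0 + w)) + (c s1 t - c q.1 q.2) := by
        abel
      rw [e]
      linarith [norm_add_le (x - (c s1 t + (n : ℝ) • β k0 + w)) (c s1 t - c q.1 q.2)]
    have hqU : q ∈ U := by
      rw [hU, Finset.mem_filter]
      exact ⟨by rw [hT, Set.Finite.mem_toFinset]; exact hq, s1, hst⟩
    have h2 : ∏ q ∈ U, (1 - g (c q.1 q.2) x) = 0 :=
      Finset.prod_eq_zero (i := q) hqU (by rw [h1, sub_self])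
    simp only [hΨ, h2, sub_zero]
  · intro x hx
    have h1 : ∀ q ∈ U, (1 : ℝ) - g (c q.1 q.2) x = 1 := by
      intro q hq
      rw [hU, Finset.mem_filter] at hq
      obtain ⟨-, s, hs⟩ := hq
      have h3 : g (c q.1 q.2) x = 0 := by
        apply hg5
        intro v hv
        have h2 := hx (-v) (Submodule.neg_mem _ hv) s
        have e : x - (c s t + -v) = (x + v - c q.1 q.2) - (c s t - c q.1 q.2) := by abel
        rw [e] at h2
        linarith [norm_sub_le (x + v - c q.1 q.2) (c s t - c q.1 q.2)]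
      rw [h3, sub_zero]
    simp only [hΨ]
    rw [Finset.prod_congr rfl h1, Finset.prod_const_one, sub_self]

end EC

/-- a function of the phase near the curve at time `t`, extended periodically; constants uniform in `t` -/
theorem exists_phase (h : CalT β F mF MF A κ B k0 len c c' ct) : ∃ C η : ℝ, 0 < C ∧ 0 < η ∧
    ∀ (t : ℝ) (φ φ' : ℝ → ℝ) (K : ℝ), (∀ σ, HasDerivAt φ (φ' σ) σ) → Continuous φ' →
      (∀ σ, φ (σ + len) = φ σ) → (∀ σ, |φ σ| ≤ K) → (∀ σ, |φ' σ| ≤ K) → ∃ Φ : E → ℝ, ContDiff ℝ 1 Φ ∧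
        (∀ x, |Φ x| ≤ K) ∧ (∀ x v, |fderiv ℝ Φ x v| ≤ C * K * ‖v‖) ∧
        ∀ (σ : ℝ), ∀ w ∈ Submodule.span ℤ (Set.range β), ∀ x, ‖x - (c σ t + w)‖ ≤ η →
          ∃ σ', |σ' - σ| ≤ C * ‖x - (c σ t + w)‖ ∧
            ∀ v, fderiv ℝ Φ x v = φ' σ' * fderiv ℝ (fun y => B y t) x v := by
  classical
  obtain ⟨δ, hδ, hsep'⟩ := EC.sep h
  obtain ⟨r, Kψ, hr, hr1, hKψ, hcut⟩ := EC.exists_cut h (r1 := δ / 10) (by positivity)
  have hMF := B2.MF_pos (EC.frz h 0)
  refine ⟨Kψ + MF, r / 2, by positivity, by positivity, fun t φ φ' K hφ hφ'c hper hb hb' => ?_⟩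
  obtain ⟨ψ, hψs, hψ1, hψd, hψn, hψf⟩ := hcut t
  have hsep := hsep' t
  have hf := EC.frz h t
  set b : E → ℝ := fun y => B y t with hbdef
  set γ : ℝ → E := fun σ => c σ t with hγ
  have hcγ : ∀ σ, c σ t = γ σ := fun σ => rfl
  simp only [hcγ] at hψn hψf hsep ⊢
  have hBd : Differentiable ℝ b := hf.smooth.differentiable one_ne_zero
  have hK0 : 0 ≤ K := (abs_nonneg _).trans (hb 0)
  -- periodicity of φ
  have hpern : ∀ (n : ℤ) σ, φ (σ + n * len) = φ σ := by
    intro n σ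
    have h1 : Function.Periodic φ len := hper
    have := h1.int_mul n σ
    exact this
  have hφs : ContDiff ℝ 1 φ := by
    rw [contDiff_one_iff_deriv]
    refine ⟨fun σ => (hφ σ).differentiableAt, ?_⟩
    have e : deriv φ = φ' := funext fun σ => (hφ σ).deriv
    rw [e]
    exact hφ'c
  set Φ : E → ℝ := fun x => if hx : ∃ w ∈ Submodule.span ℤ (Set.range β), ∃ s : ℝ,
    ‖x - (γ s + w)‖ < 4 * r then ψ x * φ (b (x - hx.choose) - b (γ 0)) else 0 with hΦ
  -- the local formula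
  have hloc : ∀ x, ∀ w ∈ Submodule.span ℤ (Set.range β), ∀ s : ℝ, ‖x - (γ s + w)‖ < 5 * r →
      Φ x = ψ x * φ (b (x - w) - b (γ 0)) := by
    intro x w hw s ht
    by_cases hx : ∃ w ∈ Submodule.span ℤ (Set.range β), ∃ s : ℝ, ‖x - (γ s + w)‖ < 4 * r
    · have e : Φ x = ψ x * φ (b (x - hx.choose) - b (γ 0)) := dif_pos hx
      obtain ⟨h1, s', h2⟩ := hx.choose_spec
      set w' := hx.choose
      obtain ⟨n, hn⟩ := hsep (w - w') (Submodule.sub_mem _ hw h1) s s' (by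
        have e : γ s + (w - w') - γ s' = (x - (γ s' + w')) - (x - (γ s + w)) := by abel
        rw [e]
        have := norm_sub_le (x - (γ s' + w')) (x - (γ s + w))
        linarith)
      have e1 : x - w' = (x - w) + (n : ℝ) • β k0 := by
        rw [← hn]
        abel
      have e2 : b (x - w') = b (x - w) + n * len := by
        rw [e1, Int.cast_smul_eq_zsmul]
        exact B2.zsmul_per (B2.B_k0 hf) n _
      rw [e, e2, show b (x - w) + n * len - b (γ 0) = (b (x - w) - b (γ 0)) + n * len by ring,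
        hpern]
    · have e : Φ x = 0 := dif_neg hx
      rw [e, hψf x (fun w hw s => ?_), zero_mul]
      by_contra hc
      exact hx ⟨w, hw, s, not_le.mp hc⟩
  have hfar : ∀ x, (∀ w ∈ Submodule.span ℤ (Set.range β), ∀ s : ℝ, 4 * r ≤ ‖x - (γ s + w)‖) →
      Φ x = 0 := by
    intro x hx
    exact dif_neg fun ⟨w, hw, s, ht⟩ => absurd (hx w hw s) (not_le.mpr ht)
  -- the derivative of the local formula
  have hder : ∀ w x, HasFDerivAt (fun x => φ (b (x - w) - b (γ 0)))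
      (φ' (b (x - w) - b (γ 0)) • fderiv ℝ b (x - w)) x := by
    intro w x
    have h1 : HasFDerivAt (fun x => b (x - w) - b (γ 0)) (fderiv ℝ b (x - w)) x := by
      have h2 : HasFDerivAt (fun x => b (x - w)) (fderiv ℝ b (x - w)) x := by
        have h3 := (hBd (x - w)).hasFDerivAt.comp x ((hasFDerivAt_id x).sub_const w)
        rw [ContinuousLinearMap.comp_id] at h3
        exact h3
      exact h2.sub_const _
    exact (hφ _).comp_hasFDerivAt x h1
  have hcomp : ∀ w, ContDiff ℝ 1 fun x => φ (b (x - w) - b (γ 0)) := fun w =>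
    hφs.comp ((hf.smooth.comp (contDiff_id.sub contDiff_const)).sub contDiff_const)
  have hnear : ∀ (x0 a : E) (R : ℝ), ‖x0 - a‖ < R → ∀ᶠ x in 𝓝 x0, ‖x - a‖ < R := by
    intro x0 a R h1
    have : Continuous fun x : E => ‖x - a‖ := (continuous_id.sub continuous_const).norm
    exact this.continuousAt.eventually_lt continuousAt_const h1
  have hev : ∀ x0, ∀ w ∈ Submodule.span ℤ (Set.range β), ∀ s : ℝ, ‖x0 - (γ s + w)‖ < 5 * r →
      Φ =ᶠ[𝓝 x0] fun x => ψ x * φ (b (x - w) - b (γ 0)) := by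
    intro x0 w hw s ht
    filter_upwards [hnear x0 _ _ ht] with x hx
    exact hloc x w hw s hx
  have hev0 : ∀ x0, (¬ ∃ w ∈ Submodule.span ℤ (Set.range β), ∃ s : ℝ, ‖x0 - (γ s + w)‖ < 5 * r) →
      Φ =ᶠ[𝓝 x0] fun _ => 0 := by
    intro x0 hx0
    have h1 : ∀ᶠ x in 𝓝 x0, ‖x - x0‖ < r := hnear x0 x0 r (by simpa using hr)
    filter_upwards [h1] with x hx
    refine hfar x fun w hw s => ?_
    by_contra hc
    push Not at hc
    refine hx0 ⟨w, hw, s, ?_⟩
    have e : x0 - (γ s + w) = (x - (γ s + w)) - (x - x0) := by abel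
    rw [e]
    linarith [norm_sub_le (x - (γ s + w)) (x - x0)]
  refine ⟨Φ, ?_, fun x => ?_, fun x v => ?_, ?_⟩
  · rw [contDiff_iff_contDiffAt]
    intro x0
    by_cases hx0 : ∃ w ∈ Submodule.span ℤ (Set.range β), ∃ s : ℝ, ‖x0 - (γ s + w)‖ < 5 * r
    · obtain ⟨w, hw, s, ht⟩ := hx0
      exact ((hψs.mul (hcomp w)).contDiffAt).congr_of_eventuallyEq (hev x0 w hw s ht)
    · exact contDiffAt_const.congr_of_eventuallyEq (hev0 x0 hx0)
  · by_cases hx : ∃ w ∈ Submodule.span ℤ (Set.range β), ∃ s : ℝ, ‖x - (γ s + w)‖ < 4 * r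
    · have e : Φ x = ψ x * φ (b (x - hx.choose) - b (γ 0)) := dif_pos hx
      rw [e, abs_mul]
      calc |ψ x| * |φ (b (x - hx.choose) - b (γ 0))| ≤ 1 * K :=
            mul_le_mul (hψ1 x) (hb _) (abs_nonneg _) zero_le_one
        _ = K := one_mul K
    · have e : Φ x = 0 := dif_neg hx
      rw [e, abs_zero]
      exact hK0
  · by_cases hx0 : ∃ w ∈ Submodule.span ℤ (Set.range β), ∃ s : ℝ, ‖x - (γ s + w)‖ < 5 * r
    · obtain ⟨w, hw, s, ht⟩ := hx0
      have h1 : HasFDerivAt (fun x => ψ x * φ (b (x - w) - b (γ 0)))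
          (ψ x • (φ' (b (x - w) - b (γ 0)) • fderiv ℝ b (x - w)) +
            φ (b (x - w) - b (γ 0)) • fderiv ℝ ψ x) x :=
        ((hψs.differentiable one_ne_zero) x).hasFDerivAt.mul (hder w x)
      rw [(hev x w hw s ht).fderiv_eq, h1.fderiv]
      simp only [add_apply, smul_apply, smul_eq_mul]
      have h2 : |ψ x * (φ' (b (x - w) - b (γ 0)) * fderiv ℝ b (x - w) v)| ≤ 1 * (K * (MF * ‖v‖)) := by
        rw [abs_mul, abs_mul]
        exact mul_le_mul (hψ1 x) (mul_le_mul (hb' _) (B2.dB_abs hf _ _) (abs_nonneg _) hK0)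
          (by positivity) zero_le_one
      have h3 : |φ (b (x - w) - b (γ 0)) * fderiv ℝ ψ x v| ≤ K * (Kψ * ‖v‖) := by
        rw [abs_mul]
        exact mul_le_mul (hb _) (hψd x v) (abs_nonneg _) hK0
      calc _ ≤ _ := abs_add_le _ _
        _ ≤ 1 * (K * (MF * ‖v‖)) + K * (Kψ * ‖v‖) := add_le_add h2 h3
        _ = (Kψ + MF) * K * ‖v‖ := by ring
    · rw [(hev0 x hx0).fderiv_eq]
      simp only [fderiv_fun_const, Pi.zero_apply, zero_apply, abs_zero]
      positivity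
  · intro σ w hw x hx
    refine ⟨b (x - w) - b (γ 0), ?_, fun v => ?_⟩
    · have h1 : b (γ σ) - b (γ 0) = σ - 0 := B2.B_c hf 0 σ
      have e : b (x - w) - b (γ 0) - σ = b (x - w) - b (γ σ) := by linarith
      rw [e]
      have h2 : ∀ y, ‖fderiv ℝ b y‖ ≤ MF := by
        intro y
        refine ContinuousLinearMap.opNorm_le_bound _ hMF.le fun v => ?_
        rw [Real.norm_eq_abs]
        exact B2.dB_abs hf y v
      have h3 := (convex_univ (𝕜 := ℝ) (E := E)).norm_image_sub_le_of_norm_fderiv_le (f := b)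
        (fun y _ => hBd y) (fun y _ => h2 y) (mem_univ (γ σ)) (mem_univ (x - w))
      rw [Real.norm_eq_abs] at h3
      have e2 : x - w - γ σ = x - (γ σ + w) := by abel
      rw [e2] at h3
      refine h3.trans (mul_le_mul_of_nonneg_right (by linarith) (norm_nonneg _))
    · have h1 : Φ =ᶠ[𝓝 x] fun x => φ (b (x - w) - b (γ 0)) := by
        filter_upwards [hnear x (γ σ + w) r (by linarith)] with y hy
        rw [hloc y w hw σ (by linarith), hψn y w hw σ hy, one_mul]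
      rw [h1.fderiv_eq, (hder w x).fderiv]
      simp only [smul_apply, smul_eq_mul]
      have h2 : fderiv ℝ b x = fderiv ℝ b (x - w) := by
        have := B2.dB_per hf hw (x - w)
        rwa [sub_add_cancel] at this
      rw [h2]

end EscT
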