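import Pool.Agent.EscT.ED
import Pool.Agent.EscG.B1

/-!
Project EscT (MP_6acca1_an), module EE: action minus energy at frozen time is the flux, up to a small
multiple of the speed and a multiple of the excess.
-/

noncomputable section

namespace EscT

open MeasureTheory Set Filter Topology Esc EscF EscG
open scoped ContDiff

section EEaux

variable {E : Type*} [NormedAddCommGroup E] [InnerProductSpace ℝ E] [FiniteDimensional ℝ E]

/-- continuous functions of position and velocity are integrable along trajectories -/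
theorem EE_ii {Φ : E → E → ℝ} (hΦ : Continuous fun p : E × E => Φ p.1 p.2) {u : ℝ → E} (hu : Adm u)
    (a : ℝ) (z : E) (p q : ℝ) : IntervalIntegrable (fun t => Φ (traj a z u t) (u t)) volume p q := by
  have hc := traj_cont hu a z
  obtain ⟨hm, C, hC⟩ := hu
  have hK : IsCompact ((traj a z u '' uIcc p q) ×ˢ (Metric.closedBall (0 : E) C)) :=
    (isCompact_uIcc.image hc).prod (isCompact_closedBall _ _)
  obtain ⟨B, hB⟩ := hK.exists_bound_of_continuousOn hΦ.continuousOn
  rw [intervalIntegrable_iff]
  refine Measure.integrableOn_of_bounded (M := B) (by simp) ?_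
    (ae_restrict_of_forall_mem measurableSet_uIoc fun t ht => ?_)
  · exact (hΦ.comp_stronglyMeasurable (hc.stronglyMeasurable.prodMk hm)).aestronglyMeasurable
  · have ht' := uIoc_subset_uIcc ht
    exact hB (traj a z u t, u t) ⟨mem_image_of_mem _ ht', by simpa using hC t⟩

omit [FiniteDimensional ℝ E] in
theorem EE_dcont {Φ : E → ℝ} (hΦ : ContDiff ℝ 1 Φ) :
    Continuous fun p : E × E => fderiv ℝ Φ p.1 p.2 :=
  ((hΦ.continuous_fderiv one_ne_zero).comp continuous_fst).clm_apply continuous_snd

omit [FiniteDimensional ℝ E] in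
/-- the time derivative is continuous in `x` -/
theorem EE_tcont {B : E → ℝ → ℝ} (hB : ContDiff ℝ 1 (fun p : E × ℝ => B p.1 p.2)) (t0 : ℝ) :
    Continuous fun x : E => deriv (fun a => B x a) t0 := by
  have h1 : (fun x : E => deriv (fun a => B x a) t0) =
      fun x : E => fderiv ℝ (fun p : E × ℝ => B p.1 p.2) (x, t0) (0, 1) := by
    funext x
    have h2 : HasFDerivAt (fun p : E × ℝ => B p.1 p.2)
        (fderiv ℝ (fun p : E × ℝ => B p.1 p.2) (x, t0)) (x, t0) :=
      (hB.differentiable one_ne_zero _).hasFDerivAt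
    have h3 : HasDerivAt (fun a : ℝ => (x, a)) ((0 : E), (1 : ℝ)) t0 :=
      (hasDerivAt_const t0 x).prodMk (hasDerivAt_id t0)
    exact (h2.comp_hasDerivAt t0 h3).deriv
  rw [h1]
  exact ((hB.continuous_fderiv one_ne_zero).comp
    (continuous_id.prodMk continuous_const)).clm_apply continuous_const

omit [FiniteDimensional ℝ E] in
theorem EE_frozen {B : E → ℝ → ℝ} (hB : ContDiff ℝ 1 (fun p : E × ℝ => B p.1 p.2)) (t0 : ℝ) :
    ContDiff ℝ 1 (fun x : E => B x t0) :=
  hB.comp (contDiff_id.prodMk contDiff_const)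

end EEaux

section B

variable {ι : Type} [Fintype ι] {d : ℕ} {E : Type*} [NormedAddCommGroup E] [InnerProductSpace ℝ E]
  [FiniteDimensional ℝ E] {D : GT ι d E} {p : GP} {m M Mf : ℝ} {L : LP} {ll l : E → E → ℝ → ℝ}
  {f f' : E → ℝ → ℝ}
variable {β : Module.Basis ι ℝ E} {F : E → E → ℝ → ℝ} {mF MF A : ℝ} {κ : ℝ → ℝ} {B : E → ℝ → ℝ} {k0 : ι}
  {len : ℝ} {c c' ct : ℝ → ℝ → E}

/-- frozen time -/
theorem flT_frozen (h : CalT β F mF MF A κ B k0 len c c' ct) (hl : TG β m M l) {MA : ℝ} (hA : AT F κ MA l) {ε : ℝ}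
    (hε : 0 < ε) : ∃ C : ℝ, 0 ≤ C ∧ ∀ s t0, 1 ≤ s → ∀ (z : E) (u : ℝ → E), Adm u → ∀ t t' : ℝ, t ≤ t' →
      t' ≤ t + 4 → |(∫ r in t..t', (l (traj t z u r) (u r) t0 - κ t0 * F (traj t z u r) (u r) t0 ^ 2 / 2 -
          s * deriv (fun a => B (traj t z u r) a) t0)) -
          (flT F κ B l len c c' s t0 - s ^ 2 / 2 * (1 - (κ t0)⁻¹)) * (t' - t)| ≤
        ε * s * (t' - t) + C * (1 + (∫ r in t..t', (F (traj t z u r) (u r) t0 -
          fderiv ℝ (fun y => B y t0) (traj t z u r) (u r))) +
          ∫ r in t..t', |κ t0 * F (traj t z u r) (u r) t0 - s|) := by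
  obtain ⟨C, hC0, hC⟩ := flT_pt h hl hA hε
  refine ⟨6 * C, by positivity, ?_⟩
  intro s t0 hs z u hu t t' htt ht4
  obtain ⟨Φ, hΦ, hΦb, hpt⟩ := hC s t0 hs
  -- continuity and integrability
  have cF : Continuous fun p : E × E => F p.1 p.2 t0 :=
    h.F_cont.comp (continuous_fst.prodMk (continuous_snd.prodMk continuous_const))
  have cl : Continuous fun p : E × E => l p.1 p.2 t0 :=
    hl.smooth.continuous.comp
      (continuous_fst.prodMk (continuous_snd.prodMk (continuous_const (y := t0))))
  have cD : Continuous fun p : E × E => deriv (fun a => B p.1 a) t0 :=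
    (EE_tcont h.B_smooth t0).comp continuous_fst
  have hB0 : ContDiff ℝ 1 (fun y : E => B y t0) := EE_frozen h.B_smooth t0
  set q : ℝ → ℝ := fun r => l (traj t z u r) (u r) t0 - κ t0 * F (traj t z u r) (u r) t0 ^ 2 / 2 -
          s * deriv (fun a => B (traj t z u r) a) t0 with hq
  have iF : IntervalIntegrable (fun r => F (traj t z u r) (u r) t0) volume t t' :=
    EE_ii (Φ := fun x v => F x v t0) cF hu t z t t'
  have iq : IntervalIntegrable q volume t t' :=
    EE_ii (Φ := fun x v => l x v t0 - κ t0 * F x v t0 ^ 2 / 2 - s * deriv (fun a => B x a) t0)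
      ((cl.sub (((cF.pow 2).const_mul _).div_const 2)).sub (cD.const_mul _)) hu t z t t'
  have iP : IntervalIntegrable (fun r => fderiv ℝ Φ (traj t z u r) (u r)) volume t t' :=
    EE_ii (Φ := fun x v => fderiv ℝ Φ x v) (EE_dcont hΦ) hu t z t t'
  have iX : IntervalIntegrable (fun r => F (traj t z u r) (u r) t0 -
      fderiv ℝ (fun y => B y t0) (traj t z u r) (u r)) volume t t' :=
    EE_ii (Φ := fun x v => F x v t0 - fderiv ℝ (fun y => B y t0) x v) (cF.sub (EE_dcont hB0)) hu t z t t'
  have iS : IntervalIntegrable (fun r => |κ t0 * F (traj t z u r) (u r) t0 - s|) volume t t' :=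
    EE_ii (Φ := fun x v => |κ t0 * F x v t0 - s|) (((cF.const_mul _).sub continuous_const).abs) hu t z t t'
  have eP := ftc_traj hΦ hu t z t'
  set a := flT F κ B l len c c' s t0 - s ^ 2 / 2 * (1 - (κ t0)⁻¹) with ha
  set IX := ∫ r in t..t', (F (traj t z u r) (u r) t0 -
      fderiv ℝ (fun y => B y t0) (traj t z u r) (u r)) with hIX
  set IS := ∫ r in t..t', |κ t0 * F (traj t z u r) (u r) t0 - s| with hIS
  -- the error term
  have i1 : IntervalIntegrable (fun r => q r - a) volume t t' := iq.sub intervalIntegrable_const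
  have i2 : IntervalIntegrable
      (fun r => q r - a - fderiv ℝ Φ (traj t z u r) (u r)) volume t t' := i1.sub iP
  have e1 : (∫ r in t..t', (q r - a - fderiv ℝ Φ (traj t z u r) (u r))) =
      (∫ r in t..t', q r) - a * (t' - t) - (Φ (traj t z u t') - Φ z) := by
    rw [intervalIntegral.integral_sub i1 iP, intervalIntegral.integral_sub iq
      intervalIntegrable_const, intervalIntegral.integral_const, smul_eq_mul, eP]
    ring
  have iR : IntervalIntegrable (fun r => ε * s + C * (F (traj t z u r) (u r) t0 -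
      fderiv ℝ (fun y => B y t0) (traj t z u r) (u r)) +
      C * |κ t0 * F (traj t z u r) (u r) t0 - s| + C) volume t t' :=
    ((intervalIntegrable_const.add (iX.const_mul _)).add (iS.const_mul _)).add
      intervalIntegrable_const
  have e2 : (∫ r in t..t', (ε * s + C * (F (traj t z u r) (u r) t0 -
      fderiv ℝ (fun y => B y t0) (traj t z u r) (u r)) +
      C * |κ t0 * F (traj t z u r) (u r) t0 - s| + C)) =
      ε * s * (t' - t) + C * IX + C * IS + C * (t' - t) := by
    rw [intervalIntegral.integral_add ((intervalIntegrable_const.add (iX.const_mul _)).add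
        (iS.const_mul _)) intervalIntegrable_const,
      intervalIntegral.integral_add (intervalIntegrable_const.add (iX.const_mul _))
        (iS.const_mul _),
      intervalIntegral.integral_add intervalIntegrable_const (iX.const_mul _),
      intervalIntegral.integral_const, intervalIntegral.integral_const,
      intervalIntegral.integral_const_mul, intervalIntegral.integral_const_mul,
      smul_eq_mul, smul_eq_mul]
    ring
  have b1 : |∫ r in t..t', (q r - a - fderiv ℝ Φ (traj t z u r) (u r))| ≤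
      ε * s * (t' - t) + C * IX + C * IS + C * (t' - t) := by
    rw [← e2, ← Real.norm_eq_abs]
    refine (intervalIntegral.norm_integral_le_integral_norm htt).trans ?_
    refine intervalIntegral.integral_mono_on htt i2.norm iR fun r _ => ?_
    rw [Real.norm_eq_abs]
    exact hpt (traj t z u r) (u r)
  rw [e1] at b1
  have b3 : |Φ (traj t z u t') - Φ z| ≤ 2 * C := by
    have h1 := hΦb (traj t z u t')
    have h2 := hΦb z
    have h3 := abs_sub (Φ (traj t z u t')) (Φ z)
    linarith
  have hIS0 : 0 ≤ IS := intervalIntegral.integral_nonneg htt fun r _ => abs_nonneg _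
  have hIX0 : 0 ≤ IX :=
    intervalIntegral.integral_nonneg htt fun r _ => sub_nonneg.2 (h.B_le _ _ _)
  have b6 : C * (t' - t) ≤ 4 * C := by nlinarith
  have e4 : (∫ r in t..t', q r) - a * (t' - t) =
      ((∫ r in t..t', q r) - a * (t' - t) - (Φ (traj t z u t') - Φ z)) +
        (Φ (traj t z u t') - Φ z) := by ring
  change |(∫ r in t..t', q r) - a * (t' - t)| ≤ ε * s * (t' - t) + 6 * C * (1 + IX + IS)
  rw [e4]
  refine (abs_add_le _ _).trans ?_
  have h6 : 0 ≤ C * IX := mul_nonneg hC0 hIX0
  have h8 : 0 ≤ C * IS := mul_nonneg hC0 hIS0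
  nlinarith

end B

end EscT
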