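import Pool.Agent.EscT.TDefs
import Pool.Agent.EscG.A1

/-!
Project EscT (MP_6acca1_an), module A5a: kernels at speed `s`, elementary properties (helper21).
-/

set_option linter.unusedSectionVars false
set_option linter.unusedVariables false

noncomputable section

namespace EscT

open MeasureTheory Set Filter Topology Esc EscF EscG
open scoped ContDiff

section A5

variable {E : Type*} [NormedAddCommGroup E] [InnerProductSpace ℝ E] [FiniteDimensional ℝ E]
  {ι : Type} [Fintype ι] {β : Module.Basis ι ℝ E} {m M Mf : ℝ}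
  {l : E → E → ℝ → ℝ} {d : ℕ} {b : Fin d → E} {MF : ℝ} {B : E → ℝ} {c : Fin d → ℝ}

/-! ### auxiliary facts -/

/-- Cauchy-Schwarz -/
theorem A5a_cs {g : ℝ → ℝ} {p q : ℝ} (hpq : p < q) (hg : IntervalIntegrable g volume p q)
    (hg2 : IntervalIntegrable (fun r => g r ^ 2 / 2) volume p q) :
    (∫ r in p..q, g r) ^ 2 ≤ 2 * (q - p) * ∫ r in p..q, g r ^ 2 / 2 := by
  have hT : 0 < q - p := by linarith
  set I := ∫ r in p..q, g r with hI
  have h0 : 0 ≤ ∫ r in p..q, (g r - I / (q - p)) ^ 2 / 2 :=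
    intervalIntegral.integral_nonneg hpq.le fun r _ => by positivity
  have h1 : (∫ r in p..q, (g r - I / (q - p)) ^ 2 / 2) =
      (∫ r in p..q, g r ^ 2 / 2) - (I / (q - p)) * I + (q - p) * ((I / (q - p)) ^ 2 / 2) := by
    have e1 : ∀ r, (g r - I / (q - p)) ^ 2 / 2 =
        g r ^ 2 / 2 - (I / (q - p)) * g r + (I / (q - p)) ^ 2 / 2 := fun r => by ring
    simp_rw [e1]
    rw [intervalIntegral.integral_add (hg2.sub (hg.const_mul _)) (by simp),
      intervalIntegral.integral_sub hg2 (hg.const_mul _), intervalIntegral.integral_const_mul,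
      intervalIntegral.integral_const, smul_eq_mul]
  rw [h1] at h0
  have h2 : (∫ r in p..q, g r ^ 2 / 2) - (I / (q - p)) * I + (q - p) * ((I / (q - p)) ^ 2 / 2) =
      (∫ r in p..q, g r ^ 2 / 2) - I ^ 2 / (2 * (q - p)) := by
    field_simp
    ring
  rw [h2] at h0
  have h3 : I ^ 2 / (2 * (q - p)) ≤ ∫ r in p..q, g r ^ 2 / 2 := by linarith
  rw [div_le_iff₀ (by positivity)] at h3
  linarith

theorem A5a_lv_add (n k : Fin d → ℤ) : lv b (n + k) = lv b n + lv b k := by
  unfold lv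
  rw [← Finset.sum_add_distrib]
  refine Finset.sum_congr rfl fun i _ => ?_
  rw [Pi.add_apply, Int.cast_add, add_smul]

/-- functions periodic along the vectors `b i` are periodic along `lv b n` -/
theorem A5a_per {γ : Type*} {g : E → γ} (h : ∀ i x, g (x + b i) = g x) (n : Fin d → ℤ) (x : E) :
    g (x + lv b n) = g x := by
  have h1 : ∀ (s : Finset (Fin d)) (x : E), g (x + ∑ i ∈ s, (n i : ℝ) • b i) = g x := by
    intro s
    induction s using Finset.induction_on with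
    | empty => intro x; simp
    | insert i s hi ih =>
      intro x
      rw [Finset.sum_insert hi, add_comm ((n i : ℝ) • b i), ← add_assoc]
      have h2 : Function.Periodic g (b i) := fun y => h i y
      have h3 := h2.zsmul (n i) (x + ∑ j ∈ s, (n j : ℝ) • b j)
      rw [Int.cast_smul_eq_zsmul, h3, ih]
  exact h1 Finset.univ x

theorem A5a_perl (hbβ : ∀ i, ∃ j, b i = β j) (h : TG β m M l) (n : Fin d → ℤ) :
    ∀ x u t, l (x + lv b n) u t = l x u t := by
  intro x u t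
  refine A5a_per (g := fun y => l y u t) (fun i y => ?_) n x
  obtain ⟨j, hj⟩ := hbβ i
  simp only [hj]
  exact h.per j y u t

/-- boundedness of the sets of lattice points -/
theorem A5a_fin (hb : LinearIndependent ℝ b) (R : ℝ) : {n : Fin d → ℤ | ‖lv b n‖ ≤ R}.Finite := by
  have hk : LinearMap.ker (Fintype.linearCombination ℝ b) = ⊥ :=
    LinearMap.ker_eq_bot.mpr (linearIndependent_iff_injective_fintypeLinearCombination.mp hb)
  obtain ⟨C, hC0, hC⟩ := LinearMap.exists_antilipschitzWith _ hk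
  have h1 : ∀ n : Fin d → ℤ, ‖lv b n‖ ≤ R → ∀ i, |(n i : ℝ)| ≤ C * R := by
    intro n hn i
    have h2 := hC.le_mul_dist (fun i => (n i : ℝ)) 0
    rw [dist_zero_right, map_zero, dist_zero_right] at h2
    have h3 : Fintype.linearCombination ℝ b (fun i => (n i : ℝ)) = lv b n := by
      rw [Fintype.linearCombination_apply]
      rfl
    rw [h3] at h2
    have h4 : ‖(n i : ℝ)‖ ≤ ‖fun i => (n i : ℝ)‖ := norm_le_pi_norm (fun i => (n i : ℝ)) i
    rw [Real.norm_eq_abs] at h4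
    have h5 : (C : ℝ) * ‖lv b n‖ ≤ C * R := mul_le_mul_of_nonneg_left hn C.2
    linarith
  refine (Set.finite_Icc (fun _ : Fin d => -⌈(C : ℝ) * R⌉) (fun _ => ⌈(C : ℝ) * R⌉)).subset
    fun n hn => ?_
  rw [mem_Icc]
  have h2 := h1 n hn
  have h3 := Int.le_ceil ((C : ℝ) * R)
  constructor
  · intro i
    have := (abs_le.mp (h2 i)).1
    have h4 : (-(⌈(C : ℝ) * R⌉ : ℤ) : ℝ) ≤ (n i : ℝ) := by linarith
    exact_mod_cast h4
  · intro i
    have := (abs_le.mp (h2 i)).2
    have h4 : (n i : ℝ) ≤ ((⌈(C : ℝ) * R⌉ : ℤ) : ℝ) := by linarith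
    exact_mod_cast h4

/-- the gradient at velocity zero is bounded -/
theorem A5a_gu0 (h : TG β m M l) (x : E) (t : ℝ) : ‖gu l x 0 t‖ ≤ 16 * M := by
  by_cases h0 : gu l x 0 t = 0
  · rw [h0, norm_zero]
    linarith [h.M_nonneg]
  · have hn : 0 < ‖gu l x 0 t‖ := norm_pos_iff.2 h0
    set w : E := (‖gu l x 0 t‖)⁻¹ • gu l x 0 t with hw
    have hw1 : ‖w‖ = 1 := by
      rw [hw, norm_smul, norm_inv, norm_norm, inv_mul_cancel₀ hn.ne']
    have h1 := h.conv x w 0 t
    rw [sub_zero, hw1] at h1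
    have h2 : inner ℝ (gu l x 0 t) w = ‖gu l x 0 t‖ := by
      rw [hw, real_inner_smul_right, real_inner_self_eq_norm_sq]
      field_simp
    rw [h2] at h1
    have h3 := (abs_le.mp (h.l_bd x w t)).2
    have h4 := (abs_le.mp (h.l_bd x 0 t)).1
    rw [hw1] at h3
    rw [norm_zero] at h4
    have h5 := h.m_pos
    have h6 := h.M_nonneg
    nlinarith

theorem A5a_low (h : TG β m M l) (x v : E) (t : ℝ) : m / 4 * ‖v‖ ^ 2 - gC m M ≤ l x v t := by
  have h1 := h.conv x v 0 t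
  rw [sub_zero] at h1
  have h2 := (abs_le.mp (h.l_bd x 0 t)).1
  rw [norm_zero] at h2
  have h3 : -(16 * M * ‖v‖) ≤ inner ℝ (gu l x 0 t) v := by
    have h4 := (abs_le.mp (abs_real_inner_le_norm (gu l x 0 t) v)).1
    have h5 := mul_le_mul_of_nonneg_right (A5a_gu0 h x t) (norm_nonneg v)
    linarith
  have hm := h.m_pos
  have h6 : 16 * M * ‖v‖ ≤ m / 4 * ‖v‖ ^ 2 + (16 * M) ^ 2 / m := by
    have h7 := sq_nonneg (‖v‖ / 2 - 16 * M / m)
    have h8 : m * (‖v‖ / 2 - 16 * M / m) ^ 2 =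
        m / 4 * ‖v‖ ^ 2 + (16 * M) ^ 2 / m - 16 * M * ‖v‖ := by
      field_simp
      ring
    have h9 := mul_nonneg hm.le h7
    linarith
  unfold gC gG
  linarith

theorem A5a_cb (h : TG β m M l) : CB (gC m M) l := by
  refine ⟨h.smooth.continuous, fun x u t => ?_⟩
  have h1 := A5a_low h x u t
  have h2 : 0 ≤ m / 4 * ‖u‖ ^ 2 := mul_nonneg (by linarith [h.m_pos]) (sq_nonneg _)
  linarith

theorem A5a_iiN {u : ℝ → E} (hu : Adm u) (p q : ℝ) :
    IntervalIntegrable (fun r => ‖u r‖) volume p q := (hu.ii p q).norm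

theorem A5a_iiN2 {u : ℝ → E} (hu : Adm u) (p q : ℝ) :
    IntervalIntegrable (fun r => ‖u r‖ ^ 2) volume p q := by
  have h1 : CB 0 (fun (_ : E) (v : E) (_ : ℝ) => ‖v‖ ^ 2) := by
    refine ⟨?_, fun x u _ => ?_⟩
    · exact ((continuous_fst.comp continuous_snd).norm).pow 2
    · rw [neg_zero]
      positivity
  exact h1.ii hu 0 0 p q

theorem A5a_disp {u : ℝ → E} (hu : Adm u) {t t' : ℝ} (htt : t < t') (z : E) :
    ‖traj t z u t' - z‖ ≤ ∫ r in t..t', ‖u r‖ := by
  have h9 : traj t z u t' - z = ∫ r in t..t', u r := by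
    simp [traj]
  rw [h9]
  exact intervalIntegral.norm_integral_le_integral_norm htt.le

/-- Cauchy-Schwarz -/
theorem A5a_cs2 {u : ℝ → E} (hu : Adm u) {t t' : ℝ} (htt : t < t') :
    (∫ r in t..t', ‖u r‖) ^ 2 ≤ (t' - t) * ∫ r in t..t', ‖u r‖ ^ 2 := by
  have h2 : IntervalIntegrable (fun r => ‖u r‖ ^ 2 / 2) volume t t' :=
    (A5a_iiN2 hu t t').div_const 2
  have h1 := A5a_cs (g := fun r => ‖u r‖) htt (A5a_iiN hu t t') h2
  rw [intervalIntegral.integral_div] at h1
  linarith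

/-- lower bound of the action at speed `s` -/
theorem act_speed (h : TG β m M l) (hB : QB b MF B c) {s : ℝ} (hs : 0 ≤ s) {t t' : ℝ} (htt : t < t') (z : E)
    {u : ℝ → E} (hu : Adm u) :
    m / 8 * (∫ r in t..t', ‖u r‖ ^ 2) - gL m M MF s * (t' - t) ≤
      actl l t t' z u - s * (B (traj t z u t') - B z) + s ^ 2 / 2 * (t' - t) := by
  have hm := h.m_pos
  have hi := A5a_iiN hu t t'
  have hq := A5a_iiN2 hu t t'
  have h1 : (∫ r in t..t', (m / 4 * ‖u r‖ ^ 2 - gC m M)) ≤ actl l t t' z u := by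
    unfold actl
    exact intervalIntegral.integral_mono_on htt.le ((hq.const_mul (m / 4)).sub (by simp))
      ((A5a_cb h).ii hu t z t t') fun r _ => A5a_low h _ _ r
  rw [intervalIntegral.integral_sub (hq.const_mul (m / 4)) (by simp),
    intervalIntegral.integral_const_mul, intervalIntegral.integral_const, smul_eq_mul] at h1
  have h2 : B (traj t z u t') - B z ≤ |MF| * ∫ r in t..t', ‖u r‖ := by
    have h3 := (abs_le.mp (hB.lip (traj t z u t') z)).2
    have h4 := A5a_disp hu htt z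
    have h5 : MF * ‖traj t z u t' - z‖ ≤ |MF| * ‖traj t z u t' - z‖ :=
      mul_le_mul_of_nonneg_right (le_abs_self MF) (norm_nonneg _)
    have h6 := mul_le_mul_of_nonneg_left h4 (abs_nonneg MF)
    linarith
  have h3 : s * |MF| * (∫ r in t..t', ‖u r‖) ≤
      m / 8 * (∫ r in t..t', ‖u r‖ ^ 2) + 2 * MF ^ 2 * s ^ 2 / m * (t' - t) := by
    have h4 : (∫ r in t..t', s * |MF| * ‖u r‖) ≤
        ∫ r in t..t', (m / 8 * ‖u r‖ ^ 2 + 2 * MF ^ 2 * s ^ 2 / m) := by
      refine intervalIntegral.integral_mono_on htt.le (hi.const_mul _)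
        ((hq.const_mul (m / 8)).add (by simp)) fun r _ => ?_
      have h7 := sq_nonneg (‖u r‖ - 4 * s * |MF| / m)
      have h8 : m / 8 * (‖u r‖ - 4 * s * |MF| / m) ^ 2 =
          m / 8 * ‖u r‖ ^ 2 + 2 * |MF| ^ 2 * s ^ 2 / m - s * |MF| * ‖u r‖ := by
        field_simp
        ring
      rw [sq_abs] at h8
      have h9 : 0 ≤ m / 8 * (‖u r‖ - 4 * s * |MF| / m) ^ 2 := mul_nonneg (by linarith) h7
      linarith
    rw [intervalIntegral.integral_const_mul, intervalIntegral.integral_add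
      (hq.const_mul (m / 8)) (by simp), intervalIntegral.integral_const_mul,
      intervalIntegral.integral_const, smul_eq_mul] at h4
    linarith
  have h4 : s * (B (traj t z u t') - B z) ≤ s * |MF| * ∫ r in t..t', ‖u r‖ := by
    rw [mul_assoc]
    exact mul_le_mul_of_nonneg_left h2 hs
  have h5 : 0 ≤ s ^ 2 / 2 * (t' - t) := mul_nonneg (by positivity) (by linarith)
  unfold gL
  have h6 : (gC m M + 2 * MF ^ 2 * s ^ 2 / m) * (t' - t) =
      gC m M * (t' - t) + 2 * MF ^ 2 * s ^ 2 / m * (t' - t) := by ring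
  rw [h6]
  linarith

theorem kerl_speed_ge (h : TG β m M l) (hB : QB b MF B c) {s : ℝ} (hs : 0 ≤ s) {t t' : ℝ}
    (htt : t < t') (z z' : E) :
    -gL m M MF s * (t' - t) ≤ kerl l t t' z z' - s * (B z' - B z) + s ^ 2 / 2 * (t' - t) := by
  have h1 : -gL m M MF s * (t' - t) + s * (B z' - B z) - s ^ 2 / 2 * (t' - t) ≤
      kerl l t t' z z' := by
    refine le_kerl htt z z' fun u hu hz => ?_
    have h2 := act_speed h hB hs htt z hu
    have h4 : 0 ≤ m / 8 * ∫ r in t..t', ‖u r‖ ^ 2 :=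
      mul_nonneg (by linarith [h.m_pos])
        (intervalIntegral.integral_nonneg htt.le fun r _ => by positivity)
    rw [hz] at h2
    linarith
  linarith

/-- displacement bound -/
theorem disp_le (h : TG β m M l) (hB : QB b MF B c) {s : ℝ} (hs : 0 ≤ s) {t t' N : ℝ}
    (htt : t < t') (z z' : E)
    (hN : kerl l t t' z z' - s * (B z' - B z) + s ^ 2 / 2 * (t' - t) ≤ N) :
    ‖z' - z‖ ^ 2 ≤ 8 / m * (N + gL m M MF s * (t' - t)) * (t' - t) := by
  have hT : 0 < t' - t := by linarith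
  have hm := h.m_pos
  refine le_of_forall_pos_le_add fun ε hε => ?_
  have hε' : 0 < m * ε / (8 * (t' - t)) := by positivity
  obtain ⟨u, hu, hz, hlt⟩ := (A5a_cb h).exists_lt htt z z' hε'
  have h2 := act_speed h hB hs htt z hu
  rw [hz] at h2
  have h7 := A5a_disp hu htt z
  rw [hz] at h7
  have h8 := A5a_cs2 hu htt
  have h9 : ‖z' - z‖ ^ 2 ≤ (∫ r in t..t', ‖u r‖) ^ 2 := pow_le_pow_left₀ (norm_nonneg _) h7 2
  have h10 : m / 8 * (∫ r in t..t', ‖u r‖ ^ 2) ≤
      N + gL m M MF s * (t' - t) + m * ε / (8 * (t' - t)) := by linarith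
  have h11 : (∫ r in t..t', ‖u r‖ ^ 2) ≤
      8 / m * (N + gL m M MF s * (t' - t) + m * ε / (8 * (t' - t))) := by
    have h12 := mul_le_mul_of_nonneg_left h10 (by positivity : 0 ≤ 8 / m)
    have h13 : 8 / m * (m / 8 * ∫ r in t..t', ‖u r‖ ^ 2) = ∫ r in t..t', ‖u r‖ ^ 2 := by
      field_simp
    linarith
  have h14 := mul_le_mul_of_nonneg_left h11 hT.le
  have h15 : (t' - t) * (8 / m * (N + gL m M MF s * (t' - t) + m * ε / (8 * (t' - t)))) =
      8 / m * (N + gL m M MF s * (t' - t)) * (t' - t) + ε := by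
    field_simp
  linarith

theorem A5a_bdd (h : TG β m M l) (hB : QB b MF B c) {s : ℝ} (hs : 0 ≤ s) {t t' : ℝ}
    (htt : t < t') (z z' : E) : BddBelow (range fun n : Fin d → ℤ =>
      kerl l t t' z (z' + lv b n) - s * (B (z' + lv b n) - B z) + s ^ 2 / 2 * (t' - t)) := by
  refine ⟨-gL m M MF s * (t' - t), ?_⟩
  rintro _ ⟨n, rfl⟩
  exact kerl_speed_ge h hB hs htt z _

theorem K_le (h : TG β m M l) (hB : QB b MF B c) {s : ℝ} (hs : 0 ≤ s) {t t' : ℝ}
    (htt : t < t') (z z' : E) (n : Fin d → ℤ) : K b B s l t t' z z' ≤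
      kerl l t t' z (z' + lv b n) - s * (B (z' + lv b n) - B z) + s ^ 2 / 2 * (t' - t) :=
  ciInf_le (A5a_bdd h hB hs htt z z') n

theorem K_ge (h : TG β m M l) (hB : QB b MF B c) {s : ℝ} (hs : 0 ≤ s) {t t' : ℝ}
    (htt : t < t') (z z' : E) : -gL m M MF s * (t' - t) ≤ K b B s l t t' z z' :=
  le_ciInf fun _ => kerl_speed_ge h hB hs htt z _

theorem K_attained (hb : LinearIndependent ℝ b) (h : TG β m M l) (hB : QB b MF B c) {s : ℝ}
    (hs : 0 ≤ s) {t t' : ℝ} (htt : t < t') (z z' : E) : ∃ n : Fin d → ℤ, K b B s l t t' z z' =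
      kerl l t t' z (z' + lv b n) - s * (B (z' + lv b n) - B z) + s ^ 2 / 2 * (t' - t) := by
  set g : (Fin d → ℤ) → ℝ := fun n =>
    kerl l t t' z (z' + lv b n) - s * (B (z' + lv b n) - B z) + s ^ 2 / 2 * (t' - t) with hg
  have hfin : {n | g n ≤ g 0}.Finite := by
    refine (A5a_fin hb (Real.sqrt (8 / m * (g 0 + gL m M MF s * (t' - t)) * (t' - t)) +
      ‖z' - z‖)).subset fun n hn => ?_
    have h1 := disp_le h hB hs htt z (z' + lv b n) hn
    have h2 : ‖z' + lv b n - z‖ ≤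
        Real.sqrt (8 / m * (g 0 + gL m M MF s * (t' - t)) * (t' - t)) := Real.le_sqrt_of_sq_le h1
    have h3 : ‖lv b n‖ ≤ ‖z' + lv b n - z‖ + ‖z' - z‖ := by
      have e : lv b n = (z' + lv b n - z) - (z' - z) := by abel
      calc ‖lv b n‖ = ‖(z' + lv b n - z) - (z' - z)‖ := by rw [← e]
        _ ≤ _ := norm_sub_le _ _
    show ‖lv b n‖ ≤ _
    linarith
  obtain ⟨n, hn, hmin⟩ := Set.exists_min_image _ g hfin ⟨0, le_refl (g 0)⟩
  refine ⟨n, le_antisymm (K_le h hB hs htt z z' n) (le_ciInf fun k => ?_)⟩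
  show g n ≤ g k
  by_cases hk : g k ≤ g 0
  · exact hmin k hk
  · exact hn.trans (not_le.mp hk).le

theorem K_le_add (hb : LinearIndependent ℝ b) (hbβ : ∀ i, ∃ j, b i = β j) (h : TG β m M l)
    (hB : QB b MF B c) {s : ℝ} (hs : 0 ≤ s) {t t' t'' : ℝ} (htt : t < t') (htt' : t' < t'')
    (z x z' : E) : K b B s l t t'' z z' ≤ K b B s l t t' z x + K b B s l t' t'' x z' := by
  obtain ⟨n, hn⟩ := K_attained hb h hB hs htt z x
  obtain ⟨k, hk⟩ := K_attained hb h hB hs htt' x z'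
  rw [hn, hk]
  refine (K_le h hB hs (htt.trans htt') z z' (k + n)).trans ?_
  have h1 := (A5a_cb h).kerl_le_add htt htt' z (x + lv b n) (z' + lv b k + lv b n)
  rw [kerl_shift (lv b n) (A5a_perl hbβ h n)] at h1
  have h2 := hB.lvB n (z' + lv b k)
  have h3 := hB.lvB n x
  rw [A5a_lv_add, ← add_assoc]
  have h4 : B (z' + lv b k + lv b n) - B z = (B (x + lv b n) - B z) + (B (z' + lv b k) - B x) := by
    linarith
  rw [h4]
  nlinarith

theorem K_per (hbβ : ∀ i, ∃ j, b i = β j) (h : TG β m M l) (hB : QB b MF B c) (s : ℝ)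
    (t t' : ℝ) (z z' : E) (n n' : Fin d → ℤ) :
    K b B s l t t' (z + lv b n) (z' + lv b n') = K b B s l t t' z z' := by
  unfold K
  refine Equiv.iInf_congr (Equiv.addRight (n' - n)) fun k => ?_
  have h1 : z' + lv b n' + lv b k = z' + lv b (k + (n' - n)) + lv b n := by
    rw [add_assoc, add_assoc, ← A5a_lv_add, ← A5a_lv_add]
    congr 2
    abel
  have h2 := hB.lvB n (z' + lv b (k + (n' - n)))
  have h3 := hB.lvB n z
  simp only [Equiv.coe_addRight]
  rw [h1, kerl_shift (lv b n) (A5a_perl hbβ h n), h2, h3]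
  ring

end A5

end EscT
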