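import Pool.Agent.EscT.TDefs
import Pool.Agent.EscG.A1
import Pool.Agent.EscT.A2b
import Pool.Agent.EscT.A3b

/-!
Project EscT (MP_6acca1_an), module A4: upper bound and Lipschitz constant of the kernels.
-/

set_option linter.unusedSectionVars false

noncomputable section

namespace EscT

open MeasureTheory Set Filter Topology Esc EscF EscG
open scoped ContDiff

variable {E : Type*} [NormedAddCommGroup E] [InnerProductSpace ℝ E] [FiniteDimensional ℝ E]

variable {ι : Type} [Fintype ι] {β : Module.Basis ι ℝ E} {m M Mf : ℝ}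
  {l : E → E → ℝ → ℝ}

theorem TG.kerl_upper (h : TG β m M l) {a b : ℝ} (hab : a < b) (z z' : E) :
    kerl l a b z z' ≤ M * ‖z' - z‖ ^ 2 / (b - a) + M * (b - a) := by
  have hba : 0 < b - a := by linarith
  set c : E := (b - a)⁻¹ • (z' - z) with hc
  have hu : Adm (fun _ : ℝ => c) := ⟨stronglyMeasurable_const, ‖c‖, fun _ => le_rfl⟩
  have ht : traj a z (fun _ => c) b = z' := by
    unfold traj
    rw [intervalIntegral.integral_const, hc, smul_smul, mul_inv_cancel₀ hba.ne', one_smul]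
    abel
  have h1 := h.cb.kerl_le hab hu ht
  have h2 : actl l a b z (fun _ => c) ≤ ∫ _ in a..b, M * (1 + ‖c‖ ^ 2) :=
    intervalIntegral.integral_mono_on hab.le (h.cb.ii hu a z a b) (by simp) fun t _ => h.upp _ _ _
  rw [intervalIntegral.integral_const, smul_eq_mul] at h2
  have h3 : ‖c‖ = ‖z' - z‖ / (b - a) := by
    rw [hc, norm_smul, norm_inv, Real.norm_of_nonneg hba.le, inv_mul_eq_div]
  rw [h3] at h2
  have h4 : (b - a) * (M * (1 + (‖z' - z‖ / (b - a)) ^ 2)) =
      M * ‖z' - z‖ ^ 2 / (b - a) + M * (b - a) := by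
    field_simp
    ring
  linarith

/-- one-sided estimate for close end points -/
theorem A4_one (h : TG β m M l) (hMf : 0 ≤ Mf) (D0 : ℝ) {T0 T1 : ℝ} (hT0 : 0 < T0) :
    ∃ C : ℝ, 0 ≤ C ∧ ∀ f, Pt β f → Good Mf f → ∀ a b, T0 ≤ b - a → b - a ≤ T1 → ∀ z z' w w' : E,
      ‖z' - z‖ ≤ D0 → ‖z - w‖ + ‖z' - w'‖ ≤ 1 →
      kerl (lf l f) a b w w' ≤ kerl (lf l f) a b z z' + C * (‖z - w‖ + ‖z' - w'‖) := by
  obtain ⟨V, hV, hgeo⟩ := exists_geo (E := E) m (M + Mf) D0 (T1 := T1) h.m_pos hT0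
  obtain ⟨Cl, hCl, hlip⟩ := h.lip (V + 1 / T0)
  refine ⟨|T1| * (Cl * (2 + 1 / T0) + 2 * Mf), by positivity,
    fun f hf hg a b hT hT' z z' w w' hz hδ => ?_⟩
  have hba : 0 < b - a := by linarith
  have hab : a < b := by linarith
  have hL := h.add hf hg
  obtain ⟨⟨Z, v, hZa, hZb, hG⟩, -⟩ := hgeo hL hT hT' hz
  obtain ⟨Cv, hCv⟩ := hG.lip
  obtain ⟨u, hu, huv, htr, hact⟩ := adm_of_lip hab hCv hG.pos
  have ha : a ∈ Icc a b := left_mem_Icc.2 hab.le
  have hb : b ∈ Icc a b := right_mem_Icc.2 hab.le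
  have e1 : actl (lf l f) a b z u = kerl (lf l f) a b z z' := by
    have h1 := hact (lf l f) a ha b hb hab.le
    rw [hZa] at h1
    rw [h1, hG.act a b le_rfl hab le_rfl, hZa, hZb]
  have htr' : ∀ t ∈ Icc a b, traj a z u t = Z t := fun t ht => by
    have := htr a ha t ht
    rwa [hZa] at this
  -- the new control
  set δ : ℝ := ‖z - w‖ + ‖z' - w'‖ with hδd
  have hδ0 : 0 ≤ δ := by positivity
  set c : E := (b - a)⁻¹ • ((w' - z') - (w - z)) with hc
  have hcn : ‖c‖ ≤ δ / (b - a) := by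
    rw [hc, norm_smul, norm_inv, Real.norm_of_nonneg hba.le, inv_mul_eq_div]
    refine div_le_div_of_nonneg_right ?_ hba.le
    have h1 := norm_sub_le (w' - z') (w - z)
    rw [norm_sub_rev w' z', norm_sub_rev w z] at h1
    linarith
  have hcT : ‖c‖ ≤ δ * (1 / T0) := by
    refine hcn.trans ?_
    rw [div_eq_mul_one_div]
    exact mul_le_mul_of_nonneg_left (one_div_le_one_div_of_le hT0 hT) hδ0
  have hc1 : ‖c‖ ≤ 1 / T0 := by
    refine hcT.trans ?_
    have : 0 < 1 / T0 := by positivity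
    nlinarith
  have hu' : Adm (fun t => u t + c) := by
    obtain ⟨hm, Cu, hCu⟩ := hu
    exact ⟨hm.add stronglyMeasurable_const, Cu + ‖c‖, fun t => (norm_add_le _ _).trans
      (add_le_add (hCu t) le_rfl)⟩
  have hui : ∀ x y : ℝ, IntervalIntegrable u volume x y := by
    intro x y
    obtain ⟨hm, Cu, hCu⟩ := hu
    rw [intervalIntegrable_iff]
    exact Measure.integrableOn_of_bounded (M := Cu) (by simp) hm.aestronglyMeasurable
      (ae_of_all _ hCu)
  have htn : ∀ t, traj a w (fun t => u t + c) t = traj a z u t + ((w - z) + (t - a) • c) := by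
    intro t
    unfold traj
    rw [intervalIntegral.integral_add (hui a t) (by simp), intervalIntegral.integral_const]
    abel
  have hend : traj a w (fun t => u t + c) b = w' := by
    rw [htn, htr' b hb, hZb, hc, smul_smul, mul_inv_cancel₀ hba.ne', one_smul]
    abel
  have h1 := hL.cb.kerl_le hab hu' hend
  have h2 : actl (lf l f) a b w (fun t => u t + c) ≤ ∫ t in a..b,
      (lf l f (traj a z u t) (u t) t + (Cl * (2 + 1 / T0) + 2 * Mf) * δ) := by
    refine intervalIntegral.integral_mono_on hab.le (hL.cb.ii hu' a w a b)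
      ((hL.cb.ii hu a z a b).add (by simp)) fun t ht => ?_
    have d1 : traj a w (fun t => u t + c) t - traj a z u t = (w - z) + (t - a) • c := by
      rw [htn]
      abel
    have d2 : ‖traj a w (fun t => u t + c) t - traj a z u t‖ ≤ 2 * δ := by
      rw [d1]
      refine (norm_add_le _ _).trans ?_
      have e3 : ‖(t - a) • c‖ ≤ δ := by
        rw [norm_smul, Real.norm_of_nonneg (by linarith [ht.1])]
        calc (t - a) * ‖c‖ ≤ (b - a) * (δ / (b - a)) :=
              mul_le_mul (by linarith [ht.2]) hcn (norm_nonneg _) hba.le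
          _ = δ := by field_simp
      have e4 : ‖w - z‖ ≤ δ := by
        rw [norm_sub_rev]
        have := norm_nonneg (z' - w')
        linarith
      linarith
    have d3 : ‖u t‖ ≤ V := by
      rw [huv t ht]
      exact hG.bd t ht
    have d4 : ‖u t + c‖ ≤ V + 1 / T0 := (norm_add_le _ _).trans (add_le_add d3 hc1)
    have d5 : ‖u t‖ ≤ V + 1 / T0 := by
      have : 0 < 1 / T0 := by positivity
      linarith
    have d6 := (abs_le.1 (hlip (traj a w (fun t => u t + c) t) (u t + c) (traj a z u t) (u t) t d4 d5)).2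
    have d7 : ‖u t + c - u t‖ ≤ δ * (1 / T0) := by
      rw [add_sub_cancel_left]
      exact hcT
    have d8 := (abs_le.1 (hg.lipx (traj a w (fun t => u t + c) t) (traj a z u t) t)).2
    have d9 : Cl * (‖traj a w (fun t => u t + c) t - traj a z u t‖ + ‖u t + c - u t‖) ≤
        Cl * (2 * δ + δ * (1 / T0)) := mul_le_mul_of_nonneg_left (add_le_add d2 d7) hCl
    have d10 : Mf * ‖traj a w (fun t => u t + c) t - traj a z u t‖ ≤ Mf * (2 * δ) :=
      mul_le_mul_of_nonneg_left d2 hMf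
    show lf l f (traj a w (fun t => u t + c) t) (u t + c) t ≤ _
    unfold lf
    have e5 : (Cl * (2 + 1 / T0) + 2 * Mf) * δ = Cl * (2 * δ + δ * (1 / T0)) + Mf * (2 * δ) := by ring
    rw [e5]
    linarith
  rw [intervalIntegral.integral_add (hL.cb.ii hu a z a b) (by simp), intervalIntegral.integral_const,
    smul_eq_mul] at h2
  have h3 : (∫ t in a..b, lf l f (traj a z u t) (u t) t) = kerl (lf l f) a b z z' := e1
  rw [h3] at h2
  have h4 : (b - a) * ((Cl * (2 + 1 / T0) + 2 * Mf) * δ) ≤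
      |T1| * ((Cl * (2 + 1 / T0) + 2 * Mf) * δ) :=
    mul_le_mul_of_nonneg_right (hT'.trans (le_abs_self _)) (by positivity)
  have h5 : |T1| * (Cl * (2 + 1 / T0) + 2 * Mf) * δ = |T1| * ((Cl * (2 + 1 / T0) + 2 * Mf) * δ) := by
    ring
  linarith

theorem TG.kerl_lip (h : TG β m M l) (hMf : 0 ≤ Mf) (D0 : ℝ) {T0 T1 : ℝ} (hT0 : 0 < T0) :
    ∃ C : ℝ, 0 ≤ C ∧ ∀ f, Pt β f → Good Mf f → ∀ a b, T0 ≤ b - a → b - a ≤ T1 → ∀ z z' w w' : E,
      ‖z' - z‖ ≤ D0 → ‖w' - w‖ ≤ D0 →
      |kerl (lf l f) a b z z' - kerl (lf l f) a b w w'| ≤ C * (‖z - w‖ + ‖z' - w'‖) := by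
  obtain ⟨C, hC, H⟩ := A4_one h hMf D0 (T1 := T1) hT0
  have hM := h.M_nonneg
  set Kc : ℝ := gC m (M + Mf) with hKc
  have hKc0 : 0 ≤ Kc := by
    have := h.m_pos
    rw [hKc]
    unfold gC
    positivity
  set B : ℝ := (M + Mf) * D0 ^ 2 / T0 + (M + Mf) * |T1| + Kc * |T1| with hB
  have hB0 : 0 ≤ B := by positivity
  refine ⟨C + B, by positivity, fun f hf hg a b hT hT' z z' w w' hz hw => ?_⟩
  have hba : 0 < b - a := by linarith
  have hab : a < b := by linarith
  have hL := h.add hf hg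
  have hδ0 : 0 ≤ ‖z - w‖ + ‖z' - w'‖ := by positivity
  by_cases hδ : ‖z - w‖ + ‖z' - w'‖ ≤ 1
  · have h1 := H f hf hg a b hT hT' z z' w w' hz hδ
    have h2 := H f hf hg a b hT hT' w w' z z' hw (by
      rw [norm_sub_rev w z, norm_sub_rev w' z']
      exact hδ)
    rw [norm_sub_rev w z, norm_sub_rev w' z'] at h2
    have h3 : 0 ≤ B * (‖z - w‖ + ‖z' - w'‖) := by positivity
    rw [abs_le]
    constructor <;> linarith
  · push Not at hδ
    have hlow : ∀ x x' : E, -(Kc * |T1|) ≤ kerl (lf l f) a b x x' := fun x x' => by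
      have h1 := hL.cb.kerl_ge hab x x'
      have h2 : Kc * (b - a) ≤ Kc * |T1| :=
        mul_le_mul_of_nonneg_left (hT'.trans (le_abs_self _)) hKc0
      linarith
    have hupp : ∀ x x' : E, ‖x' - x‖ ≤ D0 →
        kerl (lf l f) a b x x' ≤ (M + Mf) * D0 ^ 2 / T0 + (M + Mf) * |T1| := fun x x' hx => by
      have h1 := hL.kerl_upper hab x x'
      have h2 : (M + Mf) * (b - a) ≤ (M + Mf) * |T1| :=
        mul_le_mul_of_nonneg_left (hT'.trans (le_abs_self _)) (by positivity)
      have h3 : (M + Mf) * ‖x' - x‖ ^ 2 / (b - a) ≤ (M + Mf) * D0 ^ 2 / T0 := by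
        refine div_le_div₀ (by positivity) ?_ hT0 hT
        exact mul_le_mul_of_nonneg_left (pow_le_pow_left₀ (norm_nonneg _) hx 2) (by positivity)
      linarith
    have a1 := hlow z z'
    have a2 := hlow w w'
    have a3 := hupp z z' hz
    have a4 := hupp w w' hw
    have a5 : B ≤ (C + B) * (‖z - w‖ + ‖z' - w'‖) := by nlinarith
    rw [abs_le]
    constructor <;> linarith

end EscT
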