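import Pool.Agent.EscT.TDefs
import Pool.Agent.EscG.A1
import Pool.Agent.EscG.A5a
import Pool.Agent.EscT.A2b
import Pool.Agent.EscT.A5a

/-!
Project EscT (MP_6acca1_an), module C6: kernels, elementary properties.
-/

set_option linter.unusedSectionVars false
set_option linter.unusedVariables false

noncomputable section

namespace EscT

open MeasureTheory Set Filter Topology Esc EscF EscG
open scoped ContDiff

variable {ι : Type} [Fintype ι] {d : ℕ} {E : Type*} [NormedAddCommGroup E] [InnerProductSpace ℝ E]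
  [FiniteDimensional ℝ E] {D : GT ι d E} {p : GP} {m M Mf : ℝ} {L : LP} {ll l : E → E → ℝ → ℝ}
  {f f' : E → ℝ → ℝ}

/-! ### auxiliary facts -/

theorem QB0 (h : D.Ok0) (t : ℝ) : QB D.b D.MF (fun x => D.B x t) D.c where
  lip := fun x y => Cal.lip (h.fr0 t).fins (h.fr0 t).cal x y
  lvB := fun n x => h.B_lv n x t

theorem C6_li (h : D.Ok) : LinearIndependent ℝ D.b := (h.fr0 0).li

theorem C6_bβ (h : D.Ok) : ∀ i, ∃ k, D.b i = D.β k := (h.fr0 0).bβ

theorem C6_per (hl : TG D.β m M ll) {v : E} (hv : v ∈ D.Lam) :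
    ∀ x u t, ll (x + v) u t = ll x u t := by
  have hv' : v ∈ Submodule.span ℤ (Set.range D.β) := hv
  clear hv
  induction hv' using Submodule.span_induction with
  | mem w hw =>
    obtain ⟨i, rfl⟩ := hw
    exact fun x u t => hl.per i x u t
  | zero => intro x u t; rw [add_zero]
  | add a b ha hb iha ihb =>
    intro x u t
    rw [← add_assoc, ihb, iha]
  | smul k a ha iha =>
    have key : ∀ x u t, ll (x + a) u t = ll x u t := iha
    clear iha ha
    intro x u t
    induction k using Int.induction_on generalizing x with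
    | zero => rw [zero_smul, add_zero]
    | succ n ih => rw [add_smul, one_smul, ← add_assoc, key, ih]
    | pred n ih =>
      have e : x + (-(n : ℤ) - 1) • a = (x - a) + (-(n : ℤ)) • a := by
        rw [sub_smul, one_smul]; abel
      rw [e, ih, ← key (x - a), sub_add_cancel]

/-! ### kernels -/

/-- fast crossing of a distance is expensive (take `δ = 0` for the cheap lower bound) -/
theorem kk_ge_fast (h : D.Ok) (hl : TG D.β m M ll) {s : ℝ} (hs : 0 ≤ s) {t t' δ : ℝ}
    (htt : t < t') (x x' : E) (hδ : 0 ≤ δ) (hd : ∀ n : Fin d → ℤ, δ ≤ ‖x' + lv D.b n - x‖) :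
    m / 8 * δ ^ 2 / (t' - t) - gL m M D.MF s * (t' - t) ≤ (D0 D).kk ll s t t' x x' := by
  have h0 : 0 < t' - t := by linarith
  have hm := hl.m_pos
  obtain ⟨n, hn⟩ := K_attained (C6_li h) hl (QB0 h.toOk0 0) hs htt x x'
  have h1 := disp_le hl (QB0 h.toOk0 0) hs htt x (x' + lv D.b n) hn.ge
  have h2 : δ ^ 2 ≤ ‖x' + lv D.b n - x‖ ^ 2 := pow_le_pow_left₀ hδ (hd n) 2
  have h3 : m / 8 * δ ^ 2 / (t' - t) ≤ K D.b (fun x => D.B x 0) s ll t t' x x' +
      gL m M D.MF s * (t' - t) := by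
    rw [div_le_iff₀ h0]
    have h4 : m / 8 * δ ^ 2 ≤ m / 8 * (8 / m * (K D.b (fun x => D.B x 0) s ll t t' x x' +
        gL m M D.MF s * (t' - t)) * (t' - t)) :=
      mul_le_mul_of_nonneg_left (h2.trans h1) (by positivity)
    refine h4.trans (le_of_eq ?_)
    field_simp
  have h5 : (D0 D).kk ll s t t' x x' = K D.b (fun x => D.B x 0) s ll t t' x x' := rfl
  rw [h5]
  linarith

theorem kk_add (h : D.Ok) (hl : TG D.β m M ll) {s : ℝ} (hs : 0 ≤ s) {t t' t'' : ℝ}
    (htt : t < t') (htt' : t' < t'') (x y z : E) :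
    (D0 D).kk ll s t t'' x z ≤ (D0 D).kk ll s t t' x y + (D0 D).kk ll s t' t'' y z :=
  K_le_add (C6_li h) (C6_bβ h) hl (QB0 h.toOk0 0) hs htt htt' x y z

theorem kk_J (h : D.Ok) (hl : TG D.β m M ll) (s t t' : ℝ) (x x' : E)
    (n n' : Fin d → ℤ) : (D0 D).kk ll s t t' (x + lv D.b n) (x' + lv D.b n') = (D0 D).kk ll s t t' x x' :=
  K_per (C6_bβ h) hl (QB0 h.toOk0 0) s t t' x x' n n'

theorem kk_Lam (h : D.Ok) (hl : TG D.β m M ll) {v : E} (hv : v ∈ D.Lam) (s t t' : ℝ)
    (x x' : E) : (D0 D).kk ll s t t' (x + v) (x' + v) = (D0 D).kk ll s t t' x x' := by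
  obtain ⟨a, ha⟩ := h.B_Lam v hv
  exact K_shift v (C6_per hl hv) (fun x => ha x 0) s t t' x x'

theorem kk_time (h : D.Ok) (hl : TG D.β m M ll) (k : ℤ) (s t t' : ℝ) (x x' : E) :
    (D0 D).kk ll s (t + k) (t' + k) x x' = (D0 D).kk ll s t t' x x' := by
  have key : ∀ a a' : ℝ, (D0 D).kk ll s (a + 1) (a' + 1) x x' = (D0 D).kk ll s a a' x x' := fun a a' =>
    K_time (fun x u t => hl.pert x u t) s a a' x x'
  induction k using Int.induction_on generalizing t t' with
  | zero => simp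
  | succ n ih =>
    push_cast
    rw [← add_assoc, ← add_assoc, key]
    exact ih t t'
  | pred n ih =>
    have h1 := ih (t - 1) (t' - 1)
    have h2 := key (t - 1) (t' - 1)
    rw [sub_add_cancel, sub_add_cancel] at h2
    rw [h2, ← h1]
    push_cast
    congr 1 <;> ring

theorem kk_le_cst (h : D.Ok) (hl : TG D.β m M ll) {s : ℝ} (hs : 0 ≤ s) {t t' : ℝ}
    (htt : t < t') {x x' : E} {u : ℝ → E} (hu : Adm u) {n : Fin d → ℤ}
    (hx : traj t x u t' = x' + lv D.b n) : (D0 D).kk ll s t t' x x' ≤ (D0 D).cst ll s t t' x u := by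
  have h1 := K_le hl (QB0 h.toOk0 0) hs htt x x' n
  have h2 := hl.cb.kerl_le htt hu hx
  have h5 : (D0 D).kk ll s t t' x x' = K D.b (fun x => D.B x 0) s ll t t' x x' := rfl
  have h6 : (D0 D).cst ll s t t' x u = actl ll t t' x u - s * (D.B (traj t x u t') 0 - D.B x 0) +
      s ^ 2 / 2 * (t' - t) := rfl
  rw [h5, h6, hx]
  linarith

theorem exists_cst_lt (h : D.Ok) (hl : TG D.β m M ll) {s : ℝ} (hs : 0 ≤ s) {t t' ε : ℝ}
    (htt : t < t') (hε : 0 < ε) (x x' : E) : ∃ (u : ℝ → E) (n : Fin d → ℤ), Adm u ∧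
      traj t x u t' = x' + lv D.b n ∧ (D0 D).cst ll s t t' x u < (D0 D).kk ll s t t' x x' + ε := by
  obtain ⟨n, hn⟩ := K_attained (C6_li h) hl (QB0 h.toOk0 0) hs htt x x'
  obtain ⟨u, hu, hx, hlt⟩ := hl.cb.exists_lt htt x (x' + lv D.b n) hε
  refine ⟨u, n, hu, hx, ?_⟩
  have h5 : (D0 D).kk ll s t t' x x' = K D.b (fun x => D.B x 0) s ll t t' x x' := rfl
  have h6 : (D0 D).cst ll s t t' x u = actl ll t t' x u - s * (D.B (traj t x u t') 0 - D.B x 0) +
      s ^ 2 / 2 * (t' - t) := rfl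
  rw [h5, h6, hn, hx]
  linarith

theorem C6_traj {u : ℝ → E} (hu : Adm u) (t t' r : ℝ) (x : E) :
    traj t' (traj t x u t') u r = traj t x u r := by
  unfold traj
  rw [add_assoc, intervalIntegral.integral_add_adjacent_intervals (hu.ii _ _) (hu.ii _ _)]

theorem cst_add (hl : TG D.β m M ll) (s : ℝ) {t t' t'' : ℝ} (htt : t ≤ t')
    (htt' : t' ≤ t'') (x : E) {u : ℝ → E} (hu : Adm u) :
    (D0 D).cst ll s t t'' x u = (D0 D).cst ll s t t' x u + (D0 D).cst ll s t' t'' (traj t x u t') u := by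
  have h1 : actl ll t t'' x u = actl ll t t' x u + actl ll t' t'' (traj t x u t') u := by
    unfold actl
    simp only [C6_traj hu]
    exact (intervalIntegral.integral_add_adjacent_intervals (hl.cb.ii hu t x t t')
      (hl.cb.ii hu t x t' t'')).symm
  unfold GD.cst
  rw [h1, C6_traj hu]
  ring

end EscT
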