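import Pool.Agent.EscT.TDefs
import Pool.Agent.EscF.O6
import Pool.Agent.EscG.A1
import Pool.Agent.EscT.A2b
import Pool.Agent.EscT.A2c
import Pool.Agent.EscT.A3b

/-!
Project EscT, module A6: an orbit from a sitewise locally minimal sequence at general times
(helper86, after EscF/O6).
-/

noncomputable section

namespace EscT

open MeasureTheory Set Filter Topology Esc EscF EscG
open scoped ContDiff

namespace A6

/-! ### glueing at general times -/

section glue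

variable {W : Type*} [NormedAddCommGroup W] {τ : ℕ → ℝ}

/-- glue functions on `[τ j, τ (j+1)]` -/
def gl (τ : ℕ → ℝ) (X : ℕ → ℝ → W) (t : ℝ) : W := X (sInf {j | t < τ (j + 1)}) t

theorem mono_le (hτ : ∀ j, τ j < τ (j + 1)) {i j : ℕ} (h : i ≤ j) : τ i ≤ τ j :=
  (strictMono_nat_of_lt_succ hτ).monotone h

theorem idx_eq (hτ : ∀ j, τ j < τ (j + 1)) {j : ℕ} {t : ℝ} (h1 : τ j ≤ t) (h2 : t < τ (j + 1)) :
    sInf {i | t < τ (i + 1)} = j := by
  refine le_antisymm (Nat.sInf_le h2) ?_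
  by_contra hlt
  rw [not_le] at hlt
  have hmem : sInf {i | t < τ (i + 1)} ∈ {i | t < τ (i + 1)} := Nat.sInf_mem ⟨j, h2⟩
  have h3 : t < τ (sInf {i | t < τ (i + 1)} + 1) := hmem
  have h4 : τ (sInf {i | t < τ (i + 1)} + 1) ≤ τ j := mono_le hτ hlt
  linarith

theorem gl_eq (hτ : ∀ j, τ j < τ (j + 1)) {X : ℕ → ℝ → W}
    (h : ∀ j : ℕ, X j (τ (j + 1)) = X (j + 1) (τ (j + 1))) (j : ℕ) {t : ℝ}
    (ht : t ∈ Icc (τ j) (τ (j + 1))) : gl τ X t = X j t := by
  unfold gl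
  rcases ht.2.lt_or_eq with h1 | h1
  · rw [idx_eq hτ ht.1 h1]
  · subst h1
    rw [idx_eq hτ (le_refl (τ (j + 1))) (hτ (j + 1)), h j]

theorem exists_idx (hunb : ∀ t, ∃ j, t < τ j) {t : ℝ} (ht : τ 0 ≤ t) :
    ∃ j, τ j ≤ t ∧ t < τ (j + 1) := by
  classical
  obtain ⟨j, hj⟩ := hunb t
  have h1 := Nat.find_spec (⟨j, hj⟩ : ∃ j, t < τ j)
  have h2 : Nat.find (⟨j, hj⟩ : ∃ j, t < τ j) ≠ 0 := by
    intro h0
    rw [h0] at h1
    linarith
  obtain ⟨i, hi⟩ := Nat.exists_eq_succ_of_ne_zero h2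
  refine ⟨i, ?_, ?_⟩
  · by_contra hlt
    rw [not_le] at hlt
    have := Nat.find_min' (⟨j, hj⟩ : ∃ j, t < τ j) hlt
    omega
  · rw [hi] at h1
    exact h1

theorem unbounded {T0 : ℝ} (hT0 : 0 < T0) (hτ : ∀ j, T0 ≤ τ (j + 1) - τ j) (t : ℝ) :
    ∃ j, t < τ j := by
  have h1 : ∀ j : ℕ, τ 0 + j * T0 ≤ τ j := by
    intro j
    induction j with
    | zero => simp
    | succ j ih =>
      have := hτ j
      push_cast
      linarith
  obtain ⟨n, hn⟩ := exists_nat_gt ((t - τ 0) / T0)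
  refine ⟨n, ?_⟩
  have := h1 n
  rw [div_lt_iff₀ hT0] at hn
  linarith

theorem glue_int [NormedSpace ℝ W] [CompleteSpace W] (hτ : ∀ j, τ j < τ (j + 1))
    (hunb : ∀ t, ∃ j, t < τ j) {x g : ℝ → W} (hg : Continuous g)
    (h : ∀ j : ℕ, ∀ t ∈ Icc (τ j) (τ (j + 1)), x t - x (τ j) = ∫ s in (τ j)..t, g s) {t : ℝ}
    (ht : τ 0 ≤ t) : x t = x (τ 0) + ∫ s in (τ 0)..t, g s := by
  have hn : ∀ n : ℕ, x (τ n) = x (τ 0) + ∫ s in (τ 0)..(τ n), g s := by
    intro n
    induction n with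
    | zero => simp
    | succ n ih =>
      have h1 := h n (τ (n + 1)) ⟨(hτ n).le, le_rfl⟩
      rw [← intervalIntegral.integral_add_adjacent_intervals (hg.intervalIntegrable (τ 0) (τ n))
        (hg.intervalIntegrable (τ n) _), ← add_assoc, ← ih, ← h1]
      abel
  obtain ⟨j, hj1, hj2⟩ := exists_idx hunb ht
  have h1 := h j t ⟨hj1, hj2.le⟩
  rw [← intervalIntegral.integral_add_adjacent_intervals (hg.intervalIntegrable (τ 0) (τ j))
        (hg.intervalIntegrable _ _), ← add_assoc, ← hn, ← h1]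
  abel

theorem glue_cont (hτ : ∀ j, τ j < τ (j + 1)) (hunb : ∀ t, ∃ j, t < τ j) {g : ℝ → W}
    (h : ∀ j : ℕ, ContinuousOn g (Icc (τ j) (τ (j + 1)))) : ContinuousOn g (Ici (τ 0)) := by
  have hn : ∀ n : ℕ, ContinuousOn g (Icc (τ 0) (τ n)) := by
    intro n
    induction n with
    | zero => simp
    | succ n ih =>
      have h1 : Icc (τ 0) (τ (n + 1)) = Icc (τ 0) (τ n) ∪ Icc (τ n) (τ (n + 1)) :=
        (Icc_union_Icc_eq_Icc (mono_le hτ (Nat.zero_le n)) (hτ n).le).symm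
      rw [h1]
      exact ih.union_of_isClosed (h n) isClosed_Icc isClosed_Icc
  intro t ht
  obtain ⟨j, hj1, hj2⟩ := exists_idx hunb ht
  have h1 : Icc (τ 0) (τ (j + 1)) ∈ 𝓝[Ici (τ 0)] t := by
    have h3 : Ici (τ 0) ∩ Iio (τ (j + 1)) ∈ 𝓝[Ici (τ 0)] t :=
      inter_mem self_mem_nhdsWithin (mem_nhdsWithin_of_mem_nhds (Iio_mem_nhds hj2))
    exact mem_of_superset h3 (fun s hs => ⟨hs.1, hs.2.le⟩)
  exact (hn _ t ⟨ht, hj2.le⟩).mono_of_mem_nhdsWithin h1

end glue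

variable {E : Type*} [NormedAddCommGroup E] [InnerProductSpace ℝ E] [FiniteDimensional ℝ E]
  {ι : Type} [Fintype ι] {β : Module.Basis ι ℝ E} {m M : ℝ}
  {l : E → E → ℝ → ℝ}

theorem geo_lip {V a b : ℝ} {Z v : ℝ → E} (h : Geo l a b V Z v) {s t : ℝ} (hs : s ∈ Icc a b)
    (ht : t ∈ Icc a b) : ‖Z t - Z s‖ ≤ V * |t - s| := by
  rw [h.pos s hs t ht]
  refine intervalIntegral.norm_integral_le_of_norm_le_const fun r hr => h.bd r ?_
  have h1 : r ∈ uIcc s t := uIoc_subset_uIcc hr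
  exact (uIcc_subset_Icc hs ht) h1

theorem geo_V {V a b : ℝ} {Z v : ℝ → E} (h : Geo l a b V Z v) (hab : a ≤ b) : 0 ≤ V :=
  (norm_nonneg _).trans (h.bd a ⟨le_rfl, hab⟩)

theorem geo_contv {V a b : ℝ} {Z v : ℝ → E} (h : Geo l a b V Z v) : ContinuousOn v (Icc a b) := by
  obtain ⟨C, hC⟩ := h.lip
  exact EscN.O6.lip_cont hC

theorem geo_contZ {V a b : ℝ} {Z v : ℝ → E} (h : Geo l a b V Z v) : ContinuousOn Z (Icc a b) :=
  EscN.O6.lip_cont (fun _ hs _ ht => geo_lip h hs ht)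

/-- the Lagrangian along a curve is continuous -/
theorem geo_contl (hc : Continuous (fun p : E × E × ℝ => l p.1 p.2.1 p.2.2)) {V a b : ℝ}
    {Z v : ℝ → E} (h : Geo l a b V Z v) : ContinuousOn (fun r => l (Z r) (v r) r) (Icc a b) :=
  hc.comp_continuousOn ((geo_contZ h).prodMk ((geo_contv h).prodMk continuousOn_id))

/-- subadditivity of the kernel, degenerate intervals allowed -/
theorem kadd {l' : E → E → ℝ → ℝ} {lu' : E → E → ℝ → E} {v0 : E} {m' Λ : ℝ}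
    (hl : CK l' lu' v0 m' Λ) {a b c : ℝ} (hab : a ≤ b) (hbc : b ≤ c) (X : ℝ → E) :
    kerl l' a c (X a) (X c) ≤ kerl l' a b (X a) (X b) + kerl l' b c (X b) (X c) := by
  rcases hab.eq_or_lt with h1 | h1
  · subst h1
    rw [EscF.O6.kerl_self, zero_add]
  rcases hbc.eq_or_lt with h2 | h2
  · subst h2
    rw [EscF.O6.kerl_self, add_zero]
  exact EscF.kerl_le_add hl h1 h2 _ _ _

theorem kgeo_of_geo (hc : Continuous (fun p : E × E × ℝ => l p.1 p.2.1 p.2.2))
    {l' : E → E → ℝ → ℝ} {lx' lu' : E → E → ℝ → E} {C R Λ V a b : ℝ} {Z v : ℝ → E} (hab : a < b)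
    (h : Geo l a b V Z v) (hcut : Cut l l' lx' lu' m C M R Λ) (hVR : V ≤ R)
    (hk : kerl l a b (Z a) (Z b) = kerl l' a b (Z a) (Z b)) : KGeo l' a b Z := by
  have hV := geo_V h hab.le
  have hcl := geo_contl hc h
  have hii : ∀ s ∈ Icc a b, ∀ t ∈ Icc a b,
      IntervalIntegrable (fun r => l (Z r) (v r) r) volume s t := by
    intro s hs t ht
    exact (hcl.mono (uIcc_subset_Icc hs ht)).intervalIntegrable
  -- upper bound of the pieces
  have hpiece : ∀ s t, a ≤ s → s ≤ t → t ≤ b →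
      kerl l' s t (Z s) (Z t) ≤ ∫ r in s..t, l (Z r) (v r) r := by
    intro s t has hst htb
    rcases hst.eq_or_lt with h1 | h1
    · subst h1
      rw [EscF.O6.kerl_self, intervalIntegral.integral_same]
    · obtain ⟨C', hC'⟩ := h.lip
      obtain ⟨u, hu, -, hu2, hu3⟩ := adm_of_lip hab hC' h.pos
      have ms : s ∈ Icc a b := ⟨has, h1.le.trans htb⟩
      have mt : t ∈ Icc a b := ⟨has.trans h1.le, htb⟩
      have h2 := EscF.kerl_le hcut.cl.toCK h1 hu (hu2 s ms t mt)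
      rw [hu3 l' s ms t mt h1.le] at h2
      refine h2.trans (le_of_eq ?_)
      apply intervalIntegral.integral_congr
      intro r hr
      rw [uIcc_of_le h1.le] at hr
      exact hcut.eq _ _ _ ((h.bd r ⟨has.trans hr.1, hr.2.trans htb⟩).trans hVR)
  refine ⟨⟨V ^ 2 * (b - a), fun s hs t ht => ?_⟩, fun s t has hst htb => ?_⟩
  · have h1 := geo_lip h hs ht
    have h2 : |t - s| ≤ b - a := by
      rw [abs_le]
      constructor <;> linarith [hs.1, hs.2, ht.1, ht.2]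
    calc ‖Z t - Z s‖ ^ 2 ≤ (V * |t - s|) ^ 2 := pow_le_pow_left₀ (norm_nonneg _) h1 2
      _ = V ^ 2 * |t - s| * |t - s| := by ring
      _ ≤ V ^ 2 * (b - a) * |t - s| := by gcongr
  · have ma : a ∈ Icc a b := ⟨le_rfl, hab.le⟩
    have mb : b ∈ Icc a b := ⟨hab.le, le_rfl⟩
    have ms : s ∈ Icc a b := ⟨has, hst.trans htb⟩
    have mt : t ∈ Icc a b := ⟨has.trans hst, htb⟩
    have h1 := hpiece a s le_rfl has (hst.trans htb)
    have h2 := hpiece s t has hst htb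
    have h3 := hpiece t b (has.trans hst) htb le_rfl
    have h4 : (∫ r in a..s, l (Z r) (v r) r) + (∫ r in s..t, l (Z r) (v r) r) +
        (∫ r in t..b, l (Z r) (v r) r) = kerl l' a b (Z a) (Z b) := by
      rw [intervalIntegral.integral_add_adjacent_intervals (hii a ma s ms) (hii s ms t mt),
        intervalIntegral.integral_add_adjacent_intervals (hii a ma t mt) (hii t mt b mb),
        h.act a b le_rfl hab le_rfl, hk]
    have h5 := kadd hcut.cl.toCK has (hst.trans htb) Z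
    have h6 := kadd hcut.cl.toCK hst htb Z
    linarith

/-- the velocities agree at a local minimum -/
theorem vel_match (hl : TG β m M l) {a b c : ℝ} (hab : a < b) (hbc : b < c) {V V' : ℝ}
    {Z v Z' v' : ℝ → E} (hG : Geo l a b V Z v) (hG' : Geo l b c V' Z' v') (hZZ : Z b = Z' b)
    (hker : ∀ {l' : E → E → ℝ → ℝ} {lx' lu' : E → E → ℝ → E} {R Λ : ℝ},
      Cut l l' lx' lu' m (gC m M) M R Λ → V ≤ R → ∀ x, ‖x - Z b‖ ≤ 1 →
      kerl l a b (Z a) x = kerl l' a b (Z a) x)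
    (hker' : ∀ {l' : E → E → ℝ → ℝ} {lx' lu' : E → E → ℝ → E} {R Λ : ℝ},
      Cut l l' lx' lu' m (gC m M) M R Λ → V' ≤ R → ∀ x, ‖x - Z b‖ ≤ 1 →
      kerl l b c x (Z' c) = kerl l' b c x (Z' c))
    (hmin : IsLocalMin (fun x => kerl l a b (Z a) x + kerl l b c x (Z' c)) (Z b)) :
    v b = v' b := by
  obtain ⟨l', lx', lu', Λ, hcut⟩ := hl.exists_cut (max V V')
  have hc := hl.smooth.continuous
  have h0 : ‖Z b - Z b‖ ≤ 1 := by simp
  have k1 := kgeo_of_geo hc hab hG hcut (le_max_left _ _) (hker hcut (le_max_left _ _) _ h0)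
  have k2 := kgeo_of_geo hc hbc hG' hcut (le_max_right _ _)
    (by
      have := hker' hcut (le_max_right _ _) _ h0
      rwa [hZZ] at this)
  obtain ⟨C, hC⟩ := hG.lip
  obtain ⟨C', hC'⟩ := hG'.lip
  refine EscF.O6.vel_eq hcut.cl hab hbc k1 k2 hZZ hC hC' hG.pos hG'.pos ?_
  have hball : Metric.closedBall (Z b) 1 ∈ 𝓝 (Z b) := Metric.closedBall_mem_nhds _ one_pos
  filter_upwards [hmin, hball] with x hx hx1
  rw [Metric.mem_closedBall, dist_eq_norm] at hx1
  rw [← hker hcut (le_max_left _ _) _ h0, ← hker' hcut (le_max_right _ _) _ h0,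
    ← hker hcut (le_max_left _ _) _ hx1, ← hker' hcut (le_max_right _ _) _ hx1]
  exact hx

end A6

open A6 in
/-- orbit from a sitewise locally minimal sequence at times `τ j` -/
theorem orbit_of_sitewise {E : Type*} [NormedAddCommGroup E] [InnerProductSpace ℝ E]
    [FiniteDimensional ℝ E] {ι : Type} [Fintype ι] {β : Module.Basis ι ℝ E} {m M : ℝ}
     {l : E → E → ℝ → ℝ}
    (hl : TG β m M l) {T0 T1 : ℝ} (hT0 : 0 < T0) (τ : ℕ → ℝ)
    (hτ : ∀ j, T0 ≤ τ (j + 1) - τ j ∧ τ (j + 1) - τ j ≤ T1) (w : ℕ → E)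
    (hmin : ∀ j, IsLocalMin (fun x => kerl l (τ j) (τ (j + 1)) (w j) x +
      kerl l (τ (j + 1)) (τ (j + 2)) x (w (j + 2))) (w (j + 1))) :
    ∃ x v : ℝ → E, ContinuousOn x (Ici (τ 0)) ∧
      (∀ t, τ 0 < t → HasDerivAt x (v t) t) ∧ ContinuousOn v (Ici (τ 0)) ∧
      (∀ t, τ 0 < t → HasDerivAt (fun t => gu l (x t) (v t) t) (gx l (x t) (v t) t) t) ∧
      (∀ j, x (τ j) = w j) ∧
      (∀ j, ∫ t in τ j..τ (j + 1), l (x t) (v t) t = kerl l (τ j) (τ (j + 1)) (w j) (w (j + 1))) ∧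
      ∃ c C : ℝ, 0 < c ∧ ∀ j, ∀ t ∈ Icc (τ j) (τ (j + 1)),
        c * ‖w (j + 1) - w j‖ ^ 2 - C ≤ ‖v t‖ ^ 2 := by
  have hm := hl.m_pos
  have hT1 : 0 < T1 := by linarith [(hτ 0).1, (hτ 0).2]
  have hlt : ∀ j, τ j < τ (j + 1) := fun j => by linarith [(hτ j).1]
  have hunb := unbounded hT0 (fun j => (hτ j).1)
  choose V hV0 hV using fun j : ℕ =>
    exists_geo (E := E) m M (‖w (j + 1) - w j‖ + 1) (T1 := T1) hm hT0
  have hGe := fun j : ℕ => (hV j hl (hτ j).1 (hτ j).2 (z := w j) (z' := w (j + 1))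
    (by linarith)).1
  choose Z v hZ0 hZ1 hG using hGe
  have hZZ : ∀ j : ℕ, Z j (τ (j + 1)) = Z (j + 1) (τ (j + 1)) := fun j => by
    rw [hZ1 j, hZ0 (j + 1)]
  have hVV : ∀ j : ℕ, v j (τ (j + 1)) = v (j + 1) (τ (j + 1)) := by
    intro j
    refine vel_match hl (hlt j) (hlt (j + 1)) (hG j) (hG (j + 1)) (hZZ j) ?_ ?_ ?_
    · intro l' lx' lu' R Λ hcut hVR x hx
      rw [hZ1 j] at hx
      rw [hZ0 j]
      refine (hV j hl (hτ j).1 (hτ j).2 (z := w j) (z' := x) ?_).2 hcut hVR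
      have h1 : x - w j = (x - w (j + 1)) + (w (j + 1) - w j) := by abel
      rw [h1]
      exact (norm_add_le _ _).trans (by linarith)
    · intro l' lx' lu' R Λ hcut hVR x hx
      rw [hZ1 j] at hx
      rw [hZ1 (j + 1)]
      refine (hV (j + 1) hl (hτ (j + 1)).1 (hτ (j + 1)).2 (z := x) (z' := w (j + 1 + 1)) ?_).2
        hcut hVR
      have h1 : w (j + 1 + 1) - x = (w (j + 1 + 1) - w (j + 1)) - (x - w (j + 1)) := by abel
      rw [h1]
      exact (norm_sub_le _ _).trans (by linarith)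
    · rw [hZ0 j, hZ1 j, hZ1 (j + 1)]
      exact hmin j
  set x := gl τ Z with hx
  set u := gl τ v with hu
  have hxe : ∀ (j : ℕ) {t : ℝ}, t ∈ Icc (τ j) (τ (j + 1)) → x t = Z j t :=
    fun j t ht => gl_eq hlt hZZ j ht
  have hue : ∀ (j : ℕ) {t : ℝ}, t ∈ Icc (τ j) (τ (j + 1)) → u t = v j t :=
    fun j t ht => gl_eq hlt hVV j ht
  have hmemj : ∀ j : ℕ, τ j ∈ Icc (τ j) (τ (j + 1)) := fun j => ⟨le_rfl, (hlt j).le⟩
  have h0j : ∀ j : ℕ, τ 0 ≤ τ j := fun j => mono_le hlt (Nat.zero_le j)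
  have huc : ContinuousOn u (Ici (τ 0)) :=
    glue_cont hlt hunb fun j => (geo_contv (hG j)).congr fun t ht => hue j ht
  -- clamped functions
  set v1 : ℝ → E := fun t => u (max (τ 0) t) with hv1
  have hv1c : Continuous v1 :=
    huc.comp_continuous (by fun_prop) (fun t => Set.mem_Ici.2 (le_max_left _ _))
  have hv1e : ∀ t, τ 0 ≤ t → v1 t = u t := fun t ht => by
    simp only [hv1]; rw [max_eq_right ht]
  have hxi : ∀ t, τ 0 ≤ t → x t = x (τ 0) + ∫ s in (τ 0)..t, v1 s := by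
    intro t ht
    refine glue_int hlt hunb hv1c ?_ ht
    intro j t ht
    rw [hxe j ht, hxe j (hmemj j), (hG j).pos _ (hmemj j) _ ht]
    apply intervalIntegral.integral_congr
    intro s hs
    rw [uIcc_of_le ht.1] at hs
    have h1 : τ 0 ≤ s := (h0j j).trans hs.1
    rw [hv1e s h1, hue j ⟨hs.1, hs.2.trans ht.2⟩]
  set x1 : ℝ → E := fun t => x (τ 0) + ∫ s in (τ 0)..t, v1 s with hx1
  have hx1d : ∀ t, HasDerivAt x1 (v1 t) t := by
    intro t
    have := intervalIntegral.integral_hasDerivAt_right (hv1c.intervalIntegrable (τ 0) t)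
      (hv1c.stronglyMeasurableAtFilter _ _) hv1c.continuousAt
    exact this.const_add (x (τ 0))
  have hx1c : Continuous x1 := continuous_iff_continuousAt.2 fun t => (hx1d t).continuousAt
  have hx1e : ∀ t, τ 0 ≤ t → x1 t = x t := fun t ht => (hxi t ht).symm
  have hFc : Continuous (fun t => gx l (x1 t) (v1 t) t) :=
    EscN.O6.comp3 (F := gx l) hl.gx_cont hx1c hv1c
  have hpi : ∀ t, τ 0 ≤ t → (fun t => gu l (x t) (u t) t) t = (fun t => gu l (x t) (u t) t) (τ 0) +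
      ∫ s in (τ 0)..t, gx l (x1 s) (v1 s) s := by
    intro t ht
    refine glue_int (x := fun t => gu l (x t) (u t) t) hlt hunb hFc ?_ ht
    intro j t ht
    show gu l (x t) (u t) t - gu l (x (τ j)) (u (τ j)) (τ j) = _
    rw [hxe j ht, hxe j (hmemj j), hue j ht, hue j (hmemj j), (hG j).el _ (hmemj j) _ ht]
    apply intervalIntegral.integral_congr
    intro s hs
    rw [uIcc_of_le ht.1] at hs
    have h1 : τ 0 ≤ s := (h0j j).trans hs.1
    have hm : s ∈ Icc (τ j) (τ (j + 1)) := ⟨hs.1, hs.2.trans ht.2⟩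
    simp only
    rw [hv1e s h1, hue j hm, hx1e s h1, hxe j hm]
  have hpd : ∀ t, τ 0 < t → HasDerivAt (fun t => gu l (x1 t) (v1 t) t)
      (gx l (x1 t) (v1 t) t) t := by
    intro t ht
    have h1 := (intervalIntegral.integral_hasDerivAt_right (hFc.intervalIntegrable (τ 0) t)
      (hFc.stronglyMeasurableAtFilter _ _) hFc.continuousAt).const_add
        (gu l (x (τ 0)) (u (τ 0)) (τ 0))
    refine h1.congr_of_eventuallyEq ?_
    filter_upwards [lt_mem_nhds ht] with s hs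
    rw [hv1e s hs.le, hx1e s hs.le]
    exact hpi s hs.le
  obtain ⟨c, C, hc, hsp⟩ := speed_low (E := E) m M T1 hm hT1
  refine ⟨x1, v1, hx1c.continuousOn, fun t _ => hx1d t, hv1c.continuousOn, hpd, ?_, ?_, c, C, hc, ?_⟩
  · intro j
    rw [hx1e _ (h0j j), hxe j (hmemj j), hZ0]
  · intro j
    have h1 := (hG j).act (τ j) (τ (j + 1)) le_rfl (hlt j) le_rfl
    rw [hZ0, hZ1] at h1
    rw [← h1]
    apply intervalIntegral.integral_congr
    intro s hs
    rw [uIcc_of_le (hlt j).le] at hs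
    have h2 : τ 0 ≤ s := (h0j j).trans hs.1
    simp only
    rw [hv1e s h2, hue j hs, hx1e s h2, hxe j hs]
  · intro j t ht
    have h1 := hsp hl (hlt j) (hτ j).2 (hG j) t ht
    rw [hZ0, hZ1] at h1
    rw [hv1e t ((h0j j).trans ht.1), hue j ht]
    exact h1

end EscT
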