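import Pool.Agent.EscT.TDefs
import Pool.Agent.EscT.C1

/-!
Project EscT (MP_6acca1_an), module C5: passages which leave from or arrive at another room.
-/

set_option linter.unusedSectionVars false
set_option linter.unusedVariables false

noncomputable section

namespace EscT

open MeasureTheory Set Filter Topology Esc EscF EscG
open scoped ContDiff

variable {ι : Type} [Fintype ι] {d : ℕ} {E : Type*} [NormedAddCommGroup E] [InnerProductSpace ℝ E]
  [FiniteDimensional ℝ E] {D : GT ι d E} {p : GP} {m M Mf : ℝ} {L : LP} {ll l : E → E → ℝ → ℝ}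
  {f f' : E → ℝ → ℝ}

/-- a passage from the room `q + v` to the room `q + g` through a point which is far from all rooms -/
theorem C5_aux (h : D.Ok) (hp : POk D p) {t : ℝ} {w : E} (hw : w ∈ D.Out t (p.ηc / 2)) {v v' : E}
    (hv : v ∈ D.Lam) (hv' : v' ∈ D.Lam) :
    p.e ≤ D.j t (D.q t + v) w + D.j t w (D.q t + v') := by
  have h0 := hp.ηc_pos
  by_cases hJ : D.InJ (v' - v)
  · obtain ⟨n, hn⟩ := hJ
    have h1 : p.ηc / 4 ≤ Metric.infDist (w - v) (D.Z t) := by
      have h2 := hw (-v) (D.Lam.neg_mem hv)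
      rw [← sub_eq_add_neg] at h2
      linarith
    have h3 := hp.rt t (w - v) h1
    have h4 := j_Lam h.toOk0 hv t (D.q t) (w - v)
    rw [sub_add_cancel] at h4
    have h5 := j_Lam h.toOk0 hv t (w - v) (D.q t + (v' - v))
    have h6 : D.q t + (v' - v) + v = D.q t + v' := by abel
    rw [sub_add_cancel, h6] at h5
    have h7 := j_J h.toOk0 t (w - v) (D.q t) 0 n
    have h8 : lv D.b (0 : Fin d → ℤ) = 0 := by simp [lv]
    rw [h8, add_zero, ← hn] at h7
    rw [h4, h5, h7]
    exact h3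
  · have h1 := Us_le h t (D.Lam.sub_mem hv' hv) hJ
    have h2 := j_tri h.toOk0 t (D.q t + v) w (D.q t + v')
    have h5 := j_Lam h.toOk0 hv t (D.q t) (D.q t + (v' - v))
    have h6 : D.q t + (v' - v) + v = D.q t + v' := by abel
    rw [h6] at h5
    have h7 := hp.e_le
    have h8 := hp.e_pos
    linarith

theorem no0 (h : D.Ok) (hp : POk D p) {t : ℝ} {w : E} (hw : w ∈ D.Mg t (p.ηc / 2) (2 * p.κ)) {v : E}
    (hv : v ∈ D.Lam) (hvJ : ¬ D.InJ v) : D.j t (D.q t) w + p.e / 2 ≤ D.Us + D.j t (D.q t + v) w := by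
  have h1 := C5_aux h hp hw.1 hv h.g_mem
  have h2 := hw.2
  have h3 := hp.κ_le
  have h4 := hp.e_pos
  linarith

theorem no1 (h : D.Ok) (hp : POk D p) {t : ℝ} {w : E} (hw : w ∈ D.Mg t (p.ηc / 2) (2 * p.κ)) {v : E}
    (hv : v ∈ D.Lam) (hvJ : ¬ D.InJ v) :
    D.j t w (D.q t + D.g) + p.e / 2 ≤ D.Us + D.j t w (D.q t + v + D.g) := by
  have h1 := C5_aux h hp hw.1 (D.Lam.zero_mem) (D.Lam.add_mem hv h.g_mem)
  rw [add_zero, ← add_assoc] at h1
  have h2 := hw.2
  have h3 := hp.κ_le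
  have h4 := hp.e_pos
  linarith

end EscT
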