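import Pool.Agent.EscT.TDefs
import Pool.Agent.EscT.C1
import Pool.Agent.EscT.C5
import Pool.Agent.EscT.C6b
import Pool.Agent.EscT.C7b
import Pool.Agent.EscT.C8

/-!
Project EscT, module C10: optimal points are not on the boundary of the room.
-/

noncomputable section

namespace EscT

open MeasureTheory Set Filter Topology Esc EscF EscG
open scoped ContDiff

variable {ι : Type} [Fintype ι] {d : ℕ} {E : Type*} [NormedAddCommGroup E] [InnerProductSpace ℝ E]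
  [FiniteDimensional ℝ E] {D : GT ι d E} {p : GP} {m M Mf : ℝ} {L : LP} {ll l : E → E → ℝ → ℝ}
  {f f' : E → ℝ → ℝ}

omit [FiniteDimensional ℝ E] in
theorem C10_lv0 (b : Fin d → E) : lv b 0 = 0 := by
  simp [lv]

omit [FiniteDimensional ℝ E] in
theorem C10_qZ (h : D.Ok) (t : ℝ) : D.q t ∈ D.Z t := (h.fr0 t).q0_mem

omit [FiniteDimensional ℝ E] in
theorem C10_qR (h : D.Ok) (hp : POk D p) : D.q 0 ∈ (D0 D).R p := by
  show Metric.infDist (D.q 0) (D.Z 0) ≤ p.η1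
  rw [Metric.infDist_zero_of_mem (C10_qZ h 0)]
  exact hp.η1_pos.le

omit [FiniteDimensional ℝ E] in
theorem C10_XR (hp : POk D p) {x : E} (hx : x ∈ (D0 D).R p) : x ∈ D.X p.ρ := by
  have h1 : x ∈ D.Rm 0 p.ηc := by
    show Metric.infDist x (D.Z 0) ≤ p.ηc
    have h2 : Metric.infDist x (D.Z 0) ≤ p.η1 := hx
    have := hp.η1_le
    have := hp.η1_pos
    linarith
  have h3 := hp.bnd 0 x (Or.inl h1) 0 (by norm_num)
  simpa using h3

omit [FiniteDimensional ℝ E] in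
theorem C10_Mg (hp : POk D p) {t : ℝ} {w : E} (hw : w ∈ Md D p t) : w ∈ D.Mg t (p.ηc / 2) (2 * p.κ) := by
  obtain ⟨⟨h1, h2⟩, -⟩ := hw
  have hηc := hp.ηc_pos
  have hκ := hp.κ_pos
  refine ⟨fun v hv => ?_, ?_⟩
  · have := h1 v hv
    linarith
  · linarith

omit [FiniteDimensional ℝ E] in
theorem C10_XM (hp : POk D p) {t : ℝ} {w : E} (hw : w ∈ Md D p t) : w ∈ D.X p.ρ := by
  have h3 := hp.bnd t w (Or.inr (C10_Mg hp hw)) 0 (by norm_num)
  simpa using h3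

omit [FiniteDimensional ℝ E] in
theorem C10_XMg (hp : POk D p) {t : ℝ} {w : E} (hw : w ∈ Md D p t) : w - D.g ∈ D.X p.ρ := by
  have h3 := hp.bnd t w (Or.inr (C10_Mg hp hw)) (-1) (by norm_num)
  have h4 : w + (((-1 : ℤ) : ℝ)) • D.g = w - D.g := by
    push_cast
    rw [neg_one_smul]
    abel
  rwa [h4] at h3

theorem C10_jr (h : D.Ok) (t : ℝ) (x q : E) {v : E} (hJ : D.InJ v) : D.j t x (q + v) = D.j t x q := by
  obtain ⟨n, rfl⟩ := hJ
  have h1 := j_J h.toOk0 t x q 0 n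
  rwa [C10_lv0, add_zero] at h1

theorem C10_jl (h : D.Ok) (t : ℝ) (x q : E) {v : E} (hJ : D.InJ v) : D.j t (q + v) x = D.j t q x := by
  obtain ⟨n, rfl⟩ := hJ
  have h1 := j_J h.toOk0 t q x n 0
  rwa [C10_lv0, add_zero] at h1

omit [FiniteDimensional ℝ E] in
theorem C10_InJ_neg {v : E} (hJ : D.InJ (-v)) : D.InJ v := by
  obtain ⟨n, hn⟩ := hJ
  refine ⟨-n, ?_⟩
  have : lv D.b (-n) = - lv D.b n := by
    simp [lv]
  rw [this, ← hn, neg_neg]

omit [FiniteDimensional ℝ E] in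
theorem C10_InJ_sub {v v' : E} (h1 : D.InJ (v' - v)) (h2 : D.InJ v') : D.InJ v := by
  obtain ⟨n, hn⟩ := h1
  obtain ⟨k, hk⟩ := h2
  refine ⟨k + -n, ?_⟩
  have e1 : lv D.b (k + -n) = lv D.b k - lv D.b n := by
    simp only [lv, Pi.add_apply, Pi.neg_apply, Int.cast_add, Int.cast_neg, add_smul, neg_smul,
      Finset.sum_add_distrib, Finset.sum_neg_distrib]
    abel
  rw [e1, ← hn, ← hk]
  abel

omit [FiniteDimensional ℝ E] in
theorem C10_InJ_sub' {v v' : E} (h1 : D.InJ (v' - v)) (h2 : D.InJ v) : D.InJ v' := by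
  refine C10_InJ_sub (v' := v) ?_ h2
  apply C10_InJ_neg
  rwa [neg_sub]

omit [FiniteDimensional ℝ E] in
theorem C10_MF (h : D.Ok) : 0 ≤ D.MF := by
  have h1 := (h.fr0 0).fins.mF_pos
  have h2 := (h.fr0 0).fins.mF_le
  have h3 : (0:ℝ) < D.mF := h1
  have h4 : D.mF ≤ D.MF := h2
  linarith

omit [FiniteDimensional ℝ E] in
theorem C10_bb0 (x : E) : D.bb 0 x = 0 := by
  unfold GT.bb
  ring

theorem C10_bb1 (h : D.Ok) (x : E) : D.bb 1 x = 0 := by
  have := (bb_per h.toOk0 0 1 x).2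
  simpa using this

theorem C10_bb2 (h : D.Ok) (x : E) : D.bb 2 x = 0 := by
  have := (bb_per h.toOk0 0 2 x).2
  simpa using this

omit [FiniteDimensional ℝ E] in
theorem C10_q1 (h : D.Ok) : D.q 1 = D.q 0 := by
  have := h.q_per 0
  simpa using this

omit [FiniteDimensional ℝ E] in
theorem C10_q2 (h : D.Ok) : D.q 2 = D.q 0 := by
  have := h.q_per 1
  rw [C10_q1 h] at this
  rw [← this]
  norm_num

theorem C10_j1 (h : D.Ok) (x x' : E) : D.j 1 x x' = D.j 0 x x' := by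
  have := j_per h.toOk0 0 1 x x'
  simpa using this

theorem C10_j2 (h : D.Ok) (x x' : E) : D.j 2 x x' = D.j 0 x x' := by
  have := j_per h.toOk0 0 2 x x'
  simpa using this

omit [FiniteDimensional ℝ E] in
theorem C10_qr (h : D.Ok) (r : ℝ) : D.q (1 + r) = D.q r := by
  rw [add_comm]
  exact h.q_per r

theorem C10_jr1 (h : D.Ok) (r : ℝ) (x x' : E) : D.j (1 + r) x x' = D.j r x x' := by
  have := j_per h.toOk0 r 1 x x'
  rw [add_comm]
  simpa using this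

/-- leaving the room for another room -/
theorem C10_U1 (h : D.Ok) {x : E} (hx : x ∈ (D0 D).R p) {v : E} (hv : v ∈ D.Lam) (hJ : ¬ D.InJ v) :
    D.Us ≤ D.j 0 x (D.q 0 + v) + 2 * D.MF * p.η1 := by
  have h1 := Us_le h 0 hv hJ
  have h2 := j_tri h.toOk0 0 (D.q 0) x (D.q 0 + v)
  have h3 := (near h.toOk0 0 (show Metric.infDist x (D.Z 0) ≤ p.η1 from hx)).2
  linarith

theorem C10_U2 (h : D.Ok) {x : E} (hx : x ∈ (D0 D).R p) {v : E} (hv : v ∈ D.Lam) (hJ : ¬ D.InJ v) :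
    D.Us ≤ D.j 0 (D.q 0 + v) x + 2 * D.MF * p.η1 := by
  have h1 := Us_le h 0 (neg_mem hv) (fun hJ' => hJ (C10_InJ_neg hJ'))
  have h0 := j_Lam h.toOk0 hv 0 (D.q 0) (D.q 0 + -v)
  rw [neg_add_cancel_right] at h0
  have h2 := j_tri h.toOk0 0 (D.q 0 + v) x (D.q 0)
  have h3 := (near h.toOk0 0 (show Metric.infDist x (D.Z 0) ≤ p.η1 from hx)).1
  linarith

/-- the choice of the constants -/
theorem C10_const {e e2 om : ℝ} (he : 0 < e) (he2 : 0 < e2) (hom : 64 * om ≤ e) :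
    ∃ ε s0 : ℝ, 0 < ε ∧ 1 ≤ s0 ∧ ∀ s, s0 ≤ s → 5 * (ε * s) + 1 ≤ s * e2 ∧
      5 * (ε * s) + 4 * (s * om) + 1 ≤ s * e := by
  refine ⟨min e e2 / 16, 1 + 2 / e2 + 4 / e, ?_, ?_, ?_⟩
  · have : 0 < min e e2 := lt_min he he2
    positivity
  · have h1 : 0 ≤ 2 / e2 := by positivity
    have h2 : 0 ≤ 4 / e := by positivity
    linarith
  · intro s hs
    have h1 : 0 ≤ 2 / e2 := by positivity
    have h2 : 0 ≤ 4 / e := by positivity
    have hs0 : 0 ≤ s := by linarith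
    have h3 : 2 / e2 ≤ s := by linarith
    have h4 : 4 / e ≤ s := by linarith
    rw [div_le_iff₀ he2] at h3
    rw [div_le_iff₀ he] at h4
    have h5 : min e e2 / 16 * s ≤ e2 / 16 * s := by
      apply mul_le_mul_of_nonneg_right _ hs0
      have := min_le_right e e2
      linarith
    have h6 : min e e2 / 16 * s ≤ e / 16 * s := by
      apply mul_le_mul_of_nonneg_right _ hs0
      have := min_le_left e e2
      linarith
    have h7 : s * om ≤ s * (e / 64) := by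
      apply mul_le_mul_of_nonneg_left _ hs0
      linarith
    constructor
    · nlinarith
    · nlinarith

/-- lower bound of the kernels between points of bounded sets over times at least `1 / 4` -/
theorem C10_low (h : D.Ok) (m : ℝ) (L : LP) (ρ : ℝ) {ε : ℝ} (hε : 0 < ε) :
    ∃ s0 : ℝ, 1 ≤ s0 ∧ ∀ s, s0 ≤ s → ∀ ll, FT D m L ll → ∀ t t', 1 / 4 ≤ t' - t → t' - t ≤ 4 →
    ∀ x ∈ D.X ρ, ∀ x' ∈ D.X ρ, ∃ v ∈ D.Lam, ∃ v' ∈ D.Lam,
      (D.InJ (v' - v) ∨ s * (D.j t x (D.q t + v) + D.Us + D.j t' (D.q t' + v') x') +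
        D.corr s t t' x x' + L.fl s t t' ≤ (D0 D).kk ll s t t' x x' + ε * s) ∧
      s * (D.j t x (D.q t + v) + D.j t' (D.q t' + v') x') + D.corr s t t' x x' + L.fl s t t' ≤
          (D0 D).kk ll s t t' x x' + ε * s := by
  obtain ⟨C, s1, hC, hs1, hlin⟩ := kk_lin h m L ρ
  obtain ⟨Cb, hCb, hbb, -, -⟩ := bb_bd h.toOk0
  have hε' : 0 < min ε (1 / 8) := lt_min hε (by norm_num)
  obtain ⟨s2, hs2, hlow⟩ := low h m L (C + 2 * Cb) hε'
  refine ⟨s1 + s2, by linarith, ?_⟩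
  intro s hs ll hl t t' htt htt' x hx x' hx'
  have hs0 : 0 ≤ s := by linarith
  have b1 := (le_abs_self _).trans (hlin s (by linarith) ll hl t t' htt htt' x hx x' hx')
  have b2 : -(2 * Cb * s) ≤ D.corr s t t' x x' := by
    unfold GT.corr
    have h1 := (abs_le.1 (hbb t' x')).1
    have h2 := (abs_le.1 (hbb t x)).2
    have h3 : -(2 * Cb) ≤ D.bb t' x' - D.bb t x := by linarith
    have h4 := mul_le_mul_of_nonneg_left h3 hs0
    linarith
  have hm1 : min ε (1 / 8) * s ≤ ε * s := mul_le_mul_of_nonneg_right (min_le_left _ _) hs0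
  have hm2 : min ε (1 / 8) ≤ 1 / 8 := min_le_right _ _
  rcases hlow s (by linarith) ll hl t t' (by linarith) (by linarith) x x' (by linarith) with
    ⟨h1, -⟩ | ⟨v, hv, v', hv', h1, h2⟩
  · linarith
  · refine ⟨v, hv, v', hv', ?_, by linarith⟩
    rcases h1 with h1 | h1
    · exact Or.inl h1
    · exact Or.inr (by linarith)

/-- kernels between points of the room -/
theorem C10_k1 (h : D.Ok) (hp : POk D p) (m : ℝ) (L : LP) {ε : ℝ} (hε : 0 < ε) :
    ∃ s0 : ℝ, 1 ≤ s0 ∧ ∀ s, s0 ≤ s → ∀ ll, FT D m L ll → ∀ x ∈ (D0 D).R p, ∀ y ∈ (D0 D).R p,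
      (D0 D).k1 ll s x y ≤ L.fl s 0 1 + s * (D.j 0 x (D.q 0) + D.j 0 (D.q 0) y) + ε * s ∧
      L.fl s 0 1 ≤ (D0 D).k1 ll s x y + ε * s ∧
      (L.fl s 0 1 + s * (D.j 0 x (D.q 0) + D.j 0 (D.q 0) y) ≤ (D0 D).k1 ll s x y + ε * s ∨
        L.fl s 0 1 + s * (D.Us - 2 * D.MF * p.η1) ≤ (D0 D).k1 ll s x y + ε * s) := by
  obtain ⟨s1, hs1, hlow⟩ := C10_low h m L p.ρ hε
  obtain ⟨s2, hs2, hupp⟩ := upp h m L p.ρ hε
  refine ⟨s1 + s2, by linarith, ?_⟩
  intro s hs ll hl x hx y hy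
  have hs0 : 0 ≤ s := by linarith
  have hcorr : D.corr s 0 1 x y = 0 := by
    unfold GT.corr
    rw [C10_bb0, C10_bb1 h]
    ring
  have u1 := hupp s (by linarith) ll hl 0 1 (by norm_num) (by norm_num) x (C10_XR hp hx) y (C10_XR hp hy)
  rw [hcorr, C10_q1 h, C10_j1 h, zero_add] at u1
  obtain ⟨v, hv, v', hv', b1, b2⟩ := hlow s (by linarith) ll hl 0 1 (by norm_num) (by norm_num) x
    (C10_XR hp hx) y (C10_XR hp hy)
  rw [hcorr, C10_q1 h, C10_j1 h, add_zero] at b1 b2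
  change (D.InJ (v' - v) ∨ s * (D.j 0 x (D.q 0 + v) + D.Us + D.j 0 (D.q 0 + v') y) + L.fl s 0 1 ≤
    (D0 D).k1 ll s x y + ε * s) at b1
  change s * (D.j 0 x (D.q 0 + v) + D.j 0 (D.q 0 + v') y) + L.fl s 0 1 ≤
    (D0 D).k1 ll s x y + ε * s at b2
  change (D0 D).k1 ll s x y ≤ _ at u1
  have n1 := mul_nonneg hs0 (j_nonneg h.toOk0 0 x (D.q 0 + v))
  have n2 := mul_nonneg hs0 (j_nonneg h.toOk0 0 (D.q 0 + v') y)
  have hMη : 0 ≤ s * (2 * D.MF * p.η1) :=
    mul_nonneg hs0 (mul_nonneg (mul_nonneg (by norm_num) (C10_MF h)) hp.η1_pos.le)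
  refine ⟨u1, ?_, ?_⟩
  · simp only [mul_add] at *
    linarith
  · by_cases hJ : D.InJ v
    · by_cases hJ' : D.InJ v'
      · rw [C10_jr h 0 x (D.q 0) hJ, C10_jl h 0 y (D.q 0) hJ'] at b2
        left
        linarith
      · right
        rcases b1 with b1 | b1
        · exact absurd (C10_InJ_sub' b1 hJ) hJ'
        · simp only [mul_add, mul_sub] at *
          linarith
    · right
      have r1 := mul_le_mul_of_nonneg_left (C10_U1 h hx hv hJ) hs0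
      simp only [mul_add, mul_sub] at *
      linarith

/-- the leg from a gate point to the room -/
theorem C10_P (h : D.Ok) (hp : POk D p) (m : ℝ) (L : LP) {ε : ℝ} (hε : 0 < ε) :
    ∃ s0 : ℝ, 1 ≤ s0 ∧ ∀ s, s0 ≤ s → ∀ ll, FT D m L ll → ∀ r, 0 ≤ r → r ≤ 1 → ∀ w ∈ Md D p r,
      ∀ x ∈ (D0 D).R p,
      (D0 D).P ll s r w x ≤ -(s * D.bb r (w - D.g)) + L.fl s r 2 +
        s * (D.j r (w - D.g) (D.q r) + D.j 0 (D.q 0) x) + ε * s ∧
      (-(s * D.bb r (w - D.g)) + L.fl s r 2 + s * (D.j r (w - D.g) (D.q r) + D.j 0 (D.q 0) x) ≤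
          (D0 D).P ll s r w x + ε * s ∨
        -(s * D.bb r (w - D.g)) + L.fl s r 2 +
            s * (D.j r (w - D.g) (D.q r) + (p.e / 2 - 2 * D.MF * p.η1)) ≤
          (D0 D).P ll s r w x + ε * s) := by
  obtain ⟨s1, hs1, hlow⟩ := C10_low h m L p.ρ hε
  obtain ⟨s2, hs2, hupp⟩ := upp h m L p.ρ hε
  refine ⟨s1 + s2, by linarith, ?_⟩
  intro s hs ll hl r hr hr1 w hw x hx
  have hs0 : 0 ≤ s := by linarith
  have hcorr : D.corr s r 2 (w - D.g) x = -(s * D.bb r (w - D.g)) := by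
    unfold GT.corr
    rw [C10_bb2 h]
    ring
  have u1 := hupp s (by linarith) ll hl r 2 (by linarith) (by linarith) (w - D.g) (C10_XMg hp hw) x
    (C10_XR hp hx)
  rw [hcorr, C10_q2 h, C10_j2 h] at u1
  obtain ⟨v, hv, v', hv', b1, b2⟩ := hlow s (by linarith) ll hl r 2 (by linarith) (by linarith) (w - D.g)
    (C10_XMg hp hw) x (C10_XR hp hx)
  rw [hcorr, C10_q2 h, C10_j2 h] at b1 b2
  change (D.InJ (v' - v) ∨ s * (D.j r (w - D.g) (D.q r + v) + D.Us + D.j 0 (D.q 0 + v') x) +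
    -(s * D.bb r (w - D.g)) + L.fl s r 2 ≤ (D0 D).P ll s r w x + ε * s) at b1
  change s * (D.j r (w - D.g) (D.q r + v) + D.j 0 (D.q 0 + v') x) +
    -(s * D.bb r (w - D.g)) + L.fl s r 2 ≤ (D0 D).P ll s r w x + ε * s at b2
  change (D0 D).P ll s r w x ≤ _ at u1
  refine ⟨u1, ?_⟩
  have n1 := mul_nonneg hs0 (j_nonneg h.toOk0 0 (D.q 0 + v') x)
  have hMη : 0 ≤ s * (2 * D.MF * p.η1) :=
    mul_nonneg hs0 (mul_nonneg (mul_nonneg (by norm_num) (C10_MF h)) hp.η1_pos.le)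
  by_cases hJ : D.InJ v
  · rw [C10_jr h r (w - D.g) (D.q r) hJ] at b1 b2
    by_cases hJ' : D.InJ v'
    · rw [C10_jl h 0 x (D.q 0) hJ'] at b2
      left
      linarith
    · right
      rcases b1 with b1 | b1
      · exact absurd (C10_InJ_sub' b1 hJ) hJ'
      · have e1 : p.e / 2 ≤ D.Us := by
          have := hp.e_le
          have := hp.e_pos
          linarith
        have e2 := mul_le_mul_of_nonneg_left e1 hs0
        simp only [mul_add, mul_sub] at *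
        linarith
  · right
    have k1 := no1 h hp (C10_Mg hp hw) hv hJ
    have e1 : D.j r w (D.q r + v + D.g) = D.j r (w - D.g) (D.q r + v) := by
      have := j_Lam h.toOk0 h.g_mem r (w - D.g) (D.q r + v)
      rwa [sub_add_cancel] at this
    have e2 : D.j r w (D.q r + D.g) = D.j r (w - D.g) (D.q r) := by
      have := j_Lam h.toOk0 h.g_mem r (w - D.g) (D.q r)
      rwa [sub_add_cancel] at this
    rw [e1, e2] at k1
    have k2 := mul_le_mul_of_nonneg_left k1 hs0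
    by_cases hJ' : D.InJ v'
    · rcases b1 with b1 | b1
      · exact absurd (C10_InJ_sub b1 hJ') hJ
      · simp only [mul_add, mul_sub] at *
        linarith
    · have k3 := mul_le_mul_of_nonneg_left (C10_U2 h hx hv' hJ') hs0
      simp only [mul_add, mul_sub] at *
      linarith

/-- the leg from the room to a gate point -/
theorem C10_Q (h : D.Ok) (hp : POk D p) (m : ℝ) (L : LP) {ε : ℝ} (hε : 0 < ε) :
    ∃ s0 : ℝ, 1 ≤ s0 ∧ ∀ s, s0 ≤ s → ∀ ll, FT D m L ll → ∀ r, 0 ≤ r → r ≤ 1 → ∀ w ∈ Md D p r,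
      ∀ x ∈ (D0 D).R p,
      (D0 D).Q ll s r x w ≤ s * D.bb (1 + r) w + L.fl s 0 (1 + r) +
        s * (D.j 0 x (D.q 0) + D.j r (D.q r) w) + ε * s ∧
      (s * D.bb (1 + r) w + L.fl s 0 (1 + r) + s * (D.j 0 x (D.q 0) + D.j r (D.q r) w) ≤
          (D0 D).Q ll s r x w + ε * s ∨
        s * D.bb (1 + r) w + L.fl s 0 (1 + r) +
            s * ((p.e / 2 - 2 * D.MF * p.η1) + D.j r (D.q r) w) ≤
          (D0 D).Q ll s r x w + ε * s) := by
  obtain ⟨s1, hs1, hlow⟩ := C10_low h m L p.ρ hε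
  obtain ⟨s2, hs2, hupp⟩ := upp h m L p.ρ hε
  refine ⟨s1 + s2, by linarith, ?_⟩
  intro s hs ll hl r hr hr1 w hw x hx
  have hs0 : 0 ≤ s := by linarith
  have hcorr : D.corr s 0 (1 + r) x w = s * D.bb (1 + r) w := by
    unfold GT.corr
    rw [C10_bb0]
    ring
  have u1 := hupp s (by linarith) ll hl 0 (1 + r) (by linarith) (by linarith) x (C10_XR hp hx) w
    (C10_XM hp hw)
  rw [hcorr, C10_qr h, C10_jr1 h] at u1
  obtain ⟨v, hv, v', hv', b1, b2⟩ := hlow s (by linarith) ll hl 0 (1 + r) (by linarith) (by linarith) x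
    (C10_XR hp hx) w (C10_XM hp hw)
  rw [hcorr, C10_qr h, C10_jr1 h] at b1 b2
  change (D.InJ (v' - v) ∨ s * (D.j 0 x (D.q 0 + v) + D.Us + D.j r (D.q r + v') w) +
    s * D.bb (1 + r) w + L.fl s 0 (1 + r) ≤ (D0 D).Q ll s r x w + ε * s) at b1
  change s * (D.j 0 x (D.q 0 + v) + D.j r (D.q r + v') w) +
    s * D.bb (1 + r) w + L.fl s 0 (1 + r) ≤ (D0 D).Q ll s r x w + ε * s at b2
  change (D0 D).Q ll s r x w ≤ _ at u1
  refine ⟨u1, ?_⟩
  have n1 := mul_nonneg hs0 (j_nonneg h.toOk0 0 x (D.q 0 + v))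
  have hMη : 0 ≤ s * (2 * D.MF * p.η1) :=
    mul_nonneg hs0 (mul_nonneg (mul_nonneg (by norm_num) (C10_MF h)) hp.η1_pos.le)
  by_cases hJ' : D.InJ v'
  · rw [C10_jl h r w (D.q r) hJ'] at b1 b2
    by_cases hJ : D.InJ v
    · rw [C10_jr h 0 x (D.q 0) hJ] at b2
      left
      linarith
    · right
      rcases b1 with b1 | b1
      · exact absurd (C10_InJ_sub b1 hJ') hJ
      · have e1 : p.e / 2 ≤ D.Us := by
          have := hp.e_le
          have := hp.e_pos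
          linarith
        have e2 := mul_le_mul_of_nonneg_left e1 hs0
        simp only [mul_add, mul_sub] at *
        linarith
  · right
    have k1 := no0 h hp (C10_Mg hp hw) hv' hJ'
    have k2 := mul_le_mul_of_nonneg_left k1 hs0
    by_cases hJ : D.InJ v
    · rcases b1 with b1 | b1
      · exact absurd (C10_InJ_sub' b1 hJ) hJ'
      · simp only [mul_add, mul_sub] at *
        linarith
    · have k3 := mul_le_mul_of_nonneg_left (C10_U1 h hx hv hJ) hs0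
      simp only [mul_add, mul_sub] at *
      linarith

omit [FiniteDimensional ℝ E] in
theorem C10_om (hp : POk D p) : 64 * (2 * D.MF * p.η1) ≤ p.e / 2 := by
  have h1 := hp.om_le
  have h2 := hp.κ_le
  have h3 := hp.κ_pos
  linarith

theorem lr0 (h : D.Ok) (hp : POk D p) (m : ℝ) (L : LP) : ∃ s0 : ℝ, 1 ≤ s0 ∧ ∀ s, s0 ≤ s → ∀ ll,
    FT D m L ll → ∀ x' ∈ (D0 D).R p, ∀ x'' ∈ (D0 D).R p, ∀ x, Metric.infDist x (D.Z 0) = p.η1 →
    (D0 D).k1 ll s x' (D.q 0) + (D0 D).k1 ll s (D.q 0) x'' + 1 ≤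
      (D0 D).k1 ll s x' x + (D0 D).k1 ll s x x'' := by
  obtain ⟨e2, he2, hsh⟩ := shell h.toOk0 hp.η1_pos
  obtain ⟨ε, s1, hε, hs1, hs1'⟩ := C10_const (half_pos hp.e_pos) he2 (C10_om hp)
  obtain ⟨s2, hs2, hk⟩ := C10_k1 h hp m L hε
  refine ⟨s1 + s2, by linarith, ?_⟩
  intro s hs ll hl x' hx' x'' hx'' x hx
  have hs0 : 0 ≤ s := by linarith
  have hεs : 0 ≤ ε * s := mul_nonneg hε.le hs0
  obtain ⟨c1, c2⟩ := hs1' s (by linarith)
  have hxR : x ∈ (D0 D).R p := le_of_eq hx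
  have hqR := C10_qR h hp
  have hjq := j_Z h.toOk0 0 (C10_qZ h 0) (C10_qZ h 0)
  have hMη : 0 ≤ s * (2 * D.MF * p.η1) :=
    mul_nonneg hs0 (mul_nonneg (mul_nonneg (by norm_num) (C10_MF h)) hp.η1_pos.le)
  have e1 : p.e / 2 ≤ D.Us := by
    have := hp.e_le
    have := hp.e_pos
    linarith
  have e1' := mul_le_mul_of_nonneg_left e1 hs0
  have sh := hsh 0 x hx.ge
  have sh1 := mul_le_mul_of_nonneg_left sh.1 hs0
  have sh2 := mul_le_mul_of_nonneg_left sh.2 hs0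
  have he2s : 0 ≤ s * e2 := mul_nonneg hs0 he2.le
  have near1 := mul_le_mul_of_nonneg_left
    (near h.toOk0 0 (show Metric.infDist x' (D.Z 0) ≤ p.η1 from hx')).1 hs0
  have near2 := mul_le_mul_of_nonneg_left
    (near h.toOk0 0 (show Metric.infDist x'' (D.Z 0) ≤ p.η1 from hx'')).2 hs0
  have u1 := (hk s (by linarith) ll hl x' hx' (D.q 0) hqR).1
  have u2 := (hk s (by linarith) ll hl (D.q 0) hqR x'' hx'').1
  rw [hjq] at u1 u2
  obtain ⟨-, g1, b1⟩ := hk s (by linarith) ll hl x' hx' x hxR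
  obtain ⟨-, g2, b2⟩ := hk s (by linarith) ll hl x hxR x'' hx''
  rcases b1 with b1 | b1
  · rcases b2 with b2 | b2
    · simp only [mul_add, mul_sub] at *
      linarith
    · have n1 := mul_nonneg hs0 (j_nonneg h.toOk0 0 x' (D.q 0))
      have n2 := mul_nonneg hs0 (j_nonneg h.toOk0 0 (D.q 0) x)
      simp only [mul_add, mul_sub] at *
      linarith
  · simp only [mul_add, mul_sub] at *
    linarith

theorem lr1 (h : D.Ok) (hp : POk D p) (m : ℝ) (L : LP) : ∃ s0 : ℝ, 1 ≤ s0 ∧ ∀ s, s0 ≤ s → ∀ ll,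
    FT D m L ll → ∀ r, 0 ≤ r → r ≤ 1 → ∀ w ∈ Md D p r, ∀ x'' ∈ (D0 D).R p, ∀ x,
    Metric.infDist x (D.Z 0) = p.η1 →
    (D0 D).P ll s r w (D.q 0) + (D0 D).k1 ll s (D.q 0) x'' + 1 ≤
      (D0 D).P ll s r w x + (D0 D).k1 ll s x x'' := by
  obtain ⟨e2, he2, hsh⟩ := shell h.toOk0 hp.η1_pos
  obtain ⟨ε, s1, hε, hs1, hs1'⟩ := C10_const (half_pos hp.e_pos) he2 (C10_om hp)
  obtain ⟨s2, hs2, hk⟩ := C10_k1 h hp m L hε
  obtain ⟨s3, hs3, hP⟩ := C10_P h hp m L hε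
  refine ⟨s1 + s2 + s3, by linarith, ?_⟩
  intro s hs ll hl r hr hr1 w hw x'' hx'' x hx
  have hs0 : 0 ≤ s := by linarith
  have hεs : 0 ≤ ε * s := mul_nonneg hε.le hs0
  obtain ⟨c1, c2⟩ := hs1' s (by linarith)
  have hxR : x ∈ (D0 D).R p := le_of_eq hx
  have hqR := C10_qR h hp
  have hjq := j_Z h.toOk0 0 (C10_qZ h 0) (C10_qZ h 0)
  have hMη : 0 ≤ s * (2 * D.MF * p.η1) :=
    mul_nonneg hs0 (mul_nonneg (mul_nonneg (by norm_num) (C10_MF h)) hp.η1_pos.le)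
  have e1 : p.e / 2 ≤ D.Us := by
    have := hp.e_le
    have := hp.e_pos
    linarith
  have e1' := mul_le_mul_of_nonneg_left e1 hs0
  have sh := hsh 0 x hx.ge
  have sh1 := mul_le_mul_of_nonneg_left sh.1 hs0
  have sh2 := mul_le_mul_of_nonneg_left sh.2 hs0
  have he2s : 0 ≤ s * e2 := mul_nonneg hs0 he2.le
  have near2 := mul_le_mul_of_nonneg_left
    (near h.toOk0 0 (show Metric.infDist x'' (D.Z 0) ≤ p.η1 from hx'')).2 hs0
  have u1 := (hP s (by linarith) ll hl r hr hr1 w hw (D.q 0) hqR).1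
  have u2 := (hk s (by linarith) ll hl (D.q 0) hqR x'' hx'').1
  rw [hjq] at u1 u2
  obtain ⟨-, b1⟩ := hP s (by linarith) ll hl r hr hr1 w hw x hxR
  obtain ⟨-, g2, b2⟩ := hk s (by linarith) ll hl x hxR x'' hx''
  rcases b1 with b1 | b1
  · rcases b2 with b2 | b2
    · simp only [mul_add, mul_sub] at *
      linarith
    · have n2 := mul_nonneg hs0 (j_nonneg h.toOk0 0 (D.q 0) x)
      simp only [mul_add, mul_sub] at *
      linarith
  · simp only [mul_add, mul_sub] at *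
    linarith

theorem lr2 (h : D.Ok) (hp : POk D p) (m : ℝ) (L : LP) : ∃ s0 : ℝ, 1 ≤ s0 ∧ ∀ s, s0 ≤ s → ∀ ll,
    FT D m L ll → ∀ r, 0 ≤ r → r ≤ 1 → ∀ w ∈ Md D p r, ∀ x' ∈ (D0 D).R p, ∀ x,
    Metric.infDist x (D.Z 0) = p.η1 →
    (D0 D).k1 ll s x' (D.q 0) + (D0 D).Q ll s r (D.q 0) w + 1 ≤
      (D0 D).k1 ll s x' x + (D0 D).Q ll s r x w := by
  obtain ⟨e2, he2, hsh⟩ := shell h.toOk0 hp.η1_pos
  obtain ⟨ε, s1, hε, hs1, hs1'⟩ := C10_const (half_pos hp.e_pos) he2 (C10_om hp)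
  obtain ⟨s2, hs2, hk⟩ := C10_k1 h hp m L hε
  obtain ⟨s3, hs3, hQ⟩ := C10_Q h hp m L hε
  refine ⟨s1 + s2 + s3, by linarith, ?_⟩
  intro s hs ll hl r hr hr1 w hw x' hx' x hx
  have hs0 : 0 ≤ s := by linarith
  have hεs : 0 ≤ ε * s := mul_nonneg hε.le hs0
  obtain ⟨c1, c2⟩ := hs1' s (by linarith)
  have hxR : x ∈ (D0 D).R p := le_of_eq hx
  have hqR := C10_qR h hp
  have hjq := j_Z h.toOk0 0 (C10_qZ h 0) (C10_qZ h 0)
  have hMη : 0 ≤ s * (2 * D.MF * p.η1) :=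
    mul_nonneg hs0 (mul_nonneg (mul_nonneg (by norm_num) (C10_MF h)) hp.η1_pos.le)
  have e1 : p.e / 2 ≤ D.Us := by
    have := hp.e_le
    have := hp.e_pos
    linarith
  have e1' := mul_le_mul_of_nonneg_left e1 hs0
  have sh := hsh 0 x hx.ge
  have sh1 := mul_le_mul_of_nonneg_left sh.1 hs0
  have sh2 := mul_le_mul_of_nonneg_left sh.2 hs0
  have he2s : 0 ≤ s * e2 := mul_nonneg hs0 he2.le
  have near1 := mul_le_mul_of_nonneg_left
    (near h.toOk0 0 (show Metric.infDist x' (D.Z 0) ≤ p.η1 from hx')).1 hs0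
  have u1 := (hk s (by linarith) ll hl x' hx' (D.q 0) hqR).1
  have u2 := (hQ s (by linarith) ll hl r hr hr1 w hw (D.q 0) hqR).1
  rw [hjq] at u1 u2
  obtain ⟨-, g1, b1⟩ := hk s (by linarith) ll hl x' hx' x hxR
  obtain ⟨-, b2⟩ := hQ s (by linarith) ll hl r hr hr1 w hw x hxR
  rcases b2 with b2 | b2
  · rcases b1 with b1 | b1
    · simp only [mul_add, mul_sub] at *
      linarith
    · have n2 := mul_nonneg hs0 (j_nonneg h.toOk0 0 x (D.q 0))
      simp only [mul_add, mul_sub] at *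
      linarith
  · simp only [mul_add, mul_sub] at *
    linarith

end EscT
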