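import Pool.Agent.EscT.TDefs
import Pool.Agent.EscT.C1
import Pool.Agent.EscT.C2
import Pool.Agent.EscT.C5
import Pool.Agent.EscT.C6b
import Pool.Agent.EscT.C7b
import Pool.Agent.EscT.C8

/-!
Project EscT (MP_6acca1_an), module C9: where minimizers do not go.
-/

noncomputable section

namespace EscT

open MeasureTheory Set Filter Topology Esc EscF EscG
open scoped ContDiff

variable {ι : Type} [Fintype ι] {d : ℕ} {E : Type*} [NormedAddCommGroup E] [InnerProductSpace ℝ E]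
  [FiniteDimensional ℝ E] {D : GT ι d E} {p : GP} {m M Mf : ℝ} {L : LP} {ll l : E → E → ℝ → ℝ}
  {f f' : E → ℝ → ℝ}

namespace C9

theorem big {δ : ℝ} (hδ : 0 < δ) (K : ℝ) : ∃ s0 : ℝ, 1 ≤ s0 ∧ ∀ s, s0 ≤ s → K < δ * s := by
  refine ⟨max 1 (K / δ + 1), le_max_left _ _, fun s hs => ?_⟩
  have h1 : K / δ + 1 ≤ s := (le_max_right _ _).trans hs
  have h2 : K / δ < s := by linarith
  rw [div_lt_iff₀ hδ] at h2
  linarith [mul_comm s δ]

omit [FiniteDimensional ℝ E] in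
theorem lv0 (b : Fin d → E) : lv b 0 = 0 := by
  simp [lv]

omit [FiniteDimensional ℝ E] in
theorem lv_add (b : Fin d → E) (n n' : Fin d → ℤ) : lv b (n + n') = lv b n + lv b n' := by
  simp [lv, add_smul, Finset.sum_add_distrib]

omit [FiniteDimensional ℝ E] in
theorem lv_neg (b : Fin d → E) (n : Fin d → ℤ) : lv b (-n) = -lv b n := by
  simp [lv]

omit [FiniteDimensional ℝ E] in
theorem InJ_zero : D.InJ 0 := ⟨0, (lv0 D.b).symm⟩

omit [FiniteDimensional ℝ E] in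
theorem InJ_add {v w : E} (hv : D.InJ v) (hw : D.InJ w) : D.InJ (v + w) := by
  obtain ⟨n, rfl⟩ := hv
  obtain ⟨n', rfl⟩ := hw
  exact ⟨n + n', (lv_add _ _ _).symm⟩

omit [FiniteDimensional ℝ E] in
theorem InJ_neg {v : E} (hv : D.InJ v) : D.InJ (-v) := by
  obtain ⟨n, rfl⟩ := hv
  exact ⟨-n, (lv_neg _ _).symm⟩

omit [FiniteDimensional ℝ E] in
theorem InJ_of_sub {v w : E} (hv : D.InJ v) (hw : D.InJ (w - v)) : D.InJ w := by
  have := InJ_add hv hw
  rwa [add_sub_cancel] at this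

omit [FiniteDimensional ℝ E] in
theorem InJ_of_sub' {v w : E} (hw : D.InJ w) (h : D.InJ (w - v)) : D.InJ v := by
  have := InJ_add hw (InJ_neg h)
  rwa [neg_sub, add_sub_cancel] at this

omit [FiniteDimensional ℝ E] in
theorem X_mono {ρ ρ' : ℝ} (h : ρ ≤ ρ') {x : E} (hx : x ∈ D.X ρ) : x ∈ D.X ρ' := by
  obtain ⟨n, hn⟩ := hx
  exact ⟨n, hn.trans h⟩

omit [FiniteDimensional ℝ E] in
theorem qZ (h : D.Ok) (t : ℝ) : D.q t ∈ D.Z t := (h.fr0 t).q0_mem

omit [FiniteDimensional ℝ E] in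
theorem q_int (h : D.Ok) (t : ℝ) (k : ℕ) : D.q (t + k) = D.q t := by
  induction k with
  | zero => simp
  | succ k ih =>
    push_cast
    rw [← add_assoc, h.q_per, ih]

omit [FiniteDimensional ℝ E] in
theorem Z_int (h : D.Ok) (t : ℝ) (k : ℕ) : D.Z (t + k) = D.Z t := by
  induction k with
  | zero => simp
  | succ k ih =>
    push_cast
    rw [← add_assoc, h.Z_per, ih]

omit [FiniteDimensional ℝ E] in
theorem R_Z (h : D.Ok) {x : E} (hx : x ∈ (D0 D).R p) (k : ℕ) :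
    Metric.infDist x (D.Z (k : ℝ)) ≤ p.η1 := by
  have h1 : Metric.infDist x (D.Z 0) ≤ p.η1 := hx
  have h2 := Z_int h 0 k
  rw [zero_add] at h2
  rw [h2]
  exact h1

omit [FiniteDimensional ℝ E] in
theorem R_X (hp : POk D p) {x : E} (hx : x ∈ (D0 D).R p) : x ∈ D.X p.ρ := by
  have h1 : x ∈ D.Rm 0 p.ηc := by
    show Metric.infDist x (D.Z 0) ≤ p.ηc
    have h2 : Metric.infDist x (D.Z 0) ≤ p.η1 := hx
    have := hp.η1_le
    have := hp.η1_pos
    linarith
  have h3 := hp.bnd 0 x (Or.inl h1) 0 (by norm_num)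
  simpa using h3

omit [FiniteDimensional ℝ E] in
theorem Md_Mg (hp : POk D p) {t : ℝ} {w : E} (hw : w ∈ Md D p t) :
    w ∈ D.Mg t (p.ηc / 2) (2 * p.κ) := by
  obtain ⟨⟨h1, h2⟩, -⟩ := hw
  have hηc := hp.ηc_pos
  have hκ := hp.κ_pos
  refine ⟨fun v hv => ?_, ?_⟩
  · have := h1 v hv
    linarith
  · linarith

omit [FiniteDimensional ℝ E] in
theorem Md_X (hp : POk D p) {t : ℝ} {w : E} (hw : w ∈ Md D p t) : w ∈ D.X p.ρ := by
  have h3 := hp.bnd t w (Or.inr (Md_Mg hp hw)) 0 (by norm_num)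
  simpa using h3

omit [FiniteDimensional ℝ E] in
theorem Md_X' (hp : POk D p) {t : ℝ} {w : E} (hw : w ∈ Md D p t) : w - D.g ∈ D.X p.ρ := by
  have h3 := hp.bnd t w (Or.inr (Md_Mg hp hw)) (-1) (by norm_num)
  have e1 : w + (((-1 : ℤ) : ℤ) : ℝ) • D.g = w - D.g := by
    push_cast
    rw [neg_smul, one_smul, sub_eq_add_neg]
  rwa [e1] at h3

/-- shifts -/
theorem j_sub_l (h : D.Ok) {v : E} (hv : v ∈ D.Lam) (t : ℝ) (x y : E) :
    D.j t (x - v) y = D.j t x (y + v) := by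
  have := j_Lam h.toOk0 hv t (x - v) y
  rw [sub_add_cancel] at this
  exact this.symm

theorem j_sub_r (h : D.Ok) {v : E} (hv : v ∈ D.Lam) (t : ℝ) (x y : E) :
    D.j t x (y - v) = D.j t (x + v) y := by
  have := j_Lam h.toOk0 hv t x (y - v)
  rw [sub_add_cancel] at this
  exact this.symm

theorem j_Jr (h : D.Ok) {v : E} (hv : D.InJ v) (t : ℝ) (x y : E) : D.j t x (y + v) = D.j t x y := by
  obtain ⟨n, rfl⟩ := hv
  have := j_J h.toOk0 t x y 0 n
  rwa [lv0, add_zero] at this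

theorem j_Jl (h : D.Ok) {v : E} (hv : D.InJ v) (t : ℝ) (x y : E) : D.j t (x + v) y = D.j t x y := by
  obtain ⟨n, rfl⟩ := hv
  have := j_J h.toOk0 t x y n 0
  rwa [lv0, add_zero] at this

/-- the passage between different rooms -/
theorem Us_le2 (h : D.Ok) (t : ℝ) {v v' : E} (hv : v ∈ D.Lam) (hv' : v' ∈ D.Lam)
    (hJ : ¬ D.InJ (v' - v)) : D.Us ≤ D.j t (D.q t + v) (D.q t + v') := by
  have h1 := Us_le h t (D.Lam.sub_mem hv' hv) hJ
  have h2 := j_Lam h.toOk0 hv t (D.q t) (D.q t + (v' - v))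
  rw [add_assoc, sub_add_cancel] at h2
  rw [h2]
  exact h1

/-- the passage through a point outside of all rooms -/
theorem mid (h : D.Ok) (hp : POk D p) {t : ℝ} {c : E} (hc : c ∈ D.Out t (p.ηc / 2)) {v u : E}
    (hv : v ∈ D.Lam) (hu : u ∈ D.Lam) :
    p.e ≤ D.j t (D.q t + v) c + D.j t c (D.q t + u) ∧
      (¬ D.InJ (u - v) → D.Us ≤ D.j t (D.q t + v) c + D.j t c (D.q t + u)) := by
  have hU : ¬ D.InJ (u - v) → D.Us ≤ D.j t (D.q t + v) c + D.j t c (D.q t + u) := fun hJ =>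
    (Us_le2 h t hv hu hJ).trans (j_tri h.toOk0 _ _ _ _)
  refine ⟨?_, hU⟩
  by_cases hJ : D.InJ (u - v)
  · have h1 : D.j t c (D.q t + u) = D.j t c (D.q t + v) := by
      have := j_Jr h hJ t c (D.q t + v)
      rw [add_assoc, add_sub_cancel] at this
      exact this
    rw [h1]
    have h2 := hc (-v) (D.Lam.neg_mem hv)
    have h3 := hp.rt t (c + -v) (by linarith [hp.ηc_pos])
    rw [← sub_eq_add_neg] at h3
    rw [j_sub_r h hv, j_sub_l h hv] at h3
    exact h3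
  · have := hU hJ
    have := hp.e_le
    have := hp.e_pos
    linarith

/-! coercivity -/

omit [FiniteDimensional ℝ E] in
theorem X_norm {ρ : ℝ} {x : E} (hx : ‖x‖ ≤ ρ) : x ∈ D.X ρ := ⟨0, by rw [lv0, add_zero]; exact hx⟩

omit [FiniteDimensional ℝ E] in
theorem X_add {ρ ρ' : ℝ} {x y : E} (hx : x ∈ D.X ρ) (hy : y ∈ D.X ρ') : x + y ∈ D.X (ρ + ρ') := by
  obtain ⟨n, hn⟩ := hx
  obtain ⟨n', hn'⟩ := hy
  refine ⟨n + n', ?_⟩
  rw [lv_add]
  have e1 : x + y + (lv D.b n + lv D.b n') = (x + lv D.b n) + (y + lv D.b n') := by abel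
  rw [e1]
  exact (norm_add_le _ _).trans (add_le_add hn hn')

omit [FiniteDimensional ℝ E] in
theorem X_neg {ρ : ℝ} {x : E} (hx : x ∈ D.X ρ) : -x ∈ D.X ρ := by
  obtain ⟨n, hn⟩ := hx
  refine ⟨-n, ?_⟩
  rw [lv_neg, ← neg_add, norm_neg]
  exact hn

omit [FiniteDimensional ℝ E] in
theorem MF_pos (h : D.Ok0) : 0 < D.MF := by
  have h1 := (h.fr0 0).fins.mF_pos
  have h2 := (h.fr0 0).fins.mF_le
  exact h1.trans_le h2

omit [FiniteDimensional ℝ E] in
theorem exists_q (h : D.Ok0) : ∃ ρ : ℝ, ∀ t, D.q t ∈ D.X ρ := by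
  obtain ⟨ρ, hρ⟩ := h.Z_X
  exact ⟨ρ, fun t => hρ t (h.fr0 t).q0_mem⟩

theorem j_X (h : D.Ok0) {ρ ρ' : ℝ} (t : ℝ) {x y : E} (hx : x ∈ D.X ρ) (hy : y ∈ D.X ρ') :
    D.j t x y ≤ 2 * D.MF * (ρ + ρ') := by
  obtain ⟨n, hn⟩ := hx
  obtain ⟨n', hn'⟩ := hy
  rw [← j_J h t x y n n']
  refine (j_lip h t _ _).trans (mul_le_mul_of_nonneg_left ?_ (by linarith [MF_pos h]))
  have := norm_sub_le (y + lv D.b n') (x + lv D.b n)
  linarith

omit [FiniteDimensional ℝ E] in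
theorem exists_fr (D : GT ι d E) : ∃ C : ℝ, ∀ x : E, ∃ v ∈ D.Lam, ‖x - v‖ ≤ C :=
  ⟨∑ i, ‖D.β i‖, fun x => ⟨(ZSpan.floor D.β x : E), (ZSpan.floor D.β x).2, ZSpan.norm_fract_le D.β x⟩⟩

theorem coer1 (h : D.Ok0) (ρ C : ℝ) : ∃ ρ' : ℝ, ∀ t, ∀ x ∈ D.X ρ, ∀ y, D.j t x y ≤ C → y ∈ D.X ρ' := by
  obtain ⟨ρq, hq⟩ := exists_q h
  obtain ⟨ρ', hρ'⟩ := coer h (2 * D.MF * (ρq + ρ) + C)
  refine ⟨ρ', fun t x hx y hy => hρ' t y ?_⟩
  have h1 := j_tri h t (D.q t) x y
  have h2 := j_X h t (hq t) hx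
  linarith

theorem coer2 (h : D.Ok0) (ρ C : ℝ) : ∃ ρ' : ℝ, ∀ t, ∀ y ∈ D.X ρ, ∀ x, D.j t x y ≤ C → x ∈ D.X ρ' := by
  obtain ⟨ρq, hq⟩ := exists_q h
  obtain ⟨Cβ, hC⟩ := exists_fr D
  obtain ⟨ρ1, hρ1⟩ := coer h (2 * D.MF * (ρq + Cβ) + C)
  refine ⟨Cβ + (ρ + ρ1), fun t y hy x hxy => ?_⟩
  obtain ⟨v, hv, hvx⟩ := hC x
  have h0 : x - v ∈ D.X Cβ := X_norm hvx
  have h1 := j_tri h t (D.q t) (x - v) (y - v)
  have h2 := j_X h t (hq t) h0
  have h3 : D.j t (x - v) (y - v) = D.j t x y := by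
    have := j_Lam h hv t (x - v) (y - v)
    rw [sub_add_cancel, sub_add_cancel] at this
    exact this.symm
  have h4 : y - v ∈ D.X ρ1 := hρ1 t _ (by linarith)
  have h5 := X_add h0 (X_add hy (X_neg h4))
  have e1 : x - v + (y + -(y - v)) = x := by abel
  rwa [e1] at h5

/-- continuity in time of bounded passing costs -/
theorem jc (h : D.Ok0) (ρ C : ℝ) {ε : ℝ} (hε : 0 < ε) : ∃ δ : ℝ, 0 < δ ∧ ∀ t t', |t - t'| ≤ δ →
    (∀ x ∈ D.X ρ, ∀ y, D.j t x y ≤ C → |D.j t x y - D.j t' x y| ≤ ε) ∧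
    (∀ y ∈ D.X ρ, ∀ x, D.j t x y ≤ C → |D.j t x y - D.j t' x y| ≤ ε) ∧
    (∀ y, D.j t (D.q t) y ≤ C → |D.j t (D.q t) y - D.j t' (D.q t') y| ≤ ε) ∧
    ∀ x, D.j t x (D.q t) ≤ C → |D.j t x (D.q t) - D.j t' x (D.q t')| ≤ ε := by
  obtain ⟨ρq, hq⟩ := exists_q h
  obtain ⟨ρ1, h1⟩ := coer1 h ρ C
  obtain ⟨ρ2, h2⟩ := coer2 h ρ C
  obtain ⟨ρ3, h3⟩ := coer1 h ρq C
  obtain ⟨ρ4, h4⟩ := coer2 h ρq C
  set P := max ρ (max (max ρ1 ρ2) (max ρ3 ρ4)) with hP
  have a0 : ρ ≤ P := le_max_left _ _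
  have a1 : ρ1 ≤ P := (le_max_left _ _).trans ((le_max_left _ _).trans (le_max_right _ _))
  have a2 : ρ2 ≤ P := (le_max_right _ _).trans ((le_max_left _ _).trans (le_max_right _ _))
  have a3 : ρ3 ≤ P := (le_max_left _ _).trans ((le_max_right _ _).trans (le_max_right _ _))
  have a4 : ρ4 ≤ P := (le_max_right _ _).trans ((le_max_right _ _).trans (le_max_right _ _))
  obtain ⟨δ, hδ, hj⟩ := j_cont h P hε
  refine ⟨δ, hδ, fun t t' htt => ⟨?_, ?_, ?_, ?_⟩⟩
  · intro x hx y hy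
    exact (hj t t' htt).1 x (X_mono a0 hx) y (X_mono a1 (h1 t x hx y hy))
  · intro y hy x hx
    exact (hj t t' htt).1 x (X_mono a2 (h2 t y hy x hx)) y (X_mono a0 hy)
  · intro y hy
    exact (hj t t' htt).2.1 y (X_mono a3 (h3 t _ (hq t) y hy))
  · intro x hx
    exact (hj t t' htt).2.2 x (X_mono a4 (h4 t _ (hq t) x hx))

omit [FiniteDimensional ℝ E] in
theorem mul_bd {s a b ε C : ℝ} (hs : 0 < s) (h : s * a + b ≤ C * s + ε * s + b) : a ≤ C + ε := by
  have h1 : s * a ≤ s * (C + ε) := by linarith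
  exact le_of_mul_le_mul_left h1 hs

/-- the first leg -/
theorem legA (h : D.Ok) (hp : POk D p) (m : ℝ) (L : LP) (C : ℝ) {ε : ℝ} (hε : 0 < ε) :
    ∃ s0 : ℝ, 1 ≤ s0 ∧ ∀ s, s0 ≤ s → ∀ ll, FT D m L ll → ∀ x ∈ (D0 D).R p, ∀ t, 0 < t → t ≤ 4 → ∀ c,
    (D0 D).kk ll s 0 t x c ≤ D.corr s 0 t x c + L.fl s 0 t + C * s →
    ∃ v ∈ D.Lam, (D.InJ v ∨ s * (D.j t (D.q t + v) c + D.Us) + D.corr s 0 t x c + L.fl s 0 t ≤
        (D0 D).kk ll s 0 t x c + (2 * D.MF * p.η1 + ε) * s) ∧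
      s * D.j t (D.q t + v) c + D.corr s 0 t x c + L.fl s 0 t ≤
        (D0 D).kk ll s 0 t x c + (2 * D.MF * p.η1 + ε) * s := by
  obtain ⟨δ, hδ, hjc⟩ := jc h.toOk0 p.ρ (C + 1 + 2 * D.MF * p.η1) (half_pos hε)
  have hε' : 0 < min (min δ (ε / 2)) 1 := lt_min (lt_min hδ (half_pos hε)) one_pos
  obtain ⟨s0, hs0, hlow⟩ := low h m L C hε'
  set ε' := min (min δ (ε / 2)) 1 with hε'def
  have b1 : ε' ≤ δ := (min_le_left _ _).trans (min_le_left _ _)
  have b2 : ε' ≤ ε / 2 := (min_le_left _ _).trans (min_le_right _ _)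
  have b3 : ε' ≤ 1 := min_le_right _ _
  refine ⟨s0, hs0, fun s hs ll hl x hx t ht ht4 c hk => ?_⟩
  have hs1 : 1 ≤ s := hs0.trans hs
  have hsp : 0 < s := by linarith
  have hn := near h.toOk0 0 (x := x) (η := p.η1) hx
  rcases hlow s hs ll hl 0 t ht (by linarith) x c hk with ⟨h1, h2⟩ | ⟨v, hv, v', hv', h1, h2⟩
  · -- short
    have c1 : D.j 0 x c ≤ C + 1 := by
      refine (mul_bd (b := D.corr s 0 t x c + L.fl s 0 t) (C := C) (ε := ε') hsp ?_).trans (by linarith)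
      linarith
    have c2 := j_tri h.toOk0 0 (D.q 0) x c
    have c3 := (hjc 0 t (by rw [zero_sub, abs_neg, abs_of_pos ht]; linarith)).2.2.1 c (by linarith [hn.2])
    rw [abs_le] at c3
    refine ⟨0, D.Lam.zero_mem, Or.inl InJ_zero, ?_⟩
    rw [add_zero]
    have c4 : D.j t (D.q t) c ≤ D.j 0 x c + (2 * D.MF * p.η1 + ε / 2) := by linarith [hn.2]
    have c5 := mul_le_mul_of_nonneg_left c4 hsp.le
    have c6 := mul_le_mul_of_nonneg_right b2 hsp.le
    linarith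
  · have b4 := mul_le_mul_of_nonneg_right b2 hsp.le
    have b5 : ε / 2 * s ≤ ε * s := mul_le_mul_of_nonneg_right (by linarith) hsp.le
    have b6 : 0 ≤ 2 * D.MF * p.η1 * s := by
      have := MF_pos h.toOk0
      have := hp.η1_pos
      positivity
    have c1 := j_nonneg h.toOk0 0 x (D.q 0 + v)
    refine ⟨v', hv', ?_, ?_⟩
    · by_cases hJ : D.InJ v
      · rcases h1 with h1 | h1
        · exact Or.inl (InJ_of_sub hJ h1)
        · right
          have c2 := mul_nonneg hsp.le c1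
          linarith
      · right
        have c2 := Us_le h 0 hv hJ
        have c3 := j_tri h.toOk0 0 (D.q 0) x (D.q 0 + v)
        have c4 : D.Us - 2 * D.MF * p.η1 ≤ D.j 0 x (D.q 0 + v) := by linarith [hn.2]
        have c5 := mul_le_mul_of_nonneg_left c4 hsp.le
        linarith
    · have c2 := mul_nonneg hsp.le c1
      linarith

/-- the last leg -/
theorem legB (h : D.Ok) (hp : POk D p) (m : ℝ) (L : LP) (C : ℝ) {ε : ℝ} (hε : 0 < ε) :
    ∃ s0 : ℝ, 1 ≤ s0 ∧ ∀ s, s0 ≤ s → ∀ ll, FT D m L ll → ∀ x ∈ (D0 D).R p, ∀ (N : ℕ) (t : ℝ), t < N →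
    (N : ℝ) ≤ t + 4 →
    ∀ c, (D0 D).kk ll s t N c x ≤ D.corr s t N c x + L.fl s t N + C * s →
    ∃ v ∈ D.Lam, (D.InJ v ∨ s * (D.j t c (D.q t + v) + D.Us) + D.corr s t N c x + L.fl s t N ≤
        (D0 D).kk ll s t N c x + (2 * D.MF * p.η1 + ε) * s) ∧
      s * D.j t c (D.q t + v) + D.corr s t N c x + L.fl s t N ≤
        (D0 D).kk ll s t N c x + (2 * D.MF * p.η1 + ε) * s := by
  obtain ⟨δ, hδ, hjc⟩ := jc h.toOk0 p.ρ (C + 1 + 2 * D.MF * p.η1 + ε / 4) (show 0 < ε / 4 by linarith)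
  have hε' : 0 < min (min δ (ε / 2)) 1 := lt_min (lt_min hδ (half_pos hε)) one_pos
  obtain ⟨s0, hs0, hlow⟩ := low h m L C hε'
  set ε' := min (min δ (ε / 2)) 1 with hε'def
  have b1 : ε' ≤ δ := (min_le_left _ _).trans (min_le_left _ _)
  have b2 : ε' ≤ ε / 2 := (min_le_left _ _).trans (min_le_right _ _)
  have b3 : ε' ≤ 1 := min_le_right _ _
  refine ⟨s0, hs0, fun s hs ll hl x hx N t ht ht4 c hk => ?_⟩
  have hs1 : 1 ≤ s := hs0.trans hs
  have hsp : 0 < s := by linarith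
  have hn := near h.toOk0 N (x := x) (η := p.η1) (R_Z h hx N)
  have hη : 0 ≤ 2 * D.MF * p.η1 := by
    have := MF_pos h.toOk0
    have := hp.η1_pos
    positivity
  rcases hlow s hs ll hl t N ht ht4 c x hk with ⟨h1, h2⟩ | ⟨v, hv, v', hv', h1, h2⟩
  · -- short
    have c1 : D.j t c x ≤ C + 1 := by
      refine (mul_bd (b := D.corr s t N c x + L.fl s t N) (C := C) (ε := ε') hsp ?_).trans (by linarith)
      linarith
    have c2 := (hjc t N (by rw [abs_sub_comm, abs_of_pos (by linarith)]; linarith)).2.1 x (R_X hp hx) c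
      (by linarith)
    have c3 := j_tri h.toOk0 N c x (D.q N)
    rw [abs_le] at c2
    have c4 := (hjc N t (by rw [abs_of_pos (by linarith)]; linarith)).2.2.2 c (by linarith [hn.1])
    rw [abs_le] at c4
    refine ⟨0, D.Lam.zero_mem, Or.inl InJ_zero, ?_⟩
    rw [add_zero]
    have c5 : D.j t c (D.q t) ≤ D.j t c x + (2 * D.MF * p.η1 + ε / 2) := by linarith [hn.1]
    have c6 := mul_le_mul_of_nonneg_left c5 hsp.le
    have c7 := mul_le_mul_of_nonneg_right b2 hsp.le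
    linarith
  · have b4 := mul_le_mul_of_nonneg_right b2 hsp.le
    have b5 : ε / 2 * s ≤ ε * s := mul_le_mul_of_nonneg_right (by linarith) hsp.le
    have b6 : 0 ≤ 2 * D.MF * p.η1 * s := mul_nonneg hη hsp.le
    have c1 := j_nonneg h.toOk0 N (D.q N + v') x
    refine ⟨v, hv, ?_, ?_⟩
    · by_cases hJ : D.InJ v'
      · rcases h1 with h1 | h1
        · exact Or.inl (InJ_of_sub' hJ h1)
        · right
          have c2 := mul_nonneg hsp.le c1
          linarith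
      · right
        have c2 := Us_le2 h (N : ℝ) hv' D.Lam.zero_mem (fun hh => hJ (by
          have := InJ_neg hh
          rwa [zero_sub, neg_neg] at this))
        rw [add_zero] at c2
        have c3 := j_tri h.toOk0 N (D.q N + v') x (D.q N)
        have c4 : D.Us - 2 * D.MF * p.η1 ≤ D.j N (D.q N + v') x := by linarith [hn.1]
        have c5 := mul_le_mul_of_nonneg_left c4 hsp.le
        linarith
    · have c2 := mul_nonneg hsp.le c1
      linarith

theorem j_one (h : D.Ok) (r : ℝ) (x y : E) : D.j (1 + r) x y = D.j r x y := by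
  have := j_per h.toOk0 r 1 x y
  rw [Int.cast_one, add_comm] at this
  exact this

omit [FiniteDimensional ℝ E] in
theorem q_one (h : D.Ok) (r : ℝ) : D.q (1 + r) = D.q r := by
  rw [add_comm]
  exact h.q_per r

theorem j_two (h : D.Ok) (x y : E) : D.j 2 x y = D.j 0 x y := by
  have := j_per h.toOk0 0 2 x y
  rw [zero_add] at this
  exact_mod_cast this

omit [FiniteDimensional ℝ E] in
theorem q_two (h : D.Ok) : D.q 2 = D.q 0 := by
  have := q_int h 0 2
  rw [zero_add] at this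
  exact_mod_cast this

omit [FiniteDimensional ℝ E] in
/-- images of points outside of the rooms -/
theorem Out_sub {t η : ℝ} {v c : E} (hv : v ∈ D.Lam) (hc : c + v ∈ D.Out t η) : c ∈ D.Out t η := by
  intro v' hv'
  have := hc (-v + v') (D.Lam.add_mem (D.Lam.neg_mem hv) hv')
  have e1 : c + v + (-v + v') = c + v' := by abel
  rwa [e1] at this

end C9

theorem v1 (h : D.Ok) (hp : POk D p) (m : ℝ) (L : LP) : ∃ s0 : ℝ, 1 ≤ s0 ∧ ∀ s, s0 ≤ s → ∀ ll,
    FT D m L ll → ∀ x ∈ (D0 D).R p, ∀ x' ∈ (D0 D).R p, ∀ t, 0 < t → t < 1 → ∀ c ∈ D.Out t (p.ηc / 2),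
    (D0 D).k1 ll s x x' + 1 < (D0 D).kk ll s 0 t x c + (D0 D).kk ll s t 1 c x' := by
  have hF := C9.MF_pos h.toOk0
  have hη := hp.η1_pos
  have hκ := hp.κ_pos
  have he := hp.e_pos
  have hom := hp.om_le
  have hκe := hp.κ_le
  set ε := p.e / 100 with hεdef
  have hε : 0 < ε := by positivity
  set τ := D.MF * p.η1 with hτ
  have hτ0 : 0 < τ := by positivity
  obtain ⟨s1, hs1, hupp⟩ := upp h m L p.ρ hε
  obtain ⟨s2, hs2, hge⟩ := kk_ge h m L hε
  obtain ⟨s3, hs3, hA⟩ := C9.legA h hp m L (4 * τ + 2 * ε + 1) hε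
  obtain ⟨s4, hs4, hB⟩ := C9.legB h hp m L (4 * τ + 2 * ε + 1) hε
  obtain ⟨s5, hs5, hbig⟩ := C9.big hε 1
  refine ⟨max s1 (max s2 (max s3 (max s4 s5))), hs1.trans (le_max_left _ _),
    fun s hs ll hl x hx x' hx' t ht ht1 c hc => ?_⟩
  have g1 : s1 ≤ s := (le_max_left _ _).trans hs
  have g2 : s2 ≤ s := (le_max_left _ _).trans ((le_max_right _ _).trans hs)
  have g3 : s3 ≤ s := (le_max_left _ _).trans ((le_max_right _ _).trans ((le_max_right _ _).trans hs))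
  have g4 : s4 ≤ s := (le_max_left _ _).trans ((le_max_right _ _).trans ((le_max_right _ _).trans
    ((le_max_right _ _).trans hs)))
  have g5 : s5 ≤ s := (le_max_right _ _).trans ((le_max_right _ _).trans ((le_max_right _ _).trans
    ((le_max_right _ _).trans hs)))
  have hs1' : 1 ≤ s := hs1.trans g1
  have hsp : 0 < s := by linarith
  by_contra hcon
  rw [not_lt] at hcon
  have u1 := hupp s g1 ll hl 0 1 (by norm_num) (by norm_num) x (C9.R_X hp hx) x' (C9.R_X hp hx')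
  have u2 := near h.toOk0 0 (x := x) (η := p.η1) hx
  have u3 := near h.toOk0 1 (x := x') (η := p.η1) (by
    have := C9.R_Z h hx' 1
    rwa [Nat.cast_one] at this)
  have hk1 : (D0 D).k1 ll s x x' = (D0 D).kk ll s 0 1 x x' := rfl
  rw [hk1] at hcon
  have l1 := hge s g2 ll hl 0 t ht (by linarith) x c
  have l2 := hge s g2 ll hl t 1 ht1 (by linarith) c x'
  have tel : D.corr s 0 t x c + D.corr s t 1 c x' = D.corr s 0 1 x x' := by
    unfold GT.corr
    ring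
  have tel2 := fl_add (L := L) hl.a_cont s 0 t 1
  have hb := hbig s g5
  have u4 : D.j 0 x (D.q 0) + D.j 1 (D.q 1) x' ≤ 4 * τ := by
    rw [hτ]
    linarith [u2.1, u3.2]
  have u5 := mul_le_mul_of_nonneg_left u4 hsp.le
  have hA' := hA s g3 ll hl x hx t ht (by linarith) c (by linarith)
  have hB' := hB s g4 ll hl x' hx' 1 t (by rw [Nat.cast_one]; exact ht1) (by rw [Nat.cast_one]; linarith) c
    (by rw [Nat.cast_one]; linarith)
  rw [Nat.cast_one] at hB'
  obtain ⟨v, hv, -, hA2⟩ := hA'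
  obtain ⟨u, hu, -, hB2⟩ := hB'
  have hm := (C9.mid h hp hc hv hu).1
  have hm2 := mul_le_mul_of_nonneg_left hm hsp.le
  have q1 : 2 * D.MF * p.η1 = 2 * τ := by rw [hτ]; ring
  rw [q1] at hA2 hB2
  have q2 : 1600 * τ ≤ p.κ := by
    rw [hτ]
    linarith
  have q3 : s * p.e ≤ (8 * τ + 5 * ε) * s := by linarith
  have q4 : p.e ≤ 8 * τ + 5 * ε := by
    rw [mul_comm] at q3
    exact le_of_mul_le_mul_right q3 hsp
  rw [hεdef] at q4
  linarith

theorem nQ (h : D.Ok) (hp : POk D p) (m : ℝ) (L : LP) : ∃ s0 : ℝ, 1 ≤ s0 ∧ ∀ s, s0 ≤ s → ∀ ll,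
    FT D m L ll → ∀ x ∈ (D0 D).R p, ∀ r, 0 ≤ r → r ≤ 1 → ∀ w ∈ Md D p r, ∀ t, 0 < t → t < 1 + r →
    ∀ c, c ∉ Nr D p t → (D0 D).Q ll s r x w + 1 < (D0 D).kk ll s 0 t x c + (D0 D).kk ll s t (1 + r) c w := by
  have hF := C9.MF_pos h.toOk0
  have hη := hp.η1_pos
  have hκ := hp.κ_pos
  have he := hp.e_pos
  have hom := hp.om_le
  have hκe := hp.κ_le
  have hUs := Us_pos h
  set ε := p.κ / 100 with hεdef
  have hε : 0 < ε := by positivity
  set τ := D.MF * p.η1 with hτ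
  have hτ0 : 0 < τ := by positivity
  have q2 : 1600 * τ ≤ p.κ := by
    rw [hτ]
    linarith
  obtain ⟨δ, hδ, hjc⟩ := C9.jc h.toOk0 p.ρ (2 * D.Us + 100 * p.κ) hε
  have hε1 : 0 < min ε δ := lt_min hε hδ
  obtain ⟨s1, hs1, hupp⟩ := upp h m L p.ρ hε
  obtain ⟨s2, hs2, hge⟩ := kk_ge h m L hε
  obtain ⟨s3, hs3, hA⟩ := C9.legA h hp m L (2 * τ + D.Us + p.κ + 3 * ε) hε
  obtain ⟨s4, hs4, hlow⟩ := low h m L (2 * τ + D.Us + p.κ + 3 * ε) hε1
  obtain ⟨s5, hs5, hbig⟩ := C9.big hε 1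
  refine ⟨max s1 (max s2 (max s3 (max s4 s5))), hs1.trans (le_max_left _ _),
    fun s hs ll hl x hx r hr0 hr1 w hw t ht ht1 c hc => ?_⟩
  have g1 : s1 ≤ s := (le_max_left _ _).trans hs
  have g2 : s2 ≤ s := (le_max_left _ _).trans ((le_max_right _ _).trans hs)
  have g3 : s3 ≤ s := (le_max_left _ _).trans ((le_max_right _ _).trans ((le_max_right _ _).trans hs))
  have g4 : s4 ≤ s := (le_max_left _ _).trans ((le_max_right _ _).trans ((le_max_right _ _).trans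
    ((le_max_right _ _).trans hs)))
  have g5 : s5 ≤ s := (le_max_right _ _).trans ((le_max_right _ _).trans ((le_max_right _ _).trans
    ((le_max_right _ _).trans hs)))
  have hs1' : 1 ≤ s := hs1.trans g1
  have hsp : 0 < s := by linarith
  by_contra hcon
  rw [not_lt] at hcon
  have hwM := C9.Md_Mg hp hw
  have u1 := hupp s g1 ll hl 0 (1 + r) (by linarith) (by linarith) x (C9.R_X hp hx) w (C9.Md_X hp hw)
  rw [C9.j_one h, C9.q_one h] at u1
  have u2 := near h.toOk0 0 (x := x) (η := p.η1) hx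
  have hQ : (D0 D).Q ll s r x w = (D0 D).kk ll s 0 (1 + r) x w := rfl
  rw [hQ] at hcon
  have hwJ := hw.1.2
  have l1 := hge s g2 ll hl 0 t ht (by linarith) x c
  have l2 := hge s g2 ll hl t (1 + r) ht1 (by linarith) c w
  have tel : D.corr s 0 t x c + D.corr s t (1 + r) c w = D.corr s 0 (1 + r) x w := by
    unfold GT.corr
    ring
  have tel2 := fl_add (L := L) hl.a_cont s 0 t (1 + r)
  have hb := hbig s g5
  have q1 : 2 * D.MF * p.η1 = 2 * τ := by rw [hτ]; ring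
  have u4 : D.j 0 x (D.q 0) + D.j r (D.q r) w ≤ 2 * τ + D.j r (D.q r) w := by
    linarith [u2.1]
  have u5 := mul_le_mul_of_nonneg_left u4 hsp.le
  have k0 := j_nonneg h.toOk0 r w (D.q r + D.g)
  have u6 : s * D.j r (D.q r) w ≤ s * (D.Us + p.κ) := mul_le_mul_of_nonneg_left (by linarith) hsp.le
  obtain ⟨v, hv, hA1, hA2⟩ := hA s g3 ll hl x hx t ht (by linarith) c (by linarith)
  have hL := hlow s g4 ll hl t (1 + r) ht1 (by linarith) c w (by linarith)
  rw [q1] at hA1 hA2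
  have m1 : min ε δ * s ≤ ε * s := mul_le_mul_of_nonneg_right (min_le_left _ _) hsp.le
  have key : ∀ a b : ℝ, s * a + D.corr s 0 t x c + L.fl s 0 t ≤ (D0 D).kk ll s 0 t x c + (2 * τ + ε) * s →
      s * b + D.corr s t (1 + r) c w + L.fl s t (1 + r) ≤ (D0 D).kk ll s t (1 + r) c w + min ε δ * s →
      a + b ≤ D.j r (D.q r) w + 4 * τ + 4 * ε := by
    intro a b ha hb'
    have : s * (a + b) ≤ s * (D.j r (D.q r) w + 4 * τ + 4 * ε) := by linarith
    exact le_of_mul_le_mul_left this hsp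
  have hcO : c ∈ D.Out t (p.ηc / 2) := by
    by_contra hh
    exact hc (Or.inl hh)
  have hcM : c ∉ D.Mg t (p.ηc / 2) (2 * p.κ) := fun hh => hc (Or.inr hh)
  rcases hL with ⟨h1, h2⟩ | ⟨u, hu, u', hu', h1, h2⟩
  · have hδt : |(1 + r) - t| ≤ δ := by
      rw [abs_of_pos (by linarith)]
      exact h1.trans (min_le_right _ _)
    by_cases hvJ : D.InJ v
    · -- the point `c` is not a gate point
      have a1 := key _ _ hA2 h2
      rw [add_comm (D.q t) v, add_comm v, C9.j_Jl h hvJ] at a1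
      have a2 : D.Us + 2 * p.κ < D.j t (D.q t) c + D.j t c (D.q t + D.g) := by
        by_contra hh
        rw [not_lt] at hh
        exact hcM ⟨hcO, hh⟩
      have a3 := j_tri h.toOk0 t c w (D.q t + D.g)
      have a4 := (hjc (1 + r) t hδt).2.2.2 (w - D.g) (by
        rw [C9.j_sub_l h h.g_mem, C9.j_one h, C9.q_one h]
        linarith [j_nonneg h.toOk0 r (D.q r) w])
      rw [C9.j_sub_l h h.g_mem, C9.j_one h, C9.q_one h, C9.j_sub_l h h.g_mem, abs_le] at a4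
      linarith
    · rcases hA1 with hA1 | hA1
      · exact hvJ hA1
      have a1 := key _ _ hA1 h2
      have a2 := j_tri h.toOk0 t (D.q t + v) c w
      have a3 := no0 h hp hwM hv hvJ
      have a4 := (hjc t (1 + r) (by rw [abs_sub_comm]; exact hδt)).2.2.1 (w - v) (by
        rw [C9.j_sub_r h hv]
        linarith)
      rw [C9.j_sub_r h hv, C9.j_one h, C9.q_one h, C9.j_sub_r h hv, abs_le] at a4
      linarith
  · rw [C9.j_one h, C9.q_one h] at h1 h2
    have hm := C9.mid h hp hcO hv hu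
    by_cases hJ : D.InJ u'
    · have a1 := key _ _ hA2 h2
      rw [C9.j_Jl h hJ] at a1
      linarith [hm.1]
    · have a2 := no0 h hp hwM hu' hJ
      have a3 := j_nonneg h.toOk0 t (D.q t + v) c
      have a4 := j_nonneg h.toOk0 t c (D.q t + u)
      rcases hA1 with hA1 | hA1
      · rcases h1 with h1 | h1
        · have hvu : ¬ D.InJ (u - v) := fun hh => hJ (C9.InJ_of_sub (C9.InJ_of_sub hA1 hh) h1)
          have a1 := key _ _ hA2 h2
          have a5 := hm.2 hvu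
          linarith
        · have a1 := key _ _ hA2 h1
          linarith
      · have a1 := key _ _ hA1 h2
        linarith

theorem nP (h : D.Ok) (hp : POk D p) (m : ℝ) (L : LP) : ∃ s0 : ℝ, 1 ≤ s0 ∧ ∀ s, s0 ≤ s → ∀ ll,
    FT D m L ll → ∀ x ∈ (D0 D).R p, ∀ r, 0 ≤ r → r ≤ 1 → ∀ w ∈ Md D p r, ∀ t, r < t → t < 2 →
    ∀ c, c + D.g ∉ Nr D p t →
      (D0 D).P ll s r w x + 1 < (D0 D).kk ll s r t (w - D.g) c + (D0 D).kk ll s t 2 c x := by
  have hF := C9.MF_pos h.toOk0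
  have hη := hp.η1_pos
  have hκ := hp.κ_pos
  have he := hp.e_pos
  have hom := hp.om_le
  have hκe := hp.κ_le
  have hUs := Us_pos h
  set ε := p.κ / 100 with hεdef
  have hε : 0 < ε := by positivity
  set τ := D.MF * p.η1 with hτ
  have hτ0 : 0 < τ := by positivity
  have q2 : 1600 * τ ≤ p.κ := by
    rw [hτ]
    linarith
  obtain ⟨δ, hδ, hjc⟩ := C9.jc h.toOk0 p.ρ (2 * D.Us + 100 * p.κ) hε
  have hε1 : 0 < min ε δ := lt_min hε hδ
  obtain ⟨s1, hs1, hupp⟩ := upp h m L p.ρ hε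
  obtain ⟨s2, hs2, hge⟩ := kk_ge h m L hε
  obtain ⟨s3, hs3, hB⟩ := C9.legB h hp m L (2 * τ + D.Us + p.κ + 3 * ε) hε
  obtain ⟨s4, hs4, hlow⟩ := low h m L (2 * τ + D.Us + p.κ + 3 * ε) hε1
  obtain ⟨s5, hs5, hbig⟩ := C9.big hε 1
  refine ⟨max s1 (max s2 (max s3 (max s4 s5))), hs1.trans (le_max_left _ _),
    fun s hs ll hl x hx r hr0 hr1 w hw t ht ht1 c hc => ?_⟩
  have g1 : s1 ≤ s := (le_max_left _ _).trans hs
  have g2 : s2 ≤ s := (le_max_left _ _).trans ((le_max_right _ _).trans hs)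
  have g3 : s3 ≤ s := (le_max_left _ _).trans ((le_max_right _ _).trans ((le_max_right _ _).trans hs))
  have g4 : s4 ≤ s := (le_max_left _ _).trans ((le_max_right _ _).trans ((le_max_right _ _).trans
    ((le_max_right _ _).trans hs)))
  have g5 : s5 ≤ s := (le_max_right _ _).trans ((le_max_right _ _).trans ((le_max_right _ _).trans
    ((le_max_right _ _).trans hs)))
  have hs1' : 1 ≤ s := hs1.trans g1
  have hsp : 0 < s := by linarith
  by_contra hcon
  rw [not_lt] at hcon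
  have hwM := C9.Md_Mg hp hw
  have u1 := hupp s g1 ll hl r 2 (by linarith) (by linarith) (w - D.g) (C9.Md_X' hp hw) x (C9.R_X hp hx)
  rw [C9.j_two h, C9.q_two h, C9.j_sub_l h h.g_mem] at u1
  have u2 := near h.toOk0 0 (x := x) (η := p.η1) hx
  have hP : (D0 D).P ll s r w x = (D0 D).kk ll s r 2 (w - D.g) x := rfl
  rw [hP] at hcon
  have hwJ := hw.1.2
  have l1 := hge s g2 ll hl r t ht (by linarith) (w - D.g) c
  have l2 := hge s g2 ll hl t 2 ht1 (by linarith) c x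
  have tel : D.corr s r t (w - D.g) c + D.corr s t 2 c x = D.corr s r 2 (w - D.g) x := by
    unfold GT.corr
    ring
  have tel2 := fl_add (L := L) hl.a_cont s r t 2
  have hb := hbig s g5
  have q1 : 2 * D.MF * p.η1 = 2 * τ := by rw [hτ]; ring
  have u4 : D.j r w (D.q r + D.g) + D.j 0 (D.q 0) x ≤ 2 * τ + D.j r w (D.q r + D.g) := by
    linarith [u2.2]
  have u5 := mul_le_mul_of_nonneg_left u4 hsp.le
  have k0 := j_nonneg h.toOk0 r (D.q r) w
  have u6 : s * D.j r w (D.q r + D.g) ≤ s * (D.Us + p.κ) := mul_le_mul_of_nonneg_left (by linarith) hsp.le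
  have hB' := hB s g3 ll hl x hx 2 t (by exact_mod_cast ht1) (by push_cast; linarith) c
    (by push_cast; linarith)
  rw [Nat.cast_ofNat, q1] at hB'
  obtain ⟨v, hv, hA1, hA2⟩ := hB'
  have hL := hlow s g4 ll hl r t ht (by linarith) (w - D.g) c (by linarith)
  have m1 : min ε δ * s ≤ ε * s := mul_le_mul_of_nonneg_right (min_le_left _ _) hsp.le
  have key : ∀ a b : ℝ, s * a + D.corr s t 2 c x + L.fl s t 2 ≤ (D0 D).kk ll s t 2 c x + (2 * τ + ε) * s →
      s * b + D.corr s r t (w - D.g) c + L.fl s r t ≤ (D0 D).kk ll s r t (w - D.g) c + min ε δ * s →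
      a + b ≤ D.j r w (D.q r + D.g) + 4 * τ + 4 * ε := by
    intro a b ha hb'
    have : s * (a + b) ≤ s * (D.j r w (D.q r + D.g) + 4 * τ + 4 * ε) := by linarith
    exact le_of_mul_le_mul_left this hsp
  have hcO' : c + D.g ∈ D.Out t (p.ηc / 2) := by
    by_contra hh
    exact hc (Or.inl hh)
  have hcO : c ∈ D.Out t (p.ηc / 2) := C9.Out_sub h.g_mem hcO'
  have hcM : c + D.g ∉ D.Mg t (p.ηc / 2) (2 * p.κ) := fun hh => hc (Or.inr hh)
  rcases hL with ⟨h1, h2⟩ | ⟨u, hu, u', hu', h1, h2⟩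
  · have hδt : |r - t| ≤ δ := by
      rw [abs_sub_comm, abs_of_pos (by linarith)]
      exact h1.trans (min_le_right _ _)
    have b1 := key _ _ hA2 h2
    have b0 := j_nonneg h.toOk0 t c (D.q t + v)
    have b2 := (hjc r t hδt).1 (w - D.g) (C9.Md_X' hp hw) c (by linarith)
    rw [abs_le] at b2
    by_cases hvJ : D.InJ v
    · -- the point `c + g` is not a gate point
      rw [C9.j_Jr h hvJ] at b1
      have a2 : D.Us + 2 * p.κ < D.j t (D.q t) (c + D.g) + D.j t (c + D.g) (D.q t + D.g) := by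
        by_contra hh
        rw [not_lt] at hh
        exact hcM ⟨hcO', hh⟩
      rw [j_Lam h.toOk0 h.g_mem] at a2
      have a3 := j_tri h.toOk0 t (D.q t) w (c + D.g)
      have a5 := C9.j_sub_l h h.g_mem t w c
      have a4 := (hjc r t hδt).2.2.1 w (by linarith [j_nonneg h.toOk0 r w (D.q r + D.g)])
      rw [abs_le] at a4
      linarith
    · rcases hA1 with hA1 | hA1
      · exact hvJ hA1
      have a1 := key _ _ hA1 h2
      have a2 := j_tri h.toOk0 t (w - D.g) c (D.q t + v)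
      have a3 := no1 h hp hwM hv hvJ
      have e1 : ∀ r' : ℝ, D.j r' (w - D.g - v) (D.q r') = D.j r' (w - D.g) (D.q r' + v) := fun r' =>
        C9.j_sub_l h hv r' (w - D.g) (D.q r')
      have a4 := (hjc t r (by rw [abs_sub_comm]; exact hδt)).2.2.2 (w - D.g - v) (by
        rw [e1]
        linarith)
      rw [e1, e1, C9.j_sub_l h h.g_mem r, abs_le] at a4
      linarith
  · rw [C9.j_sub_l h h.g_mem r] at h1 h2
    have hm := C9.mid h hp hcO hu' hv
    by_cases hJ : D.InJ u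
    · have a1 := key _ _ hA2 h2
      rw [add_right_comm, C9.j_Jr h hJ] at a1
      linarith [hm.1]
    · have a2 := no1 h hp hwM hu hJ
      have a3 := j_nonneg h.toOk0 t (D.q t + u') c
      have a4 := j_nonneg h.toOk0 t c (D.q t + v)
      rcases hA1 with hA1 | hA1
      · rcases h1 with h1 | h1
        · have hvu : ¬ D.InJ (v - u') := fun hh => hJ (C9.InJ_of_sub' (C9.InJ_of_sub' hA1 hh) h1)
          have a1 := key _ _ hA2 h2
          have a5 := hm.2 hvu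
          linarith
        · have a1 := key _ _ hA2 h1
          linarith
      · have a1 := key _ _ hA1 h2
        linarith

end EscT
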