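import Pool.Agent.EscT.TDefs
import Pool.Agent.EscG.A1
import Pool.Agent.EscG.A5a
import Pool.Agent.EscT.A5a

/-!
Project EscT (MP_6acca1_an), module H2: one local minimum in the universal cover.
-/

noncomputable section

namespace EscT

open MeasureTheory Set Filter Topology Esc EscF EscG
open scoped ContDiff

section MID

variable {ι : Type} [Fintype ι] {d : ℕ} {E : Type*} [NormedAddCommGroup E] [InnerProductSpace ℝ E]
  [FiniteDimensional ℝ E] {D : GT ι d E} {p : GP} {m M Mf : ℝ} {L : LP} {ll l : E → E → ℝ → ℝ}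
  {f f' : E → ℝ → ℝ}

/-- periodicity along the fast lattice -/
theorem H2_per (h : D.Ok) (hl : TG D.β m M ll) (n : Fin d → ℤ) (x u : E) (t : ℝ) :
    ll (x + lv D.b n) u t = ll x u t := by
  let S : AddSubgroup E :=
    { carrier := {p : E | ∀ x u t, ll (x + p) u t = ll x u t}
      zero_mem' := fun x u t => by rw [add_zero]
      add_mem' := fun {p q} hp hq x u t => by rw [← add_assoc, hq, hp]
      neg_mem' := fun {p} hp x u t => by rw [← hp (x + -p), neg_add_cancel_right] }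
  have hS : ∀ i, D.b i ∈ S := by
    intro i
    obtain ⟨k, hk⟩ := (h.fr0 0).bβ i
    have hk' : D.b i = D.β k := hk
    rw [hk']
    exact fun x u t => hl.per k x u t
  have h1 : lv D.b n ∈ S := by
    unfold lv
    refine AddSubgroup.sum_mem S fun i _ => ?_
    rw [Int.cast_smul_eq_zsmul]
    exact S.zsmul_mem (hS i) _
  exact h1 x u t

theorem H2_qb (h : D.Ok) : QB D.b D.MF (D0 D).B D.c where
  lip := Cal.lip (h.fr0 0).fins (h.fr0 0).cal
  lvB n x := h.B_lv n x 0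

theorem site (h : D.Ok) (hl : TG D.β m M ll) {s s' : ℝ} (hs : 0 ≤ s) (hs' : 0 ≤ s')
    {t t' t'' : ℝ} (htt : t < t') (htt' : t' < t'') {x0 a x2 : E}
    (H : ∀ᶠ x in 𝓝 a, (D0 D).kk ll s t t' x0 a + (D0 D).kk ll s' t' t'' a x2 - (s' - s) * (D0 D).B a ≤
      (D0 D).kk ll s t t' x0 x + (D0 D).kk ll s' t' t'' x x2 - (s' - s) * (D0 D).B x) {n n' : Fin d → ℤ}
    (hn : (D0 D).kk ll s t t' x0 a = kerl ll t t' x0 (a + lv D.b n) -
      s * ((D0 D).B (a + lv D.b n) - (D0 D).B x0) + s ^ 2 / 2 * (t' - t))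
    (hn' : (D0 D).kk ll s' t' t'' a x2 = kerl ll t' t'' a (x2 + lv D.b n') -
      s' * ((D0 D).B (x2 + lv D.b n') - (D0 D).B a) + s' ^ 2 / 2 * (t'' - t')) :
    IsLocalMin (fun x => kerl ll t t' x0 x + kerl ll t' t'' x (x2 + lv D.b n' + lv D.b n))
      (a + lv D.b n) := by
  have htend : Tendsto (fun x => x - lv D.b n) (𝓝 (a + lv D.b n)) (𝓝 a) := by
    have h1 : Tendsto (fun x => x - lv D.b n) (𝓝 (a + lv D.b n)) (𝓝 (a + lv D.b n - lv D.b n)) :=
      tendsto_id.sub_const _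
    rwa [add_sub_cancel_right] at h1
  have hsh : ∀ y : E, kerl ll t' t'' (y + lv D.b n) (x2 + lv D.b n' + lv D.b n) =
      kerl ll t' t'' y (x2 + lv D.b n') := fun y => kerl_shift (lv D.b n) (H2_per h hl n) t' t'' y _
  have hB : ∀ y : E, (D0 D).B (y + lv D.b n) = (D0 D).B y + ∑ i, (n i : ℝ) * D.c i :=
    fun y => (H2_qb h).lvB n y
  filter_upwards [htend.eventually H] with x hx
  obtain ⟨y, rfl⟩ : ∃ y, x = y + lv D.b n := ⟨x - lv D.b n, (sub_add_cancel _ _).symm⟩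
  rw [add_sub_cancel_right] at hx
  have h1 : (D0 D).kk ll s t t' x0 y ≤ kerl ll t t' x0 (y + lv D.b n) -
      s * ((D0 D).B (y + lv D.b n) - (D0 D).B x0) + s ^ 2 / 2 * (t' - t) :=
    K_le hl (H2_qb h) hs htt x0 y n
  have h2 : (D0 D).kk ll s' t' t'' y x2 ≤ kerl ll t' t'' y (x2 + lv D.b n') -
      s' * ((D0 D).B (x2 + lv D.b n') - (D0 D).B y) + s' ^ 2 / 2 * (t'' - t') :=
    K_le hl (H2_qb h) hs' htt' y x2 n'
  simp only [hsh]
  rw [hB] at h1 hn
  linarith

end MID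

end EscT
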