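import Pool.Agent.EscT.TDefs
import Pool.Agent.EscG.A1
import Pool.Agent.EscT.A5a
import Pool.Agent.EscT.H2
import Pool.Agent.EscT.C4
import Pool.Agent.EscT.C6
import Pool.Agent.EscT.C8
import Pool.Agent.EscT.C10
import Pool.Agent.EscT.C9

/-!
Project EscT (MP_6acca1_an), core, module H3: the orbit as a sequence, with prescribed starting point.
-/

set_option linter.unusedSectionVars false
set_option linter.unusedVariables false

noncomputable section

namespace EscT

open MeasureTheory Set Filter Topology Esc EscF EscG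
open scoped ContDiff

variable {ι : Type} [Fintype ι] {d : ℕ} {E : Type*} [NormedAddCommGroup E] [InnerProductSpace ℝ E]
  [FiniteDimensional ℝ E] {D : GT ι d E} {p : GP} {m M Mf : ℝ} {L : LP} {ll l : E → E → ℝ → ℝ}
  {f f' : E → ℝ → ℝ}

/-! ### periods -/

theorem H3_per (hl : FT D m L ll) {v : E} (hv : v ∈ D.Lam) (x u : E) (t : ℝ) :
    ll (x + v) u t = ll x u t := by
  let S : AddSubgroup E :=
    { carrier := {p : E | ∀ x u t, ll (x + p) u t = ll x u t}
      zero_mem' := fun x u t => by rw [add_zero]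
      add_mem' := fun {p q} hp hq x u t => by rw [← add_assoc, hq, hp]
      neg_mem' := fun {p} hp x u t => by rw [← hp (x + -p), neg_add_cancel_right] }
  have h1 : ∀ w ∈ Submodule.span ℤ (Set.range D.β), w ∈ S := by
    intro w hw
    induction hw using Submodule.span_induction with
    | mem w hw =>
      obtain ⟨k, rfl⟩ := hw
      exact fun x u t => hl.per k x u t
    | zero => exact S.zero_mem
    | add a b _ _ ha hb => exact S.add_mem ha hb
    | smul c a _ ha => exact S.zsmul_mem ha c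
  exact h1 v hv x u t

theorem H3_lv0 (b : Fin d → E) : lv b 0 = 0 := by simp [lv]

theorem H3_lv_mem (h : D.Ok) (n : Fin d → ℤ) : lv D.b n ∈ D.Lam := by
  unfold lv
  refine AddSubgroup.sum_mem _ fun i _ => ?_
  rw [Int.cast_smul_eq_zsmul]
  refine AddSubgroup.zsmul_mem _ ?_ _
  obtain ⟨k, hk⟩ := (h.fr0 0).bβ i
  have hk' : D.b i = D.β k := hk
  rw [hk']
  exact Submodule.subset_span ⟨k, rfl⟩

theorem H3_Bper (h : D.Ok) {v : E} (hv : v ∈ D.Lam) :
    ∃ a : ℝ, ∀ x, (D0 D).B (x + v) = (D0 D).B x + a :=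
  let ⟨a, ha⟩ := h.B_Lam v hv
  ⟨a, fun x => ha x 0⟩

/-! ### a sequence of sites -/

theorem H3_seq (h : D.Ok) (hl : FT D m L ll) (P Q hh : ℕ → E) (σ τ : ℕ → ℝ)
    (hσ : ∀ j, 0 ≤ σ j) (hτ : ∀ j, τ j < τ (j + 1)) (hm : ∀ j, hh j ∈ D.Lam)
    (hPQ : ∀ j, P (j + 1) = Q j - hh j)
    (hsite : ∀ j, ∀ᶠ x in 𝓝 (Q j), (D0 D).kk ll (σ j) (τ j) (τ (j + 1)) (P j) (Q j) +
      (D0 D).kk ll (σ (j + 1)) (τ (j + 1)) (τ (j + 2)) (Q j - hh j) (Q (j + 1)) -
        (σ (j + 1) - σ j) * (D0 D).B (Q j) ≤ (D0 D).kk ll (σ j) (τ j) (τ (j + 1)) (P j) x +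
      (D0 D).kk ll (σ (j + 1)) (τ (j + 1)) (τ (j + 2)) (x - hh j) (Q (j + 1)) -
        (σ (j + 1) - σ j) * (D0 D).B x) :
    ∃ w : ℕ → E, (∀ j, IsLocalMin (fun x => kerl ll (τ j) (τ (j + 1)) (w j) x +
        kerl ll (τ (j + 1)) (τ (j + 2)) x (w (j + 2))) (w (j + 1))) ∧
      (∀ j, kerl ll (τ j) (τ (j + 1)) (w j) (w (j + 1)) - σ j * ((D0 D).B (w (j + 1)) - (D0 D).B (w j)) +
        σ j ^ 2 / 2 * (τ (j + 1) - τ j) = (D0 D).kk ll (σ j) (τ j) (τ (j + 1)) (P j) (Q j)) ∧
      w 0 = P 0 ∧ ∀ j, ∃ v ∈ D.Lam, w j = P j + v ∧ ∀ t c, τ j < t → t < τ (j + 1) →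
        kerl ll (τ j) t (w j) c + kerl ll t (τ (j + 1)) c (w (j + 1)) ≤
          kerl ll (τ j) (τ (j + 1)) (w j) (w (j + 1)) →
        (D0 D).kk ll (σ j) (τ j) t (P j) (c - v) + (D0 D).kk ll (σ j) t (τ (j + 1)) (c - v) (Q j) ≤
          (D0 D).kk ll (σ j) (τ j) (τ (j + 1)) (P j) (Q j) := by
  have hat : ∀ j, ∃ n : Fin d → ℤ, (D0 D).kk ll (σ j) (τ j) (τ (j + 1)) (P j) (Q j) =
      kerl ll (τ j) (τ (j + 1)) (P j) (Q j + lv D.b n) - σ j * ((D0 D).B (Q j + lv D.b n) - (D0 D).B (P j)) +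
        σ j ^ 2 / 2 * (τ (j + 1) - τ j) := fun j => K_attained (h.fr0 0).li hl.toTG (QB0 h.toOk0 0) (hσ j) (hτ j) _ _
  choose n hn using hat
  set G : ℕ → E := fun j => ∑ i ∈ Finset.range j, (lv D.b (n i) + hh i) with hG
  have hGs : ∀ j, G (j + 1) = G j + (lv D.b (n j) + hh j) := fun j => Finset.sum_range_succ _ _
  have hGm : ∀ j, G j ∈ D.Lam := fun j =>
    AddSubgroup.sum_mem _ fun i _ => D.Lam.add_mem (H3_lv_mem h _) (hm i)
  have hw1 : ∀ j, P (j + 1) + G (j + 1) = Q j + lv D.b (n j) + G j := fun j => by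
    rw [hPQ, hGs]; abel
  refine ⟨fun j => P j + G j, fun j => ?_, fun j => ?_, ?_, fun j => ⟨G j, hGm j, rfl, ?_⟩⟩
  · -- the local minimum
    have hw2 : P (j + 2) + G (j + 2) = Q (j + 1) + hh j + lv D.b (n (j + 1)) + lv D.b (n j) + G j := by
      rw [hw1 (j + 1), hGs]; abel
    obtain ⟨a, ha⟩ := H3_Bper h (hm j)
    have hn1 := hn (j + 1)
    rw [hPQ] at hn1
    have e1 : ∀ x x' : E, (D0 D).kk ll (σ (j + 1)) (τ (j + 1)) (τ (j + 2)) (x - hh j) x' =
        (D0 D).kk ll (σ (j + 1)) (τ (j + 1)) (τ (j + 2)) x (x' + hh j) := fun x x' => by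
      rw [← kk_Lam h hl.toTG (hm j) _ _ _ (x - hh j) x', sub_add_cancel]
    have hs := site h hl.toTG (hσ j) (hσ (j + 1)) (hτ j) (hτ (j + 1)) (x0 := P j) (a := Q j)
      (x2 := Q (j + 1) + hh j) (by
        filter_upwards [hsite j] with x hx
        rw [e1, e1] at hx
        exact hx) (hn j) (n' := n (j + 1)) (by
        rw [← e1, hn1]
        have e2 : kerl ll (τ (j + 1)) (τ (j + 1 + 1)) (Q j - hh j) (Q (j + 1) + lv D.b (n (j + 1))) =
            kerl ll (τ (j + 1)) (τ (j + 1 + 1)) (Q j) (Q (j + 1) + hh j + lv D.b (n (j + 1))) := by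
          have e5 := kerl_shift (hh j) (fun x u t => H3_per hl (hm j) x u t) (τ (j + 1))
            (τ (j + 1 + 1)) (Q j - hh j) (Q (j + 1) + lv D.b (n (j + 1)))
          rw [sub_add_cancel, add_right_comm (Q (j + 1))] at e5
          exact e5.symm
        have e3 := ha (Q (j + 1) + lv D.b (n (j + 1)))
        have e4 := ha (Q j - hh j)
        rw [sub_add_cancel] at e4
        rw [add_right_comm (Q (j + 1))] at e3
        rw [e2, e3, e4]
        ring)
    -- shift by the cumulated vector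
    show IsLocalMin (fun x => kerl ll (τ j) (τ (j + 1)) (P j + G j) x +
        kerl ll (τ (j + 1)) (τ (j + 2)) x (P (j + 2) + G (j + 2))) (P (j + 1) + G (j + 1))
    rw [hw2, hw1]
    have htend : Tendsto (fun x => x - G j) (𝓝 (Q j + lv D.b (n j) + G j)) (𝓝 (Q j + lv D.b (n j))) := by
      have h1 : Tendsto (fun x => x - G j) (𝓝 (Q j + lv D.b (n j) + G j))
        (𝓝 (Q j + lv D.b (n j) + G j - G j)) := tendsto_id.sub_const _
      rwa [add_sub_cancel_right] at h1
    have hK : ∀ (t t' : ℝ) (x x' : E), kerl ll t t' (x + G j) (x' + G j) = kerl ll t t' x x' :=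
      fun t t' x x' => kerl_shift (G j) (fun x u t => H3_per hl (hGm j) x u t) t t' x x'
    filter_upwards [htend.eventually hs] with x hx
    obtain ⟨y, rfl⟩ : ∃ y, x = y + G j := ⟨x - G j, (sub_add_cancel _ _).symm⟩
    rw [add_sub_cancel_right] at hx
    simp only [hK]
    exact hx
  · -- the value
    show kerl ll (τ j) (τ (j + 1)) (P j + G j) (P (j + 1) + G (j + 1)) -
      σ j * ((D0 D).B (P (j + 1) + G (j + 1)) - (D0 D).B (P j + G j)) + _ = _
    rw [hw1, kerl_shift (G j) (fun x u t => H3_per hl (hGm j) x u t), hn j]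
    obtain ⟨a, ha⟩ := H3_Bper h (hGm j)
    rw [ha, ha]
    ring
  · show P 0 + G 0 = P 0
    rw [hG]
    simp
  · intro t c ht ht' hle
    obtain ⟨y, rfl⟩ : ∃ y, c = y + G j := ⟨c - G j, (sub_add_cancel _ _).symm⟩
    have hK : ∀ (t t' : ℝ) (x x' : E), kerl ll t t' (x + G j) (x' + G j) = kerl ll t t' x x' :=
      fun t t' x x' => kerl_shift (G j) (fun x u t => H3_per hl (hGm j) x u t) t t' x x'
    simp only [hw1 j, hK] at hle
    rw [add_sub_cancel_right, hn j]
    have k1 := K_le hl.toTG (QB0 h.toOk0 0) (hσ j) ht (P j) y 0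
    have k2 := K_le hl.toTG (QB0 h.toOk0 0) (hσ j) ht' y (Q j) (n j)
    rw [H3_lv0, add_zero] at k1
    have k1' : (D0 D).kk ll (σ j) (τ j) t (P j) y ≤ kerl ll (τ j) t (P j) y - σ j * ((D0 D).B y - (D0 D).B (P j)) +
      σ j ^ 2 / 2 * (t - τ j) := k1
    have k2' : (D0 D).kk ll (σ j) t (τ (j + 1)) y (Q j) ≤ kerl ll t (τ (j + 1)) y (Q j + lv D.b (n j)) -
      σ j * ((D0 D).B (Q j + lv D.b (n j)) - (D0 D).B y) + σ j ^ 2 / 2 * (τ (j + 1) - t) := k2
    linarith

/-! ### minima on the compact room are local minima -/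

theorem H3_int (h : D.Ok) (hp : POk D p) {φ : E → ℝ} (hφ : ∀ x n, φ (x + lv D.b n) = φ x) {y : E}
    (hy : y ∈ (D0 D).C p) (hmin : ∀ x ∈ (D0 D).C p, φ y ≤ φ x)
    (halt : Metric.infDist y (D.Z 0) = p.η1 → φ (D.q 0) + 1 ≤ φ y) :
    ∀ᶠ x in 𝓝 y, φ y ≤ φ x := by
  have hR : ∀ x ∈ (D0 D).R p, φ y ≤ φ x := by
    intro x hx
    obtain ⟨n, hn⟩ := R_red h hp hx
    rw [← hφ x n]
    exact hmin _ hn
  have hyR : Metric.infDist y (D.Z 0) ≤ p.η1 := C_sub hy
  have hne : Metric.infDist y (D.Z 0) ≠ p.η1 := by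
    intro he
    have hq1 := halt he
    have := hR _ (q_R h hp)
    linarith
  have hlt : Metric.infDist y (D.Z 0) < p.η1 := lt_of_le_of_ne hyR hne
  have hc : ContinuousAt (fun x => Metric.infDist x (D.Z 0)) y :=
    (Metric.continuous_infDist_pt (D.Z 0)).continuousAt
  filter_upwards [hc.eventually (gt_mem_nhds hlt)] with x hx
  exact hR x (le_of_lt hx)

/-! ### enumeration of the points -/

/-- state of the concatenation -/
def H3_st (J : ℕ → ℕ) : ℕ → ℕ × ℕ
  | 0 => (0, 0)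
  | n + 1 => if (H3_st J n).2 + 1 < J (H3_st J n).1 then ((H3_st J n).1, (H3_st J n).2 + 1)
      else ((H3_st J n).1 + 1, 0)

theorem H3_st_lt {J : ℕ → ℕ} (hJ : ∀ m, 0 < J m) (n : ℕ) : (H3_st J n).2 < J (H3_st J n).1 := by
  induction n with
  | zero => exact hJ 0
  | succ n ih =>
    rw [H3_st]
    split_ifs with h
    · exact h
    · exact hJ _

theorem H3_st_mono {J : ℕ → ℕ} : Monotone (fun n => (H3_st J n).1) := by
  apply monotone_nat_of_le_succ
  intro n
  show (H3_st J n).1 ≤ (H3_st J (n + 1)).1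
  rw [H3_st]
  split_ifs with h
  · exact le_rfl
  · exact Nat.le_succ _

theorem H3_st_unbounded {J : ℕ → ℕ} (hJ : ∀ m, 0 < J m) (K : ℕ) : ∃ n, H3_st J n = (K, 0) := by
  induction K with
  | zero => exact ⟨0, rfl⟩
  | succ K ih =>
    obtain ⟨n, hn⟩ := ih
    have h : ∀ i, i < J K → H3_st J (n + i) = (K, i) := by
      intro i
      induction i with
      | zero => intro _; simpa using hn
      | succ i ihi =>
        intro hi
        have h1 := ihi (by omega)
        rw [← add_assoc, H3_st, h1]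
        simp [hi]
    refine ⟨n + J K, ?_⟩
    have h1 := h (J K - 1) (by have := hJ K; omega)
    have h2 : n + J K = (n + (J K - 1)) + 1 := by have := hJ K; omega
    rw [h2, H3_st, h1]
    have h3 : ¬ (J K - 1 + 1 < J K) := by omega
    simp [h3]

theorem H3_st_tendsto {J : ℕ → ℕ} (hJ : ∀ m, 0 < J m) :
    Tendsto (fun n => (H3_st J n).1) atTop atTop := by
  refine tendsto_atTop_atTop_of_monotone H3_st_mono fun K => ?_
  obtain ⟨n, hn⟩ := H3_st_unbounded hJ K
  exact ⟨n, by rw [hn]⟩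

/-! ### membership in bounded sets -/

theorem H3_C_X {x : E} (hx : x ∈ (D0 D).C p) : x ∈ D.X p.ρ := by
  refine ⟨0, ?_⟩
  rw [H3_lv0, add_zero]
  exact mem_closedBall_zero_iff.1 hx.2

theorem H3_Md_Mg (hp : POk D p) {r : ℝ} {w : E} (hw : w ∈ Md D p r) :
    w ∈ D.Mg r (p.ηc / 2) (2 * p.κ) := by
  refine ⟨fun v hv => ?_, ?_⟩
  · have := hw.1.1 v hv
    linarith [hp.ηc_pos]
  · have := hw.1.2
    linarith [hp.κ_pos]

theorem H3_Md_X (hp : POk D p) {r : ℝ} {w : E} (hw : w ∈ Md D p r) :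
    w ∈ D.X p.ρ ∧ w - D.g ∈ D.X p.ρ := by
  have h1 := hp.bnd r w (Or.inr (H3_Md_Mg hp hw)) 0 (by norm_num)
  have h2 := hp.bnd r w (Or.inr (H3_Md_Mg hp hw)) (-1) (by norm_num)
  constructor
  · simpa using h1
  · simpa [sub_eq_add_neg] using h2

/-! ### near points -/

theorem H3_nr_R (hp : POk D p) {x : E} (hx : x ∈ (D0 D).R p) : x ∈ Nr D p 0 := by
  refine Or.inl fun ho => ?_
  have h1 : p.ηc / 2 ≤ Metric.infDist x (D.Z 0) := by
    have := ho 0 D.Lam.zero_mem
    rwa [add_zero] at this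
  have h2 : Metric.infDist x (D.Z 0) ≤ p.η1 := hx
  have h3 := hp.η1_le
  have h4 := hp.η1_pos
  linarith

theorem H3_nr_Md (hp : POk D p) {r : ℝ} {x : E} (hx : x ∈ Md D p r) : x ∈ Nr D p r :=
  Or.inr (H3_Md_Mg hp hx)

theorem H3_not_Nr {t : ℝ} {c : E} (hc : c ∉ Nr D p t) : c ∈ D.Out t (p.ηc / 2) := by
  by_contra hh
  exact hc (Or.inl hh)

theorem H3_near {t : ℝ} {c v a : E} (hv : v ∈ D.Lam) (ha : a ∈ D.Lam) (hc : c - v + a ∈ Nr D p t) :
    c ∈ Near D p t :=
  ⟨a - v, D.Lam.sub_mem ha hv, by rwa [show c + (a - v) = c - v + a by abel]⟩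

theorem H3_Near_per (h : D.Ok) (t : ℝ) (k : ℤ) : Near D p (t + k) = Near D p t := by
  unfold Near Nr
  rw [Mg_per h, Out_per h]

/-- change of time by an integer -/
theorem H3_Near_sub (h : D.Ok) {t t' : ℝ} (k : ℤ) (ht : t = t' + k) {c : E} (hc : c ∈ Near D p t') :
    c ∈ Near D p t := by
  rw [ht, H3_Near_per h]
  exact hc

/-! ### the legs -/

/-- start times of the blocks -/
def H3_N (T : ℕ → ℕ) (n : ℕ) : ℤ := (∑ i ∈ Finset.range n, ((T i : ℤ) + 3)) - 2

theorem H3_N_succ (T : ℕ → ℕ) (n : ℕ) : (H3_N T (n + 1) : ℝ) = H3_N T n + T n + 3 := by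
  have : H3_N T (n + 1) = H3_N T n + (T n + 3) := by
    unfold H3_N
    rw [Finset.sum_range_succ]
    ring
  rw [this]
  push_cast
  ring

/-- times of the points -/
def H3_A (r : ℕ → ℝ) (T : ℕ → ℕ) (n k : ℕ) : ℝ :=
  if k = 0 then (H3_N T n : ℝ) + r n else (H3_N T n : ℝ) + 1 + k

/-- end times of the legs -/
def H3_A' (r : ℕ → ℝ) (T : ℕ → ℕ) (n k : ℕ) : ℝ :=
  if k = T n + 1 then (H3_N T n : ℝ) + T n + 3 + r (n + 1) else (H3_N T n : ℝ) + 2 + k

/-- start points of the legs -/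
def H3_P (D : GT ι d E) (z : ℕ → E) (y : ℕ → ℕ → E) (n k : ℕ) : E :=
  if k = 0 then z n - D.g else y n (k - 1)

/-- end points of the legs -/
def H3_Q (T : ℕ → ℕ) (z : ℕ → E) (y : ℕ → ℕ → E) (n k : ℕ) : E :=
  if k = T n + 1 then z (n + 1) else y n k

/-- shifts after the legs -/
def H3_h (D : GT ι d E) (T : ℕ → ℕ) (n k : ℕ) : E := if k = T n + 1 then D.g else 0

theorem H3_leg0 (h : D.Ok) (hl : FT D m L ll) (r : ℕ → ℝ) {T : ℕ → ℕ} {n : ℕ}
    (hT : 1 ≤ T n) (s : ℝ) (w x : E) :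
    (D0 D).kk ll s (H3_A r T n 0) (H3_A' r T n 0) (w - D.g) x = (D0 D).P ll s (r n) w x := by
  have e1 : H3_A r T n 0 = r n + (H3_N T n : ℤ) := by
    unfold H3_A
    rw [if_pos rfl]
    ring
  have e2 : H3_A' r T n 0 = 2 + (H3_N T n : ℤ) := by
    unfold H3_A'
    rw [if_neg (by omega)]
    push_cast
    ring
  rw [e1, e2, kk_time h hl.toTG]
  rfl

theorem H3_leg1 (h : D.Ok) (hl : FT D m L ll) (r : ℕ → ℝ) {T : ℕ → ℕ} {n k : ℕ}
    (hk : k ≠ 0) (hkT : k ≠ T n + 1) (s : ℝ) (w x : E) :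
    (D0 D).kk ll s (H3_A r T n k) (H3_A' r T n k) w x = (D0 D).k1 ll s w x := by
  have e1 : H3_A r T n k = 0 + ((H3_N T n + 1 + k : ℤ) : ℝ) := by
    unfold H3_A
    rw [if_neg hk]
    push_cast
    ring
  have e2 : H3_A' r T n k = 1 + ((H3_N T n + 1 + k : ℤ) : ℝ) := by
    unfold H3_A'
    rw [if_neg hkT]
    push_cast
    ring
  rw [e1, e2, kk_time h hl.toTG]
  rfl

theorem H3_leg2 (h : D.Ok) (hl : FT D m L ll) (r : ℕ → ℝ) (T : ℕ → ℕ) (n : ℕ)
    (s : ℝ) (w x : E) :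
    (D0 D).kk ll s (H3_A r T n (T n + 1)) (H3_A' r T n (T n + 1)) w x = (D0 D).Q ll s (r (n + 1)) w x := by
  have e1 : H3_A r T n (T n + 1) = 0 + ((H3_N T n + T n + 2 : ℤ) : ℝ) := by
    unfold H3_A
    rw [if_neg (by omega)]
    push_cast
    ring
  have e2 : H3_A' r T n (T n + 1) = (1 + r (n + 1)) + ((H3_N T n + T n + 2 : ℤ) : ℝ) := by
    unfold H3_A'
    rw [if_pos rfl]
    push_cast
    ring
  rw [e1, e2, kk_time h hl.toTG]
  rfl

/-- successor of a leg -/
theorem H3_next (r : ℕ → ℝ) (T : ℕ → ℕ) (z : ℕ → E) (y : ℕ → ℕ → E) (D : GT ι d E) (j : ℕ) :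
    let S := H3_st (fun n => T n + 2)
    (S (j + 1) = if (S j).2 + 1 < T (S j).1 + 2 then ((S j).1, (S j).2 + 1) else ((S j).1 + 1, 0)) ∧
    H3_A r T (S (j + 1)).1 (S (j + 1)).2 = H3_A' r T (S j).1 (S j).2 ∧
    H3_P D z y (S (j + 1)).1 (S (j + 1)).2 =
      H3_Q T z y (S j).1 (S j).2 - H3_h D T (S j).1 (S j).2 := by
  intro S
  have hS1 : S (j + 1) = if (S j).2 + 1 < T (S j).1 + 2 then ((S j).1, (S j).2 + 1)
      else ((S j).1 + 1, 0) := rfl
  have hlt : (S j).2 < T (S j).1 + 2 := H3_st_lt (fun m => by omega) j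
  refine ⟨hS1, ?_, ?_⟩
  · by_cases h1 : (S j).2 + 1 < T (S j).1 + 2
    · rw [hS1, if_pos h1]
      unfold H3_A H3_A'
      rw [if_neg (by simp), if_neg (by omega)]
      push_cast
      ring
    · rw [hS1, if_neg h1]
      unfold H3_A H3_A'
      rw [if_pos rfl, if_pos (by omega), H3_N_succ]
  · by_cases h1 : (S j).2 + 1 < T (S j).1 + 2
    · rw [hS1, if_pos h1]
      unfold H3_P H3_Q H3_h
      rw [if_neg (by simp), if_neg (by omega), if_neg (by omega), sub_zero]
      simp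
    · rw [hS1, if_neg h1]
      unfold H3_P H3_Q H3_h
      rw [if_pos rfl, if_pos (by omega), if_pos (by omega)]

/-! ### the orbit as a sequence -/

theorem chs_seq (h : D.Ok) (hp : POk D p) (m : ℝ) (L : LP) : ∃ s0 : ℝ, 1 ≤ s0 ∧ ∀ ll,
    FT D m L ll → ∀ (x0 : E) (s r : ℕ → ℝ) (T : ℕ → ℕ) (z : ℕ → E) (y : ℕ → ℕ → E),
    Chs D p ll x0 s r T z y → (∀ n, s0 ≤ s n) → ∃ (τ : ℕ → ℝ) (w : ℕ → E) (σ : ℕ → ℝ) (C : ℝ),
      τ 0 ≤ 0 ∧ w 0 = x0 ∧ (∀ j, 1 ≤ τ (j + 1) - τ j ∧ τ (j + 1) - τ j ≤ 2) ∧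
      (∀ j, IsLocalMin (fun x => kerl ll (τ j) (τ (j + 1)) (w j) x +
        kerl ll (τ (j + 1)) (τ (j + 2)) x (w (j + 2))) (w (j + 1))) ∧ Tendsto σ atTop atTop ∧
      (∀ j, 1 ≤ σ j) ∧
      (∀ j, kerl ll (τ j) (τ (j + 1)) (w j) (w (j + 1)) -
        σ j * ((D0 D).B (w (j + 1)) - (D0 D).B (w j)) +
        σ j ^ 2 / 2 * (τ (j + 1) - τ j) ≤ L.fl (σ j) (τ j) (τ (j + 1)) + C * σ j) ∧
      (∀ j, w j ∈ Near D p (τ j)) ∧
      ∀ j t c, τ j < t → t < τ (j + 1) → kerl ll (τ j) t (w j) c + kerl ll t (τ (j + 1)) c (w (j + 1)) ≤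
        kerl ll (τ j) (τ (j + 1)) (w j) (w (j + 1)) → c ∈ Near D p t := by
  obtain ⟨s0, hs01, H0⟩ := lr0 h hp m L
  obtain ⟨s1, hs11, H1⟩ := lr1 h hp m L
  obtain ⟨s2, hs21, H2⟩ := lr2 h hp m L
  obtain ⟨C, s3, hC0, hs31, H3⟩ := kk_lin h m L p.ρ
  obtain ⟨s4, hs41, H4⟩ := v1 h hp m L
  obtain ⟨s5, hs51, H5⟩ := nQ h hp m L
  obtain ⟨s6, hs61, H6⟩ := nP h hp m L
  refine ⟨max (max (max s0 s1) (max s2 s3)) (max s4 (max s5 s6)),
    le_trans hs01 (le_trans (le_trans (le_max_left _ _) (le_max_left _ _)) (le_max_left _ _)),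
    fun ll hl x0 s r T z y hc hs' => ?_⟩
  have hs : ∀ n, max (max s0 s1) (max s2 s3) ≤ s n := fun n => le_trans (le_max_left _ _) (hs' n)
  have hs4 : ∀ n, s4 ≤ s n := fun n =>
    le_trans (le_trans (le_max_left _ _) (le_max_right _ _)) (hs' n)
  have hs5 : ∀ n, s5 ≤ s n := fun n =>
    le_trans (le_trans (le_trans (le_max_left _ _) (le_max_right _ _)) (le_max_right _ _)) (hs' n)
  have hs6 : ∀ n, s6 ≤ s n := fun n =>
    le_trans (le_trans (le_trans (le_max_right _ _) (le_max_right _ _)) (le_max_right _ _)) (hs' n)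
  have hs0 : ∀ n, s0 ≤ s n := fun n =>
    le_trans (le_trans (le_max_left _ _) (le_max_left _ _)) (hs n)
  have hs1 : ∀ n, s1 ≤ s n := fun n =>
    le_trans (le_trans (le_max_right _ _) (le_max_left _ _)) (hs n)
  have hs2 : ∀ n, s2 ≤ s n := fun n =>
    le_trans (le_trans (le_max_left _ _) (le_max_right _ _)) (hs n)
  have hs3 : ∀ n, s3 ≤ s n := fun n =>
    le_trans (le_trans (le_max_right _ _) (le_max_right _ _)) (hs n)
  have hspos : ∀ n, 0 ≤ s n := fun n => by linarith [hs0 n]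
  have hTp : ∀ n, 1 ≤ T n := hc.T_pos
  obtain ⟨S, hS0, hlt, hSk, hSt, hnext⟩ : ∃ S : ℕ → ℕ × ℕ, S 0 = (0, 1) ∧
      (∀ j, (S j).2 < T (S j).1 + 2) ∧ (∀ j, (S j).2 = 0 → ∃ n, (S j).1 = n + 1) ∧
      Tendsto (fun j => (S j).1) atTop atTop ∧
      ∀ j, (S (j + 1) = if (S j).2 + 1 < T (S j).1 + 2 then ((S j).1, (S j).2 + 1)
        else ((S j).1 + 1, 0)) ∧
      H3_A r T (S (j + 1)).1 (S (j + 1)).2 = H3_A' r T (S j).1 (S j).2 ∧
      H3_P D z y (S (j + 1)).1 (S (j + 1)).2 =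
        H3_Q T z y (S j).1 (S j).2 - H3_h D T (S j).1 (S j).2 := by
    refine ⟨fun j => H3_st (fun n => T n + 2) (j + 1), ?_, fun j => H3_st_lt (fun m => by omega) _,
      fun j => ?_, (H3_st_tendsto (fun m => by omega)).comp (tendsto_add_atTop_nat 1),
      fun j => H3_next r T z y D (j + 1)⟩
    · show H3_st (fun n => T n + 2) (0 + 1) = (0, 1)
      rw [H3_st, H3_st]
      simp
    · show (H3_st (fun n => T n + 2) (j + 1)).2 = 0 →
        ∃ n, (H3_st (fun n => T n + 2) (j + 1)).1 = n + 1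
      rw [H3_st]
      split_ifs with h1
      · intro h2
        simp at h2
      · intro _
        exact ⟨_, rfl⟩
  set τ : ℕ → ℝ := fun j => H3_A r T (S j).1 (S j).2 with hτdef
  have hτ1 : ∀ j, τ (j + 1) = H3_A' r T (S j).1 (S j).2 := fun j => (hnext j).2.1
  -- durations
  have hdur : ∀ j, 1 ≤ τ (j + 1) - τ j ∧ τ (j + 1) - τ j ≤ 2 := by
    intro j
    rw [hτ1]
    simp only [hτdef]
    have hr := hc.r_nonneg (S j).1
    have hr' := hc.r_lt (S j).1
    have hq := hc.r_nonneg ((S j).1 + 1)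
    have hq' := hc.r_lt ((S j).1 + 1)
    have hT1 := hTp (S j).1
    by_cases h0 : (S j).2 = 0
    · unfold H3_A H3_A'
      rw [if_pos h0, if_neg (by omega), h0]
      push_cast
      constructor <;> linarith
    · by_cases h1 : (S j).2 = T (S j).1 + 1
      · unfold H3_A H3_A'
        rw [if_neg h0, if_pos h1, h1]
        push_cast
        constructor <;> linarith
      · unfold H3_A H3_A'
        rw [if_neg h0, if_neg h1]
        constructor <;> linarith
  set σ : ℕ → ℝ := fun j => s (S j).1 with hσdef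
  set P : ℕ → E := fun j => H3_P D z y (S j).1 (S j).2 with hPdef
  set Q : ℕ → E := fun j => H3_Q T z y (S j).1 (S j).2 with hQdef
  set hh : ℕ → E := fun j => H3_h D T (S j).1 (S j).2 with hhdef
  have hkk : ∀ j, (D0 D).kk ll (σ j) (τ j) (τ (j + 1)) =
      (D0 D).kk ll (s (S j).1) (H3_A r T (S j).1 (S j).2) (H3_A' r T (S j).1 (S j).2) := fun j => by
    rw [hτ1]
  have hm : ∀ j, hh j ∈ D.Lam := by
    intro j
    simp only [hhdef]
    unfold H3_h
    split_ifs
    · exact h.g_mem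
    · exact D.Lam.zero_mem
  have hyR : ∀ n k, k ≤ T n → y n k ∈ (D0 D).R p := fun n k hk => C_sub (hc.yC n k hk)
  have hsite : ∀ j, ∀ᶠ x in 𝓝 (Q j), (D0 D).kk ll (σ j) (τ j) (τ (j + 1)) (P j) (Q j) +
      (D0 D).kk ll (σ (j + 1)) (τ (j + 1)) (τ (j + 2)) (Q j - hh j) (Q (j + 1)) -
        (σ (j + 1) - σ j) * (D0 D).B (Q j) ≤ (D0 D).kk ll (σ j) (τ j) (τ (j + 1)) (P j) x +
      (D0 D).kk ll (σ (j + 1)) (τ (j + 1)) (τ (j + 2)) (x - hh j) (Q (j + 1)) -
        (σ (j + 1) - σ j) * (D0 D).B x := by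
    intro j
    have hS1 := (hnext j).1
    have hlj := hlt j
    rw [hkk j, hkk (j + 1)]
    simp only [hPdef, hQdef, hhdef, hσdef]
    rw [hS1]
    have hkj := hSk j
    obtain ⟨n, hn⟩ : ∃ n, n = (S j).1 := ⟨_, rfl⟩
    obtain ⟨k, hk⟩ : ∃ k, k = (S j).2 := ⟨_, rfl⟩
    rw [← hn, ← hk] at hlj hkj ⊢
    have hTn := hTp n
    by_cases hD : k = T n + 1
    · -- gate
      subst hD
      rw [if_neg (by omega)]
      have e1 : H3_P D z y n (T n + 1) = y n (T n) := by
        unfold H3_P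
        rw [if_neg (by omega)]
        rfl
      have e2 : H3_Q T z y n (T n + 1) = z (n + 1) := if_pos rfl
      have e3 : H3_h D T n (T n + 1) = D.g := if_pos rfl
      have e4 : H3_Q T z y (n + 1) 0 = y (n + 1) 0 := if_neg (by omega)
      simp only [e1, e2, e3, e4, H3_leg2 h hl, H3_leg0 h hl r (hTp (n + 1))]
      exact hc.mz n
    · rw [if_pos (by omega)]
      have e2 : H3_Q T z y n k = y n k := if_neg hD
      have e3 : H3_h D T n k = 0 := if_neg hD
      simp only [e2, e3, sub_zero, sub_self, zero_mul]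
      by_cases h0 : k = 0
      · -- first room point
        subst h0
        obtain ⟨n', rfl⟩ := hkj rfl
        have e1 : H3_P D z y (n' + 1) 0 = z (n' + 1) - D.g := if_pos rfl
        have e4 : H3_Q T z y (n' + 1) (0 + 1) = y (n' + 1) 1 := if_neg (by omega)
        simp only [e1, e4, H3_leg0 h hl r hTn, H3_leg1 h hl r (show 0 + 1 ≠ 0 by omega)
          (show 0 + 1 ≠ T (n' + 1) + 1 by omega)]
        refine H3_int h hp (φ := fun x => (D0 D).P ll (s (n' + 1)) (r (n' + 1)) (z (n' + 1)) x + (D0 D).k1 ll (s (n' + 1)) x (y (n' + 1) 1))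
          (fun x n'' => ?_) (hc.yC (n' + 1) 0 (by omega)) (hc.m0 n') (fun hi => ?_)
        · have a1 := kk_J h hl.toTG (s (n' + 1)) (r (n' + 1)) 2 (z (n' + 1) - D.g) x 0 n''
          have a2 := kk_J h hl.toTG (s (n' + 1)) 0 1 x (y (n' + 1) 1) n'' 0
          rw [H3_lv0, add_zero] at a1 a2
          show (D0 D).kk ll (s (n' + 1)) (r (n' + 1)) 2 (z (n' + 1) - D.g) (x + lv D.b n'') +
            (D0 D).kk ll (s (n' + 1)) 0 1 (x + lv D.b n'') (y (n' + 1) 1)
            = _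
          rw [a1, a2]
          rfl
        · exact H1 (s (n' + 1)) (hs1 _) ll hl (r (n' + 1)) (hc.r_nonneg _) (hc.r_lt _).le
            (z (n' + 1)) (hc.zM n') (y (n' + 1) 1) (hyR (n' + 1) 1 hTn) (y (n' + 1) 0) hi
      · obtain ⟨k, rfl⟩ : ∃ k', k = k' + 1 := ⟨k - 1, by omega⟩
        have e1 : H3_P D z y n (k + 1) = y n k := by
          unfold H3_P
          rw [if_neg (by omega)]
          rfl
        by_cases hT : k + 1 = T n
        · -- last room point
          have e4 : H3_Q T z y n (k + 1 + 1) = z (n + 1) := if_pos (by omega)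
          have e5 : ∀ w x : E, (D0 D).kk ll (s n) (H3_A r T n (k + 1 + 1)) (H3_A' r T n (k + 1 + 1)) w x =
              (D0 D).Q ll (s n) (r (n + 1)) w x := fun w x => by
            rw [hT]
            exact H3_leg2 h hl r T n (s n) w x
          simp only [e1, e4, e5, H3_leg1 h hl r h0 hD]
          refine H3_int h hp
            (φ := fun x => (D0 D).k1 ll (s n) (y n k) x + (D0 D).Q ll (s n) (r (n + 1)) x (z (n + 1)))
            (fun x n' => ?_) (hc.yC n (k + 1) (by omega)) (hc.mT n k hT) (fun hi => ?_)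
          · have a1 := kk_J h hl.toTG (s n) 0 1 (y n k) x 0 n'
            have a2 := kk_J h hl.toTG (s n) 0 (1 + r (n + 1)) x (z (n + 1)) n' 0
            rw [H3_lv0, add_zero] at a1 a2
            show (D0 D).kk ll (s n) 0 1 (y n k) (x + lv D.b n') +
              (D0 D).kk ll (s n) 0 (1 + r (n + 1)) (x + lv D.b n') (z (n + 1)) = _
            rw [a1, a2]
            rfl
          · exact H2 (s n) (hs2 n) ll hl (r (n + 1)) (hc.r_nonneg (n + 1)) (hc.r_lt (n + 1)).le
              (z (n + 1)) (hc.zM n) (y n k) (hyR n k (by omega)) (y n (k + 1)) hi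
        · -- interior room point
          have e4 : H3_Q T z y n (k + 1 + 1) = y n (k + 2) := if_neg (by omega)
          simp only [e1, e4, H3_leg1 h hl r h0 hD, H3_leg1 h hl r (show k + 1 + 1 ≠ 0 by omega)
            (show k + 1 + 1 ≠ T n + 1 by omega)]
          refine H3_int h hp
            (φ := fun x => (D0 D).k1 ll (s n) (y n k) x + (D0 D).k1 ll (s n) x (y n (k + 2)))
            (fun x n' => ?_) (hc.yC n (k + 1) (by omega)) (hc.mm n k (by omega)) (fun hi => ?_)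
          · have a1 := kk_J h hl.toTG (s n) 0 1 (y n k) x 0 n'
            have a2 := kk_J h hl.toTG (s n) 0 1 x (y n (k + 2)) n' 0
            rw [H3_lv0, add_zero] at a1 a2
            show (D0 D).kk ll (s n) 0 1 (y n k) (x + lv D.b n') +
              (D0 D).kk ll (s n) 0 1 (x + lv D.b n') (y n (k + 2)) = _
            rw [a1, a2]
            rfl
          · exact H0 (s n) (hs0 n) ll hl (y n k) (hyR n k (by omega)) (y n (k + 2))
              (hyR n (k + 2) (by omega)) (y n (k + 1)) hi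
  obtain ⟨w, hw1, hw2, hw0, hwv⟩ := H3_seq h hl P Q hh σ τ (fun j => hspos _)
    (fun j => by linarith [(hdur j).1]) hm (fun j => (hnext j).2.2) hsite
  have hPc : ∀ j, ((S j).2 = 0 ∧ ∃ n, (S j).1 = n + 1 ∧ P j = z (n + 1) - D.g) ∨
      ((S j).2 ≠ 0 ∧ P j = y (S j).1 ((S j).2 - 1) ∧ y (S j).1 ((S j).2 - 1) ∈ (D0 D).C p) := by
    intro j
    by_cases h0 : (S j).2 = 0
    · obtain ⟨n, hn⟩ := hSk j h0
      refine Or.inl ⟨h0, n, hn, ?_⟩
      simp only [hPdef]
      unfold H3_P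
      rw [if_pos h0, hn]
    · refine Or.inr ⟨h0, ?_, hc.yC _ _ (by have := hlt j; omega)⟩
      simp only [hPdef]
      unfold H3_P
      rw [if_neg h0]
  refine ⟨τ, w, σ, C, ?_, ?_, hdur, hw1, hc.tend.comp hSt, fun j => ?_, fun j => ?_, fun j => ?_,
    fun j t c ht ht' hle => ?_⟩
  · show H3_A r T (S 0).1 (S 0).2 ≤ 0
    rw [hS0]
    unfold H3_A H3_N
    rw [if_neg (by simp)]
    simp only [Finset.range_zero, Finset.sum_empty]
    push_cast
    norm_num
  · rw [hw0]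
    show H3_P D z y (S 0).1 (S 0).2 = x0
    rw [hS0, ← hc.start]
    rfl
  · show 1 ≤ s (S j).1
    linarith [hs0 (S j).1]
  · rw [hw2]
    have hkl := H3 (s (S j).1) (hs3 _) ll hl (τ j) (τ (j + 1))
      (by linarith [(hdur j).1]) (by linarith [(hdur j).2]) (P j) (by
        rcases hPc j with ⟨_, n, _, h2⟩ | ⟨_, h2, h3⟩
        · rw [h2]
          exact (H3_Md_X hp (hc.zM _)).2
        · rw [h2]
          exact H3_C_X h3) (Q j) (by
        simp only [hQdef]
        unfold H3_Q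
        split_ifs with h0
        · exact (H3_Md_X hp (hc.zM _)).1
        · exact H3_C_X (hc.yC _ _ (by have := hlt j; omega)))
    have hkl2 := (abs_le.1 hkl).2
    show (D0 D).kk ll (s (S j).1) (τ j) (τ (j + 1)) (P j) (Q j) ≤
      L.fl (s (S j).1) (τ j) (τ (j + 1)) + C * s (S j).1
    linarith
  · obtain ⟨v, hv, hwj, _⟩ := hwv j
    rcases hPc j with ⟨h0, n, hn, h2⟩ | ⟨h0, h2, h3⟩
    · have e1 : τ j = r (n + 1) + (H3_N T (n + 1) : ℤ) := by
        show H3_A r T (S j).1 (S j).2 = _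
        unfold H3_A
        rw [if_pos h0, hn]
        ring
      refine H3_Near_sub h (H3_N T (n + 1)) e1 (H3_near hv h.g_mem ?_)
      rw [hwj, h2, add_sub_cancel_right, sub_add_cancel]
      exact H3_nr_Md hp (hc.zM n)
    · have e1 : τ j = 0 + ((H3_N T (S j).1 + 1 + (S j).2 : ℤ) : ℝ) := by
        show H3_A r T (S j).1 (S j).2 = _
        unfold H3_A
        rw [if_neg h0]
        push_cast
        ring
      refine H3_Near_sub h _ e1 (H3_near hv D.Lam.zero_mem ?_)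
      rw [hwj, h2, add_sub_cancel_right, add_zero]
      exact H3_nr_R hp (C_sub h3)
  · obtain ⟨v, hv, hwj, hopt⟩ := hwv j
    have hle2 := hopt t c ht ht' hle
    rw [hkk j] at hle2
    have hτj : τ j = H3_A r T (S j).1 (S j).2 := rfl
    rw [hτj, hτ1] at hle2
    rw [hτj] at ht
    rw [hτ1] at ht'
    have hQe : Q j = H3_Q T z y (S j).1 (S j).2 := rfl
    have hPe : P j = H3_P D z y (S j).1 (S j).2 := rfl
    have hσe : σ j = s (S j).1 := rfl
    rw [hQe, hPe, hσe] at hle2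
    have hlj := hlt j
    have hkj := hSk j
    obtain ⟨n, hn⟩ : ∃ n, n = (S j).1 := ⟨_, rfl⟩
    obtain ⟨k, hk⟩ : ∃ k, k = (S j).2 := ⟨_, rfl⟩
    rw [← hn, ← hk] at hle2 hlj hkj ht ht'
    have hTn := hTp n
    by_cases h0 : k = 0
    · -- leg after a gate
      subst h0
      obtain ⟨n, rfl⟩ := hkj rfl
      refine H3_Near_sub h (t' := t - (H3_N T (n + 1) : ℤ)) (H3_N T (n + 1)) (by ring)
        (H3_near hv h.g_mem ?_)
      by_contra hcon
      have e1 : H3_A r T (n + 1) 0 = r (n + 1) + (H3_N T (n + 1) : ℤ) := by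
        unfold H3_A
        rw [if_pos rfl]
        ring
      have e2 : H3_A' r T (n + 1) 0 = 2 + (H3_N T (n + 1) : ℤ) := by
        unfold H3_A'
        rw [if_neg (by omega)]
        push_cast
        ring
      have e3 : H3_P D z y (n + 1) 0 = z (n + 1) - D.g := if_pos rfl
      have e4 : H3_Q T z y (n + 1) 0 = y (n + 1) 0 := if_neg (by omega)
      rw [e3, e4, H3_leg0 h hl r hTn, e1, e2] at hle2
      rw [e1] at ht
      rw [e2] at ht'
      have e5 : t = (t - (H3_N T (n + 1) : ℤ)) + (H3_N T (n + 1) : ℤ) := by ring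
      have g1 := H6 (s (n + 1)) (hs6 _) ll hl (y (n + 1) 0) (hyR _ _ (by omega)) (r (n + 1))
        (hc.r_nonneg _) (hc.r_lt _).le (z (n + 1)) (hc.zM n) (t - (H3_N T (n + 1) : ℤ))
        (by linarith) (by linarith) (c - v) hcon
      rw [e5, kk_time h hl.toTG, kk_time h hl.toTG] at hle2
      linarith
    · by_cases h1 : k = T n + 1
      · -- leg before a gate
        subst h1
        refine H3_Near_sub h (t' := t - ((H3_N T n + T n + 2 : ℤ) : ℝ)) (H3_N T n + T n + 2)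
          (by ring) (H3_near hv D.Lam.zero_mem ?_)
        rw [add_zero]
        by_contra hcon
        have e1 : H3_A r T n (T n + 1) = 0 + ((H3_N T n + T n + 2 : ℤ) : ℝ) := by
          unfold H3_A
          rw [if_neg (by omega)]
          push_cast
          ring
        have e2 : H3_A' r T n (T n + 1) = (1 + r (n + 1)) + ((H3_N T n + T n + 2 : ℤ) : ℝ) := by
          unfold H3_A'
          rw [if_pos rfl]
          push_cast
          ring
        have e3 : H3_P D z y n (T n + 1) = y n (T n) := by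
          unfold H3_P
          rw [if_neg (by omega)]
          rfl
        have e4 : H3_Q T z y n (T n + 1) = z (n + 1) := if_pos rfl
        rw [e3, e4, H3_leg2 h hl, e1, e2] at hle2
        rw [e1] at ht
        rw [e2] at ht'
        have e5 : t = (t - ((H3_N T n + T n + 2 : ℤ) : ℝ)) + ((H3_N T n + T n + 2 : ℤ) : ℝ) := by
          ring
        have g1 := H5 (s n) (hs5 _) ll hl (y n (T n)) (hyR _ _ le_rfl) (r (n + 1))
          (hc.r_nonneg _) (hc.r_lt _).le (z (n + 1)) (hc.zM n)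
          (t - ((H3_N T n + T n + 2 : ℤ) : ℝ)) (by linarith) (by linarith) (c - v) hcon
        rw [e5, kk_time h hl.toTG, kk_time h hl.toTG] at hle2
        linarith
      · -- leg in the room
        refine H3_Near_sub h (t' := t - ((H3_N T n + 1 + k : ℤ) : ℝ)) (H3_N T n + 1 + k)
          (by ring) (H3_near hv D.Lam.zero_mem ?_)
        rw [add_zero]
        by_contra hcon
        have hout := H3_not_Nr hcon
        have e1 : H3_A r T n k = 0 + ((H3_N T n + 1 + k : ℤ) : ℝ) := by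
          unfold H3_A
          rw [if_neg h0]
          push_cast
          ring
        have e2 : H3_A' r T n k = 1 + ((H3_N T n + 1 + k : ℤ) : ℝ) := by
          unfold H3_A'
          rw [if_neg h1]
          push_cast
          ring
        have e3 : H3_P D z y n k = y n (k - 1) := by
          unfold H3_P
          rw [if_neg h0]
        have e4 : H3_Q T z y n k = y n k := if_neg h1
        rw [e3, e4, H3_leg1 h hl r h0 h1, e1, e2] at hle2
        rw [e1] at ht
        rw [e2] at ht'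
        have e5 : t = (t - ((H3_N T n + 1 + k : ℤ) : ℝ)) + ((H3_N T n + 1 + k : ℤ) : ℝ) := by
          ring
        have g1 := H4 (s n) (hs4 _) ll hl (y n (k - 1)) (hyR _ _ (by omega)) (y n k)
          (hyR _ _ (by omega)) (t - ((H3_N T n + 1 + k : ℤ) : ℝ)) (by linarith) (by linarith)
          (c - v) hout
        rw [e5, kk_time h hl.toTG, kk_time h hl.toTG] at hle2
        linarith

end EscT
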