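import Pool.Agent.EscT.TDefs
import Pool.Agent.EscG.A1
import Pool.Agent.EscT.A2b
import Pool.Agent.EscT.A6
import Pool.Agent.EscT.C6b
import Pool.Agent.EscT.H1
import Pool.Agent.EscT.H3

set_option linter.unusedSectionVars false
set_option linter.unusedVariables false

/-!
Project EscT, module H4: escape (after EscK/H4).
-/

noncomputable section

namespace EscT

open MeasureTheory Set Filter Topology Esc EscF EscG
open scoped ContDiff

variable {ι : Type} [Fintype ι] {d : ℕ} {E : Type*} [NormedAddCommGroup E] [InnerProductSpace ℝ E]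
  [FiniteDimensional ℝ E] {D : GT ι d E} {p : GP} {m M Mf : ℝ} {L : LP} {ll l : E → E → ℝ → ℝ}
  {f f' : E → ℝ → ℝ}

namespace H4

theorem exists_idx {τ : ℕ → ℝ} (hunb : ∀ t, ∃ j, t < τ j) {t : ℝ} (ht : τ 0 ≤ t) :
    ∃ j, τ j ≤ t ∧ t < τ (j + 1) := by
  classical
  obtain ⟨j, hj⟩ := hunb t
  have h1 := Nat.find_spec (⟨j, hj⟩ : ∃ j, t < τ j)
  have h2 : Nat.find (⟨j, hj⟩ : ∃ j, t < τ j) ≠ 0 := by
    intro h0
    rw [h0] at h1
    linarith
  obtain ⟨i, hi⟩ := Nat.exists_eq_succ_of_ne_zero h2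
  refine ⟨i, ?_, ?_⟩
  · by_contra hlt
    rw [not_le] at hlt
    have := Nat.find_min' (⟨j, hj⟩ : ∃ j, t < τ j) hlt
    omega
  · rw [hi] at h1
    exact h1

theorem lower {τ : ℕ → ℝ} (hτ : ∀ j, 1 ≤ τ (j + 1) - τ j) (j : ℕ) : τ 0 + j ≤ τ j := by
  induction j with
  | zero => simp
  | succ j ih =>
    have := hτ j
    push_cast
    linarith

theorem mono_le {τ : ℕ → ℝ} (hτ : ∀ j, 1 ≤ τ (j + 1) - τ j) {i j : ℕ} (h : i ≤ j) : τ i ≤ τ j :=
  (strictMono_nat_of_lt_succ (fun j => by linarith [hτ j])).monotone h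

theorem cbF {β : Module.Basis ι ℝ E} {F : E → E → ℝ} {mF MF : ℝ} (hF : Fins β F mF MF) :
    CB 0 (fun x u (_ : ℝ) => F x u) := by
  refine ⟨?_, fun x u _ => ?_⟩
  · exact hF.cont.comp (continuous_fst.prodMk (continuous_fst.comp continuous_snd))
  · have := hF.low x u
    have h2 := mul_nonneg hF.mF_pos.le (norm_nonneg u)
    simp only [neg_zero]
    linarith

/-- the calibrating function is Lipschitz (copied from EscG/A5a) -/
theorem cal_lip {β : Module.Basis ι ℝ E} {F : E → E → ℝ} {mF MF : ℝ} {b : Fin d → E} {B : E → ℝ}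
    {c : Fin d → ℝ} (hF : Fins β F mF MF) (hB : Cal b F B c) (x y : E) :
    |B x - B y| ≤ MF * ‖x - y‖ := by
  have h1 : ∀ x y : E, B y - B x ≤ MF * ‖y - x‖ := by
    intro x y
    have h2 := hB.cal x (fun _ => (1 / ((1 : ℝ) - 0)) • (y - x)) (Adm.const _) 0 1 zero_le_one
    rw [traj_line x y zero_lt_one] at h2
    refine h2.trans ?_
    have h3 : (∫ t in (0 : ℝ)..1, F (traj 0 x (fun _ => (1 / ((1 : ℝ) - 0)) • (y - x)) t)
        ((1 / ((1 : ℝ) - 0)) • (y - x))) ≤ ∫ _t in (0 : ℝ)..1, MF * ‖y - x‖ := by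
      refine intervalIntegral.integral_mono_on zero_le_one
        ((cbF hF).ii (Adm.const ((1 / ((1 : ℝ) - 0)) • (y - x))) 0 x 0 1) (by simp) fun t _ => ?_
      have h4 := hF.upp (traj 0 x (fun _ => (1 / ((1 : ℝ) - 0)) • (y - x)) t)
        ((1 / ((1 : ℝ) - 0)) • (y - x))
      have h5 : (1 / ((1 : ℝ) - 0)) • (y - x) = y - x := by simp
      rw [h5] at h4 ⊢
      exact h4
    rw [intervalIntegral.integral_const, smul_eq_mul] at h3
    linarith
  rw [abs_le]
  constructor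
  · have := h1 x y
    rw [norm_sub_rev] at this
    linarith
  · exact h1 y x

/-- the displacement is large if the class is large -/
theorem disp_big (h : D.Ok) (hl : FT D m L ll) {s C t t' : ℝ} (hs : 1 ≤ s)
    (h1 : 1 ≤ t' - t) (h2 : t' - t ≤ 2) {z z' : E}
    (hc : kerl ll t t' z z' - s * ((D0 D).B z' - (D0 D).B z) + s ^ 2 / 2 * (t' - t) ≤
      L.fl s t t' + C * s) :
    L.a0 / 2 * s - |C| - 2 * L.A - 2 * gC m L.M ≤ D.MF * ‖z' - z‖ := by
  have hb : -(gC m L.M) * (t' - t) ≤ kerl ll t t' z z' := hl.toTG.cb.kerl_ge (by linarith) z z'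
  have hB : |(D0 D).B z' - (D0 D).B z| ≤ D.MF * ‖z' - z‖ :=
    cal_lip (h.fr0 0).fins (h.fr0 0).cal z' z
  have hB' := (le_abs_self _).trans hB
  have hM : 0 ≤ gC m L.M := by
    have h3 := hl.toTG.M_nonneg
    have h4 := hl.toTG.m_pos
    unfold gC
    positivity
  have hfl := fl_top hl.a_cont hl.a_top hs (by linarith : t ≤ t')
  have hA := hl.A_nonneg
  have ha := hl.a0_pos
  obtain ⟨N, hN⟩ : ∃ N, gC m L.M = N := ⟨_, rfl⟩
  rw [hN] at hb hM ⊢
  have h3 : L.a0 / 2 * s ^ 2 ≤ L.a0 / 2 * s ^ 2 * (t' - t) := by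
    have : 0 ≤ L.a0 / 2 * s ^ 2 := by positivity
    nlinarith
  have h4 : -(2 * N) ≤ -N * (t' - t) := by nlinarith
  have h5 : s * ((D0 D).B z' - (D0 D).B z) ≤ s * (D.MF * ‖z' - z‖) :=
    mul_le_mul_of_nonneg_left hB' (by linarith)
  have h6 : C * s ≤ |C| * s := mul_le_mul_of_nonneg_right (le_abs_self C) (by linarith)
  have h7 : 2 * N ≤ 2 * N * s := by nlinarith
  have h9 : L.A * s * (t' - t) ≤ 2 * L.A * s := by
    have : 0 ≤ L.A * s := by positivity
    nlinarith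
  have e : (s ^ 2 / 2 * (1 - L.a0) + L.A * s) * (t' - t) =
      s ^ 2 / 2 * (t' - t) - L.a0 / 2 * s ^ 2 * (t' - t) + L.A * s * (t' - t) := by ring
  rw [e] at hfl
  have h8 : s * (L.a0 / 2 * s - |C| - 2 * L.A - 2 * N) ≤ s * (D.MF * ‖z' - z‖) := by nlinarith
  exact le_of_mul_le_mul_left h8 (by linarith)

/-- a continuous curve with continuous velocity is a controlled curve -/
theorem adm_of_cont {a b : ℝ} (hab : a < b) {x v : ℝ → E} (hx : ContinuousOn x (Icc a b))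
    (hv : ContinuousOn v (Icc a b)) (hd : ∀ t ∈ Ioo a b, HasDerivAt x (v t) t) :
    ∃ u : ℝ → E, Adm u ∧ (∀ t ∈ Icc a b, u t = v t) ∧ ∀ t ∈ Icc a b, traj a (x a) u t = x t := by
  have hcl : ∀ t, max a (min b t) ∈ Icc a b := fun t =>
    ⟨le_max_left _ _, max_le hab.le (min_le_left _ _)⟩
  have hcl2 : ∀ t ∈ Icc a b, max a (min b t) = t := fun t ht => by
    rw [min_eq_right ht.2, max_eq_right ht.1]
  have huc : Continuous (fun t => v (max a (min b t))) := by
    have h1 : Continuous (fun t : ℝ => max a (min b t)) :=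
      continuous_const.max (continuous_const.min continuous_id)
    exact hv.comp_continuous h1 hcl
  obtain ⟨C, hC⟩ := isCompact_Icc.exists_bound_of_continuousOn hv
  refine ⟨fun t => v (max a (min b t)), ⟨huc.stronglyMeasurable, C, fun t => hC _ (hcl t)⟩,
    fun t ht => by show v (max a (min b t)) = v t; rw [hcl2 t ht], fun t ht => ?_⟩
  have h1 : (∫ r in a..t, v (max a (min b r))) = ∫ r in a..t, v r := by
    apply intervalIntegral.integral_congr
    intro r hr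
    rw [uIcc_of_le ht.1] at hr
    show v (max a (min b r)) = v r
    rw [hcl2 r ⟨hr.1, hr.2.trans ht.2⟩]
  have h2 : (∫ r in a..t, v r) = x t - x a := by
    have hsub : Icc a t ⊆ Icc a b := Icc_subset_Icc_right ht.2
    refine intervalIntegral.integral_eq_sub_of_hasDerivAt_of_le ht.1 (hx.mono hsub)
      (fun s hs => hd s ⟨hs.1, hs.2.trans_le ht.2⟩) ?_
    apply ContinuousOn.intervalIntegrable
    rw [uIcc_of_le ht.1]
    exact hv.mono hsub
  unfold traj
  rw [h1, h2]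
  abel

/-- the kernels of the two parts of an optimal leg -/
theorem split_le {M' : ℝ} (hl : CB M' ll) {a b : ℝ} (hab : a < b) {x v : ℝ → E}
    (hx : ContinuousOn x (Icc a b)) (hv : ContinuousOn v (Icc a b))
    (hd : ∀ t ∈ Ioo a b, HasDerivAt x (v t) t)
    (hk : ∫ t in a..b, ll (x t) (v t) t = kerl ll a b (x a) (x b)) {t : ℝ} (h1 : a < t)
    (h2 : t < b) :
    kerl ll a t (x a) (x t) + kerl ll t b (x t) (x b) ≤ kerl ll a b (x a) (x b) := by
  obtain ⟨u, hu, hu1, hu2⟩ := adm_of_cont hab hx hv hd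
  have h3 := hl.add_kerl_le h1 h2 (x a) hu
  rw [hu2 t ⟨h1.le, h2.le⟩, hu2 b ⟨hab.le, le_rfl⟩] at h3
  refine h3.trans (le_of_eq ?_)
  rw [← hk]
  unfold actl
  apply intervalIntegral.integral_congr
  intro r hr
  rw [uIcc_of_le hab.le] at hr
  show ll (traj a (x a) u r) (u r) r = ll (x r) (v r) r
  rw [hu1 r hr, hu2 r hr]

end H4

open H4 in
theorem escapes_of_stages (h : D.Ok) (hp : POk D p) (hl : FT D m L l) (Mf : ℝ) :
    ∃ q0 : ℕ, ∀ q1 : ℕ, q0 ≤ q1 → ∀ f, Pt D.β f → Good Mf f →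
      (∀ q : ℕ, q1 ≤ q → Stage D p (lf l f) q) → ∀ x0 ∈ (D0 D).C p, EscapesFrom l f x0 (Near D p) := by
  obtain ⟨s0, hs0, hseq⟩ := chs_seq h hp m (L + Mf)
  refine ⟨⌈s0⌉₊, fun q1 hq1 f hf hg hS x0 hx0 => ?_⟩
  have hll : FT D m (L + Mf) (lf l f) := FT.add h.toOk0 hl hf hg
  obtain ⟨s, r, T, z, y, hchn, hsn⟩ := exists_chs h hp hll q1 hS hx0
  obtain ⟨τ, w, σ, C, hτ0, hw0, hτ, hmin, hσ, hσge, hcost, hnear, hleg⟩ :=
    hseq (lf l f) hll x0 s r T z y hchn (fun n =>
      ((Nat.le_ceil s0).trans (Nat.cast_le.2 hq1)).trans (hsn n))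
  obtain ⟨x, v, hxc, hx, hv, hel, hxw, hact, c, C', hc, hsp⟩ :=
    orbit_of_sitewise hll.toTG one_pos τ hτ w hmin
  have hτ1 : ∀ j, 1 ≤ τ (j + 1) - τ j := fun j => (hτ j).1
  have hτlt : ∀ j, τ j < τ (j + 1) := fun j => by linarith [hτ1 j]
  have h0j : ∀ j : ℕ, τ 0 ≤ τ j := fun j => mono_le hτ1 (Nat.zero_le j)
  have hunb : ∀ t, ∃ j, t < τ j := by
    intro t
    obtain ⟨n, hn⟩ := exists_nat_gt (t - τ 0)
    exact ⟨n, by linarith [lower hτ1 n]⟩
  have hMF : 0 < D.MF := (h.fr0 0).fins.mF_pos.trans_le (h.fr0 0).fins.mF_le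
  refine ⟨τ 0, x, v, hτ0, by rw [hxw 0, hw0], hxc, hx, hv, fun t ht => ?_, fun t ht => ?_, ?_⟩
  · have h1 := hel t ht
    have h2 : (fun t => gu (lf l f) (x t) (v t) t) = fun t => gu l (x t) (v t) t := by
      funext t
      exact gu_lf hl.toTG _ _ _
    rwa [h2] at h1
  · -- the orbit stays near the passages
    obtain ⟨j, hj1, hj2⟩ := exists_idx hunb ht
    rcases hj1.eq_or_lt with h1 | h1
    · rw [← h1, hxw j]
      exact hnear j
    · refine hleg j t (x t) h1 hj2 ?_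
      have hsub : Icc (τ j) (τ (j + 1)) ⊆ Ici (τ 0) := fun s hs => (h0j j).trans hs.1
      have h2 := split_le hll.toTG.cb (hτlt j) (hxc.mono hsub) (hv.mono hsub)
        (fun s hs => hx s ((h0j j).trans_lt hs.1)) (by rw [hact j, hxw, hxw]) h1 hj2
      rwa [hxw, hxw] at h2
  · -- the speed tends to infinity
    rw [tendsto_atTop]
    intro b
    have ha := hll.a0_pos
    set K : ℝ := 2 * (L + Mf).A + 2 * gC m (L + Mf).M with hK
    set N := Real.sqrt (max 0 ((b ^ 2 + C') / c)) with hN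
    obtain ⟨j0, hj0⟩ := eventually_atTop.1 (tendsto_atTop.1 hσ
      (max 1 (2 / (L + Mf).a0 * (|C| + K + D.MF * N))))
    filter_upwards [eventually_ge_atTop (τ j0), eventually_ge_atTop (τ 0)] with t ht ht0
    obtain ⟨j, hj1, hj2⟩ := exists_idx hunb ht0
    have hj : j0 ≤ j := by
      by_contra hlt
      rw [not_le] at hlt
      have := mono_le hτ1 (Nat.succ_le_of_lt hlt)
      simp only [Nat.succ_eq_add_one] at this
      linarith
    have hσj := hj0 j hj
    have hσ1 : 1 ≤ σ j := (le_max_left _ _).trans hσj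
    have hσ2 : |C| + K + D.MF * N ≤ (L + Mf).a0 / 2 * σ j := by
      have h0 : 2 / (L + Mf).a0 * (|C| + K + D.MF * N) ≤ σ j := (le_max_right _ _).trans hσj
      have h1 := mul_le_mul_of_nonneg_left h0 (half_pos ha).le
      have e : (L + Mf).a0 / 2 * (2 / (L + Mf).a0 * (|C| + K + D.MF * N)) =
          |C| + K + D.MF * N := by field_simp
      rwa [e] at h1
    have h1 := disp_big h hll hσ1 (hτ j).1 (hτ j).2 (hcost j)
    have h2 : N ≤ ‖w (j + 1) - w j‖ := by
      refine le_of_mul_le_mul_left ?_ hMF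
      linarith
    have h3 : max 0 ((b ^ 2 + C') / c) ≤ ‖w (j + 1) - w j‖ ^ 2 := by
      rw [← Real.sq_sqrt (le_max_left 0 ((b ^ 2 + C') / c))]
      exact pow_le_pow_left₀ (Real.sqrt_nonneg _) h2 2
    have h4 : b ^ 2 + C' ≤ c * ‖w (j + 1) - w j‖ ^ 2 := by
      have := (le_max_right 0 ((b ^ 2 + C') / c)).trans h3
      rw [div_le_iff₀ hc] at this
      linarith
    have h5 := hsp j t ⟨hj1, hj2.le⟩
    exact (le_abs_self b).trans (abs_le_of_sq_le_sq (by linarith) (norm_nonneg _))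

end EscT
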