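import Pool.Agent.EscT.TDefs
import Pool.Agent.EscT.A5a
import Pool.Agent.EscT.C1
import Pool.Agent.EscT.C2
import Pool.Agent.EscT.C4
import Pool.Agent.EscT.C5
import Pool.Agent.EscT.C6
import Pool.Agent.EscT.C6b
import Pool.Agent.EscT.C7b
import Pool.Agent.EscT.C8
import Pool.Agent.EscT.C11a
import Pool.Agent.EscT.C11b
import Pool.Agent.EscT.C12
import Pool.Agent.EscG.A1
import Pool.Agent.helper1.Esc.ModD

/-!
Project EscT (MP_6acca1_an), module C13: a slice well inside of the gate.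
-/

noncomputable section

set_option linter.unusedSectionVars false

namespace EscT

open MeasureTheory Set Filter Topology Esc EscF EscG
open scoped ContDiff

variable {ι : Type} [Fintype ι] {d : ℕ} {E : Type*} [NormedAddCommGroup E] [InnerProductSpace ℝ E]
  [FiniteDimensional ℝ E] {D : GT ι d E} {p : GP} {m M : ℝ} {L : LP} {ll : E → E → ℝ → ℝ}

theorem C13_lv0 (b : Fin d → E) : lv b (0 : Fin d → ℤ) = 0 := by simp [lv]

theorem C13_lv_neg (b : Fin d → E) (n : Fin d → ℤ) : lv b (-n) = -lv b n := by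
  unfold lv
  rw [← Finset.sum_neg_distrib]
  refine Finset.sum_congr rfl fun i _ => ?_
  simp

theorem C13_lv_add (b : Fin d → E) (n n' : Fin d → ℤ) : lv b (n + n') = lv b n + lv b n' := by
  unfold lv
  rw [← Finset.sum_add_distrib]
  refine Finset.sum_congr rfl fun i _ => ?_
  simp [add_smul]

theorem C13_InJ_add {v v' : E} (h : D.InJ v) (h' : D.InJ v') : D.InJ (v + v') := by
  obtain ⟨n, rfl⟩ := h
  obtain ⟨n', rfl⟩ := h'
  exact ⟨n + n', (C13_lv_add _ _ _).symm⟩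

theorem C13_InJ_neg {v : E} (h : D.InJ v) : D.InJ (-v) := by
  obtain ⟨n, rfl⟩ := h
  exact ⟨-n, (C13_lv_neg _ _).symm⟩

/-- `v` in the fast lattice, `v'` not -/
theorem C13_nJ {v v' : E} (h : D.InJ v) (h' : ¬ D.InJ v') : ¬ D.InJ (v' - v) := fun h2 => h' (by
  have := C13_InJ_add h2 h
  rwa [sub_add_cancel] at this)

theorem C13_nJ' {v v' : E} (h : ¬ D.InJ v) (h' : D.InJ v') : ¬ D.InJ (v' - v) := fun h2 => h (by
  have := C13_InJ_add (C13_InJ_neg h2) h'
  rwa [neg_sub, sub_add_cancel] at this)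

theorem C13_qJ (h : D.Ok) (t : ℝ) {v : E} (hv : D.InJ v) (y : E) :
    D.j t (D.q t + v) y = D.j t (D.q t) y ∧ D.j t y (D.q t + v) = D.j t y (D.q t) := by
  obtain ⟨n, rfl⟩ := hv
  constructor
  · have := j_J h.toOk0 t (D.q t) y n 0
    rwa [C13_lv0, add_zero] at this
  · have := j_J h.toOk0 t y (D.q t) 0 n
    rwa [C13_lv0, add_zero] at this

theorem C13_rr (h : D.Ok) (t : ℝ) {v v' : E} (hv : v ∈ D.Lam) (hv' : v' ∈ D.Lam)
    (hJ : ¬ D.InJ (v' - v)) : D.Us ≤ D.j t (D.q t + v) (D.q t + v') := by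
  have h1 := Us_le h t (D.Lam.sub_mem hv' hv) hJ
  have h2 := j_Lam h.toOk0 hv t (D.q t) (D.q t + (v' - v))
  rw [add_assoc, sub_add_cancel] at h2
  rwa [← h2] at h1

theorem C13_j1 (h : D.Ok) (r : ℝ) (x x' : E) : D.j (1 + r) x x' = D.j r x x' := by
  have := j_per h.toOk0 r 1 x x'
  rwa [Int.cast_one, add_comm r] at this

theorem C13_q1 (h : D.Ok) (r : ℝ) : D.q (1 + r) = D.q r := by
  rw [add_comm]
  exact h.q_per r

theorem C13_j2 (h : D.Ok) (x x' : E) : D.j 2 x x' = D.j 0 x x' := by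
  have := C13_j1 h 1 x x'
  rw [show (1:ℝ) + 1 = 2 by norm_num] at this
  rw [this]
  have := C13_j1 h 0 x x'
  rwa [add_zero] at this

theorem C13_q2 (h : D.Ok) : D.q 2 = D.q 0 := by
  have := C13_q1 h 1
  rw [show (1:ℝ) + 1 = 2 by norm_num] at this
  rw [this]
  have := C13_q1 h 0
  rwa [add_zero] at this

/-- a piece with cost `N` above the flux -/
def C13_Pc (D : GT ι d E) (τ ε t t' : ℝ) (x x' : E) (N : ℝ) : Prop :=
  (t' - t ≤ τ ∧ D.j t x x' ≤ N + ε) ∨ ∃ v ∈ D.Lam, ∃ v' ∈ D.Lam,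
    (D.InJ (v' - v) ∨ D.j t x (D.q t + v) + D.Us + D.j t' (D.q t' + v') x' ≤ N + ε) ∧
    D.j t x (D.q t + v) + D.j t' (D.q t' + v') x' ≤ N + ε

theorem C13_Pc_nonneg (h : D.Ok) {τ ε t t' : ℝ} {x x' : E} {N : ℝ} (H : C13_Pc D τ ε t t' x x' N) :
    0 ≤ N + ε := by
  rcases H with ⟨-, H⟩ | ⟨v, -, v', -, -, H⟩
  · exact (j_nonneg h.toOk0 _ _ _).trans H
  · have h1 := j_nonneg h.toOk0 t x (D.q t + v)
    have h2 := j_nonneg h.toOk0 t' (D.q t' + v') x'
    linarith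

theorem C13_sg (h : D.Ok) (t : ℝ) (w y : E) : D.j t w (y + D.g) = D.j t (w - D.g) y := by
  have := j_Lam h.toOk0 h.g_mem t (w - D.g) y
  rwa [sub_add_cancel] at this

/-- continuity of the passing costs -/
def C13_Jc (D : GT ι d E) (τ ε ρ : ℝ) : Prop := ∀ t t', |t - t'| ≤ τ →
    (∀ x ∈ D.X ρ, ∀ x' ∈ D.X ρ, |D.j t x x' - D.j t' x x'| ≤ ε) ∧
    (∀ x ∈ D.X ρ, |D.j t (D.q t) x - D.j t' (D.q t') x| ≤ ε) ∧
    ∀ x ∈ D.X ρ, |D.j t x (D.q t) - D.j t' x (D.q t')| ≤ ε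

/-- the first leg -/
theorem C13_coreA (h : D.Ok) (hp : POk D p) {ε τ ρ CC : ℝ} (hε : 0 < ε) (hεκ : 100 * ε ≤ p.κ)
    (hjc : C13_Jc D τ ε ρ) (hρ : ∀ t w, D.j t (D.q t) w ≤ CC → w ∈ D.X ρ)
    (hCC : D.Us + 4 * p.κ ≤ CC) (hX : D.X p.ρ ⊆ D.X ρ)
    (hMd : ∀ r t w, w ∈ Md D p r → |t - r| ≤ τ → w ∈ D.Mg t (p.ηc / 2) (2 * p.κ))
    (hτ : 0 ≤ τ) {r : ℝ} {w : E} (hw : w ∈ Md D p r) (hw1 : w ∈ Md D p (1 + r)) {x : E}
    (hx : Metric.infDist x (D.Z 0) ≤ p.η1) {w' : E} {t : ℝ} (ht0 : 0 < t) (ht : t ≤ 1 + r)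
    (hw' : p.ηc / 4 ≤ Metric.infDist w' (D.Z t)) {N1 N2 : ℝ} (P1 : C13_Pc D τ ε 0 t x w' N1)
    (P2 : C13_Pc D τ ε t (1 + r) w' w N2)
    (hN : N1 + N2 ≤ D.j r (D.q r) w + D.j 0 x (D.q 0) + 3 * ε) :
    1 + r - t ≤ τ ∧ D.j t (D.q t) w' + D.j t w' (D.q t + D.g) ≤
      D.j r (D.q r) w + D.j r w (D.q r + D.g) + p.κ / 4 := by
  have hκ := hp.κ_pos
  have hom := hp.om_le
  have hκe := hp.κ_le
  have hUs := hp.e_le
  obtain ⟨ha, hb⟩ := near h.toOk0 0 hx
  set a : ℝ := D.j 0 x (D.q 0) with had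
  set b : ℝ := D.j 0 (D.q 0) x with hbd
  have ha0 : 0 ≤ a := j_nonneg h.toOk0 _ _ _
  have hb0 : 0 ≤ b := j_nonneg h.toOk0 _ _ _
  have hab : a + b ≤ p.κ / 400 := by linarith
  have hwr : w ∈ D.Mg r (p.ηc / 2) (2 * p.κ) := hMd r r w hw (by simpa using hτ)
  have hwX : w ∈ D.X ρ := hX (by simpa using hp.bnd r w (Or.inr hwr) 0 (by norm_num))
  have hwgX : w - D.g ∈ D.X ρ := hX (by
    have := hp.bnd r w (Or.inr hwr) (-1) (by norm_num)
    simpa [sub_eq_add_neg] using this)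
  have hwU : D.j r (D.q r) w + D.j r w (D.q r + D.g) ≤ D.Us + 2 * p.κ := hwr.2
  have hwg0 := j_nonneg h.toOk0 r w (D.q r + D.g)
  have hN1 := C13_Pc_nonneg h P1
  have hN2 := C13_Pc_nonneg h P2
  -- costs at the end of the first leg
  have hend : ∀ v2' ∈ D.Lam, ¬ D.InJ v2' →
      D.j r (D.q r) w + p.e / 2 - D.Us ≤ D.j (1 + r) (D.q (1 + r) + v2') w := by
    intro v hv hJ
    have := no0 h hp hwr hv hJ
    rw [C13_j1 h, C13_q1 h]
    linarith
  have hendJ : ∀ v2', D.InJ v2' → D.j (1 + r) (D.q (1 + r) + v2') w = D.j r (D.q r) w := by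
    intro v hJ
    rw [C13_j1 h, C13_q1 h]
    exact (C13_qJ h r hJ w).1
  -- the start
  have hst : ∀ v ∈ D.Lam, ¬ D.InJ v → D.Us - b ≤ D.j 0 x (D.q 0 + v) := by
    intro v hv hJ
    have h1 := Us_le h 0 hv hJ
    have h2 := j_tri h.toOk0 0 (D.q 0) x (D.q 0 + v)
    linarith
  -- step one
  have I : D.j t (D.q t) w' ≤ N1 + b + 2 * ε := by
    rcases P1 with ⟨h1, h2⟩ | ⟨v, hv, v', hv', h1, h2⟩
    · have h3 := j_tri h.toOk0 0 (D.q 0) x w'
      have h4 : D.j 0 (D.q 0) w' ≤ N1 + b + ε := by linarith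
      have h5 : w' ∈ D.X ρ := hρ 0 w' (by linarith)
      have h6 := (abs_le.1 ((hjc t 0 (by rw [sub_zero, abs_of_pos ht0]; linarith)).2.1 w' h5)).2
      linarith
    · by_cases hJ' : D.InJ v'
      · have h3 := j_nonneg h.toOk0 0 x (D.q 0 + v)
        rw [(C13_qJ h t hJ' w').1] at h2
        linarith
      · exfalso
        have h3 : D.Us - b - ε + D.j t (D.q t + v') w' ≤ N1 := by
          by_cases hJ : D.InJ v
          · rcases h1 with h1 | h1
            · exact absurd h1 (C13_nJ hJ hJ')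
            · have h4 := j_nonneg h.toOk0 0 x (D.q 0 + v)
              linarith
          · have h4 := hst v hv hJ
            linarith
        have h30 := j_nonneg h.toOk0 t (D.q t + v') w'
        rcases P2 with ⟨h4, h5⟩ | ⟨v2, hv2, v2', hv2', h4, h5⟩
        · have h6 := j_tri h.toOk0 t (D.q t + v') w' w
          have hwt : w ∈ D.Mg t (p.ηc / 2) (2 * p.κ) := hMd (1 + r) t w hw1 (by
            rw [abs_sub_comm, abs_of_nonneg (by linarith)]
            exact h4)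
          have h7 := no0 h hp hwt hv' hJ'
          have h8 := (abs_le.1 ((hjc t (1 + r) (by
            rw [abs_sub_comm, abs_of_nonneg (by linarith)]; exact h4)).2.1 w hwX)).1
          rw [C13_j1 h, C13_q1 h] at h8
          linarith
        · have h6 := j_nonneg h.toOk0 t w' (D.q t + v2)
          by_cases hJ2 : D.InJ v2'
          · rw [hendJ v2' hJ2] at h5
            linarith
          · have h7 := hend v2' hv2' hJ2
            linarith
  -- step two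
  rcases P2 with ⟨h4, h5⟩ | ⟨v2, hv2, v2', hv2', h4, h5⟩
  · refine ⟨h4, ?_⟩
    have h6 := j_tri h.toOk0 t w' w (D.q t + D.g)
    have h7 := (abs_le.1 ((hjc t (1 + r) (by
      rw [abs_sub_comm, abs_of_nonneg (by linarith)]; exact h4)).2.2 (w - D.g) hwgX)).2
    rw [C13_j1 h, C13_q1 h, ← C13_sg h, ← C13_sg h] at h7
    linarith
  · exfalso
    by_cases hJ : D.InJ v2
    · have h6 := hp.rt t w' hw'
      rw [(C13_qJ h t hJ w').2] at h4 h5
      by_cases hJ' : D.InJ v2'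
      · rw [hendJ v2' hJ'] at h5
        linarith
      · have h7 := hend v2' hv2' hJ'
        rcases h4 with h4 | h4
        · exact absurd h4 (C13_nJ hJ hJ')
        · linarith
    · have h6 := j_tri h.toOk0 t (D.q t) w' (D.q t + v2)
      have h8 := Us_le h t hv2 hJ
      by_cases hJ' : D.InJ v2'
      · rw [hendJ v2' hJ'] at h4
        rcases h4 with h4 | h4
        · exact absurd h4 (C13_nJ' hJ hJ')
        · linarith
      · have h7 := hend v2' hv2' hJ'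
        linarith

/-- the second leg -/
theorem C13_coreB (h : D.Ok) (hp : POk D p) {ε τ ρ CC J1 : ℝ} (hε : 0 < ε) (hεκ : 100 * ε ≤ p.κ)
    (hjc : C13_Jc D τ ε ρ) (hρ : ∀ t w, D.j t (D.q t) w ≤ CC → w ∈ D.X ρ)
    (hCC : D.Us + 4 * p.κ + J1 ≤ CC) (hX : D.X p.ρ ⊆ D.X ρ)
    (hMd : ∀ r t w, w ∈ Md D p r → |t - r| ≤ τ → w ∈ D.Mg t (p.ηc / 2) (2 * p.κ))
    (hτ : 0 ≤ τ) {r : ℝ} {w : E} (hw : w ∈ Md D p r) (hJ1 : D.j r (D.q r) (w - D.g) ≤ J1) {x' : E}
    (hx' : Metric.infDist x' (D.Z 0) ≤ p.η1) {z : E} {t : ℝ} (ht0 : r < t) (ht : t < 2)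
    (hz : p.ηc / 4 ≤ Metric.infDist z (D.Z t)) {N1 N2 : ℝ}
    (P1 : C13_Pc D τ ε r t (w - D.g) z N1) (P2 : C13_Pc D τ ε t 2 z x' N2)
    (hN : N1 + N2 ≤ D.j r w (D.q r + D.g) + D.j 0 (D.q 0) x' + 3 * ε) :
    t - r ≤ τ ∧ D.j t (D.q t) (z + D.g) + D.j t (z + D.g) (D.q t + D.g) ≤
      D.j r (D.q r) w + D.j r w (D.q r + D.g) + p.κ / 4 := by
  have hκ := hp.κ_pos
  have hom := hp.om_le
  have hκe := hp.κ_le
  have hUs := hp.e_le
  obtain ⟨hb, ha⟩ := near h.toOk0 0 hx'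
  set a : ℝ := D.j 0 (D.q 0) x' with had
  set b : ℝ := D.j 0 x' (D.q 0) with hbd
  have ha0 : 0 ≤ a := j_nonneg h.toOk0 _ _ _
  have hb0 : 0 ≤ b := j_nonneg h.toOk0 _ _ _
  have hab : a + b ≤ p.κ / 400 := by linarith
  have hwr : w ∈ D.Mg r (p.ηc / 2) (2 * p.κ) := hMd r r w hw (by simpa using hτ)
  have hwX : w ∈ D.X ρ := hX (by simpa using hp.bnd r w (Or.inr hwr) 0 (by norm_num))
  have hwgX : w - D.g ∈ D.X ρ := hX (by
    have := hp.bnd r w (Or.inr hwr) (-1) (by norm_num)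
    simpa [sub_eq_add_neg] using this)
  have hx'X : x' ∈ D.X ρ := hX (by
    have h1 : x' ∈ D.Rm 0 p.ηc := by
      show Metric.infDist x' (D.Z 0) ≤ p.ηc
      have h2 := hp.η1_le
      have h3 := hp.η1_pos
      linarith
    simpa using hp.bnd 0 x' (Or.inl h1) 0 (by norm_num))
  have hwU : D.j r (D.q r) w + D.j r w (D.q r + D.g) ≤ D.Us + 2 * p.κ := hwr.2
  have hwg0 := j_nonneg h.toOk0 r (D.q r) w
  have hN1 := C13_Pc_nonneg h P1
  have hN2 := C13_Pc_nonneg h P2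
  -- costs at the start of the second leg
  have hst : ∀ v ∈ D.Lam, ¬ D.InJ v →
      D.j r w (D.q r + D.g) + p.e / 2 - D.Us ≤ D.j r (w - D.g) (D.q r + v) := by
    intro v hv hJ
    have := no1 h hp hwr hv hJ
    rw [C13_sg h r w (D.q r + v)] at this
    linarith
  have hstJ : ∀ v, D.InJ v → D.j r (w - D.g) (D.q r + v) = D.j r w (D.q r + D.g) := by
    intro v hJ
    rw [(C13_qJ h r hJ _).2, ← C13_sg h]
  -- the end
  have hend : ∀ v ∈ D.Lam, ¬ D.InJ v → D.Us - b ≤ D.j 2 (D.q 2 + v) x' := by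
    intro v hv hJ
    rw [C13_j2 h, C13_q2 h]
    have h1 := C13_rr h 0 hv (D.Lam.zero_mem) (v' := 0) (by
      rw [zero_sub]
      exact fun h2 => hJ (by simpa using C13_InJ_neg h2))
    rw [add_zero] at h1
    have h2 := j_tri h.toOk0 0 (D.q 0 + v) x' (D.q 0)
    linarith
  -- step one
  have I : D.j t z (D.q t) ≤ N2 + b + 2 * ε := by
    rcases P2 with ⟨h1, h2⟩ | ⟨v, hv, v', hv', h1, h2⟩
    · have h3 := j_tri h.toOk0 t z x' (D.q t)
      have h6 := (abs_le.1 ((hjc t 2 (by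
        rw [abs_sub_comm, abs_of_pos (by linarith)]; linarith)).2.2 x' hx'X)).2
      rw [C13_j2 h, C13_q2 h] at h6
      linarith
    · by_cases hJ : D.InJ v
      · have h3 := j_nonneg h.toOk0 2 (D.q 2 + v') x'
        rw [(C13_qJ h t hJ z).2] at h2
        linarith
      · exfalso
        have h3 : D.Us - b - ε + D.j t z (D.q t + v) ≤ N2 := by
          by_cases hJ' : D.InJ v'
          · rcases h1 with h1 | h1
            · exact absurd h1 (C13_nJ' hJ hJ')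
            · have h4 := j_nonneg h.toOk0 2 (D.q 2 + v') x'
              linarith
          · have h4 := hend v' hv' hJ'
            linarith
        have h30 := j_nonneg h.toOk0 t z (D.q t + v)
        rcases P1 with ⟨h4, h5⟩ | ⟨v1, hv1, v1', hv1', h4, h5⟩
        · have hzX : z ∈ D.X ρ := hρ r z (by
            have := j_tri h.toOk0 r (D.q r) (w - D.g) z
            linarith)
          have hwt : w ∈ D.Mg t (p.ηc / 2) (2 * p.κ) := hMd r t w hw (by
            rw [abs_of_pos (by linarith)]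
            exact h4)
          have habs : |t - r| ≤ τ := by
            rw [abs_of_pos (by linarith)]
            exact h4
          have h6 := (abs_le.1 ((hjc t r habs).1 (w - D.g) hwgX z hzX)).2
          have h7 := no1 h hp hwt hv hJ
          rw [C13_sg h t w (D.q t + v)] at h7
          have h8 := j_tri h.toOk0 t (w - D.g) z (D.q t + v)
          have h9 := (abs_le.1 ((hjc t r habs).2.2 (w - D.g) hwgX)).1
          rw [← C13_sg h, ← C13_sg h] at h9
          linarith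
        · have h6 := j_nonneg h.toOk0 t (D.q t + v1') z
          by_cases hJ2 : D.InJ v1
          · rw [hstJ v1 hJ2] at h5
            linarith
          · have h7 := hst v1 hv1 hJ2
            linarith
  -- step two
  rcases P1 with ⟨h4, h5⟩ | ⟨v1, hv1, v1', hv1', h4, h5⟩
  · refine ⟨h4, ?_⟩
    have habs : |t - r| ≤ τ := by
      rw [abs_of_pos (by linarith)]
      exact h4
    have hzX : z ∈ D.X ρ := hρ r z (by
      have := j_tri h.toOk0 r (D.q r) (w - D.g) z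
      linarith)
    have h6 := j_tri h.toOk0 t (D.q t) w (z + D.g)
    have h7 := (abs_le.1 ((hjc t r habs).1 (w - D.g) hwgX z hzX)).2
    rw [← C13_sg h t w z] at h7
    have h8 := (abs_le.1 ((hjc t r habs).2.1 w hwX)).2
    have h9 : D.j t (z + D.g) (D.q t + D.g) = D.j t z (D.q t) := j_Lam h.toOk0 h.g_mem t z (D.q t)
    rw [h9]
    linarith
  · exfalso
    by_cases hJ' : D.InJ v1'
    · have h6 := hp.rt t z hz
      rw [(C13_qJ h t hJ' z).1] at h4 h5
      by_cases hJ : D.InJ v1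
      · rw [hstJ v1 hJ] at h5
        linarith
      · have h7 := hst v1 hv1 hJ
        rcases h4 with h4 | h4
        · exact absurd h4 (C13_nJ' hJ hJ')
        · linarith
    · have h6 := j_tri h.toOk0 t (D.q t + v1') z (D.q t)
      have h8 := C13_rr h t hv1' (D.Lam.zero_mem) (v' := 0) (by
        rw [zero_sub]
        exact fun h2 => hJ' (by simpa using C13_InJ_neg h2))
      rw [add_zero] at h8
      by_cases hJ : D.InJ v1
      · rw [hstJ v1 hJ] at h4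
        rcases h4 with h4 | h4
        · exact absurd h4 (C13_nJ hJ hJ')
        · linarith
      · have h7 := hst v1 hv1 hJ
        linarith

/-- position at time one, first leg -/
theorem C13_midA (h : D.Ok) (hp : POk D p) {ε τ : ℝ} (hε : 0 < ε) (hεκ : 100 * ε ≤ p.κ)
    {r : ℝ} {w : E} (hwr : w ∈ D.Mg r (p.ηc / 2) (2 * p.κ)) {x y : E}
    (hx : Metric.infDist x (D.Z 0) ≤ p.η1) (hτ1 : τ < 1) (hτr : τ < r) {N1 N2 : ℝ}
    (P1 : C13_Pc D τ ε 0 1 x y N1) (P2 : C13_Pc D τ ε 1 (1 + r) y w N2)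
    (hN : N1 + N2 ≤ D.j r (D.q r) w + D.j 0 x (D.q 0) + 3 * ε) :
    D.j 0 (D.q 0) y + D.j 0 y (D.q 0) ≤ 5 * ε := by
  have hκ := hp.κ_pos
  have hom := hp.om_le
  have hκe := hp.κ_le
  have hUs := hp.e_le
  obtain ⟨ha, hb⟩ := near h.toOk0 0 hx
  set a : ℝ := D.j 0 x (D.q 0) with had
  set b : ℝ := D.j 0 (D.q 0) x with hbd
  have ha0 : 0 ≤ a := j_nonneg h.toOk0 _ _ _
  have hb0 : 0 ≤ b := j_nonneg h.toOk0 _ _ _
  have hab : a + b ≤ p.κ / 400 := by linarith
  have hj1 : ∀ z z', D.j 1 z z' = D.j 0 z z' := fun z z' => by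
    have := C13_j1 h 0 z z'
    rwa [add_zero] at this
  have hq1 : D.q 1 = D.q 0 := by
    have := C13_q1 h 0
    rwa [add_zero] at this
  have A1 : a + D.j 0 (D.q 0) y ≤ N1 + ε ∨ D.Us - b ≤ N1 + ε := by
    rcases P1 with ⟨h1, -⟩ | ⟨v, hv, v', hv', h1, h2⟩
    · exfalso
      linarith
    · rw [hj1, hq1] at h1 h2
      have h3 := j_nonneg h.toOk0 0 (D.q 0 + v') y
      by_cases hJ : D.InJ v
      · rw [(C13_qJ h 0 hJ x).2, ← had] at h1 h2
        by_cases hJ' : D.InJ v'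
        · left
          rw [(C13_qJ h 0 hJ' y).1] at h2
          exact h2
        · right
          rcases h1 with h1 | h1
          · exact absurd h1 (C13_nJ hJ hJ')
          · linarith
      · right
        have h4 := Us_le h 0 hv hJ
        have h5 := j_tri h.toOk0 0 (D.q 0) x (D.q 0 + v)
        linarith
  have A2 : D.j 0 y (D.q 0) + D.j r (D.q r) w ≤ N2 + ε ∨ D.j r (D.q r) w + p.e / 2 ≤ N2 + ε ∨
      ∃ v ∈ D.Lam, ¬ D.InJ v ∧ D.j 0 y (D.q 0 + v) + D.j r (D.q r) w + p.e / 2 - D.Us ≤ N2 + ε := by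
    rcases P2 with ⟨h1, -⟩ | ⟨v, hv, v', hv', h1, h2⟩
    · exfalso
      linarith
    · rw [hj1, hq1, C13_j1 h, C13_q1 h] at h1 h2
      have h3 := j_nonneg h.toOk0 0 y (D.q 0 + v)
      by_cases hJ' : D.InJ v'
      · rw [(C13_qJ h r hJ' w).1] at h1 h2
        by_cases hJ : D.InJ v
        · left
          rw [(C13_qJ h 0 hJ y).2] at h2
          exact h2
        · right; right
          refine ⟨v, hv, hJ, ?_⟩
          rcases h1 with h1 | h1
          · exact absurd h1 (C13_nJ' hJ hJ')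
          · linarith
      · have h4 := no0 h hp hwr hv' hJ'
        by_cases hJ : D.InJ v
        · right; left
          rcases h1 with h1 | h1
          · exact absurd h1 (C13_nJ hJ hJ')
          · linarith
        · right; right
          exact ⟨v, hv, hJ, by linarith⟩
  rcases A1 with A1 | A1
  · rcases A2 with A2 | A2 | ⟨v, hv, hJ, A2⟩
    · linarith
    · exfalso
      have h3 := j_nonneg h.toOk0 0 (D.q 0) y
      linarith
    · exfalso
      have h4 := Us_le h 0 hv hJ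
      have h5 := j_tri h.toOk0 0 (D.q 0) y (D.q 0 + v)
      linarith
  · exfalso
    rcases A2 with A2 | A2 | ⟨v, hv, hJ, A2⟩
    · have h3 := j_nonneg h.toOk0 0 y (D.q 0)
      linarith
    · linarith
    · have h3 := j_nonneg h.toOk0 0 y (D.q 0 + v)
      linarith

/-- position at time one, second leg -/
theorem C13_midB (h : D.Ok) (hp : POk D p) {ε τ : ℝ} (hε : 0 < ε) (hεκ : 100 * ε ≤ p.κ)
    {r : ℝ} {w : E} (hwr : w ∈ D.Mg r (p.ηc / 2) (2 * p.κ)) {x' y : E}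
    (hx' : Metric.infDist x' (D.Z 0) ≤ p.η1) (hτ1 : τ < 1) (hτr : τ < 1 - r) {N1 N2 : ℝ}
    (P1 : C13_Pc D τ ε r 1 (w - D.g) y N1) (P2 : C13_Pc D τ ε 1 2 y x' N2)
    (hN : N1 + N2 ≤ D.j r w (D.q r + D.g) + D.j 0 (D.q 0) x' + 3 * ε) :
    D.j 0 (D.q 0) y + D.j 0 y (D.q 0) ≤ 5 * ε := by
  have hκ := hp.κ_pos
  have hom := hp.om_le
  have hκe := hp.κ_le
  have hUs := hp.e_le
  obtain ⟨hb, ha⟩ := near h.toOk0 0 hx'
  set a : ℝ := D.j 0 (D.q 0) x' with had
  set b : ℝ := D.j 0 x' (D.q 0) with hbd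
  have ha0 : 0 ≤ a := j_nonneg h.toOk0 _ _ _
  have hb0 : 0 ≤ b := j_nonneg h.toOk0 _ _ _
  have hab : a + b ≤ p.κ / 400 := by linarith
  have hj1 : ∀ z z', D.j 1 z z' = D.j 0 z z' := fun z z' => by
    have := C13_j1 h 0 z z'
    rwa [add_zero] at this
  have hq1 : D.q 1 = D.q 0 := by
    have := C13_q1 h 0
    rwa [add_zero] at this
  have A2 : D.j 0 y (D.q 0) + a ≤ N2 + ε ∨ D.Us - b ≤ N2 + ε := by
    rcases P2 with ⟨h1, -⟩ | ⟨v, hv, v', hv', h1, h2⟩
    · exfalso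
      linarith
    · rw [hj1, hq1, C13_j2 h, C13_q2 h] at h1 h2
      have h3 := j_nonneg h.toOk0 0 y (D.q 0 + v)
      by_cases hJ' : D.InJ v'
      · rw [(C13_qJ h 0 hJ' x').1, ← had] at h1 h2
        by_cases hJ : D.InJ v
        · left
          rw [(C13_qJ h 0 hJ y).2] at h2
          exact h2
        · right
          rcases h1 with h1 | h1
          · exact absurd h1 (C13_nJ' hJ hJ')
          · linarith
      · right
        have h4 := C13_rr h 0 hv' (D.Lam.zero_mem) (v' := 0) (by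
          rw [zero_sub]
          exact fun h2 => hJ' (by simpa using C13_InJ_neg h2))
        rw [add_zero] at h4
        have h5 := j_tri h.toOk0 0 (D.q 0 + v') x' (D.q 0)
        linarith
  have A1 : D.j 0 (D.q 0) y + D.j r w (D.q r + D.g) ≤ N1 + ε ∨
      D.j r w (D.q r + D.g) + p.e / 2 ≤ N1 + ε ∨
      ∃ v ∈ D.Lam, ¬ D.InJ v ∧
        D.j 0 (D.q 0 + v) y + D.j r w (D.q r + D.g) + p.e / 2 - D.Us ≤ N1 + ε := by
    rcases P1 with ⟨h1, -⟩ | ⟨v, hv, v', hv', h1, h2⟩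
    · exfalso
      linarith
    · rw [hj1, hq1] at h1 h2
      have h3 := j_nonneg h.toOk0 0 (D.q 0 + v') y
      by_cases hJ : D.InJ v
      · rw [(C13_qJ h r hJ _).2, ← C13_sg h] at h1 h2
        by_cases hJ' : D.InJ v'
        · left
          rw [(C13_qJ h 0 hJ' y).1] at h2
          linarith
        · right; right
          refine ⟨v', hv', hJ', ?_⟩
          rcases h1 with h1 | h1
          · exact absurd h1 (C13_nJ hJ hJ')
          · linarith
      · have h4 := no1 h hp hwr hv hJ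
        rw [C13_sg h r w (D.q r + v)] at h4
        by_cases hJ' : D.InJ v'
        · right; left
          rcases h1 with h1 | h1
          · exact absurd h1 (C13_nJ' hJ hJ')
          · linarith
        · right; right
          exact ⟨v', hv', hJ', by linarith⟩
  rcases A2 with A2 | A2
  · rcases A1 with A1 | A1 | ⟨v, hv, hJ, A1⟩
    · linarith
    · exfalso
      have h3 := j_nonneg h.toOk0 0 y (D.q 0)
      linarith
    · exfalso
      have h4 := C13_rr h 0 hv (D.Lam.zero_mem) (v' := 0) (by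
        rw [zero_sub]
        exact fun h2 => hJ (by simpa using C13_InJ_neg h2))
      rw [add_zero] at h4
      have h5 := j_tri h.toOk0 0 (D.q 0 + v) y (D.q 0)
      linarith
  · exfalso
    rcases A1 with A1 | A1 | ⟨v, hv, hJ, A1⟩
    · have h3 := j_nonneg h.toOk0 0 (D.q 0) y
      linarith
    · linarith
    · have h3 := j_nonneg h.toOk0 0 (D.q 0 + v) y
      linarith

theorem C13_lf (ll : E → E → ℝ → ℝ) : lf ll (fun _ _ => 0) = ll := by
  funext x u t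
  simp [lf]

theorem C13_pt (β : Module.Basis ι ℝ E) : Pt β (fun (_ : E) (_ : ℝ) => (0:ℝ)) :=
  ⟨contDiff_const, by simp, by simp⟩

omit [FiniteDimensional ℝ E] in
theorem C13_good : Good 0 (fun (_ : E) (_ : ℝ) => (0:ℝ)) :=
  ⟨le_rfl, continuous_const, by simp, by simp, by simp⟩

omit [InnerProductSpace ℝ E] [FiniteDimensional ℝ E] in
theorem C13_cont {f : ℝ → E} {C t t' : ℝ}
    (h : ∀ s ∈ Icc t t', ∀ r ∈ Icc t t', ‖f r - f s‖ ≤ C * |r - s|) : ContinuousOn f (Icc t t') := by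
  have : LipschitzOnWith (Real.toNNReal C) f (Icc t t') := by
    refine LipschitzOnWith.of_dist_le_mul fun x hx y hy => ?_
    rw [dist_eq_norm, Real.dist_eq, Real.coe_toNNReal']
    exact (h y hy x hx).trans (mul_le_mul_of_nonneg_right (le_max_left _ _) (abs_nonneg _))
  exact this.continuousOn

theorem C13_geo (h : D.Ok) (hl : TG D.β m M ll) {ρ s t t' : ℝ} (hs : 0 ≤ s)
    (h1 : 1 / 4 ≤ t' - t) (h2 : t' - t ≤ 4) {z z' : E} (hz : z ∈ D.X ρ) (hz' : z' ∈ D.X ρ) :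
    ∃ (n : Fin d → ℤ) (Z : ℝ → E), Z t = z ∧ Z t' = z' + lv D.b n ∧ ContinuousOn Z (Icc t t') ∧
      ∀ a b c, t ≤ a → a < b → b < c → c ≤ t' →
        (D0 D).kk ll s a b (Z a) (Z b) + (D0 D).kk ll s b c (Z b) (Z c) =
          (D0 D).kk ll s a c (Z a) (Z c) := by
  obtain ⟨V, hV, H⟩ := kk_geo h hl le_rfl s ρ
  obtain ⟨n, Z, v, hZt, hZt', hG, hc⟩ := H (fun _ _ => 0) (C13_pt _) C13_good s hs le_rfl t t' h1 h2
    z hz z' hz'
  rw [C13_lf] at hG hc
  have hvc : ContinuousOn v (Icc t t') := by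
    obtain ⟨C, hC⟩ := hG.lip
    exact C13_cont hC
  have hZc : ContinuousOn Z (Icc t t') := by
    refine C13_cont (C := V) fun a ha b hb => ?_
    rw [hG.pos a ha b hb]
    refine intervalIntegral.norm_integral_le_of_norm_le_const fun r hr => hG.bd r ?_
    have h3 := uIoc_subset_uIcc hr
    exact uIcc_subset_Icc ha hb h3
  refine ⟨n, Z, hZt, hZt', hZc, fun a b c ha hab hbc hc' => ?_⟩
  rw [hc a b ha hab (by linarith), hc b c (by linarith) hbc hc', hc a c ha (by linarith) hc']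
  unfold GD.cv
  have hint : ∀ p q, t ≤ p → p ≤ q → q ≤ t' →
      IntervalIntegrable (fun r => ll (Z r) (v r) r) volume p q := by
    intro p q hp hpq hq
    refine ContinuousOn.intervalIntegrable_of_Icc hpq ?_
    refine hl.smooth.continuous.comp_continuousOn (s := Icc p q) (f := fun r => (Z r, v r, r)) ?_
    exact (hZc.mono (Icc_subset_Icc hp hq)).prodMk ((hvc.mono (Icc_subset_Icc hp hq)).prodMk
      continuousOn_id)
  rw [← intervalIntegral.integral_add_adjacent_intervals (hint a b ha hab.le (by linarith))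
    (hint b c (by linarith) hbc.le hc')]
  ring

theorem C13_kd (h : D.Ok) (hp : POk D p) (hl : TG D.β m M ll) {s : ℝ} (hs : 0 ≤ s) :
    ∃ C, KD ((D0 D).k1 ll s) ((D0 D).C p) ((D0 D).R p) C C := by
  obtain ⟨C, -, H⟩ := kd h hp hl le_rfl s
  have := H (fun _ _ => 0) (C13_pt _) C13_good s hs le_rfl
  rw [C13_lf] at this
  exact ⟨C, this⟩

theorem C13_gC0 (hm : 0 < m) (hM : 0 ≤ M) : 0 ≤ gC m M := by
  unfold gC
  positivity

theorem C13_gL {MF s : ℝ} (hm : 0 < m) (hM : 0 ≤ M) (hs : 1 ≤ s) :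
    0 ≤ gL m M MF 1 ∧ gL m M MF s ≤ gL m M MF 1 * s ^ 2 := by
  have h0 := C13_gC0 hm hM
  have h1 : 1 ≤ s ^ 2 := by nlinarith
  constructor
  · unfold gL
    positivity
  · unfold gL
    have h2 : gC m M ≤ gC m M * s ^ 2 := by nlinarith
    calc gC m M + 2 * MF ^ 2 * s ^ 2 / m ≤ gC m M * s ^ 2 + 2 * MF ^ 2 * s ^ 2 / m := by linarith
      _ = _ := by ring

/-- change of class -/
theorem C13_class (h : D.Ok) (hm : 0 < m) (hM : 0 ≤ M) {C0 : ℝ} (hC0 : 0 ≤ C0) : ∃ CI : ℝ, 0 ≤ CI ∧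
    ∀ s s', 1 ≤ s → 0 ≤ s' → |s' - s| ≤ 1 → ∀ ll, TG D.β m M ll → ∀ t t', t < t' →
      t' - t ≤ 4 → ∀ z z', (D0 D).kk ll s t t' z z' ≤ C0 * s ^ 2 →
      (D0 D).kk ll s' t t' z z' ≤ (D0 D).kk ll s t t' z z' + CI * s * |s' - s| := by
  have hmF := (h.fr0 0).fins.mF_pos
  have hMF : 0 < D.MF := hmF.trans_le (h.fr0 0).fins.mF_le
  set K1 : ℝ := gL m M D.MF 1 with hK1
  have hK10 : 0 ≤ K1 := (C13_gL hm hM le_rfl).1
  set A : ℝ := D.MF * Real.sqrt (32 / m * (C0 + 4 * K1)) with hA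
  have hA0 : 0 ≤ A := by positivity
  refine ⟨A + 6, by linarith, fun s s' hs hs' hss ll hl t t' htt ht4 z z' hk => ?_⟩
  have hs0 : 0 ≤ s := by linarith
  have hT : 0 < t' - t := by linarith
  have hB := QB0 h.toOk0 0
  obtain ⟨n, hn⟩ := K_attained (h.fr0 0).li hl hB hs0 htt z z'
  have hn' : (D0 D).kk ll s t t' z z' = kerl ll t t' z (z' + lv D.b n) -
      s * (D.B (z' + lv D.b n) 0 - D.B z 0) + s ^ 2 / 2 * (t' - t) := hn
  have h1 := K_le hl hB hs' htt z z' n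
  have h1' : (D0 D).kk ll s' t t' z z' ≤ kerl ll t t' z (z' + lv D.b n) -
      s' * (D.B (z' + lv D.b n) 0 - D.B z 0) + s' ^ 2 / 2 * (t' - t) := h1
  have h2 := disp_le hl hB hs0 htt z (z' + lv D.b n) (hn'.symm.le.trans hk)
  have h3 : ‖z' + lv D.b n - z‖ ≤ Real.sqrt (32 / m * (C0 + 4 * K1)) * s := by
    have h4 : C0 * s ^ 2 + gL m M D.MF s * (t' - t) ≤ (C0 + 4 * K1) * s ^ 2 := by
      have e2 : gL m M D.MF s * (t' - t) ≤ K1 * s ^ 2 * (t' - t) :=
        mul_le_mul_of_nonneg_right (C13_gL hm hM hs).2 hT.le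
      have e3 : K1 * s ^ 2 * (t' - t) ≤ K1 * s ^ 2 * 4 := mul_le_mul_of_nonneg_left ht4 (by positivity)
      linarith
    have h6 : 8 / m * (C0 * s ^ 2 + gL m M D.MF s * (t' - t)) * (t' - t) ≤
        32 / m * (C0 + 4 * K1) * s ^ 2 := by
      calc 8 / m * (C0 * s ^ 2 + gL m M D.MF s * (t' - t)) * (t' - t) ≤
            8 / m * ((C0 + 4 * K1) * s ^ 2) * 4 := by gcongr
        _ = 32 / m * (C0 + 4 * K1) * s ^ 2 := by ring
    have h7 : ‖z' + lv D.b n - z‖ ^ 2 ≤ 32 / m * (C0 + 4 * K1) * s ^ 2 := h2.trans h6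
    have h8 := Real.abs_le_sqrt h7
    rw [abs_of_nonneg (norm_nonneg _), Real.sqrt_mul (by positivity), Real.sqrt_sq hs0] at h8
    exact h8
  have h5 : |D.B (z' + lv D.b n) 0 - D.B z 0| ≤ A * s := by
    refine (hB.lip _ _).trans ?_
    rw [hA, mul_assoc]
    exact mul_le_mul_of_nonneg_left h3 hMF.le
  have h6 : (D0 D).kk ll s' t t' z z' ≤ (D0 D).kk ll s t t' z z' -
      (s' - s) * (D.B (z' + lv D.b n) 0 - D.B z 0) +
      (s' - s) * ((s' + s) / 2 * (t' - t)) := by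
    rw [hn']
    refine h1'.trans (le_of_eq ?_)
    ring
  have h7 : -((s' - s) * (D.B (z' + lv D.b n) 0 - D.B z 0)) ≤ |s' - s| * (A * s) := by
    refine (neg_le_abs _).trans ?_
    rw [abs_mul]
    exact mul_le_mul_of_nonneg_left h5 (abs_nonneg _)
  have h8 : (s' - s) * ((s' + s) / 2 * (t' - t)) ≤ |s' - s| * (6 * s) := by
    have h9 : (s' + s) / 2 * (t' - t) ≤ 6 * s := by
      have h10 : (s' + s) / 2 ≤ 3 / 2 * s := by
        have := (abs_le.1 hss).2
        linarith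
      calc (s' + s) / 2 * (t' - t) ≤ 3 / 2 * s * 4 := by gcongr
        _ = 6 * s := by ring
    have h11 : 0 ≤ (s' + s) / 2 * (t' - t) := by positivity
    calc (s' - s) * ((s' + s) / 2 * (t' - t)) ≤ |s' - s| * ((s' + s) / 2 * (t' - t)) :=
          mul_le_mul_of_nonneg_right (le_abs_self _) h11
      _ ≤ _ := mul_le_mul_of_nonneg_left h9 (abs_nonneg _)
  calc (D0 D).kk ll s' t t' z z' ≤
      (D0 D).kk ll s t t' z z' + |s' - s| * (A * s) + |s' - s| * (6 * s) := by linarith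
    _ = _ := by ring

theorem C13_RX (hp : POk D p) (_h : D.Ok) {x : E} (hx : x ∈ (D0 D).R p) : x ∈ D.X p.ρ := by
  have h1 : x ∈ D.Rm 0 p.ηc := by
    have h2 : Metric.infDist x (D.Z 0) ≤ p.η1 := hx
    have h3 := hp.η1_le
    have h4 := hp.η1_pos
    show Metric.infDist x (D.Z 0) ≤ p.ηc
    linarith
  have := hp.bnd 0 x (Or.inl h1) 0 (by norm_num)
  simpa using this

/-- change of the critical value -/
theorem C13_al (h : D.Ok) (hp : POk D p) (hm : 0 < m) (hM : 0 ≤ L.M) (hA : 0 ≤ L.A) :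
    ∃ CA s0 : ℝ, 0 ≤ CA ∧ 1 ≤ s0 ∧
    ∀ s s', s0 ≤ s → s0 ≤ s' → |s' - s| ≤ 1 → ∀ ll, FT D m L ll →
      |(D0 D).al p ll s' - (D0 D).al p ll s| ≤ CA * s * |s' - s| := by
  obtain ⟨C0, s0, hC0, hs0, H0⟩ := kk_lin h m L p.ρ
  obtain ⟨CI, hCI, H1⟩ := C13_class (m := m) (M := L.M) h hm hM (C0 := C0 + L.A) (by positivity)
  refine ⟨2 * CI, s0, by positivity, hs0, fun s s' hs hs' hss ll hl => ?_⟩
  obtain ⟨C, hK⟩ := C13_kd h hp hl.toTG (s := s) (by linarith)
  obtain ⟨C', hK'⟩ := C13_kd h hp hl.toTG (s := s') (by linarith)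
  have hb : ∀ σ, s0 ≤ σ → ∀ z ∈ (D0 D).R p, ∀ z' ∈ (D0 D).R p,
      (D0 D).kk ll σ 0 1 z z' ≤ (C0 + L.A) * σ ^ 2 := by
    intro σ hσ z hz z' hz'
    have e1 := (le_abs_self _).trans (H0 σ hσ ll hl 0 1 (by norm_num) (by norm_num) z (C13_RX hp h hz)
      z' (C13_RX hp h hz'))
    have e2 := (le_abs_self _).trans (fl_bd hl.a_bd (s := σ) (by linarith) 0 1)
    rw [sub_zero, abs_one, mul_one] at e2
    have e3 : σ ≤ σ ^ 2 := by nlinarith
    have e4 : C0 * σ ≤ C0 * σ ^ 2 := mul_le_mul_of_nonneg_left e3 hC0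
    linarith
  refine al_sub_le hK' hK fun z hz z' hz' => ?_
  have h1 := H1 s s' (by linarith) (by linarith) hss ll hl.toTG 0 1 one_pos (by norm_num) z z'
    (hb s hs z hz z' hz')
  have h2 := H1 s' s (by linarith) (by linarith) (by rwa [abs_sub_comm]) ll hl.toTG 0 1 one_pos
    (by norm_num) z z' (hb s' hs' z hz z' hz')
  rw [abs_sub_comm s s'] at h2
  have h3 : s' ≤ 2 * s := by
    have := (abs_le.1 hss).2
    linarith
  have h4 : CI * s' * |s' - s| ≤ 2 * CI * s * |s' - s| := by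
    refine mul_le_mul_of_nonneg_right ?_ (abs_nonneg _)
    nlinarith
  have h5 : CI * s * |s' - s| ≤ 2 * CI * s * |s' - s| := by
    refine mul_le_mul_of_nonneg_right ?_ (abs_nonneg _)
    nlinarith
  unfold GD.k1
  rw [abs_le]
  constructor <;> linarith

/-! ### geometry -/

theorem C13_ne (h : D.Ok) (t : ℝ) : (D.Z t).Nonempty := ⟨D.q t, (h.fr0 t).q0_mem⟩

theorem C13_inf_le (h : D.Ok) (t : ℝ) (n : Fin d → ℤ) (x : E) :
    Metric.infDist (x + lv D.b n) (D.Z t) ≤ Metric.infDist x (D.Z t) := by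
  rw [Metric.le_infDist (C13_ne h t)]
  intro z hz
  refine (Metric.infDist_le_dist_of_mem ((h.fr0 t).Z_J n z hz)).trans (le_of_eq ?_)
  show dist (x + lv D.b n) (z + lv D.b n) = dist x z
  rw [dist_add_right]

theorem C13_inf (h : D.Ok) (t : ℝ) (n : Fin d → ℤ) (x : E) :
    Metric.infDist (x + lv D.b n) (D.Z t) = Metric.infDist x (D.Z t) := by
  refine le_antisymm (C13_inf_le h t n x) ?_
  have := C13_inf_le h t (-n) (x + lv D.b n)
  rwa [C13_lv_neg, add_neg_cancel_right] at this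

theorem C13_Zl (h : D.Ok) (t t' : ℝ) (x : E) :
    Metric.infDist x (D.Z t') ≤ Metric.infDist x (D.Z t) + D.A * |t - t'| := by
  have h1 : Metric.infDist x (D.Z t') - D.A * |t - t'| ≤ Metric.infDist x (D.Z t) := by
    rw [Metric.le_infDist (C13_ne h t)]
    intro z hz
    have h2 := Metric.infDist_le_infDist_add_dist (s := D.Z t') (x := x) (y := z)
    have h3 := h.Z_lip t t' z hz
    linarith
  linarith

theorem C13_Zc (h : D.Ok) : Continuous (fun q : ℝ × E => Metric.infDist q.2 (D.Z q.1)) := by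
  have hA := h.A_pos
  have : LipschitzWith (Real.toNNReal (D.A + 1)) (fun q : ℝ × E => Metric.infDist q.2 (D.Z q.1)) := by
    refine LipschitzWith.of_dist_le_mul fun q q' => ?_
    rw [Real.coe_toNNReal _ (by linarith)]
    have e1 : dist q.1 q'.1 ≤ dist q q' := le_max_left _ _
    have e2 : dist q.2 q'.2 ≤ dist q q' := le_max_right _ _
    rw [Real.dist_eq] at e1
    have e3 := C13_Zl h q'.1 q.1 q.2
    have e4 := C13_Zl h q.1 q'.1 q.2
    rw [abs_sub_comm] at e3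
    have e5 := Metric.infDist_le_infDist_add_dist (s := D.Z q'.1) (x := q.2) (y := q'.2)
    have e6 := Metric.infDist_le_infDist_add_dist (s := D.Z q'.1) (x := q'.2) (y := q.2)
    rw [dist_comm] at e6
    have e7 : D.A * |q.1 - q'.1| ≤ D.A * dist q q' := mul_le_mul_of_nonneg_left e1 hA.le
    rw [Real.dist_eq, abs_le]
    constructor <;> linarith
  exact this.continuous

theorem C13_far (h : D.Ok) (hp : POk D p) (t : ℝ) {x v : E} (hv : v ∈ D.Lam) (hvJ : ¬ D.InJ v) {a : ℝ}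
    (ha : Metric.infDist x (D.Z t) < a) : 8 * p.ηc - a ≤ Metric.infDist (x + v) (D.Z t) := by
  obtain ⟨z, hz, hxz⟩ := (Metric.infDist_lt_iff (C13_ne h t)).1 ha
  have h1 := hp.sep t v hv hvJ z hz
  have h2 := Metric.infDist_le_infDist_add_dist (s := D.Z t) (x := z + v) (y := x + v)
  rw [dist_add_right, dist_comm] at h2
  linarith

theorem C13_out (h : D.Ok) (hp : POk D p) (t : ℝ) {w : E} (h1 : 2 * p.ηc ≤ Metric.infDist w (D.Z t))
    (h2 : Metric.infDist w (D.Z t) ≤ 4 * p.ηc) : w ∈ D.Out t (2 * p.ηc) := by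
  intro v hv
  have hc := hp.ηc_pos
  by_cases hJ : D.InJ v
  · obtain ⟨n, rfl⟩ := hJ
    rwa [C13_inf h]
  · have := C13_far h hp t hv hJ (a := 5 * p.ηc) (by linarith)
    linarith

theorem C13_end (h : D.Ok) (hp : POk D p) (t : ℝ) {x : E} (hx : Metric.infDist x (D.Z t) ≤ p.η1) :
    4 * p.ηc < Metric.infDist (x + D.g) (D.Z t) := by
  have hc := hp.ηc_pos
  have h2 := hp.η1_le
  have h3 := hp.η1_pos
  have := C13_far h hp t h.g_mem h.g_not (x := x) (a := p.ηc) (by linarith)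
  linarith

/-- crossing of a shell -/
theorem C13_cross {φ : ℝ → ℝ} {a b u v : ℝ} (hab : a ≤ b) (huv : u < v)
    (hφ : ContinuousOn φ (Icc a b)) (ha : φ a < u) (hb : v < φ b) :
    ∃ t2 t4, a < t2 ∧ t2 < t4 ∧ t4 < b ∧ φ t2 = u ∧ φ t4 = v ∧ ∀ t ∈ Icc t2 t4, u ≤ φ t ∧ φ t ≤ v := by
  -- first time above
  have hc4 : IsCompact (Icc a b ∩ φ ⁻¹' Ici v) :=
    isCompact_Icc.of_isClosed_subset (hφ.preimage_isClosed_of_isClosed isClosed_Icc isClosed_Ici)
      inter_subset_left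
  obtain ⟨t4, ht4, hl4⟩ := hc4.exists_isLeast ⟨b, right_mem_Icc.2 hab, hb.le⟩
  have ht4' : v ≤ φ t4 := ht4.2
  have h4 : φ t4 = v := by
    have h1 : v ∈ φ '' Icc a t4 := intermediate_value_Icc ht4.1.1
      (hφ.mono (Icc_subset_Icc_right ht4.1.2)) ⟨by linarith, ht4'⟩
    obtain ⟨c, hc, hcv⟩ := h1
    have h2 : t4 ≤ c := hl4 ⟨⟨hc.1, hc.2.trans ht4.1.2⟩, hcv.ge⟩
    rw [← hcv, le_antisymm h2 hc.2]
  have hc2 : IsCompact (Icc a t4 ∩ φ ⁻¹' Iic u) :=
    isCompact_Icc.of_isClosed_subset ((hφ.mono (Icc_subset_Icc_right ht4.1.2)).preimage_isClosed_of_isClosed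
      isClosed_Icc isClosed_Iic) inter_subset_left
  obtain ⟨t2, ht2, hg2⟩ := hc2.exists_isGreatest ⟨a, left_mem_Icc.2 ht4.1.1, ha.le⟩
  have ht2' : φ t2 ≤ u := ht2.2
  have h2 : φ t2 = u := by
    have h1 : u ∈ φ '' Icc t2 t4 := intermediate_value_Icc ht2.1.2
      (hφ.mono (Icc_subset_Icc ht2.1.1 ht4.1.2)) ⟨ht2', by linarith⟩
    obtain ⟨c, hc, hcv⟩ := h1
    have h2 : c ≤ t2 := hg2 ⟨⟨ht2.1.1.trans hc.1, hc.2⟩, hcv.le⟩
    rw [← hcv, le_antisymm h2 hc.1]
  refine ⟨t2, t4, lt_of_le_of_ne ht2.1.1 fun he => ?_, lt_of_le_of_ne ht2.1.2 fun he => ?_,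
    lt_of_le_of_ne ht4.1.2 fun he => ?_, h2, h4, fun t ht => ⟨?_, ?_⟩⟩
  · rw [← he] at h2; linarith
  · rw [he] at h2; linarith
  · rw [he] at h4; linarith
  · by_contra hcon
    push Not at hcon
    have h5 : t ≤ t2 := hg2 ⟨⟨ht2.1.1.trans ht.1, ht.2⟩, hcon.le⟩
    have h6 : t = t2 := le_antisymm h5 ht.1
    rw [h6, h2] at hcon
    exact lt_irrefl _ hcon
  · by_contra hcon
    push Not at hcon
    have h5 : t4 ≤ t := hl4 ⟨⟨ht2.1.1.trans ht.1, ht.2.trans ht4.1.2⟩, hcon.le⟩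
    have h6 : t = t4 := le_antisymm ht.2 h5
    rw [h6, h4] at hcon
    exact lt_irrefl _ hcon

theorem C13_slice {t2 t4 : ℝ} {N : ℕ} (hN : 0 < N) (h0 : 0 ≤ t2) (h : 1 ≤ (N:ℝ) * (t4 - t2)) :
    ∃ j : ℕ, t2 ≤ (j:ℝ) / N ∧ (j:ℝ) / N ≤ t4 := by
  have hN' : (0:ℝ) < N := by exact_mod_cast hN
  refine ⟨⌈t2 * N⌉₊, ?_, ?_⟩
  · rw [le_div_iff₀ hN']
    exact Nat.le_ceil _
  · rw [div_le_iff₀ hN']
    have := (Nat.ceil_lt_add_one (mul_nonneg h0 hN'.le)).le
    nlinarith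

theorem C13_frac {N j : ℕ} (hN : 0 < N) {r' : ℝ} (h0 : 0 ≤ r') (h1 : r' < 1)
    (hr : r' = (j:ℝ) / N ∨ r' = (j:ℝ) / N - 1) : ∃ k' < N, (k':ℝ) / N = r' := by
  have hN' : (0:ℝ) < N := by exact_mod_cast hN
  rcases hr with hr | hr
  · refine ⟨j, ?_, hr.symm⟩
    rw [hr, div_lt_one hN'] at h1
    exact_mod_cast h1
  · have h2 : (1:ℝ) ≤ (j:ℝ) / N := by linarith
    rw [le_div_iff₀ hN', one_mul] at h2
    have h3 : N ≤ j := by exact_mod_cast h2
    refine ⟨j - N, ?_, ?_⟩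
    · have h4 : (j:ℝ) / N < 2 := by linarith
      rw [div_lt_iff₀ hN'] at h4
      have h5 : j < 2 * N := by exact_mod_cast h4
      omega
    · rw [Nat.cast_sub h3, hr, sub_div, div_self hN'.ne']

theorem C13_Out_mono {t a b : ℝ} (hab : a ≤ b) {w : E} (hw : w ∈ D.Out t b) : w ∈ D.Out t a :=
  fun v hv => hab.trans (hw v hv)

theorem C13_Out_shift (h : D.Ok) {t a : ℝ} {w : E} (hw : w + D.g ∈ D.Out t a) : w ∈ D.Out t a := by
  intro v hv
  have h1 := hw (v - D.g) (D.Lam.sub_mem hv h.g_mem)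
  rwa [show w + D.g + (v - D.g) = w + v by abel] at h1

theorem C13_Out_inf {t a : ℝ} {w : E} (hw : w ∈ D.Out t a) : a ≤ Metric.infDist w (D.Z t) := by
  have := hw 0 D.Lam.zero_mem
  rwa [add_zero] at this

theorem C13_Mi (hp : POk D p) {t : ℝ} {w : E} (hw : w ∈ Mi D p t) :
    w ∈ D.Mg t (p.ηc / 2) (2 * p.κ) := by
  have h1 := hp.ηc_pos
  have h2 := hp.κ_pos
  refine ⟨fun v hv => ?_, ?_⟩
  · have := hw.1.1 v hv
    linarith
  · have := hw.1.2
    linarith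

theorem C13_Md (hp : POk D p) {t : ℝ} {w : E} (hw : w ∈ Md D p t) :
    w ∈ D.Mg t (p.ηc / 2) (2 * p.κ) := by
  have h1 := hp.ηc_pos
  have h2 := hp.κ_pos
  refine ⟨fun v hv => ?_, ?_⟩
  · have := hw.1.1 v hv
    linarith
  · have := hw.1.2
    linarith

theorem C13_Z1 (h : D.Ok) (t : ℝ) : D.Z (1 + t) = D.Z t := by
  rw [add_comm]
  exact h.Z_per t

theorem C13_Z2 (h : D.Ok) : D.Z 2 = D.Z 0 := by
  have := C13_Z1 h 1
  rw [show (1:ℝ) + 1 = 2 by norm_num] at this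
  rw [this]
  have := C13_Z1 h 0
  rwa [add_zero] at this

theorem C13_Md1 (h : D.Ok) {t : ℝ} {w : E} (hw : w ∈ Md D p t) : w ∈ Md D p (1 + t) := by
  refine ⟨⟨fun v hv => ?_, ?_⟩, ?_⟩
  · rw [C13_Z1 h]
    exact hw.1.1 v hv
  · rw [C13_j1 h, C13_j1 h, C13_q1 h]
    exact hw.1.2
  · show Metric.infDist w (D.Z (1 + t)) ≤ 6 * p.ηc
    rw [C13_Z1 h]
    exact hw.2

/-- gate points move slowly -/
theorem C13_hMd (h : D.Ok) (hp : POk D p) {τ ε ρ : ℝ} (hε : 2 * ε ≤ p.κ) (hjc : C13_Jc D τ ε ρ)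
    (hX : D.X p.ρ ⊆ D.X ρ) (hτA : D.A * τ ≤ p.ηc / 2) (r t : ℝ) (w : E) (hw : w ∈ Md D p r)
    (hrt : |t - r| ≤ τ) : w ∈ D.Mg t (p.ηc / 2) (2 * p.κ) := by
  have hA := h.A_pos
  have hwr := C13_Md hp hw
  have hwX : w ∈ D.X ρ := hX (by simpa using hp.bnd r w (Or.inr hwr) 0 (by norm_num))
  have hwgX : w - D.g ∈ D.X ρ := hX (by
    have := hp.bnd r w (Or.inr hwr) (-1) (by norm_num)
    simpa [sub_eq_add_neg] using this)
  refine ⟨fun v hv => ?_, ?_⟩
  · have h1 := hw.1.1 v hv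
    have h2 := C13_Zl h t r (w + v)
    have h3 : D.A * |t - r| ≤ D.A * τ := mul_le_mul_of_nonneg_left hrt hA.le
    linarith
  · have h1 := (abs_le.1 ((hjc t r hrt).2.1 w hwX)).2
    have h2 := (abs_le.1 ((hjc t r hrt).2.2 (w - D.g) hwgX)).2
    rw [← C13_sg h, ← C13_sg h] at h2
    have h3 := hw.1.2
    linarith

theorem C13_jb (h : D.Ok) (ρ : ℝ) : ∃ J : ℝ, 0 ≤ J ∧ ∀ t, 0 ≤ t → t ≤ 1 → ∀ x ∈ D.X ρ,
    D.j t (D.q t) x ≤ J := by
  have hMF : 0 < D.MF := (h.fr0 0).fins.mF_pos.trans_le (h.fr0 0).fins.mF_le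
  have hA := h.A_pos
  refine ⟨2 * D.MF * (|ρ| + ‖D.q 0‖ + D.A), by positivity, fun t ht ht1 x hx => ?_⟩
  obtain ⟨n, hn⟩ := hx
  have hn' : ‖x + lv D.b n‖ ≤ |ρ| := hn.trans (le_abs_self _)
  have e2 : D.j t (D.q t) x = D.j t (D.q t) (x + lv D.b n) := by
    have := j_J h.toOk0 t (D.q t) x 0 n
    rw [C13_lv0, add_zero] at this
    exact this.symm
  have l2 := j_lip h.toOk0 t (D.q t) (x + lv D.b n)
  have l1 : ‖D.q t‖ ≤ ‖D.q 0‖ + D.A := by
    have h1 := h.q_lip t 0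
    have h2 := norm_le_norm_add_norm_sub (D.q 0) (D.q t)
    rw [norm_sub_rev] at h2
    rw [sub_zero, abs_of_nonneg ht] at h1
    have h3 : D.A * t ≤ D.A * 1 := mul_le_mul_of_nonneg_left ht1 hA.le
    linarith
  have l4 : ‖x + lv D.b n - D.q t‖ ≤ |ρ| + ‖D.q 0‖ + D.A := by
    have := norm_sub_le (x + lv D.b n) (D.q t)
    linarith
  rw [e2]
  exact l2.trans (mul_le_mul_of_nonneg_left l4 (by positivity))

theorem C13_lvL (h : D.Ok) (n : Fin d → ℤ) : lv D.b n ∈ D.Lam := by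
  unfold lv
  refine D.Lam.sum_mem fun i _ => ?_
  obtain ⟨k, hk⟩ := (h.fr0 0).bβ i
  have h1 : D.b i ∈ D.Lam := by
    have : D.b i = D.β k := hk
    rw [this]
    exact Submodule.subset_span ⟨k, rfl⟩
  have := D.Lam.zsmul_mem h1 (n i)
  rwa [← Int.cast_smul_eq_zsmul ℝ] at this

theorem C13_corr_lv (h : D.Ok) (s t t' : ℝ) (x x' : E) (n : Fin d → ℤ) :
    D.corr s t t' x (x' + lv D.b n) = D.corr s t t' x x' := by
  unfold GT.corr
  rw [bb_Lam h.toOk0 (C13_lvL h n)]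

/-- crossing the shell takes time -/
theorem C13_dur (h : D.Ok) (m : ℝ) (L : LP) {C δ : ℝ} (hC : 0 ≤ C) (hδ : 0 < δ) :
    ∃ kN s0 : ℝ, 0 < kN ∧ 1 ≤ s0 ∧ 
    ∀ s, s0 ≤ s → ∀ ll, FT D m L ll → ∀ t t', t < t' → t' ≤ t + 4 → ∀ z z' : E,
    Metric.infDist z (D.Z t) + 2 * δ ≤ Metric.infDist z' (D.Z t') →
    (D0 D).kk ll s t t' z z' ≤ D.corr s t t' z z' + L.fl s t t' + C * s →
    1 ≤ kN * s * (t' - t) := by
  have hmF := (h.fr0 0).fins.mF_pos
  have hA := h.A_pos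
  obtain ⟨s0, hs0, H⟩ := cst_low h m L (ε := 1 / 2) (by norm_num)
  obtain ⟨C1, hC1⟩ : ∃ C1, C1 = 4 * D.A * (C + 2) := ⟨_, rfl⟩
  have hC10 : 0 < C1 := by rw [hC1]; positivity
  obtain ⟨κ, hκ⟩ : ∃ κ, κ = D.A * C1 / (D.mF * δ) := ⟨_, rfl⟩
  have hmF' : 0 < D.mF := hmF
  have hκ0 : 0 < κ := by rw [hκ]; positivity
  obtain ⟨k1, hk1⟩ : ∃ k1, k1 = 2 * (D.A / D.mF) * (1 + κ / 2) / δ := ⟨_, rfl⟩
  have hk10 : 0 < k1 := by rw [hk1]; positivity
  refine ⟨k1 + D.A / δ, s0, by positivity, hs0, fun s hs ll hl t t' htt ht4 z z' hz hk => ?_⟩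
  have hs1 : 1 ≤ s := hs0.trans hs
  have hspos : 0 < s := by linarith
  have hT : 0 < t' - t := by linarith
  have hAδ : 0 < D.A / δ := by positivity
  have hZl := C13_Zl h t t' z'
  have hZl' := C13_Zl h t' t z'
  rw [abs_of_pos hT] at hZl'
  rcases le_or_gt δ (D.A * (t' - t)) with hcase | hcase
  · have h1 : 1 ≤ D.A / δ * (t' - t) := by
      rw [div_mul_eq_mul_div, le_div_iff₀ hδ, one_mul]
      exact hcase
    have h2 : D.A / δ * (t' - t) ≤ D.A / δ * s * (t' - t) := by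
      refine mul_le_mul_of_nonneg_right ?_ hT.le
      nlinarith
    have h3 : 0 ≤ k1 * s * (t' - t) := by positivity
    calc (1:ℝ) ≤ D.A / δ * s * (t' - t) := h1.trans h2
      _ ≤ (k1 + D.A / δ) * s * (t' - t) := by linarith
  · obtain ⟨u, n, hu, hx, hc⟩ := exists_cst_lt h hl.toTG (s := s) hspos.le htt one_pos z z'
    have h1 := H s hs ll hl z u hu t t' htt.le ht4
    rw [hx, C13_corr_lv h] at h1
    have h2 := exc_nonneg h.toOk0 htt.le z hu
    have h3 : 0 ≤ (1 - 1 / 2) * (s * D.exc t t' z u) := by positivity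
    have h4 : (∫ r in t..t', (D.κ r * D.F (traj t z u r) (u r) r - s) ^ 2) / (4 * D.A) ≤
        (C + 2) * s := by linarith
    have h5 : (∫ r in t..t', (D.κ r * D.F (traj t z u r) (u r) r - s) ^ 2) ≤ C1 * s := by
      rw [div_le_iff₀ (by positivity)] at h4
      rw [hC1]
      linarith
    -- displacement
    have h6 : δ ≤ ‖z' + lv D.b n - z‖ := by
      have e1 := Metric.infDist_le_infDist_add_dist (s := D.Z t) (x := z' + lv D.b n) (y := z)
      rw [C13_inf h, dist_eq_norm] at e1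
      rw [abs_sub_comm, abs_of_pos hT] at hZl
      linarith
    have h7 : ‖z' + lv D.b n - z‖ ≤ ∫ r in t..t', ‖u r‖ := by
      have e1 : z' + lv D.b n - z = ∫ r in t..t', u r := by
        rw [← hx]
        unfold traj
        abel
      rw [e1]
      exact intervalIntegral.norm_integral_le_integral_norm htt.le
    have hcb1 : CB 0 (fun x v r => D.κ r * D.F x v r) := by
      refine ⟨?_, fun x v r => ?_⟩
      · exact (h.κ_cont.comp continuous_snd.snd).mul h.F_cont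
      · have e1 := (h.fr0 r).fins.low x v
        have e2 := h.κ_pos r
        have e3 : 0 < D.κ r := by
          by_contra hcon
          push Not at hcon
          nlinarith
        have e4 : 0 ≤ D.F x v r := by
          have : D.mF * ‖v‖ ≤ D.F x v r := e1
          have e5 : 0 ≤ D.mF * ‖v‖ := by positivity
          linarith
        have e5 : 0 ≤ D.κ r * D.F x v r := by positivity
        linarith
    have hcb2 : CB 0 (fun x v r => (D.κ r * D.F x v r - s) ^ 2) := by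
      refine ⟨?_, fun x v r => ?_⟩
      · exact (((h.κ_cont.comp continuous_snd.snd).mul h.F_cont).sub continuous_const).pow 2
      · have := sq_nonneg (D.κ r * D.F x v r - s)
        linarith
    have i1 := hcb1.ii hu t z t t'
    have i2 := hcb2.ii hu t z t t'
    have i3 : IntervalIntegrable (fun r => ‖u r‖) volume t t' := by
      have hcb3 : CB 0 (fun (_ : E) (v : E) (_ : ℝ) => ‖v‖) := by
        refine ⟨continuous_snd.fst.norm, fun x v r => ?_⟩
        have := norm_nonneg v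
        linarith
      exact hcb3.ii hu t z t t'
    have h8 : (∫ r in t..t', ‖u r‖) ≤ ∫ r in t..t', (D.A / D.mF) * ((1 + κ / 2) * s +
        (D.κ r * D.F (traj t z u r) (u r) r - s) ^ 2 / (2 * κ * s)) := by
      refine intervalIntegral.integral_mono_on htt.le i3
        (((intervalIntegrable_const).add (i2.div_const _)).const_mul _) fun r _ => ?_
      have e1 : D.mF * ‖u r‖ ≤ D.F (traj t z u r) (u r) r := (h.fr0 r).fins.low _ _
      have e2 := h.κ_pos r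
      have e0 : 0 ≤ D.mF * ‖u r‖ := by positivity
      have e4 : D.mF * ‖u r‖ ≤ D.A * (D.κ r * D.F (traj t z u r) (u r) r) := by
        have : 1 * D.F (traj t z u r) (u r) r ≤ D.A * D.κ r * D.F (traj t z u r) (u r) r :=
          mul_le_mul_of_nonneg_right e2 (by linarith)
        linarith
      set a : ℝ := D.κ r * D.F (traj t z u r) (u r) r with ha
      have e5 : a ≤ (1 + κ / 2) * s + (a - s) ^ 2 / (2 * κ * s) := by
        have e6 : 0 < 2 * κ * s := by positivity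
        have e7 : 2 * κ * s * (a - s - κ * s / 2) ≤ (a - s) ^ 2 := by nlinarith [sq_nonneg (a - s - κ * s)]
        have e8 : a - s - κ * s / 2 ≤ (a - s) ^ 2 / (2 * κ * s) := by
          rw [le_div_iff₀ e6]
          linarith
        linarith
      have e9 : ‖u r‖ ≤ D.A / D.mF * a := by
        rw [div_mul_eq_mul_div, le_div_iff₀ hmF']
        linarith
      exact e9.trans (mul_le_mul_of_nonneg_left e5 (by positivity))
    rw [intervalIntegral.integral_const_mul, intervalIntegral.integral_add intervalIntegrable_const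
      (i2.div_const _), intervalIntegral.integral_const, intervalIntegral.integral_div, smul_eq_mul] at h8
    have h9 : (∫ r in t..t', (D.κ r * D.F (traj t z u r) (u r) r - s) ^ 2) / (2 * κ * s) ≤ C1 / (2 * κ) := by
      rw [div_le_div_iff₀ (by positivity) (by positivity)]
      nlinarith
    have h10 : δ ≤ D.A / D.mF * ((t' - t) * ((1 + κ / 2) * s) + C1 / (2 * κ)) := by
      refine (h6.trans (h7.trans h8)).trans (mul_le_mul_of_nonneg_left ?_ (by positivity))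
      linarith
    have h11 : D.A / D.mF * (C1 / (2 * κ)) = δ / 2 := by
      rw [hκ]
      field_simp
    have h12 : δ / 2 ≤ D.A / D.mF * (1 + κ / 2) * (s * (t' - t)) := by
      have : D.A / D.mF * ((t' - t) * ((1 + κ / 2) * s) + C1 / (2 * κ)) =
          D.A / D.mF * (1 + κ / 2) * (s * (t' - t)) + D.A / D.mF * (C1 / (2 * κ)) := by ring
      rw [this, h11] at h10
      linarith
    have h13 : 1 ≤ k1 * s * (t' - t) := by
      have : k1 * s * (t' - t) = D.A / D.mF * (1 + κ / 2) * (s * (t' - t)) / (δ / 2) := by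
        rw [hk1]
        field_simp
      rw [this, le_div_iff₀ (by positivity), one_mul]
      exact h12
    have h14 : 0 ≤ D.A / δ * s * (t' - t) := by positivity
    linarith

/-! ### shifts -/

theorem C13_Jr (h : D.Ok) (hl : TG D.β m M ll) (s t t' : ℝ) (x x' : E) (n : Fin d → ℤ) :
    (D0 D).kk ll s t t' x (x' + lv D.b n) = (D0 D).kk ll s t t' x x' := by
  have := kk_J h hl s t t' x x' 0 n
  rwa [C13_lv0, add_zero] at this

theorem C13_t1 (h : D.Ok) (hl : TG D.β m M ll) (s a b : ℝ) (x x' : E) :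
    (D0 D).kk ll s (1 + a) (1 + b) x x' = (D0 D).kk ll s a b x x' := by
  have := kk_time h hl 1 s a b x x'
  rw [Int.cast_one, add_comm a, add_comm b] at this
  exact this

theorem C13_g (h : D.Ok) (hl : TG D.β m M ll) (s a b : ℝ) (w x : E) :
    (D0 D).kk ll s a b w (x + D.g) = (D0 D).kk ll s a b (w - D.g) x := by
  have := kk_Lam h hl h.g_mem s a b (w - D.g) x
  rwa [sub_add_cancel] at this

theorem C13_fl_one (hl : FT D m L ll) (s r : ℝ) : L.fl s 1 (1 + r) = L.fl s 0 r := by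
  have := fl_per hl.a_per s 0 r 1
  rw [Int.cast_one, zero_add, add_comm r] at this
  exact this

theorem C13_bb0 (h : D.Ok) (x : E) : D.bb 0 x = 0 ∧ D.bb 1 x = 0 ∧ D.bb 2 x = 0 := by
  have h0 := (bb_per h.toOk0 0 0 x).2
  have h1 := (bb_per h.toOk0 0 1 x).2
  have h2 := (bb_per h.toOk0 0 2 x).2
  norm_num at h0 h1 h2
  exact ⟨h0, h1, h2⟩

theorem C13_bb1 (h : D.Ok) (r : ℝ) (x : E) : D.bb (1 + r) x = D.bb r x := by
  have := (bb_per h.toOk0 r 1 x).1
  rwa [Int.cast_one, add_comm] at this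

theorem C13_bbg (h : D.Ok) (r : ℝ) (x : E) : D.bb r (x - D.g) = D.bb r x := by
  have := bb_Lam h.toOk0 h.g_mem r (x - D.g)
  rw [sub_add_cancel] at this
  exact this.symm

/-- both parts of a leg of small cost have small cost -/
theorem C13_two (h : D.Ok) (m : ℝ) (L : LP) {τ ε R : ℝ} (hτ : 0 < τ) (hε : 0 < ε) :
    ∃ s0 : ℝ, 1 ≤ s0 ∧ ∀ s, s0 ≤ s → ∀ ll, FT D m L ll → ∀ t t' t'', t < t' → t' < t'' → t'' ≤ t + 4 →
    ∀ x y z : E, ∀ R0, R0 ≤ R →
    (D0 D).kk ll s t t' x y + (D0 D).kk ll s t' t'' y z ≤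
      D.corr s t t'' x z + L.fl s t t'' + s * R0 →
    ∃ N1 N2, C13_Pc D τ ε t t' x y N1 ∧ C13_Pc D τ ε t' t'' y z N2 ∧ N1 + N2 ≤ R0 := by
  obtain ⟨s1, hs1, H1⟩ := low h m L (R + 1) (ε := min τ ε) (lt_min hτ hε)
  obtain ⟨s2, hs2, H2⟩ := kk_ge h m L (ε := 1) one_pos
  refine ⟨s1 + s2, by linarith, fun s hs ll hl t t' t'' htt htt' ht4 x y z R0 hR0 hk => ?_⟩
  have hs0 : 0 < s := by linarith
  have hm1 : min τ ε ≤ τ := min_le_left _ _
  have hm2 : min τ ε ≤ ε := min_le_right _ _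
  have hco : D.corr s t t'' x z = D.corr s t t' x y + D.corr s t' t'' y z := by
    unfold GT.corr
    ring
  have hfl := fl_add hl.a_cont s t t' t''
  have k1 := H2 s (by linarith) ll hl t t' htt (by linarith) x y
  have k2 := H2 s (by linarith) ll hl t' t'' htt' (by linarith) y z
  have hsR : s * R0 ≤ s * R := mul_le_mul_of_nonneg_left hR0 hs0.le
  have piece : ∀ a b, a < b → b ≤ a + 4 → ∀ x x', (D0 D).kk ll s a b x x' ≤
      D.corr s a b x x' + L.fl s a b + (R + 1) * s →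
      C13_Pc D τ ε a b x x' (((D0 D).kk ll s a b x x' - D.corr s a b x x' - L.fl s a b) / s) := by
    intro a b hab hb4 x x' hx
    have hms : min τ ε * s ≤ ε * s := mul_le_mul_of_nonneg_right hm2 hs0.le
    rcases H1 s (by linarith) ll hl a b hab hb4 x x' hx with ⟨e1, e2⟩ | ⟨v, hv, v', hv', e1, e2⟩
    · left
      refine ⟨e1.trans hm1, ?_⟩
      rw [← sub_le_iff_le_add, le_div_iff₀ hs0]
      linarith
    · right
      refine ⟨v, hv, v', hv', ?_, ?_⟩
      · rcases e1 with e1 | e1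
        · exact Or.inl e1
        · right
          rw [← sub_le_iff_le_add, le_div_iff₀ hs0]
          linarith
      · rw [← sub_le_iff_le_add, le_div_iff₀ hs0]
        linarith
  refine ⟨_, _, piece t t' htt (by linarith) x y (by linarith),
    piece t' t'' htt' (by linarith) y z (by linarith), ?_⟩
  rw [← add_div, div_le_iff₀ hs0]
  linarith

/-- cost of a piece -/
theorem C13_piece (h : D.Ok) (m : ℝ) (L : LP) : ∃ s0 : ℝ, 1 ≤ s0 ∧ ∀ s, s0 ≤ s → ∀ ll, FT D m L ll →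
    ∀ t t', t' ≤ t + 4 → ∀ Z : ℝ → E,
    (∀ a b c, t ≤ a → a < b → b < c → c ≤ t' →
        (D0 D).kk ll s a b (Z a) (Z b) + (D0 D).kk ll s b c (Z b) (Z c) =
          (D0 D).kk ll s a c (Z a) (Z c)) →
    ∀ a b, t ≤ a → a < b → b ≤ t' → (D0 D).kk ll s a b (Z a) (Z b) ≤
      D.corr s a b (Z a) (Z b) + L.fl s a b + ((D0 D).kk ll s t t' (Z t) (Z t') -
        D.corr s t t' (Z t) (Z t') - L.fl s t t') + 2 * s := by
  obtain ⟨s0, hs0, H⟩ := kk_ge h m L (ε := 1) one_pos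
  refine ⟨s0, hs0, fun s hs ll hl t t' ht4 Z HZ a b ha hab hb => ?_⟩
  have hs1 : 0 < s := by linarith
  have f1 := fl_add hl.a_cont s a b t'
  have f2 := fl_add hl.a_cont s t a t'
  have c1 : D.corr s a t' (Z a) (Z t') = D.corr s a b (Z a) (Z b) + D.corr s b t' (Z b) (Z t') := by
    unfold GT.corr
    ring
  have c2 : D.corr s t t' (Z t) (Z t') = D.corr s t a (Z t) (Z a) + D.corr s a t' (Z a) (Z t') := by
    unfold GT.corr
    ring
  have h3 : (D0 D).kk ll s a b (Z a) (Z b) ≤ D.corr s a b (Z a) (Z b) + L.fl s a b +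
      ((D0 D).kk ll s a t' (Z a) (Z t') - D.corr s a t' (Z a) (Z t') - L.fl s a t') + s := by
    rcases hb.eq_or_lt with rfl | hb'
    · linarith
    · have h4 := HZ a b t' ha hab hb' le_rfl
      have h5 := H s hs ll hl b t' hb' (by linarith) (Z b) (Z t')
      linarith
  have h4 : (D0 D).kk ll s a t' (Z a) (Z t') ≤ D.corr s a t' (Z a) (Z t') + L.fl s a t' +
      ((D0 D).kk ll s t t' (Z t) (Z t') - D.corr s t t' (Z t) (Z t') - L.fl s t t') + s := by
    rcases ha.eq_or_lt with rfl | ha'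
    · linarith
    · have h4 := HZ t a t' le_rfl ha' (by linarith) le_rfl
      have h5 := H s hs ll hl t a ha' (by linarith) (Z t) (Z a)
      linarith
  linarith

/-- cost of the first leg -/
theorem C13_budA (h : D.Ok) (hp : POk D p) (m : ℝ) (L : LP) {ε : ℝ} (hε : 0 < ε) : ∃ s0 : ℝ, 1 ≤ s0 ∧
    ∀ s, s0 ≤ s → ∀ ll, FT D m L ll → ∀ r, 0 ≤ r → r ≤ 1 → ∀ w ∈ D.Mg r (p.ηc / 2) (2 * p.κ),
    ∀ x ∈ (D0 D).R p,
    (D0 D).alpha p ll s r w = (D0 D).bar p ll s (D.q 0) x + (D0 D).Q ll s r x w +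
      (D0 D).al p ll s * (1 + r) →
    (D0 D).Q ll s r x w ≤ D.corr s 0 (1 + r) x w + L.fl s 0 (1 + r) +
      s * (D.j r (D.q r) w + D.j 0 x (D.q 0) + 3 * ε) := by
  obtain ⟨s1, hs1, H1⟩ := m1a h hp m L hε
  obtain ⟨s2, hs2, H2⟩ := upp h m L p.ρ hε
  obtain ⟨s3, hs3, H3⟩ := al_fl h hp m L hε
  refine ⟨s1 + s2 + s3, by linarith, fun s hs ll hl r hr hr1 w hw x hx ha => ?_⟩
  have hs0 : 0 < s := by linarith
  obtain ⟨C, hK⟩ := C13_kd h hp hl.toTG hs0.le
  have hxX := C13_RX hp h hx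
  have a1 := (abs_le.1 (H1 s (by linarith) ll hl r hr hr1 w hw)).2
  have a2 := H2 s (by linarith) ll hl 0 1 (by norm_num) (by norm_num) x hxX (D.q 0)
    (C13_RX hp h (q_R h hp))
  have j1 := C13_j1 h 0 (D.q 1) (D.q 0)
  have q1 := C13_q1 h 0
  rw [add_zero] at j1 q1
  rw [q1] at j1
  have j0 := j_Z h.toOk0 0 (h.fr0 0).q0_mem (h.fr0 0).q0_mem
  have j0' : D.j 0 (D.q 0) (D.q 0) = 0 := j0
  have co1 : D.corr s 0 1 x (D.q 0) = 0 := by
    unfold GT.corr
    rw [(C13_bb0 h _).2.1, (C13_bb0 h _).1, sub_zero, mul_zero]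
  have co2 : D.corr s 0 (1 + r) x w = s * D.bb r w := by
    unfold GT.corr
    rw [(C13_bb0 h _).1, C13_bb1 h, sub_zero]
  rw [q1, j1, j0', add_zero, co1, zero_add] at a2
  have a3 := (abs_le.1 (H3 s (by linarith) ll hl)).1
  have a5 := bar_right_le hK (T := 1) le_rfl (q_R h hp) hx (q_R h hp)
  have a5' : (D0 D).bar p ll s (D.q 0) (D.q 0) ≤ (D0 D).bar p ll s (D.q 0) x +
      ((D0 D).k1 ll s x (D.q 0) + (D0 D).al p ll s * 1) := by
    rw [Nat.cast_one] at a5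
    exact a5
  have f2 := fl_add hl.a_cont s 0 1 (1 + r)
  rw [C13_fl_one hl] at f2
  have f3 : L.gam s r = L.fl s 0 r - r * L.fl s 0 1 := rfl
  have a8 : -(ε * s) ≤ ((D0 D).al p ll s + L.fl s 0 1) * r := by
    have h1 : -(ε * s) * r ≤ ((D0 D).al p ll s + L.fl s 0 1) * r := mul_le_mul_of_nonneg_right a3 hr
    have h2 : ε * s * r ≤ ε * s * 1 := mul_le_mul_of_nonneg_left hr1 (by positivity)
    linarith
  have a9 : (D0 D).k1 ll s x (D.q 0) ≤ L.fl s 0 1 + s * D.j 0 x (D.q 0) + ε * s := a2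
  rw [co2]
  linarith

/-- cost of the second leg -/
theorem C13_budB (h : D.Ok) (hp : POk D p) (m : ℝ) (L : LP) {ε : ℝ} (hε : 0 < ε) : ∃ s0 : ℝ, 1 ≤ s0 ∧
    ∀ s, s0 ≤ s → ∀ ll, FT D m L ll → ∀ r, 0 ≤ r → r ≤ 1 → ∀ w ∈ D.Mg r (p.ηc / 2) (2 * p.κ),
    ∀ x ∈ (D0 D).R p,
    (D0 D).beta p ll s r w = (D0 D).P ll s r w x + (D0 D).bar p ll s x (D.q 0) +
      (D0 D).al p ll s * (2 - r) →
    (D0 D).P ll s r w x ≤ D.corr s r 2 (w - D.g) x + L.fl s r 2 +
      s * (D.j r w (D.q r + D.g) + D.j 0 (D.q 0) x + 3 * ε) := by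
  obtain ⟨s1, hs1, H1⟩ := m1b h hp m L hε
  obtain ⟨s2, hs2, H2⟩ := upp h m L p.ρ hε
  obtain ⟨s3, hs3, H3⟩ := al_fl h hp m L hε
  refine ⟨s1 + s2 + s3, by linarith, fun s hs ll hl r hr hr1 w hw x hx ha => ?_⟩
  have hs0 : 0 < s := by linarith
  obtain ⟨C, hK⟩ := C13_kd h hp hl.toTG hs0.le
  have hxX := C13_RX hp h hx
  have a1 := (abs_le.1 (H1 s (by linarith) ll hl r hr hr1 w hw)).2
  have a2 := H2 s (by linarith) ll hl 0 1 (by norm_num) (by norm_num) (D.q 0)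
    (C13_RX hp h (q_R h hp)) x hxX
  have j1 := C13_j1 h 0 (D.q 1) x
  have q1 := C13_q1 h 0
  rw [add_zero] at j1 q1
  rw [q1] at j1
  have j0 := j_Z h.toOk0 0 (h.fr0 0).q0_mem (h.fr0 0).q0_mem
  have j0' : D.j 0 (D.q 0) (D.q 0) = 0 := j0
  have co1 : D.corr s 0 1 (D.q 0) x = 0 := by
    unfold GT.corr
    rw [(C13_bb0 h _).2.1, (C13_bb0 h _).1, sub_zero, mul_zero]
  have co2 : D.corr s r 2 (w - D.g) x = -(s * D.bb r w) := by
    unfold GT.corr
    rw [(C13_bb0 h _).2.2, C13_bbg h]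
    ring
  rw [q1, j1, j0', zero_add, co1, zero_add] at a2
  have a3 := (abs_le.1 (H3 s (by linarith) ll hl)).1
  have a5 := bar_left_le hK (T := 1) le_rfl (q_R h hp) hx (q_R h hp)
  have a5' : (D0 D).bar p ll s (D.q 0) (D.q 0) ≤ (D0 D).k1 ll s (D.q 0) x +
      (D0 D).al p ll s * 1 + (D0 D).bar p ll s x (D.q 0) := by
    rw [Nat.cast_one] at a5
    exact a5
  have f2 := fl_add hl.a_cont s 0 r 2
  have f4 := fl_add hl.a_cont s 0 1 2
  have f5 := C13_fl_one hl s 1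
  rw [show (1:ℝ) + 1 = 2 by norm_num] at f5
  have f3 : L.gam s r = L.fl s 0 r - r * L.fl s 0 1 := rfl
  have a8 : -(ε * s) ≤ ((D0 D).al p ll s + L.fl s 0 1) * (1 - r) := by
    have h1 : -(ε * s) * (1 - r) ≤ ((D0 D).al p ll s + L.fl s 0 1) * (1 - r) :=
      mul_le_mul_of_nonneg_right a3 (by linarith)
    have h2 : ε * s * (1 - r) ≤ ε * s * 1 := mul_le_mul_of_nonneg_left (by linarith) (by positivity)
    linarith
  have a9 : (D0 D).k1 ll s (D.q 0) x ≤ L.fl s 0 1 + s * D.j 0 (D.q 0) x + ε * s := a2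
  rw [co2]
  linarith

/-! ### transfer of the gate -/

theorem C13_Mg1 (h : D.Ok) {t a b : ℝ} {w : E} (hw : w ∈ D.Mg t a b) : w ∈ D.Mg (t - 1) a b := by
  have h1 := Mg_per h (t - 1) a b 1
  rw [Int.cast_one, sub_add_cancel] at h1
  rwa [← h1]

theorem C13_WA (h : D.Ok) (hp : POk D p) (hl : TG D.β m M ll) {s s' r t : ℝ}
    (hs : 0 ≤ s) (hs' : 0 ≤ s') (hr1 : r < 1) {w x x' w' : E} (hx : x ∈ (D0 D).C p)
    (hx' : x' ∈ (D0 D).C p) (hw' : w' ∈ D.Mg t (p.ηc / 2) (2 * p.κ)) (ht0 : 0 < t) (ht : t ≤ 1 + r)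
    {c c' δ A : ℝ}
    (ha : (D0 D).alpha p ll s r w = (D0 D).bar p ll s (D.q 0) x + (D0 D).Q ll s r x w +
      (D0 D).al p ll s * (1 + r))
    (hb : (D0 D).beta p ll s' r w = (D0 D).P ll s' r w x' + (D0 D).bar p ll s' x' (D.q 0) +
      (D0 D).al p ll s' * (2 - r))
    (hc1 : (D0 D).kk ll s 0 t x w' + c = (D0 D).Q ll s r x w)
    (hc2 : ∀ y T, 1 + r < T → (D0 D).kk ll s' t T w' y ≤ c' + (D0 D).kk ll s' (1 + r) T w y)
    (hc3 : c' ≤ c + A) (hal : |(D0 D).al p ll s' - (D0 D).al p ll s| ≤ δ)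
    (hy : t < 1 → ∃ y ∈ (D0 D).R p,
      (D0 D).kk ll s' r 1 (w - D.g) y + (D0 D).k1 ll s' y x' = (D0 D).P ll s' r w x') :
    ∃ r', 0 ≤ r' ∧ r' < 1 ∧ (r' = t ∨ r' = t - 1) ∧
      (D0 D).W p ll s s' r' w' ≤ (D0 D).W p ll s s' r w + A + 2 * δ := by
  have hδ : 0 ≤ δ := (abs_nonneg _).trans hal
  have hal' : ∀ a : ℝ, 0 ≤ a → a ≤ 2 → ((D0 D).al p ll s' - (D0 D).al p ll s) * a ≤ 2 * δ := by
    intro a ha0 ha2
    have h1 : ((D0 D).al p ll s' - (D0 D).al p ll s) * a ≤ δ * a :=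
      mul_le_mul_of_nonneg_right ((le_abs_self _).trans hal) ha0
    have h2 : δ * a ≤ δ * 2 := mul_le_mul_of_nonneg_left ha2 hδ
    linarith
  have hxR := C_sub hx
  have hxR' := C_sub hx'
  obtain ⟨C, hK⟩ := C13_kd h hp hl hs
  obtain ⟨C', hK'⟩ := C13_kd h hp hl hs'
  rcases lt_or_ge t 1 with ht1 | ht1
  · refine ⟨t, ht0.le, ht1, Or.inl rfl, ?_⟩
    obtain ⟨y, hyR, hyP⟩ := hy ht1
    obtain ⟨x'', hx'', he⟩ := bar_right_eq hK (T := 1) le_rfl (q_R h hp) hxR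
    have he' : (D0 D).bar p ll s (D.q 0) x = (D0 D).bar p ll s (D.q 0) x'' +
        ((D0 D).k1 ll s x'' x + (D0 D).al p ll s * 1) := by
      rw [Nat.cast_one] at he
      exact he
    have h1 := alpha_le h hp hl hs ht0.le ht1.le hw' (C_sub hx'')
    have h2 : (D0 D).Q ll s t x'' w' ≤ (D0 D).k1 ll s x'' x + (D0 D).kk ll s 0 t x w' := by
      have h3 := kk_add h hl hs (t := 0) (t' := 1) (t'' := 1 + t) one_pos (by linarith) x'' x w'
      have h4 := C13_t1 h hl s 0 t x w'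
      rw [add_zero] at h4
      rw [h4] at h3
      exact h3
    have h3 := beta_le h hp hl hs' ht0.le ht1.le hw' hyR
    have h4 : (D0 D).P ll s' t w' y ≤ c' + (D0 D).kk ll s' r 1 (w - D.g) y := by
      have h5 := hc2 (y + D.g) 2 (by linarith)
      have h6 := C13_g h hl s' t 2 w' y
      have h7 := C13_g h hl s' (1 + r) 2 w y
      have h8 := C13_t1 h hl s' r 1 (w - D.g) y
      rw [show (1:ℝ) + 1 = 2 by norm_num] at h8
      have h9 : (D0 D).P ll s' t w' y = (D0 D).kk ll s' t 2 (w' - D.g) y := rfl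
      linarith
    have h5 := bar_left_le hK' (T := 1) le_rfl hyR hxR' (q_R h hp)
    have h5' : (D0 D).bar p ll s' y (D.q 0) ≤ (D0 D).k1 ll s' y x' + (D0 D).al p ll s' * 1 +
        (D0 D).bar p ll s' x' (D.q 0) := by
      rw [Nat.cast_one] at h5
      exact h5
    have h6 := hal' (1 + r - t) (by linarith) (by linarith)
    unfold GD.W
    rw [ha, hb]
    linarith
  · refine ⟨t - 1, by linarith, by linarith, Or.inr rfl, ?_⟩
    have hw'' := C13_Mg1 h hw'
    have h1 := alpha_le h hp hl hs (r := t - 1) (by linarith) (by linarith) hw'' hxR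
    have h2 : (D0 D).Q ll s (t - 1) x w' = (D0 D).kk ll s 0 t x w' := by
      unfold GD.Q
      rw [show 1 + (t - 1) = t by ring]
    have h3 := beta_le h hp hl hs' (r := t - 1) (by linarith) (by linarith) hw'' hxR'
    have h4 : (D0 D).P ll s' (t - 1) w' x' ≤ c' + (D0 D).P ll s' r w x' := by
      have h5 := hc2 (x' + D.g) 3 (by linarith)
      have h6 := C13_g h hl s' t 3 w' x'
      have h7 := C13_g h hl s' (1 + r) 3 w x'
      have h8 := C13_t1 h hl s' r 2 (w - D.g) x'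
      have h9 := C13_t1 h hl s' (t - 1) 2 (w' - D.g) x'
      rw [show (1:ℝ) + 2 = 3 by norm_num] at h8 h9
      rw [show 1 + (t - 1) = t by ring] at h9
      have h10 : (D0 D).P ll s' (t - 1) w' x' = (D0 D).kk ll s' (t - 1) 2 (w' - D.g) x' := rfl
      have h11 : (D0 D).P ll s' r w x' = (D0 D).kk ll s' r 2 (w - D.g) x' := rfl
      linarith
    have h6 := hal' (1 + r - t) (by linarith) (by linarith)
    unfold GD.W
    rw [ha, hb]
    rw [h2, show 1 + (t - 1) = t by ring] at h1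
    linarith

theorem C13_WB (h : D.Ok) (hp : POk D p) (hl : TG D.β m M ll) {s s' r t : ℝ}
    (hs : 0 ≤ s) (hs' : 0 ≤ s') (hr : 0 ≤ r) {w x x' w' : E} (hx : x ∈ (D0 D).C p)
    (hx' : x' ∈ (D0 D).C p) (hw' : w' ∈ D.Mg t (p.ηc / 2) (2 * p.κ)) (ht0 : r < t) (ht : t < 2)
    {c c' δ A : ℝ}
    (ha : (D0 D).alpha p ll s r w = (D0 D).bar p ll s (D.q 0) x + (D0 D).Q ll s r x w +
      (D0 D).al p ll s * (1 + r))
    (hb : (D0 D).beta p ll s' r w = (D0 D).P ll s' r w x' + (D0 D).bar p ll s' x' (D.q 0) +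
      (D0 D).al p ll s' * (2 - r))
    (hc1 : c' + (D0 D).kk ll s' t 2 (w' - D.g) x' = (D0 D).P ll s' r w x')
    (hc2 : ∀ y T, T < 1 + r → (D0 D).kk ll s T (1 + t) y w' ≤ (D0 D).kk ll s T (1 + r) y w + c)
    (hc3 : c ≤ c' + A) (hal : |(D0 D).al p ll s' - (D0 D).al p ll s| ≤ δ)
    (hy : 1 ≤ t → ∃ y ∈ (D0 D).R p, 0 < r ∧
      (D0 D).k1 ll s x y + (D0 D).kk ll s 1 (1 + r) y w = (D0 D).Q ll s r x w) :
    ∃ r', 0 ≤ r' ∧ r' < 1 ∧ (r' = t ∨ r' = t - 1) ∧
      (D0 D).W p ll s s' r' w' ≤ (D0 D).W p ll s s' r w + A + 2 * δ := by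
  have hδ : 0 ≤ δ := (abs_nonneg _).trans hal
  have hal' : ∀ a : ℝ, 0 ≤ a → a ≤ 2 → ((D0 D).al p ll s - (D0 D).al p ll s') * a ≤ 2 * δ := by
    intro a ha0 ha2
    have h1 : ((D0 D).al p ll s - (D0 D).al p ll s') * a ≤ δ * a := by
      refine mul_le_mul_of_nonneg_right ?_ ha0
      have := (abs_le.1 hal).1
      linarith
    have h2 : δ * a ≤ δ * 2 := mul_le_mul_of_nonneg_left ha2 hδ
    linarith
  have hxR := C_sub hx
  have hxR' := C_sub hx'
  obtain ⟨C, hK⟩ := C13_kd h hp hl hs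
  obtain ⟨C', hK'⟩ := C13_kd h hp hl hs'
  rcases lt_or_ge t 1 with ht1 | ht1
  · refine ⟨t, by linarith, ht1, Or.inl rfl, ?_⟩
    have h1 := alpha_le h hp hl hs (r := t) (by linarith) ht1.le hw' hxR
    have h2 : (D0 D).Q ll s t x w' ≤ (D0 D).Q ll s r x w + c := hc2 x 0 (by linarith)
    have h3 := beta_le h hp hl hs' (r := t) (by linarith) ht1.le hw' hxR'
    have h4 : (D0 D).P ll s' t w' x' = (D0 D).kk ll s' t 2 (w' - D.g) x' := rfl
    have h6 := hal' (t - r) (by linarith) (by linarith)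
    unfold GD.W
    rw [ha, hb]
    linarith
  · refine ⟨t - 1, by linarith, by linarith, Or.inr rfl, ?_⟩
    have hw'' := C13_Mg1 h hw'
    obtain ⟨y, hyR, hr0, hyQ⟩ := hy ht1
    obtain ⟨x3, hx3, he⟩ := bar_left_eq hK' (T := 1) le_rfl hxR' (q_R h hp)
    have he' : (D0 D).bar p ll s' x' (D.q 0) = (D0 D).k1 ll s' x' x3 + (D0 D).al p ll s' * 1 +
        (D0 D).bar p ll s' x3 (D.q 0) := by
      rw [Nat.cast_one] at he
      exact he
    have h1 := alpha_le h hp hl hs (r := t - 1) (by linarith) (by linarith) hw'' hyR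
    have h2 : (D0 D).Q ll s (t - 1) y w' ≤ (D0 D).kk ll s 1 (1 + r) y w + c := by
      have h5 := hc2 y 1 (by linarith)
      have h6 := C13_t1 h hl s 0 t y w'
      rw [add_zero] at h6
      have h7 : (D0 D).Q ll s (t - 1) y w' = (D0 D).kk ll s 0 t y w' := by
        unfold GD.Q
        rw [show 1 + (t - 1) = t by ring]
      linarith
    have h3 := bar_right_le hK (T := 1) le_rfl (q_R h hp) hxR hyR
    have h3' : (D0 D).bar p ll s (D.q 0) y ≤ (D0 D).bar p ll s (D.q 0) x +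
        ((D0 D).k1 ll s x y + (D0 D).al p ll s * 1) := by
      rw [Nat.cast_one] at h3
      exact h3
    have h4 := beta_le h hp hl hs' (r := t - 1) (by linarith) (by linarith) hw'' (C_sub hx3)
    have h5 : (D0 D).P ll s' (t - 1) w' x3 ≤ (D0 D).kk ll s' t 2 (w' - D.g) x' +
        (D0 D).k1 ll s' x' x3 := by
      have h6 := kk_add h hl hs' (t := t) (t' := 2) (t'' := 3) ht (by norm_num) (w' - D.g) x' x3
      have h7 := C13_t1 h hl s' 1 2 x' x3
      have h8 := C13_t1 h hl s' 0 1 x' x3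
      rw [show (1:ℝ) + 2 = 3 by norm_num, show (1:ℝ) + 1 = 2 by norm_num] at h7
      rw [show (1:ℝ) + 1 = 2 by norm_num, add_zero] at h8
      have h9 := C13_t1 h hl s' (t - 1) 2 (w' - D.g) x3
      rw [show (1:ℝ) + 2 = 3 by norm_num, show 1 + (t - 1) = t by ring] at h9
      have h10 : (D0 D).P ll s' (t - 1) w' x3 = (D0 D).kk ll s' (t - 1) 2 (w' - D.g) x3 := rfl
      have h11 : (D0 D).k1 ll s' x' x3 = (D0 D).kk ll s' 0 1 x' x3 := rfl
      linarith
    have h6 := hal' (t - r) (by linarith) (by linarith)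
    unfold GD.W
    rw [ha, hb]
    rw [show 1 + (t - 1) = t by ring] at h1
    linarith

theorem C13_Mi1 (h : D.Ok) {t : ℝ} {w : E} (hw : w ∈ Mi D p t) : w ∈ Mi D p (t - 1) := by
  refine ⟨C13_Mg1 h hw.1, ?_⟩
  have h1 := C13_Z1 h (t - 1)
  rw [show 1 + (t - 1) = t by ring] at h1
  show Metric.infDist w (D.Z (t - 1)) ≤ 5 * p.ηc
  rw [← h1]
  exact hw.2

theorem C13_phc (h : D.Ok) {Z : ℝ → E} {S : Set ℝ} (hZ : ContinuousOn Z S) :
    ContinuousOn (fun t => Metric.infDist (Z t) (D.Z t)) S := by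
  have h0 : ContinuousOn (fun t : ℝ => t) S := continuousOn_id
  have h1 : ContinuousOn (fun t : ℝ => (t, Z t)) S := h0.prodMk hZ
  have h2 := (C13_Zc h).comp_continuousOn h1
  refine h2.congr fun t _ => ?_
  simp only [Function.comp_apply]

theorem C13_X_mono {a b : ℝ} (hab : a ≤ b) : D.X a ⊆ D.X b := by
  rintro x ⟨n, hn⟩
  exact ⟨n, hn.trans hab⟩

theorem inner_slice (h : D.Ok) (hp : POk D p) (m : ℝ) (L : LP) : ∃ kN CI s0 δ0 : ℝ, 0 < kN ∧ 0 ≤ CI ∧
    1 ≤ s0 ∧ 0 < δ0 ∧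
    ∀ s s', s0 ≤ s → s0 ≤ s' → |s' - s| ≤ δ0 → ∀ ll, FT D m L ll → ∀ N : ℕ,
    kN * s ≤ N → ∀ k < N, ∀ w ∈ Md D p ((k : ℝ) / N),
    (∀ k' < N, ∀ w' ∈ Md D p ((k' : ℝ) / N),
      (D0 D).W p ll s s' ((k : ℝ) / N) w ≤ (D0 D).W p ll s s' ((k' : ℝ) / N) w') →
    ∃ k' < N, ∃ w' ∈ Mi D p ((k' : ℝ) / N), (D0 D).W p ll s s' ((k' : ℝ) / N) w' ≤
      (D0 D).W p ll s s' ((k : ℝ) / N) w + CI * s * |s' - s| := by
  by_cases hv : 0 < m ∧ 0 ≤ L.M ∧ 0 ≤ L.A
  swap
  · refine ⟨1, 0, 1, 1, one_pos, le_rfl, le_rfl, one_pos, fun s s' _ _ _ ll hl => ?_⟩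
    exact absurd ⟨hl.m_pos, hl.M_nonneg, hl.A_nonneg⟩ hv
  obtain ⟨hm, hM, hLA⟩ := hv
  have hc := hp.ηc_pos
  have hκ := hp.κ_pos
  have hA := h.A_pos
  have hUs := Us_pos h
  have hη1 := hp.η1_pos
  have hη1c := hp.η1_le
  have hom := hp.om_le
  obtain ⟨e1, he1, He1⟩ := shell h.toOk0 hη1
  obtain ⟨ε, hεd⟩ : ∃ ε, ε = min (p.κ / 1000) (e1 / 10) := ⟨_, rfl⟩
  have hε : 0 < ε := by
    rw [hεd]
    exact lt_min (by positivity) (by positivity)
  have hε1 : ε ≤ p.κ / 1000 := hεd.le.trans (min_le_left _ _)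
  have hε2 : ε ≤ e1 / 10 := hεd.le.trans (min_le_right _ _)
  obtain ⟨J1, hJ1, HJ1⟩ := C13_jb h p.ρ
  obtain ⟨CC, hCC⟩ : ∃ CC, CC = D.Us + 4 * p.κ + J1 := ⟨_, rfl⟩
  obtain ⟨ρ', Hρ'⟩ := coer h.toOk0 CC
  obtain ⟨ρ, hρd⟩ : ∃ ρ, ρ = max p.ρ ρ' := ⟨_, rfl⟩
  have hX : D.X p.ρ ⊆ D.X ρ := C13_X_mono (by rw [hρd]; exact le_max_left _ _)
  have hρ : ∀ t w, D.j t (D.q t) w ≤ CC → w ∈ D.X ρ := fun t w hw =>
    C13_X_mono (by rw [hρd]; exact le_max_right _ _) (Hρ' t w hw)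
  obtain ⟨δc, hδc, Hδc⟩ := j_cont h.toOk0 ρ hε
  obtain ⟨τ, hτd⟩ : ∃ τ, τ = min δc (min (p.ηc / (2 * D.A)) (1 / 8)) := ⟨_, rfl⟩
  have hτ : 0 < τ := by
    rw [hτd]
    exact lt_min hδc (lt_min (by positivity) (by norm_num))
  have hτ1 : τ ≤ δc := hτd.le.trans (min_le_left _ _)
  have hτ2 : τ ≤ p.ηc / (2 * D.A) := hτd.le.trans ((min_le_right _ _).trans (min_le_left _ _))
  have hτ3 : τ ≤ 1 / 8 := hτd.le.trans ((min_le_right _ _).trans (min_le_right _ _))
  have hτA : D.A * τ ≤ p.ηc / 2 := by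
    rw [le_div_iff₀ (by positivity)] at hτ2
    linarith
  have hjc : C13_Jc D τ ε ρ := fun t t' htt => Hδc t t' (htt.trans hτ1)
  have hMd := C13_hMd h hp (ε := ε) (by linarith) hjc hX hτA
  obtain ⟨R, hRd⟩ : ∃ R, R = D.Us + 3 * p.κ := ⟨_, rfl⟩
  have hR0 : 0 < R := by rw [hRd]; positivity
  obtain ⟨s1, hs1, H1⟩ := C13_two h m L (R := R) hτ hε
  obtain ⟨s2, hs2, H2⟩ := C13_piece h m L
  obtain ⟨s3, hs3, H3⟩ := C13_budA h hp m L hε
  obtain ⟨s4, hs4, H4⟩ := C13_budB h hp m L hε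
  obtain ⟨kN, s5, hkN, hs5, H5⟩ := C13_dur h m L (C := R + 2) (δ := p.ηc) (by positivity) hc
  obtain ⟨Cb, hCb, Hb, -, -⟩ := bb_bd h.toOk0
  obtain ⟨CI, hCI, HCI⟩ := C13_class (m := m) (M := L.M) h hm hM (C0 := 2 * Cb + 4 * L.A + (R + 2))
    (by positivity)
  obtain ⟨CA, s6, hCA, hs6, HCA⟩ := C13_al h hp hm hM hLA
  obtain ⟨s7, δ0, N0, hs7, hδ0, hN0, H7⟩ := m2 h hp m L
  have hN0r : (0:ℝ) < N0 := by exact_mod_cast hN0
  refine ⟨2 * kN + N0, 2 * CI + 2 * CA, s1 + s2 + s3 + s4 + s5 + s6 + s7, min δ0 1, by positivity,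
    by positivity, by linarith, lt_min hδ0 one_pos, ?_⟩
  intro s s' hs hs' hss ll hl N hN k hk w hw hmin
  have hss0 : |s' - s| ≤ δ0 := hss.trans (min_le_left _ _)
  have hss1 : |s' - s| ≤ 1 := hss.trans (min_le_right _ _)
  have hNp : 0 < N := by omega
  have hNr : (0:ℝ) < N := by exact_mod_cast hNp
  have hs0 : 1 ≤ s := by linarith
  have hs0' : 1 ≤ s' := by linarith
  have hss2 : s' ≤ 2 * s := by
    have := (abs_le.1 hss1).2
    linarith
  have hNN : N0 ≤ N := by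
    have h1 : (N0:ℝ) * 1 ≤ N0 * s := mul_le_mul_of_nonneg_left hs0 hN0r.le
    have h2 : 0 ≤ 2 * kN * s := by positivity
    have h3 : (N0:ℝ) ≤ N := by linarith
    exact_mod_cast h3
  have hNk : 2 * kN * s ≤ N := by
    have h1 : 0 ≤ (N0:ℝ) * s := by positivity
    linarith
  set r : ℝ := (k:ℝ) / N with hrdef
  have hr : 0 ≤ r := by positivity
  have hr1 : r < 1 := by
    rw [hrdef, div_lt_one hNr]
    exact_mod_cast hk
  have hab := abs_nonneg (s' - s)
  have hwg := C13_Md hp hw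
  obtain ⟨x, hx, ha⟩ := alpha_att h hp hl.toTG (s := s) (by linarith) hr hr1.le hwg
  obtain ⟨x', hx', hb⟩ := beta_att h hp hl.toTG (s := s') (by linarith) hr hr1.le hwg
  have hxR := C_sub hx
  have hxR' := C_sub hx'
  have hxd : Metric.infDist x (D.Z 0) ≤ p.η1 := hxR
  have hxd' : Metric.infDist x' (D.Z 0) ≤ p.η1 := hxR'
  have hxX := C13_RX hp h hxR
  have hxX' := C13_RX hp h hxR'
  have hwX : w ∈ D.X p.ρ := by
    have := hp.bnd r w (Or.inr hwg) 0 (by norm_num)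
    simpa using this
  have hwX' : w - D.g ∈ D.X p.ρ := by
    have := hp.bnd r w (Or.inr hwg) (-1) (by norm_num)
    simpa [sub_eq_add_neg] using this
  obtain ⟨n1, Z1, hZ10, hZ11, hZ1c, HZ1⟩ := C13_geo h hl.toTG (s := s) (t := 0) (t' := 1 + r)
    (by linarith) (by linarith) (by linarith) hxX hwX
  obtain ⟨n2, Z2, hZ20, hZ21, hZ2c, HZ2⟩ := C13_geo h hl.toTG (s := s') (t := r) (t' := 2)
    (by linarith) (by linarith) (by linarith) hwX' hxX'
  -- budgets
  have hw1 := hwg.2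
  have hjw1 := j_nonneg h.toOk0 r (D.q r) w
  have hjw2 := j_nonneg h.toOk0 r w (D.q r + D.g)
  obtain ⟨RA, hRA⟩ : ∃ RA, RA = D.j r (D.q r) w + D.j 0 x (D.q 0) + 3 * ε := ⟨_, rfl⟩
  obtain ⟨RB, hRB⟩ : ∃ RB, RB = D.j r w (D.q r + D.g) + D.j 0 (D.q 0) x' + 3 * ε := ⟨_, rfl⟩
  have hRAR : RA ≤ R := by
    have := (near h.toOk0 0 hxd).1
    rw [hRA, hRd]
    linarith
  have hRBR : RB ≤ R := by
    have := (near h.toOk0 0 hxd').2
    rw [hRB, hRd]
    linarith
  have hbA := H3 s (by linarith) ll hl r hr hr1.le w hwg x hxR ha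
  have hbB := H4 s' (by linarith) ll hl r hr hr1.le w hwg x' hxR' hb
  rw [← hRA] at hbA
  rw [← hRB] at hbB
  -- pieces
  have hP1 : ∀ a b, 0 ≤ a → a < b → b ≤ 1 + r → (D0 D).kk ll s a b (Z1 a) (Z1 b) ≤
      D.corr s a b (Z1 a) (Z1 b) + L.fl s a b + (R + 2) * s := by
    intro a b ha' hab' hb'
    have h1 := H2 s (by linarith) ll hl 0 (1 + r) (by linarith) Z1 HZ1 a b ha' hab' hb'
    rw [hZ10, hZ11, C13_Jr h hl.toTG, C13_corr_lv h] at h1
    have h2 : (D0 D).kk ll s 0 (1 + r) x w = (D0 D).Q ll s r x w := rfl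
    have h3 : s * RA ≤ s * R := mul_le_mul_of_nonneg_left hRAR (by linarith)
    linarith
  have hP2 : ∀ a b, r ≤ a → a < b → b ≤ 2 → (D0 D).kk ll s' a b (Z2 a) (Z2 b) ≤
      D.corr s' a b (Z2 a) (Z2 b) + L.fl s' a b + (R + 2) * s' := by
    intro a b ha' hab' hb'
    have h1 := H2 s' (by linarith) ll hl r 2 (by linarith) Z2 HZ2 a b ha' hab' hb'
    rw [hZ20, hZ21, C13_Jr h hl.toTG, C13_corr_lv h] at h1
    have h2 : (D0 D).kk ll s' r 2 (w - D.g) x' = (D0 D).P ll s' r w x' := rfl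
    have h3 : s' * RB ≤ s' * R := mul_le_mul_of_nonneg_left hRBR (by linarith)
    linarith
  -- quadratic bound
  have hquad : ∀ σ, 1 ≤ σ → ∀ a b, a < b → b ≤ a + 4 → ∀ z z' K,
      K ≤ D.corr σ a b z z' + L.fl σ a b + (R + 2) * σ →
      K ≤ (2 * Cb + 4 * L.A + (R + 2)) * σ ^ 2 := by
    intro σ hσ a b hab' hb4 z z' K hK
    have h1 : D.corr σ a b z z' ≤ σ * (2 * Cb) := by
      unfold GT.corr
      refine mul_le_mul_of_nonneg_left ?_ (by linarith)
      have h2 := (abs_le.1 (Hb b z')).2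
      have h3 := (abs_le.1 (Hb a z)).1
      linarith
    have h2 : L.fl σ a b ≤ L.A * σ ^ 2 * 4 := by
      refine ((le_abs_self _).trans (fl_bd hl.a_bd hσ a b)).trans ?_
      rw [abs_of_pos (by linarith)]
      exact mul_le_mul_of_nonneg_left (by linarith) (by positivity)
    have h3 : σ ≤ σ ^ 2 := by nlinarith
    have h4 : σ * (2 * Cb) ≤ σ ^ 2 * (2 * Cb) := mul_le_mul_of_nonneg_right h3 (by positivity)
    have h5 : (R + 2) * σ ≤ (R + 2) * σ ^ 2 := mul_le_mul_of_nonneg_left h3 (by positivity)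
    linarith
  have hQ : ∀ t, 0 < t → t < 1 + r →
      (D0 D).kk ll s 0 t x (Z1 t) + (D0 D).kk ll s t (1 + r) (Z1 t) w = (D0 D).Q ll s r x w := by
    intro t ht0 ht1
    have h1 := HZ1 0 t (1 + r) le_rfl ht0 ht1 le_rfl
    rw [hZ10, hZ11, C13_Jr h hl.toTG, C13_Jr h hl.toTG] at h1
    exact h1
  have hPP : ∀ t, r < t → t < 2 →
      (D0 D).kk ll s' r t (w - D.g) (Z2 t) + (D0 D).kk ll s' t 2 (Z2 t) x' =
        (D0 D).P ll s' r w x' := by
    intro t ht0 ht1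
    have h1 := HZ2 r t 2 le_rfl ht0 ht1 le_rfl
    rw [hZ20, hZ21, C13_Jr h hl.toTG, C13_Jr h hl.toTG] at h1
    exact h1
  -- the positions at time one
  have hroom : ∀ y, D.j 0 (D.q 0) y + D.j 0 y (D.q 0) ≤ 5 * ε → y ∈ (D0 D).R p := by
    intro y hy
    by_contra hcon
    have h1 : ¬ Metric.infDist y (D.Z 0) ≤ p.η1 := hcon
    push Not at h1
    have h2 := He1 0 y h1.le
    linarith
  have hy1 : 1 - τ ≤ r → Z1 1 ∈ (D0 D).R p := by
    intro hr2
    obtain ⟨N1, N2, P1, P2, hN12⟩ := H1 s (by linarith) ll hl 0 1 (1 + r) one_pos (by linarith)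
      (by linarith) x (Z1 1) w RA hRAR (by rw [hQ 1 one_pos (by linarith)]; exact hbA)
    exact hroom _ (C13_midA h hp hε (by linarith) hwg hxd (by linarith) (by linarith) P1 P2
      (by rw [← hRA]; exact hN12))
  have hy2 : r < τ → Z2 1 ∈ (D0 D).R p := by
    intro hr2
    obtain ⟨N1, N2, P1, P2, hN12⟩ := H1 s' (by linarith) ll hl r 1 2 hr1 (by norm_num)
      (by linarith) (w - D.g) (Z2 1) x' RB hRBR (by rw [hPP 1 hr1 (by norm_num)]; exact hbB)
    exact hroom _ (C13_midB h hp hε (by linarith) hwg hxd' (by linarith) (by linarith) P1 P2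
      (by rw [← hRB]; exact hN12))
  have hm2 := H7 s s' (by linarith) (by linarith) hss0 ll hl N hNN k hk w hw fun k' hk' w' hw' => by
    have := hmin k' hk' w' hw'
    linarith
  rw [← hrdef] at hm2
  have hal := HCA s s' (by linarith) (by linarith) hss1 ll hl
  have hk12 : ∀ y y' : E, (D0 D).kk ll s' 1 2 y y' = (D0 D).k1 ll s' y y' := by
    intro y y'
    have := C13_t1 h hl.toTG s' 0 1 y y'
    rw [add_zero, show (1:ℝ) + 1 = 2 by norm_num] at this
    exact this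
  -- slice in the first leg
  have finA : ∀ j : ℕ, 0 < (j:ℝ) / N → (j:ℝ) / N < 1 + r →
      2 * p.ηc ≤ Metric.infDist (Z1 ((j:ℝ) / N)) (D.Z ((j:ℝ) / N)) →
      Metric.infDist (Z1 ((j:ℝ) / N)) (D.Z ((j:ℝ) / N)) ≤ 4 * p.ηc →
      ∃ k' < N, ∃ w' ∈ Mi D p ((k' : ℝ) / N), (D0 D).W p ll s s' ((k' : ℝ) / N) w' ≤
        (D0 D).W p ll s s' r w + (2 * CI + 2 * CA) * s * |s' - s| := by
    intro j hj0 hj hd2 hd4
    set t : ℝ := (j:ℝ) / N with htdef
    obtain ⟨N1, N2, P1, P2, hN12⟩ := H1 s (by linarith) ll hl 0 t (1 + r) hj0 hj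
      (by linarith) x (Z1 t) w RA hRAR (by rw [hQ t hj0 hj]; exact hbA)
    obtain ⟨hta, htb⟩ := C13_coreA h hp hε (by linarith) hjc hρ (by linarith) hX hMd hτ.le hw
      (C13_Md1 h hw) hxd hj0 hj.le (by linarith) P1 P2 (by rw [← hRA]; exact hN12)
    have hMi : Z1 t ∈ Mi D p t := by
      refine ⟨⟨C13_out h hp t hd2 hd4, by linarith⟩, ?_⟩
      show Metric.infDist (Z1 t) (D.Z t) ≤ 5 * p.ηc
      linarith
    have hc3 : (D0 D).kk ll s' t (1 + r) (Z1 t) w ≤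
        (D0 D).kk ll s t (1 + r) (Z1 t) w + 2 * CI * s * |s' - s| := by
      have h1 := hP1 t (1 + r) hj0.le hj le_rfl
      rw [hZ11, C13_Jr h hl.toTG, C13_corr_lv h] at h1
      have h2 := HCI s s' hs0 (by linarith) hss1 ll hl.toTG t (1 + r) hj (by linarith) (Z1 t) w
        (hquad s hs0 t (1 + r) hj (by linarith) (Z1 t) w _ h1)
      have h3 : 0 ≤ CI * s * |s' - s| := by positivity
      linarith
    obtain ⟨r', h0, h1, h2, h3⟩ := C13_WA h hp hl.toTG (by linarith) (by linarith) hr1 hx hx'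
      (C13_Mi hp hMi) hj0 hj.le ha hb (hQ t hj0 hj)
      (fun y T hT => kk_add h hl.toTG (by linarith) hj hT (Z1 t) w y) hc3 hal (fun ht1 => by
        refine ⟨Z2 1, hy2 (by linarith), ?_⟩
        have h3 := hPP 1 hr1 (by norm_num)
        rwa [hk12] at h3)
    obtain ⟨k', hk', he⟩ := C13_frac hNp h0 h1 h2
    refine ⟨k', hk', Z1 t, ?_, ?_⟩
    · rw [he]
      rcases h2 with h2 | h2
      · rw [h2]
        exact hMi
      · rw [h2]
        exact C13_Mi1 h hMi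
    · rw [he]
      linarith
  -- slice in the second leg
  have finB : ∀ j : ℕ, r < (j:ℝ) / N → (j:ℝ) / N < 2 →
      2 * p.ηc ≤ Metric.infDist (Z2 ((j:ℝ) / N) + D.g) (D.Z ((j:ℝ) / N)) →
      Metric.infDist (Z2 ((j:ℝ) / N) + D.g) (D.Z ((j:ℝ) / N)) ≤ 4 * p.ηc →
      ∃ k' < N, ∃ w' ∈ Mi D p ((k' : ℝ) / N), (D0 D).W p ll s s' ((k' : ℝ) / N) w' ≤
        (D0 D).W p ll s s' r w + (2 * CI + 2 * CA) * s * |s' - s| := by
    intro j hj0 hj hd2 hd4
    set t : ℝ := (j:ℝ) / N with htdef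
    set w' : E := Z2 t + D.g with hw'def
    have hww : w' - D.g = Z2 t := by rw [hw'def, add_sub_cancel_right]
    have hwO := C13_out h hp t hd2 hd4
    have hzO : Z2 t ∈ D.Out t (2 * p.ηc) := C13_Out_shift h hwO
    have hzi := C13_Out_inf hzO
    obtain ⟨N1, N2, P1, P2, hN12⟩ := H1 s' (by linarith) ll hl r t 2 hj0 hj
      (by linarith) (w - D.g) (Z2 t) x' RB hRBR (by rw [hPP t hj0 hj]; exact hbB)
    obtain ⟨hta, htb⟩ := C13_coreB h hp hε (by linarith) hjc hρ (J1 := J1) (by linarith) hX hMd hτ.le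
      hw (HJ1 r hr hr1.le _ hwX') hxd' hj0 hj (by linarith) P1 P2 (by rw [← hRB]; exact hN12)
    have hMi : w' ∈ Mi D p t := by
      refine ⟨⟨hwO, by linarith⟩, ?_⟩
      show Metric.infDist w' (D.Z t) ≤ 5 * p.ηc
      linarith
    have hc1 : (D0 D).kk ll s' r t (w - D.g) (Z2 t) + (D0 D).kk ll s' t 2 (w' - D.g) x' =
        (D0 D).P ll s' r w x' := by
      rw [hww]
      exact hPP t hj0 hj
    have hc2 : ∀ y T, T < 1 + r → (D0 D).kk ll s T (1 + t) y w' ≤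
        (D0 D).kk ll s T (1 + r) y w + (D0 D).kk ll s r t (w - D.g) (Z2 t) := by
      intro y T hT
      have h1 := kk_add h hl.toTG (s := s) (by linarith) hT (t'' := 1 + t) (by linarith) y w w'
      have h2 := C13_t1 h hl.toTG s r t w w'
      have h3 := C13_g h hl.toTG s r t w (Z2 t)
      rw [← hw'def] at h3
      linarith
    have hc3 : (D0 D).kk ll s r t (w - D.g) (Z2 t) ≤
        (D0 D).kk ll s' r t (w - D.g) (Z2 t) + 2 * CI * s * |s' - s| := by
      have h1 := hP2 r t le_rfl hj0 hj.le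
      rw [hZ20] at h1
      have h2 := HCI s' s hs0' (by linarith) (by rwa [abs_sub_comm]) ll hl.toTG r t hj0 (by linarith)
        (w - D.g) (Z2 t) (hquad s' hs0' r t hj0 (by linarith) (w - D.g) (Z2 t) _ h1)
      rw [abs_sub_comm s s'] at h2
      have h3 : CI * s' * |s' - s| ≤ 2 * CI * s * |s' - s| := by
        refine mul_le_mul_of_nonneg_right ?_ hab
        nlinarith
      linarith
    obtain ⟨r', h0, h1, h2, h3⟩ := C13_WB h hp hl.toTG (by linarith) (by linarith) hr hx hx'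
      (C13_Mi hp hMi) hj0 hj ha hb hc1 hc2 hc3 hal (fun ht1 =>
        ⟨Z1 1, hy1 (by linarith), by linarith, hQ 1 one_pos (by linarith)⟩)
    obtain ⟨k', hk', he⟩ := C13_frac hNp h0 h1 h2
    refine ⟨k', hk', w', ?_, ?_⟩
    · rw [he]
      rcases h2 with h2 | h2
      · rw [h2]
        exact hMi
      · rw [h2]
        exact C13_Mi1 h hMi
    · rw [he]
      linarith
  rcases lt_or_ge (4 * p.ηc) (Metric.infDist w (D.Z r)) with hw4 | hw4
  · -- crossing in the first leg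
    obtain ⟨t2, t4, h02, h24, h41, he2, he4, hin⟩ := C13_cross
      (φ := fun t => Metric.infDist (Z1 t) (D.Z t))
      (a := 0) (b := 1 + r) (u := 2 * p.ηc) (v := 4 * p.ηc) (by linarith) (by linarith)
      (C13_phc h hZ1c) (by
        show Metric.infDist (Z1 0) (D.Z 0) < _
        rw [hZ10]
        linarith) (by
        show _ < Metric.infDist (Z1 (1 + r)) (D.Z (1 + r))
        rw [hZ11, C13_inf h, C13_Z1 h]
        exact hw4)
    have hd := H5 s (by linarith) ll hl t2 t4 h24 (by linarith) (Z1 t2) (Z1 t4) (by linarith)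
      (hP1 t2 t4 h02.le h24 h41.le)
    have hd' : 1 ≤ (N:ℝ) * (t4 - t2) := by
      have : kN * s * (t4 - t2) ≤ N * (t4 - t2) := by
        refine mul_le_mul_of_nonneg_right ?_ (by linarith)
        have : 0 ≤ kN * s := by positivity
        linarith
      linarith
    obtain ⟨j, hj2, hj4⟩ := C13_slice hNp h02.le hd'
    have hin' := hin _ ⟨hj2, hj4⟩
    exact finA j (by linarith) (by linarith) hin'.1 hin'.2
  · rcases lt_or_ge (Metric.infDist w (D.Z r)) (2 * p.ηc) with hw2 | hw2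
    · -- crossing in the second leg
      obtain ⟨t2, t4, h02, h24, h41, he2, he4, hin⟩ := C13_cross
        (φ := fun t => Metric.infDist (Z2 t + D.g) (D.Z t))
        (a := r) (b := 2) (u := 2 * p.ηc) (v := 4 * p.ηc) (by linarith) (by linarith)
        (C13_phc h (hZ2c.add continuousOn_const)) (by
          show Metric.infDist (Z2 r + D.g) (D.Z r) < _
          rw [hZ20, sub_add_cancel]
          exact hw2) (by
          show _ < Metric.infDist (Z2 2 + D.g) (D.Z 2)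
          rw [hZ21, add_right_comm, C13_inf h, C13_Z2 h]
          exact C13_end h hp 0 hxd')
      have hd := H5 s' (by linarith) ll hl t2 t4 h24 (by linarith) (Z2 t2 + D.g) (Z2 t4 + D.g)
        (by linarith) (by
          rw [kk_Lam h hl.toTG h.g_mem]
          refine (hP2 t2 t4 h02.le h24 h41.le).trans (le_of_eq ?_)
          unfold GT.corr
          rw [bb_Lam h.toOk0 h.g_mem, bb_Lam h.toOk0 h.g_mem])
      have hd' : 1 ≤ (N:ℝ) * (t4 - t2) := by
        have : kN * s' * (t4 - t2) ≤ N * (t4 - t2) := by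
          refine mul_le_mul_of_nonneg_right ?_ (by linarith)
          have : kN * s' ≤ kN * (2 * s) := mul_le_mul_of_nonneg_left hss2 hkN.le
          linarith
        linarith
      obtain ⟨j, hj2, hj4⟩ := C13_slice hNp (by linarith) hd'
      have hin' := hin _ ⟨hj2, hj4⟩
      exact finB j (by linarith) (by linarith) hin'.1 hin'.2
    · -- the gate itself
      refine ⟨k, hk, w, ?_, ?_⟩
      · rw [← hrdef]
        refine ⟨⟨C13_out h hp r hw2 hw4, by linarith⟩, ?_⟩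
        show Metric.infDist w (D.Z r) ≤ 5 * p.ηc
        linarith
      · rw [← hrdef]
        have : 0 ≤ (2 * CI + 2 * CA) * s * |s' - s| := by positivity
        linarith

end EscT
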