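import Pool.Agent.EscT.TDefs
import Pool.Agent.helper1.EscN.Net

/-!
Project EscT (MP_6acca1_an), module F4: nets of gate points modulo the lattice.
-/

noncomputable section

namespace EscT

open MeasureTheory Set Filter Topology Esc EscF EscG
open scoped ContDiff

variable {ι : Type} [Fintype ι] {d : ℕ} {E : Type*} [NormedAddCommGroup E] [InnerProductSpace ℝ E]
  [FiniteDimensional ℝ E] {D : GT ι d E} {p : GP}

/-- fundamental domain: a compact set containing a representative of every point -/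
theorem F4_fund (D : GT ι d E) : ∃ K : Set E, IsCompact K ∧ ∀ x : E, ∃ v ∈ D.Lam, x + v ∈ K := by
  classical
  have : ProperSpace E := FiniteDimensional.proper ℝ E
  refine ⟨Metric.closedBall 0 (∑ i, ‖D.β i‖), isCompact_closedBall _ _, fun x => ?_⟩
  refine ⟨-(ZSpan.floor D.β x : E), ?_, ?_⟩
  · exact D.Lam.neg_mem (ZSpan.floor D.β x).2
  · rw [mem_closedBall_zero_iff, ← sub_eq_add_neg]
    exact ZSpan.norm_fract_le D.β x

/-- bound for the cardinality of subsets which are separated modulo the lattice -/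
theorem F4_card (D : GT ι d E) {r : ℝ} (hr : 0 < r) : ∃ N : ℕ, ∀ C : Finset E,
    (∀ a ∈ C, ∀ b ∈ C, a ≠ b → ∀ v ∈ D.Lam, r ≤ ‖a + v - b‖) → C.card ≤ N := by
  classical
  obtain ⟨K, hK, hfund⟩ := F4_fund D
  obtain ⟨N, hN⟩ := EscN.card_le_of_sep hK hr
  choose φ hφ hφK using hfund
  refine ⟨N, fun C hC => ?_⟩
  have hsep : ∀ a ∈ C, ∀ b ∈ C, a ≠ b → r ≤ ‖(a + φ a) - (b + φ b)‖ := by
    intro a ha b hb hab
    have h1 := hC a ha b hb hab (φ a - φ b) (D.Lam.sub_mem (hφ a) (hφ b))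
    have h2 : (a + φ a) - (b + φ b) = a + (φ a - φ b) - b := by abel
    rw [h2]; exact h1
  have hinj : Set.InjOn (fun x : E => x + φ x) (↑C : Set E) := by
    intro a ha b hb hab
    by_contra hne
    have h1 := hsep a ha b hb hne
    have hab' : a + φ a = b + φ b := hab
    rw [hab', sub_self, norm_zero] at h1
    linarith
  have h1 := hN (C.image fun x => x + φ x) (by
    intro w hw
    rw [Finset.coe_image] at hw
    obtain ⟨x, _, rfl⟩ := hw
    exact hφK x) (by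
    intro a ha b hb hab
    rw [Finset.mem_image] at ha hb
    obtain ⟨x, hx, rfl⟩ := ha
    obtain ⟨y, hy, rfl⟩ := hb
    have hne : x ≠ y := fun h => hab (by rw [h])
    rw [dist_eq_norm]
    exact hsep x hx y hy hne)
  rwa [Finset.card_image_of_injOn hinj] at h1

/-- the lattice has a shortest vector -/
theorem F4_short (D : GT ι d E) : ∃ δ : ℝ, 0 < δ ∧ ∀ v ∈ D.Lam, v ≠ 0 → δ ≤ ‖v‖ := by
  classical
  obtain ⟨C, hC, hCb⟩ : ∃ C : ℝ, 0 < C ∧ ∀ v : E, ‖D.β.equivFun v‖ ≤ C * ‖v‖ := by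
    have hc : Continuous D.β.equivFun := LinearMap.continuous_of_finiteDimensional
      (D.β.equivFun : E →ₗ[ℝ] (ι → ℝ))
    let L : E →L[ℝ] (ι → ℝ) := ⟨(D.β.equivFun : E →ₗ[ℝ] (ι → ℝ)), hc⟩
    refine ⟨‖L‖ + 1, by positivity, fun v => ?_⟩
    have h1 : ‖L v‖ ≤ ‖L‖ * ‖v‖ := L.le_opNorm v
    have h2 : ‖L‖ * ‖v‖ ≤ (‖L‖ + 1) * ‖v‖ := by
      apply mul_le_mul_of_nonneg_right _ (norm_nonneg v)
      linarith
    exact h1.trans h2
  refine ⟨1 / C, by positivity, fun v hv hv0 => ?_⟩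
  have hv' : v ∈ Submodule.span ℤ (Set.range D.β) := hv
  rw [D.β.mem_span_iff_repr_mem ℤ] at hv'
  have hne : ∃ i, D.β.repr v i ≠ 0 := by
    by_contra hno
    push Not at hno
    apply hv0
    apply D.β.repr.injective
    rw [map_zero]
    ext i
    rw [hno i]; rfl
  obtain ⟨i, hi⟩ := hne
  obtain ⟨n, hn⟩ := hv' i
  have hn' : (n : ℝ) = D.β.repr v i := by
    rw [← hn]; simp
  have hn0 : n ≠ 0 := by
    intro h0
    apply hi
    rw [← hn', h0, Int.cast_zero]
  have h1 : (1 : ℝ) ≤ |D.β.repr v i| := by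
    rw [← hn', ← Int.cast_abs]
    exact_mod_cast Int.one_le_abs hn0
  have h2 : |D.β.repr v i| ≤ ‖D.β.equivFun v‖ := by
    have := norm_le_pi_norm (D.β.equivFun v) i
    rwa [Real.norm_eq_abs, Module.Basis.equivFun_apply] at this
  rw [div_le_iff₀ hC, mul_comm]
  exact h1.trans (h2.trans (hCb v))

/-- centres: dense, and few of them are near a point -/
theorem exists_centres (h : D.Ok) (hp : POk D p) : ∃ (mult : ℕ) (r0 : ℝ), 0 < r0 ∧ ∀ t r, 0 < r → r ≤ r0 →
    ∃ Cn : Finset E, (∀ c ∈ Cn, c ∈ Md D p t) ∧ (∀ w ∈ Md D p t, ∃ c ∈ Cn, ∃ v ∈ D.Lam, ‖w + v - c‖ ≤ r) ∧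
      ∀ z : E, ∀ T : Finset E, T ⊆ Cn → (∀ c ∈ T, ∃ v ∈ D.Lam, ‖z + v - c‖ ≤ 4 * r) → T.card ≤ mult := by
  classical
  obtain ⟨M, hM⟩ := EscN.packing E 4
  refine ⟨M, 1, one_pos, fun t r hr _ => ?_⟩
  obtain ⟨N, hN⟩ := F4_card D hr
  set P : Finset E → Prop := fun C => (∀ c ∈ C, c ∈ Md D p t) ∧
    ∀ a ∈ C, ∀ b ∈ C, a ≠ b → ∀ v ∈ D.Lam, r ≤ ‖a + v - b‖ with hP
  set A : Set ℕ := {n | ∃ C, P C ∧ C.card = n} with hA
  have hA0 : A.Nonempty := ⟨0, ∅, ⟨by simp, by simp⟩, by simp⟩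
  have hAb : BddAbove A := ⟨N, by
    rintro n ⟨C, hC, rfl⟩
    exact hN C hC.2⟩
  obtain ⟨C, hC, hCcard⟩ := Nat.sSup_mem hA0 hAb
  have hmax : ∀ C', P C' → C'.card ≤ C.card := by
    intro C' hC'
    rw [hCcard]
    exact le_csSup hAb ⟨C', hC', rfl⟩
  refine ⟨C, hC.1, ?_, ?_⟩
  · intro w hw
    by_contra hno
    push Not at hno
    have hwC : w ∉ C := by
      intro hwC
      have := hno w hwC 0 D.Lam.zero_mem
      rw [add_zero, sub_self, norm_zero] at this
      linarith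
    have hP' : P (insert w C) := by
      refine ⟨?_, ?_⟩
      · intro x hx
        rw [Finset.mem_insert] at hx
        rcases hx with hx | hx
        · rw [hx]; exact hw
        · exact hC.1 x hx
      · intro a ha b hb hab v hv
        rw [Finset.mem_insert] at ha hb
        rcases ha with ha | ha
        · rcases hb with hb | hb
          · exact absurd (ha.trans hb.symm) hab
          · subst ha
            exact (hno b hb v hv).le
        · rcases hb with hb | hb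
          · subst hb
            have h1 := (hno a ha (-v) (D.Lam.neg_mem hv)).le
            have h2 : a + v - b = -(b + -v - a) := by abel
            rw [h2, norm_neg]
            exact h1
          · exact hC.2 a ha b hb hab v hv
    have := hmax _ hP'
    rw [Finset.card_insert_of_notMem hwC] at this
    omega
  · intro z T hT hz
    have hsel : ∀ c : E, ∃ v : E, c ∈ T → v ∈ D.Lam ∧ ‖z + v - c‖ ≤ 4 * r := by
      intro c
      by_cases hc : c ∈ T
      · obtain ⟨v, hv, hb⟩ := hz c hc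
        exact ⟨v, fun _ => ⟨hv, hb⟩⟩
      · exact ⟨0, fun hc' => absurd hc' hc⟩
    choose φ hφ using hsel
    have hsep : ∀ a ∈ T, ∀ b ∈ T, a ≠ b → r ≤ ‖(a - φ a) - (b - φ b)‖ := by
      intro a ha b hb hab
      have h1 := hC.2 a (hT ha) b (hT hb) hab (φ b - φ a) (D.Lam.sub_mem (hφ b hb).1 (hφ a ha).1)
      have h2 : (a - φ a) - (b - φ b) = a + (φ b - φ a) - b := by abel
      rw [h2]; exact h1
    have hinj : Set.InjOn (fun x : E => x - φ x) (↑T : Set E) := by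
      intro a ha b hb hab
      by_contra hne
      have h1 := hsep a ha b hb hne
      have hab' : a - φ a = b - φ b := hab
      rw [hab', sub_self, norm_zero] at h1
      linarith
    have h1 := hM r hr (T.image fun x => x - φ x) z (by
      intro a ha b hb hab
      rw [Finset.mem_image] at ha hb
      obtain ⟨x, hx, rfl⟩ := ha
      obtain ⟨y, hy, rfl⟩ := hb
      have hne : x ≠ y := fun h => hab (by rw [h])
      rw [dist_eq_norm]
      exact hsep x hx y hy hne) (by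
      intro a ha
      rw [Finset.mem_image] at ha
      obtain ⟨x, hx, rfl⟩ := ha
      have h2 := (hφ x hx).2
      rw [dist_eq_norm, ← norm_neg]
      have h3 : -(x - φ x - z) = z + φ x - x := by abel
      rw [h3]; exact h2)
    rwa [Finset.card_image_of_injOn hinj] at h1

/-- a sphere free of touched cells -/
theorem sphere_free (h : D.Ok) : ∃ r0 : ℝ, 0 < r0 ∧ ∀ (N1 : ℕ) (r : ℝ), 0 < r → 3 * r * (N1 + 2) ≤ r0 →
    ∀ (z0 : E) (P : E → Prop) (T : Finset E), T.card ≤ N1 →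
      (∀ z, P z → ∃ c ∈ T, ∃ v ∈ D.Lam, ‖z + v - c‖ ≤ r) →
      ∃ ρ : ℝ, 0 < ρ ∧ ρ ≤ 3 * r * (N1 + 1) ∧ ∀ z, ‖z - z0‖ = ρ → ¬ P z := by
  classical
  obtain ⟨δ, hδ, hshort⟩ := F4_short D
  refine ⟨δ / 3, by positivity, fun N1 r hr hr0 z0 P T hT hP => ?_⟩
  by_contra hno
  push Not at hno
  have hex : ∀ k : Fin (N1 + 1), ∃ z c v : E, ‖z - z0‖ = 3 * r * ((k : ℕ) + 1) ∧ c ∈ T ∧ v ∈ D.Lam ∧
      ‖z + v - c‖ ≤ r := by
    intro k
    have hk : ((k : ℕ) : ℝ) ≤ N1 := by exact_mod_cast Nat.lt_succ_iff.1 k.2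
    have hk0 : (0 : ℝ) ≤ ((k : ℕ) : ℝ) := Nat.cast_nonneg _
    obtain ⟨z, hz, hPz⟩ := hno (3 * r * ((k : ℕ) + 1)) (by positivity) (by
      apply mul_le_mul_of_nonneg_left _ (by positivity)
      linarith)
    obtain ⟨c, hc, v, hv, hb⟩ := hP z hPz
    exact ⟨z, c, v, hz, hc, hv, hb⟩
  choose z c v hz hc hv hb using hex
  obtain ⟨k, l, hkl, hckl⟩ : ∃ k l : Fin (N1 + 1), k < l ∧ c k = c l := by
    obtain ⟨k, _, l, _, hne, hckl⟩ := Finset.exists_ne_map_eq_of_card_lt_of_maps_to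
      (s := (Finset.univ : Finset (Fin (N1 + 1)))) (t := T) (f := c) (by
        rw [Finset.card_univ, Fintype.card_fin]; omega) (fun k _ => hc k)
    rcases lt_or_gt_of_ne hne with h1 | h1
    · exact ⟨k, l, h1, hckl⟩
    · exact ⟨l, k, h1, hckl.symm⟩
  have hkl' : ((k : ℕ) : ℝ) + 1 ≤ ((l : ℕ) : ℝ) := by exact_mod_cast hkl
  have hl : ((l : ℕ) : ℝ) ≤ N1 := by exact_mod_cast Nat.lt_succ_iff.1 l.2
  have hk0 : (0 : ℝ) ≤ ((k : ℕ) : ℝ) := Nat.cast_nonneg _
  have h1 : ‖(z k - z l) + (v k - v l)‖ ≤ 2 * r := by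
    have e1 : (z k - z l) + (v k - v l) = (z k + v k - c k) - (z l + v l - c l) := by
      rw [hckl]; abel
    rw [e1]
    have := norm_sub_le (z k + v k - c k) (z l + v l - c l)
    have h2 := hb k
    have h3 := hb l
    linarith
  have h2 : ‖z k - z l‖ ≤ ‖z k - z0‖ + ‖z l - z0‖ := by
    have e1 : z k - z l = (z k - z0) - (z l - z0) := by abel
    rw [e1]
    exact norm_sub_le _ _
  have h3 : ‖z l - z0‖ - ‖z k - z0‖ ≤ ‖z k - z l‖ := by
    have e1 : z k - z l = -((z l - z0) - (z k - z0)) := by abel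
    rw [e1, norm_neg]
    exact norm_sub_norm_le _ _
  rw [hz k, hz l] at h2 h3
  by_cases hv0 : v k - v l = 0
  · rw [hv0, add_zero] at h1
    nlinarith
  · have h4 := hshort _ (D.Lam.sub_mem (hv k) (hv l)) hv0
    have h5 : ‖v k - v l‖ ≤ ‖(z k - z l) + (v k - v l)‖ + ‖z k - z l‖ := by
      have e1 : v k - v l = ((z k - z l) + (v k - v l)) - (z k - z l) := by abel
      calc ‖v k - v l‖ = ‖((z k - z l) + (v k - v l)) - (z k - z l)‖ := by rw [← e1]
        _ ≤ _ := norm_sub_le _ _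
    have h6 : r * ((l : ℕ) : ℝ) ≤ r * N1 := mul_le_mul_of_nonneg_left hl hr.le
    have h7 : r * (((k : ℕ) : ℝ) + 1) ≤ r * ((l : ℕ) : ℝ) := mul_le_mul_of_nonneg_left hkl' hr.le
    nlinarith

end EscT
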