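import Pool.Agent.EscT.TDefs
import Pool.Agent.EscT.A2b
import Pool.Agent.EscT.A5c
import Pool.Agent.EscT.C4
import Pool.Agent.EscT.C6
import Pool.Agent.EscT.C6b
import Pool.Agent.EscT.C9
import Pool.Agent.EscT.C11a
import Pool.Agent.EscT.C11b

/-!
Project EscT, module F5a: bumps outside of the rooms do not change the room kernels; `W` is monotone.
-/

set_option linter.unusedSectionVars false
set_option linter.unusedVariables false

noncomputable section

namespace EscT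

open MeasureTheory Set Filter Topology Esc EscF EscG
open scoped ContDiff

variable {ι : Type} [Fintype ι] {d : ℕ} {E : Type*} [NormedAddCommGroup E] [InnerProductSpace ℝ E]
  [FiniteDimensional ℝ E] {D : GT ι d E} {p : GP} {m M Mf : ℝ} {L : LP} {ll l : E → E → ℝ → ℝ}
  {f f' : E → ℝ → ℝ}

namespace F5a

theorem kp_congr {Y : Type*} {K K' : Y → Y → ℝ} {C A : Set Y} (hCA : C ⊆ A)
    (H : ∀ x ∈ A, ∀ x' ∈ A, K' x x' = K x x') : ∀ n : ℕ, ∀ x ∈ A, ∀ x' ∈ A,
      kp K' C n x x' = kp K C n x x' := by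
  intro n
  induction n using Nat.strong_induction_on with
  | _ n ih =>
    match n, ih with
    | 0, _ => intro x _ x' _; rfl
    | 1, _ => intro x hx x' hx'; exact H x hx x' hx'
    | n + 2, ih =>
      intro x hx x' hx'
      show (⨅ y : C, (K' x y + kp K' C (n + 1) y x')) = ⨅ y : C, (K x y + kp K C (n + 1) y x')
      refine iInf_congr fun y => ?_
      rw [H x hx y (hCA y.2), ih (n + 1) (by omega) y (hCA y.2) x' hx']

theorem al_congr {Y : Type*} {K K' : Y → Y → ℝ} {C A : Set Y} (hCA : C ⊆ A)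
    (H : ∀ x ∈ A, ∀ x' ∈ A, K' x x' = K x x') : Esc.al K' C = Esc.al K C := by
  unfold Esc.al
  congr 1
  refine iSup_congr fun T => ?_
  congr 1
  exact iInf_congr fun x => kp_congr hCA H (T + 1) _ (hCA x.1.2) _ (hCA x.2.2)

theorem bar_congr {Y : Type*} {K K' : Y → Y → ℝ} {C A : Set Y} (hCA : C ⊆ A)
    (H : ∀ x ∈ A, ∀ x' ∈ A, K' x x' = K x x') {x x' : Y} (hx : x ∈ A) (hx' : x' ∈ A) :
    Esc.bar K' C x x' = Esc.bar K C x x' := by
  unfold Esc.bar
  refine iSup_congr fun S => iInf_congr fun j => ?_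
  rw [al_congr hCA H, kp_congr hCA H (S + j + 1) x hx x' hx']

theorem lf_zero (l : E → E → ℝ → ℝ) : lf l (fun _ _ => 0) = l := by
  funext x u t
  simp [lf]

theorem pt_zero (β : Module.Basis ι ℝ E) : Pt β (fun (_ : E) (_ : ℝ) => (0:ℝ)) :=
  ⟨contDiff_const, fun _ _ _ => rfl, fun _ _ => rfl⟩

theorem good_zero : Good 0 (fun (_ : E) (_ : ℝ) => (0:ℝ)) :=
  ⟨le_rfl, continuous_const, fun _ _ => by simp, fun _ _ _ => by simp, fun _ _ _ => by simp⟩

theorem lv_zero (b : Fin d → E) : lv b 0 = 0 := by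
  simp [lv]

theorem R_X (hp : POk D p) {x : E} (hx : x ∈ (D0 D).R p) : x ∈ D.X p.ρ := by
  have h1 : x ∈ D.Rm 0 p.ηc := by
    have h2 : Metric.infDist x (D.Z 0) ≤ p.η1 := hx
    have h3 : p.η1 ≤ p.ηc := by
      have := hp.η1_le
      have := hp.η1_pos
      linarith
    exact h2.trans h3
  have h4 := hp.bnd 0 x (Or.inl h1) 0 (by simp)
  simpa using h4

theorem Md_Mg (hp : POk D p) {t : ℝ} {w : E} (hw : w ∈ Md D p t) :
    w ∈ D.Mg t (p.ηc / 2) (2 * p.κ) := by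
  obtain ⟨⟨h1, h2⟩, -⟩ := hw
  refine ⟨fun v hv => ?_, ?_⟩
  · have h3 := h1 v hv
    have := hp.ηc_pos
    linarith
  · have := hp.κ_pos
    linarith

/-- continuity of the integrand along a geodesic -/
theorem geo_cont (hl : TG D.β m M ll) {a b V : ℝ} {Z v : ℝ → E}
    (hG : Geo ll a b V Z v) : ContinuousOn (fun r => ll (Z r) (v r) r) (Icc a b) := by
  have hvc : ContinuousOn v (Icc a b) := by
    obtain ⟨C, hC⟩ := hG.lip
    have : LipschitzOnWith (Real.toNNReal C) v (Icc a b) := by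
      refine LipschitzOnWith.of_dist_le_mul fun x hx y hy => ?_
      rw [dist_eq_norm, Real.dist_eq]
      refine (hC y hy x hx).trans ?_
      exact mul_le_mul_of_nonneg_right (Real.le_coe_toNNReal C) (abs_nonneg _)
    exact this.continuousOn
  have hZc : ContinuousOn Z (Icc a b) := by
    have : LipschitzOnWith (Real.toNNReal V) Z (Icc a b) := by
      refine LipschitzOnWith.of_dist_le_mul fun x hx y hy => ?_
      rw [dist_eq_norm, Real.dist_eq, hG.pos y hy x hx]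
      refine (intervalIntegral.norm_integral_le_of_norm_le_const (C := V) fun r hr => ?_).trans ?_
      · refine hG.bd r ?_
        exact (uIcc_subset_Icc hy hx) (uIoc_subset_uIcc hr)
      · exact mul_le_mul_of_nonneg_right (Real.le_coe_toNNReal V) (abs_nonneg _)
    exact this.continuousOn
  have h3 : Continuous (fun q : E × E × ℝ => ll q.1 q.2.1 q.2.2) := hl.smooth.continuous
  exact h3.comp_continuousOn (hZc.prodMk (hvc.prodMk continuousOn_id))

end F5a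

/-- room kernels are not changed by bumps outside of the rooms -/
theorem room_inv (h : D.Ok) (hp : POk D p) (m : ℝ) (L : LP) : ∃ s0 : ℝ, 1 ≤ s0 ∧ ∀ s, s0 ≤ s → ∀ l,
    FT D m L l → ∀ l', FT D m L l' → (∀ x u t, l x u t ≤ l' x u t) →
    (∀ x t, x ∉ D.Out t (p.ηc / 2) → ∀ u, l' x u t = l x u t) → ∀ x ∈ (D0 D).R p, ∀ x' ∈ (D0 D).R p,
    (D0 D).k1 l' s x x' = (D0 D).k1 l s x x' := by
  obtain ⟨s0, hs0, H⟩ := v1 h hp m L
  refine ⟨s0, hs0, fun s hs l hl l' hl' hle heq x hx x' hx' => ?_⟩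
  have hs' : 0 ≤ s := by linarith
  refine le_antisymm ?_ (K_mono (h.fr0 0).li hl.toTG hl'.toTG (QB0 h.toOk0 0) hle hs' zero_lt_one x x')
  obtain ⟨V, -, HV⟩ := kk_geo h hl.toTG (Mf := 0) le_rfl s p.ρ
  obtain ⟨n, Z, v, hZ0, hZ1, hG, hkk⟩ := HV (fun _ _ => 0) (F5a.pt_zero D.β) F5a.good_zero s hs' le_rfl
    0 1 (by norm_num) (by norm_num) x (F5a.R_X hp hx) x' (F5a.R_X hp hx')
  rw [F5a.lf_zero] at hG hkk
  have hc := F5a.geo_cont hl.toTG hG
  have hii : ∀ a b : ℝ, 0 ≤ a → a ≤ b → b ≤ 1 →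
      IntervalIntegrable (fun r => l (Z r) (v r) r) volume a b := fun a b ha hab hb =>
    (hc.mono (by rw [uIcc_of_le hab]; exact Icc_subset_Icc ha hb)).intervalIntegrable
  have hJ : ∀ t : ℝ, ∀ y : E, (D0 D).kk l s t 1 y (Z 1) = (D0 D).kk l s t 1 y x' := by
    intro t y
    have h1 := kk_J h hl.toTG s t 1 y x' 0 n
    rw [F5a.lv_zero, add_zero] at h1
    rw [hZ1, h1]
  have hk1 : (D0 D).k1 l s x x' = (D0 D).cv l s 0 1 Z v := by
    rw [← hkk 0 1 le_rfl zero_lt_one le_rfl, hJ, hZ0]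
    rfl
  have hout : ∀ t, 0 < t → t < 1 → Z t ∉ D.Out t (p.ηc / 2) := by
    intro t ht ht1 hmem
    have h1 := H s hs l hl x hx x' hx' t ht ht1 (Z t) hmem
    have h2 := hkk 0 t le_rfl ht ht1.le
    have h3 := hkk t 1 ht.le ht1 le_rfl
    rw [hZ0] at h2
    rw [hJ] at h3
    rw [h2, h3, hk1] at h1
    have h4 : (D0 D).cv l s 0 t Z v + (D0 D).cv l s t 1 Z v = (D0 D).cv l s 0 1 Z v := by
      unfold GD.cv
      rw [← intervalIntegral.integral_add_adjacent_intervals (hii 0 t le_rfl ht.le ht1.le)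
        (hii t 1 ht.le ht1.le le_rfl)]
      ring
    linarith
  have hcv : (D0 D).cv l' s 0 1 Z v = (D0 D).cv l s 0 1 Z v := by
    unfold GD.cv
    congr 2
    refine intervalIntegral.integral_congr_ae ?_
    have h1 : ∀ᵐ r : ℝ ∂volume, r ≠ 1 := by
      simp [ae_iff]
    filter_upwards [h1] with r hr1 hr
    rw [uIoc_of_le zero_le_one] at hr
    exact heq (Z r) r (hout r hr.1 (lt_of_le_of_ne hr.2 hr1)) (v r)
  obtain ⟨C, hC⟩ := hG.lip
  have h5 : (D0 D).kk l' s 0 1 (Z 0) x' ≤ (D0 D).cv l' s 0 1 Z v :=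
    kk_le_cv h hl'.toTG hs' zero_lt_one (C := C) (fun r hr r' hr' => hC r hr r' hr')
      (fun r hr r' hr' => hG.pos r hr r' hr') n hZ1
  rw [hZ0, hcv, ← hk1] at h5
  exact h5

theorem bar_inv (h : D.Ok) (hp : POk D p) {l' : E → E → ℝ → ℝ} {s : ℝ}
    (H : ∀ x ∈ (D0 D).R p, ∀ x' ∈ (D0 D).R p, (D0 D).k1 l' s x x' = (D0 D).k1 l s x x') :
    (D0 D).al p l' s = (D0 D).al p l s ∧
    ∀ x ∈ (D0 D).R p, ∀ x' ∈ (D0 D).R p, (D0 D).bar p l' s x x' = (D0 D).bar p l s x x' := by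
  have hC : (D0 D).C p ⊆ (D0 D).R p := C_sub
  exact ⟨F5a.al_congr hC H, fun x hx x' hx' => F5a.bar_congr hC H hx hx'⟩

/-- `W` is monotone under such bumps -/
theorem W_mono (h : D.Ok) (hp : POk D p) (hl : FT D m L l) (Mf : ℝ) : ∃ s0 : ℝ, 1 ≤ s0 ∧
    ∀ s s', s0 ≤ s → s0 ≤ s' → ∀ f f', Pt D.β f → Good Mf f → Pt D.β f' → Good Mf f' →
    (∀ x t, f x t ≤ f' x t) → (∀ x t, x ∉ D.Out t (p.ηc / 2) → f' x t = f x t) →
    ∀ r, 0 ≤ r → r ≤ 1 → ∀ w ∈ Md D p r, (D0 D).W p (lf l f) s s' r w ≤ (D0 D).W p (lf l f') s s' r w := by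
  obtain ⟨s0, hs0, H⟩ := room_inv (D := D) (p := p) h hp m (L + Mf)
  refine ⟨s0, hs0, fun s s' hs hs' f f' hf hg hf' hg' hle heq r hr hr1 w hw => ?_⟩
  have hs0' : 0 ≤ s := by linarith
  have hs1' : 0 ≤ s' := by linarith
  have hT : FT D m (L + Mf) (lf l f) := FT.add h.toOk0 hl hf hg
  have hT' : FT D m (L + Mf) (lf l f') := FT.add h.toOk0 hl hf' hg'
  have hw' := F5a.Md_Mg hp hw
  have hinv : ∀ s, s0 ≤ s → ∀ x ∈ (D0 D).R p, ∀ x' ∈ (D0 D).R p,
      (D0 D).k1 (lf l f') s x x' = (D0 D).k1 (lf l f) s x x' := by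
    intro s hs
    refine H s hs (lf l f) hT (lf l f') hT' (fun x u t => ?_) (fun x t hx u => ?_)
    · have := hle x t
      unfold lf
      linarith
    · unfold lf
      rw [heq x t hx]
  have hq := q_R (D := D) h hp
  have h1 : (D0 D).alpha p (lf l f) s r w ≤ (D0 D).alpha p (lf l f') s r w := by
    obtain ⟨x, hx, hxe⟩ := alpha_att h hp hT'.toTG hs0' hr hr1 hw'
    have hx' : x ∈ (D0 D).R p := C_sub hx
    obtain ⟨hal, hbar⟩ := bar_inv h hp (hinv s hs)
    have h2 := alpha_le h hp hT.toTG hs0' hr hr1 hw' hx'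
    have h3 : (D0 D).Q (lf l f) s r x w ≤ (D0 D).Q (lf l f') s r x w :=
      kk_mono h hl.toTG hf hg hf' hg' hle hs0' (by linarith) x w
    rw [hxe, hal, hbar _ hq _ hx']
    linarith
  have h2 : (D0 D).beta p (lf l f) s' r w ≤ (D0 D).beta p (lf l f') s' r w := by
    obtain ⟨x, hx, hxe⟩ := beta_att h hp hT'.toTG hs1' hr hr1 hw'
    have hx' : x ∈ (D0 D).R p := C_sub hx
    obtain ⟨hal, hbar⟩ := bar_inv h hp (hinv s' hs')
    have h2 := beta_le h hp hT.toTG hs1' hr hr1 hw' hx'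
    have h3 : (D0 D).P (lf l f) s' r w x ≤ (D0 D).P (lf l f') s' r w x :=
      kk_mono h hl.toTG hf hg hf' hg' hle hs1' (by linarith) (w - D.g) x
    rw [hxe, hal, hbar _ hx' _ hq]
    linarith
  exact add_le_add h1 h2

end EscT
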