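import Pool.Agent.EscT.TDefs
import Pool.Agent.EscT.C4
import Pool.Agent.EscK.F6m1

/-!
Project EscT (MP_6acca1_an), module F6, first part: cells at the times of the slices, visible cells. (Numbers and
finite sums of bumps: `EscG.F6m1`, `EscK.F6m1`.)
-/

set_option linter.unusedSectionVars false

noncomputable section

namespace EscT

open MeasureTheory Set Filter Topology Esc EscF EscG
open scoped ContDiff Pointwise

variable {ι : Type} [Fintype ι] {d : ℕ} {E : Type*} [NormedAddCommGroup E] [InnerProductSpace ℝ E]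
  [FiniteDimensional ℝ E] {D : GT ι d E} {p : GP}

theorem F6_lam_closed (D : GT ι d E) : IsClosed (D.Lam : Set E) := by
  have : DiscreteTopology D.Lam :=
    inferInstanceAs <| DiscreteTopology (Submodule.span ℤ (Set.range D.β)).toAddSubgroup
  exact AddSubgroup.isClosed_of_discrete

theorem F6_lv_mem (h : D.Ok) (n : Fin d → ℤ) : lv D.b n ∈ D.Lam := by
  unfold lv
  refine AddSubgroup.sum_mem _ fun i _ => ?_
  rw [Int.cast_smul_eq_zsmul]
  refine AddSubgroup.zsmul_mem _ ?_ _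
  obtain ⟨k, hk⟩ := (h.fr0 0).bβ i
  have hk' : D.b i = D.β k := hk
  rw [hk']
  exact Submodule.subset_span (mem_range_self k)

/-- finite sums of bumps of the class -/
theorem F6_mem_sum {β : Module.Basis ι ℝ E} (S : SG β) {κ : Type*} (I : Finset κ) {b : κ → E → ℝ → ℝ}
    (hb : ∀ i, S.mem (b i)) (σ : κ → ℝ) : S.mem (fun x t => ∑ i ∈ I, σ i * b i x t) := by
  classical
  induction I using Finset.induction_on with
  | empty => simpa using S.zero
  | insert a s ha ih =>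
    have h1 : (fun (x : E) (t : ℝ) => ∑ i ∈ insert a s, σ i * b i x t) =
        fun x t => (σ a * b a x t) + ∑ i ∈ s, σ i * b i x t := by
      funext x t
      rw [Finset.sum_insert ha]
    rw [h1]
    exact S.add _ _ (S.smul _ _ (hb a)) ih

theorem F6_Rm_closed (D : GT ι d E) (t η : ℝ) : IsClosed (D.Rm t η) :=
  isClosed_le (Metric.continuous_infDist_pt _) continuous_const

theorem F6_Rm_J (h : D.Ok) {t η : ℝ} {w : E} (hw : w ∈ D.Rm t η) (n : Fin d → ℤ) :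
    w + lv D.b n ∈ D.Rm t η := by
  have hZne : (D.Z t).Nonempty := ⟨D.q t, (h.fr0 t).q0_mem⟩
  have h1 : Metric.infDist (w + lv D.b n) (D.Z t) ≤ Metric.infDist w (D.Z t) := by
    rw [Metric.le_infDist hZne]
    intro z hz
    refine (Metric.infDist_le_dist_of_mem ((h.fr0 t).Z_J n z hz)).trans (le_of_eq ?_)
    exact dist_add_right _ _ _
  exact h1.trans hw

theorem F6_Md_closed (h : D.Ok) (p : GP) (t : ℝ) : IsClosed (Md D p t) :=
  (Mg_closed h t _ _).inter (F6_Rm_closed D t _)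

theorem F6_Md_J (h : D.Ok) {t : ℝ} {w : E} (hw : w ∈ Md D p t) (n : Fin d → ℤ) :
    w + lv D.b n ∈ Md D p t := ⟨Mg_J h hw.1 n, F6_Rm_J h hw.2 n⟩

/-- points outside of the rooms at nearby times -/
theorem F6_Out_shift (h : D.Ok) {t t' η wb : ℝ} {x : E} {j : ℤ} (hj : |t + j - t'| < wb)
    (hx : x ∈ D.Out t' (η + D.A * wb)) : x ∈ D.Out t η := by
  rw [← Out_per h t η j]
  intro w hw
  have hZne : (D.Z (t + j)).Nonempty := ⟨D.q (t + j), (h.fr0 (t + j)).q0_mem⟩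
  rw [Metric.le_infDist hZne]
  intro z hz
  have h1 := hx w hw
  have h2 := Metric.infDist_le_infDist_add_dist (s := D.Z t') (x := x + w) (y := z)
  have h3 := h.Z_lip (t + j) t' z hz
  have h6 : D.A * |t + j - t'| ≤ D.A * wb := mul_le_mul_of_nonneg_left hj.le h.A_pos.le
  linarith

/-- few cells are near the images of a point -/
theorem F6_multG (D : GT ι d E) (G : Finset (E ≃ₗᵢ[ℝ] E)) {r : ℝ} {mult : ℕ} {Cn : Finset E}
    (hmult : ∀ z : E, ∀ T : Finset E, T ⊆ Cn → (∀ c ∈ T, ∃ v ∈ D.Lam, ‖z + v - c‖ ≤ 4 * r) →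
      T.card ≤ mult) (z : E) (T : Finset E) (hT : T ⊆ Cn)
    (hTz : ∀ c ∈ T, ∃ P ∈ G, ∃ v ∈ D.Lam, ‖P z + v - c‖ ≤ 4 * r) : T.card ≤ G.card * mult := by
  classical
  have hcov : T ⊆ G.biUnion fun P => T.filter fun c => ∃ v ∈ D.Lam, ‖P z + v - c‖ ≤ 4 * r := by
    intro c hc
    obtain ⟨P, hP, hv⟩ := hTz c hc
    exact Finset.mem_biUnion.2 ⟨P, hP, Finset.mem_filter.2 ⟨hc, hv⟩⟩
  refine (Finset.card_le_card hcov).trans (Finset.card_biUnion_le_card_mul _ _ _ fun P _ => ?_)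
  exact hmult (P z) _ ((Finset.filter_subset _ _).trans hT) fun c hc => (Finset.mem_filter.1 hc).2

/-- the cell of the centre `c` at time `t` -/
def F6_Q (D : GT ι d E) (p : GP) (t r : ℝ) (c : E) : Set E :=
  {w | w ∈ Md D p t ∧ ∃ v ∈ D.Lam, ‖w + v - c‖ ≤ r}

theorem F6_ball_closed (D : GT ι d E) (r : ℝ) (c : E) :
    IsClosed {w : E | ∃ v ∈ D.Lam, ‖w + v - c‖ ≤ r} := by
  have : ProperSpace E := FiniteDimensional.proper ℝ E
  have h1 : {w : E | ∃ v ∈ D.Lam, ‖w + v - c‖ ≤ r} = (D.Lam : Set E) + Metric.closedBall c r := by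
    ext w
    simp only [mem_setOf_eq, Set.mem_add, Metric.mem_closedBall, dist_eq_norm]
    constructor
    · rintro ⟨v, hv, hw⟩
      exact ⟨-v, D.Lam.neg_mem hv, w + v, hw, by abel⟩
    · rintro ⟨v, hv, y, hy, rfl⟩
      refine ⟨-v, D.Lam.neg_mem hv, ?_⟩
      rwa [show v + y + -v - c = y - c by abel]
  rw [h1]
  exact (F6_lam_closed D).add_right_of_isCompact (isCompact_closedBall c r)

theorem F6_Md_sub (hp : POk D p) (t : ℝ) : Md D p t ⊆ D.Mg t (p.ηc / 2) (2 * p.κ) := by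
  rintro w ⟨⟨h1, h2⟩, _⟩
  refine ⟨fun v hv => ?_, ?_⟩
  · have h3 := h1 v hv
    have := hp.ηc_pos
    linarith
  · have := hp.κ_pos
    linarith

/-- minimum over a cell of a function periodic under the fast lattice -/
theorem F6_min (h : D.Ok) (hp : POk D p) {t r : ℝ} {c : E} (hne : (F6_Q D p t r c).Nonempty)
    {Φ : E → ℝ} (hΦ : ContinuousOn Φ (D.Mg t (p.ηc / 2) (2 * p.κ)))
    (hJ : ∀ w (n : Fin d → ℤ), Φ (w + lv D.b n) = Φ w) :
    ∃ w ∈ F6_Q D p t r c, ∀ z ∈ F6_Q D p t r c, Φ w ≤ Φ z := by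
  have : ProperSpace E := FiniteDimensional.proper ℝ E
  have hcl : IsClosed (F6_Q D p t r c) := (F6_Md_closed h p t).inter (F6_ball_closed D r c)
  have hK : IsCompact (F6_Q D p t r c ∩ Metric.closedBall 0 p.ρ) :=
    (isCompact_closedBall _ _).inter_left hcl
  have hred : ∀ w ∈ F6_Q D p t r c, ∃ n : Fin d → ℤ,
      w + lv D.b n ∈ F6_Q D p t r c ∩ Metric.closedBall 0 p.ρ := by
    rintro w ⟨hw, v, hv, hwv⟩
    obtain ⟨n, hn⟩ := hp.bnd t w (Or.inr (F6_Md_sub hp t hw)) 0 (by norm_num)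
    rw [Int.cast_zero, zero_smul, add_zero] at hn
    refine ⟨n, ⟨F6_Md_J h hw n, v - lv D.b n, D.Lam.sub_mem hv (F6_lv_mem h n), ?_⟩, ?_⟩
    · rwa [show w + lv D.b n + (v - lv D.b n) - c = w + v - c by abel]
    · rwa [mem_closedBall_zero_iff]
  obtain ⟨w0, hw0⟩ := hne
  obtain ⟨n0, hn0⟩ := hred w0 hw0
  obtain ⟨w, hw, hwmin⟩ := hK.exists_isMinOn ⟨_, hn0⟩
    (hΦ.mono fun z hz => F6_Md_sub hp t hz.1.1)
  refine ⟨w, hw.1, fun z hz => ?_⟩
  obtain ⟨n, hn⟩ := hred z hz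
  have h1 := hwmin hn
  rw [mem_setOf_eq, hJ] at h1
  exact h1

/-- the cells: a slice and a centre -/
abbrev F6I {Nn : ℕ} (Cn : Fin Nn → Finset E) : Type _ := (k : Fin Nn) × {c // c ∈ Cn k}

/-- few cells are visible along a curve -/
theorem F6_vis (D : GT ι d E) (G : Finset (E ≃ₗᵢ[ℝ] E)) {V wb r a a' : ℝ} {Nn mult : ℕ} (hNn : 0 < Nn) (hV : V * (2 * wb) ≤ r)
    (hV0 : 0 ≤ V) (hwb : wb ≤ 1 / Nn) (hwb1 : wb < 1) (ha : 0 ≤ a) (ha' : a' ≤ 2)
    {Cn : Fin Nn → Finset E}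
    (hmult : ∀ k, ∀ z : E, ∀ T : Finset E, T ⊆ Cn k →
      (∀ c ∈ T, ∃ P ∈ G, ∃ v ∈ D.Lam, ‖P z + v - c‖ ≤ 4 * r) → T.card ≤ mult) {Z : ℝ → E}
    (hZ : ∀ t ∈ Icc a a', ∀ t' ∈ Icc a a', ‖Z t - Z t'‖ ≤ V * |t - t'|)
    (S : Finset (F6I Cn))
    (hS : ∀ q ∈ S, ∃ t ∈ Icc a a', (∃ j : ℤ, |t + j - (q.1 : ℕ) / Nn| < wb) ∧
      ∃ P ∈ G, ∃ v ∈ D.Lam, ‖P (Z t) + v - q.2.1‖ < 3 * r) : S.card ≤ 3 * Nn * mult := by
  classical
  set T : Fin Nn × Fin 3 → Finset (F6I Cn) := fun u => S.filter fun q =>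
    q.1 = u.1 ∧ ∃ t ∈ Icc a a', |t - (u.2 : ℕ) - (q.1 : ℕ) / Nn| < wb ∧
      ∃ P ∈ G, ∃ v ∈ D.Lam, ‖P (Z t) + v - q.2.1‖ < 3 * r with hT
  have hN : (0:ℝ) < Nn := by exact_mod_cast hNn
  have hcov : S ⊆ Finset.univ.biUnion T := by
    intro q hq
    obtain ⟨t, ht, ⟨j, hj⟩, hv⟩ := hS q hq
    have hq1 : ((q.1 : ℕ) : ℝ) / Nn ≤ 1 - 1 / Nn := by
      rw [div_le_iff₀ hN, sub_mul, one_mul, div_mul_cancel₀ _ hN.ne']
      have : (q.1 : ℕ) + 1 ≤ Nn := q.1.2
      have : ((q.1 : ℕ) : ℝ) + 1 ≤ Nn := by exact_mod_cast this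
      linarith
    have hq0 : (0:ℝ) ≤ ((q.1 : ℕ) : ℝ) / Nn := by positivity
    rw [abs_lt] at hj
    have hj1 : (j : ℝ) < 1 := by linarith [ht.1]
    have hj2 : (-3 : ℝ) < j := by linarith [ht.2]
    have hj1' : j < 1 := by exact_mod_cast hj1
    have hj2' : -3 < j := by exact_mod_cast hj2
    obtain ⟨i, hi⟩ : ∃ i : Fin 3, ((i : ℕ) : ℤ) = -j :=
      ⟨⟨(-j).toNat, by omega⟩, by simp only; omega⟩
    have hi' : (((i : ℕ) : ℕ) : ℝ) = -j := by exact_mod_cast hi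
    refine Finset.mem_biUnion.2 ⟨(q.1, i), Finset.mem_univ _, ?_⟩
    refine Finset.mem_filter.2 ⟨hq, rfl, t, ht, ?_, hv⟩
    simp only [hi']
    rw [abs_lt]
    constructor <;> linarith [hj.1, hj.2]
  have hcard : ∀ u ∈ Finset.univ, (T u).card ≤ mult := by
    intro u _
    rcases (T u).eq_empty_or_nonempty with he | ⟨q0, hq0⟩
    · rw [he]
      simp
    obtain ⟨_, hq0u, t0, ht0, hj0, _⟩ := Finset.mem_filter.1 hq0
    have hinj : Set.InjOn (fun q : F6I Cn => q.2.1) (T u) := by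
      intro q hq q' hq' he
      have h1 := (Finset.mem_filter.1 hq).2.1
      have h2 := (Finset.mem_filter.1 hq').2.1
      obtain ⟨k, c, hc⟩ := q
      obtain ⟨k', c', hc'⟩ := q'
      simp only at h1 h2 he
      subst h1
      subst h2
      subst he
      rfl
    rw [← Finset.card_image_of_injOn hinj]
    refine hmult u.1 (Z t0) _ ?_ ?_
    · intro c hc
      obtain ⟨q, hq, rfl⟩ := Finset.mem_image.1 hc
      have h1 := (Finset.mem_filter.1 hq).2.1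
      rw [← h1]
      exact q.2.2
    · intro c hc
      obtain ⟨q, hq, rfl⟩ := Finset.mem_image.1 hc
      obtain ⟨_, hqu, t, ht, hj, P, hP, v, hv, hZv⟩ := Finset.mem_filter.1 hq
      refine ⟨P, hP, v, hv, ?_⟩
      have h1 : |t0 - t| ≤ 2 * wb := by
        rw [hqu] at hj
        rw [hq0u] at hj0
        rw [abs_lt] at hj hj0
        rw [abs_le]
        constructor <;> linarith [hj.1, hj.2, hj0.1, hj0.2]
      have h2 := hZ t0 ht0 t ht
      have h3 : V * |t0 - t| ≤ r := (mul_le_mul_of_nonneg_left h1 hV0).trans hV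
      have h4 : P (Z t0) + v - q.2.1 = P (Z t0 - Z t) + (P (Z t) + v - q.2.1) := by
        rw [map_sub]
        abel
      have h5 : ‖P (Z t0 - Z t)‖ = ‖Z t0 - Z t‖ := P.norm_map _
      rw [h4]
      refine (norm_add_le _ _).trans ?_
      rw [h5]
      linarith
  refine (Finset.card_le_card hcov).trans ?_
  refine (Finset.card_biUnion_le_card_mul _ _ _ hcard).trans (le_of_eq ?_)
  rw [Finset.card_univ, Fintype.card_prod, Fintype.card_fin, Fintype.card_fin]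
  ring

end EscT
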