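import Pool.Agent.EscT.TDefs
import Pool.Agent.EscT.C6b
import Pool.Agent.EscT.C11a
import Pool.Agent.EscT.C11b
import Pool.Agent.EscT.F3b
import Pool.Agent.EscT.F5a
import Pool.Agent.EscT.F6
import Pool.Agent.EscT.F7a
import Pool.Agent.helper1.Esc.ModD

/-!
Project EscT (MP_6acca1_an), module F7b: density of the stages, with a class of potentials.
-/

noncomputable section

namespace EscT

open MeasureTheory Set Filter Topology Esc EscF EscG
open scoped ContDiff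

namespace F7b

variable {ι : Type} [Fintype ι] {d : ℕ} {E : Type*} [NormedAddCommGroup E] [InnerProductSpace ℝ E]

lemma good_mono {a b : ℝ} {f : E → ℝ → ℝ} (h : Good a f) (hab : a ≤ b) : Good b f where
  pos := h.pos.trans hab
  cont := h.cont
  bd x t := (h.bd x t).trans hab
  lipx x x' t := (h.lipx x x' t).trans (mul_le_mul_of_nonneg_right hab (norm_nonneg _))
  lipt x t t' := (h.lipt x t t').trans (mul_le_mul_of_nonneg_right hab (abs_nonneg _))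

lemma sm_add {β : Module.Basis ι ℝ E} {G G' : E → ℝ → ℝ} (h : Sm β G) (h' : Sm β G') :
    Sm β (fun x t => G x t + G' x t) where
  smooth := h.smooth.add h'.smooth
  per i x t := by rw [h.per, h'.per]
  pert x t := by rw [h.pert, h'.pert]

lemma pt_add {β : Module.Basis ι ℝ E} {f f' : E → ℝ → ℝ} (h : Pt β f) (h' : Pt β f') :
    Pt β (fun x t => f x t + f' x t) where
  smooth := h.smooth.add h'.smooth
  per i x t := by rw [h.per, h'.per]
  pert x t := by rw [h.pert, h'.pert]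

lemma sm_pt {β : Module.Basis ι ℝ E} {G : E → ℝ → ℝ} (h : Sm β G) : Pt β G where
  smooth := contDiff_infty.1 h.smooth 2
  per := h.per
  pert := h.pert

lemma good_add {a b : ℝ} {G G' : E → ℝ → ℝ} (h : Good a G) (h' : Good b G') :
    Good (a + b) (fun x t => G x t + G' x t) where
  pos := add_nonneg h.pos h'.pos
  cont := h.cont.add h'.cont
  bd x t := (abs_add_le _ _).trans (add_le_add (h.bd x t) (h'.bd x t))
  lipx x x' t := by
    have h1 := abs_le.1 (h.lipx x x' t)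
    have h2 := abs_le.1 (h'.lipx x x' t)
    rw [abs_le]
    constructor <;> linarith [h1.1, h1.2, h2.1, h2.2]
  lipt x t t' := by
    have h1 := abs_le.1 (h.lipt x t t')
    have h2 := abs_le.1 (h'.lipt x t t')
    rw [abs_le]
    constructor <;> linarith [h1.1, h1.2, h2.1, h2.2]

end F7b

variable {ι : Type} [Fintype ι] {d : ℕ} {E : Type*} [NormedAddCommGroup E] [InnerProductSpace ℝ E]
  [FiniteDimensional ℝ E] {D : GT ι d E} {p : GP} {m M Mf : ℝ} {L : LP} {ll l : E → E → ℝ → ℝ}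
  {f f' : E → ℝ → ℝ}

theorem stage_dense (S : SG D.β) (h : D.Ok) (hp : POk D p) (hG : PG D p S) (hl : FT D m L l) (Mf : ℝ)
    (hMf : 0 ≤ Mf) :
    ∃ q0 : ℕ, ∀ (N : SmNorm D.β) (q : ℕ), q0 ≤ q → ∀ f, Pt D.β f → Good Mf f → ∀ ε : ℝ, 0 < ε →
    ∃ G, S.mem G ∧ N.nm G ≤ ε ∧ Stage D p (lf l (fun x t => f x t + G x t)) q := by
  classical
  obtain ⟨s0, hs0, hroom⟩ := room_inv h hp m (L + (Mf + 2))
  obtain ⟨qg, hgate⟩ := gates S h hp hG hl (Mf + 1) (by linarith)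
  refine ⟨max qg ⌈s0⌉₊, fun N q hq f hf hg ε hε => ?_⟩
  have hqs : s0 ≤ q := (Nat.le_ceil s0).trans (by exact_mod_cast (le_max_right _ _).trans hq)
  obtain ⟨ε', hε'0, hε'1, hε'2⟩ : ∃ ε' : ℝ, 0 < ε' ∧ ε' ≤ 1 ∧ 2 * ε' ≤ ε :=
    ⟨min (ε / 2) 1, lt_min (by linarith) one_pos, min_le_right _ _, by
      have := min_le_left (ε / 2) 1
      linarith⟩
  obtain ⟨J, s, δ, hJ, hδ, hsq, hsJ, hsb, H⟩ := hgate N q ((le_max_left _ _).trans hq) ε' hε'0
  have hs : ∀ i ≤ J, s0 ≤ s i := fun i hi => hqs.trans (hsb i hi).1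
  have hsp : ∀ i ≤ J, 0 ≤ s i := fun i hi => (zero_le_one.trans hs0).trans (hs i hi)
  -- decoupling
  obtain ⟨G1, hG1, hG1n, hG1g, hdec⟩ := dec_many h hp hl S hG N hf hg ((Finset.range (J + 1)).image s)
    (fun t ht => by
      rw [Finset.mem_image] at ht
      obtain ⟨i, hi, rfl⟩ := ht
      exact hsp i (Nat.lt_succ_iff.1 (Finset.mem_range.1 hi))) hε'0 (η := δ / 64) (by positivity)
  obtain ⟨f1, hf1⟩ : ∃ f1 : E → ℝ → ℝ, f1 = fun x t => f x t + G1 x t := ⟨_, rfl⟩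
  rw [← hf1] at hdec
  have hpt1 : Pt D.β f1 := by rw [hf1]; exact F7b.pt_add hf (F7b.sm_pt (S.sm _ hG1))
  have hg1 : Good (Mf + 1) f1 := by
    rw [hf1]; exact F7b.good_mono (F7b.good_add hg hG1g) (by linarith)
  -- gates
  obtain ⟨G2, hG2, hG2n, hG2g, hG2p, hG2s, hG2a⟩ := H f1 hpt1 hg1
  obtain ⟨f2, hf2⟩ : ∃ f2 : E → ℝ → ℝ, f2 = fun x t => f1 x t + G2 x t := ⟨_, rfl⟩
  rw [← hf2] at hG2a
  have hpt2 : Pt D.β f2 := by rw [hf2]; exact F7b.pt_add hpt1 (F7b.sm_pt (S.sm _ hG2))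
  have hg2 : Good (Mf + 2) f2 := by
    rw [hf2]; exact F7b.good_mono (F7b.good_add hg1 hG2g) (by linarith)
  have hT1 : FT D m (L + (Mf + 2)) (lf l f1) :=
    FT.add h.toOk0 hl hpt1 (F7b.good_mono hg1 (by linarith))
  have hT2 : FT D m (L + (Mf + 2)) (lf l f2) := FT.add h.toOk0 hl hpt2 hg2
  -- rooms are not changed
  have hk : ∀ i ≤ J, ∀ x ∈ (D0 D).R p, ∀ x' ∈ (D0 D).R p,
      (D0 D).k1 (lf l f2) (s i) x x' = (D0 D).k1 (lf l f1) (s i) x x' :=
    fun i hi => hroom (s i) (hs i hi) _ hT1 _ hT2 (fun x u t => by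
      have := hG2p x t
      simp only [lf, hf2]
      linarith) (fun x t hx u => by
      simp only [lf, hf2, hG2s x t hx, add_zero])
  -- decoupled barriers
  have hbar : ∀ i ≤ J, ∀ z ∈ (D0 D).R p, ∀ z' ∈ (D0 D).R p, ∀ w ∈ (D0 D).R p, ∀ w' ∈ (D0 D).R p,
      |(D0 D).bar p (lf l f2) (s i) z z' + (D0 D).bar p (lf l f2) (s i) w w' -
        (D0 D).bar p (lf l f2) (s i) z w' - (D0 D).bar p (lf l f2) (s i) w z'| ≤ δ / 16 := by
    intro i hi z hz z' hz' w hw w' hw'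
    have h1 := dec_bar h hp hl hpt1 hg1 (hsp i hi) (hdec (s i)
      (Finset.mem_image_of_mem s (Finset.mem_range.2 (Nat.lt_succ_iff.2 hi)))) z hz z' hz' w hw w' hw'
    obtain ⟨_, h2⟩ := bar_inv h hp (hk i hi)
    rw [h2 z hz z' hz', h2 w hw w' hw', h2 z hz w' hw', h2 w hw z' hz']
    linarith
  -- windows
  obtain ⟨C, _, hkd⟩ := kd h hp hl.toTG (Mf := Mf + 2) (by linarith) ((q : ℝ) + 1)
  have hwin : ∀ i : ℕ, ∃ F : Finset ℕ, i ≤ J → (F.Nonempty ∧ (∀ T ∈ F, 1 ≤ T) ∧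
      ∀ z ∈ (D0 D).R p, ∀ z' ∈ (D0 D).R p,
        |gk ((D0 D).k1 (lf l f2) (s i)) ((D0 D).C p) F (fun T => (D0 D).al p (lf l f2) (s i) * T) z z' -
          (D0 D).bar p (lf l f2) (s i) z z'| ≤ δ / 16) := by
    intro i
    by_cases hi : i ≤ J
    · obtain ⟨F, h1, h2, h3⟩ := bar_win (hkd f2 hpt2 hg2 (s i) (hsp i hi) (hsb i hi).2)
        (ε := δ / 16) (by positivity) 1
      exact ⟨F, fun _ => ⟨h1, h2, h3⟩⟩
    · exact ⟨∅, fun h => absurd h hi⟩
  choose F hF using hwin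
  have hgi : ∀ i (hi : i ≤ J), _ := fun i hi => gate_ineq h hp hT2 (hsp i hi) (hF i hi).1 (hF i hi).2.1
    (hbar i hi) (hF i hi).2.2
  -- the stage
  have hch : ∀ i : ℕ, ∃ (r : ℝ) (A : Set E), i < J → (0 ≤ r ∧ r < 1 ∧
        IsCompact A ∧ A.Nonempty ∧ A ⊆ Md D p r ∧ ∀ z ∈ frontier A, ∃ w ∈ A,
          (D0 D).W p (lf l f2) (s i) (s (i + 1)) r w - (s (i + 1) - s i) * (D0 D).B w + δ ≤
            (D0 D).W p (lf l f2) (s i) (s (i + 1)) r z - (s (i + 1) - s i) * (D0 D).B z) := by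
    intro i
    by_cases hi : i < J
    · obtain ⟨r, A, hA⟩ := hG2a i hi
      exact ⟨r, A, fun _ => hA⟩
    · exact ⟨0, ∅, fun h => absurd h hi⟩
  choose r A hA using hch
  refine ⟨fun x t => G1 x t + G2 x t, S.add _ _ hG1 hG2,
    (N.add_le _ _ (S.sm _ hG1) (S.sm _ hG2)).trans (by linarith), ?_⟩
  have hfe : (fun x t => f x t + (G1 x t + G2 x t)) = f2 := by
    funext x t
    rw [hf2, hf1]
    ring
  rw [hfe]
  refine ⟨J, s, r, F, fun i T => (D0 D).al p (lf l f2) (s i) * T, A, δ / 2, hJ, by positivity, hsq, hsJ, hsb,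
    fun i hi => ⟨(hF i hi).1, (hF i hi).2.1⟩, fun i hi => ?_⟩
  obtain ⟨hr0, hr1, hAc, hAn, hAM, hAf⟩ := hA i hi
  refine ⟨hr0, hr1, hAc, hAn, hAM, fun z hz => ?_⟩
  obtain ⟨w, hw, hwz⟩ := hAf z hz
  refine ⟨w, hw, fun x hx x' hx' => ?_⟩
  have hzA : z ∈ A i := by
    have := hAc.isClosed.frontier_subset hz
    exact this
  have e1 := abs_le.1 ((hgi i hi.le (r i) hr0 hr1.le x hx w (hAM hw)).1)
  have e2 := abs_le.1 ((hgi (i + 1) hi (r i) hr0 hr1.le x' hx' w (hAM hw)).2)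
  have e3 := abs_le.1 ((hgi i hi.le (r i) hr0 hr1.le x hx z (hAM hzA)).1)
  have e4 := abs_le.1 ((hgi (i + 1) hi (r i) hr0 hr1.le x' hx' z (hAM hzA)).2)
  unfold GD.W at hwz
  linarith [e1.2, e2.2, e3.1, e4.1]

end EscT
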